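import Mathlib
import Pool.Agent.H69.CliqueCount
import Pool.Agent.H69.CliqueGame

/-!
# The exact value of the alpha-clique achievement number: definitions

The game, `Edge N`, `inside`, `avg`, `Harmonic`, `cross`, `wgt`, `be`, `ta`, `Mn` come from
`Pool/Agent/H69/Clique*.lean`.
-/

set_option autoImplicit false

namespace Pool.Agent.LibCA69

open Finset Pool.Agent.H69.Clique

section general

variable {E : Type} [Fintype E] [DecidableEq E]

/-- Product weights with a varying parameter. -/
noncomputable def pw (g : E → ℝ) (R B : Finset E) : ℝ :=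
  (∏ x ∈ R, (1 + g x)) * ∏ x ∈ B, (1 - g x)

/-- Nonnegative combinations of product weights. -/
def Comb (φ : Finset E → Finset E → ℝ) : Prop :=
  ∃ (κ : Type) (s : Finset κ) (c : κ → ℝ) (g : κ → E → ℝ), (∀ i ∈ s, 0 ≤ c i) ∧
    (∀ i ∈ s, ∀ x, 0 ≤ g i x ∧ g i x ≤ 1) ∧ ∀ R B, φ R B = ∑ i ∈ s, c i * pw (g i) R B

/-- What is known at the end of the play about the position `(R, B)`: the moves `(Rb, Bb)` of the
big game, and the list `L` of the declared targets with their boards, the newest first. -/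
structure FinalCfg {ι : Type} (P : ι → Finset E) (p : ι → Finset E → Finset E → ℝ) (θ : ι → ℝ)
    (Φ : Finset E → Finset E → ℝ) (S : ι → Finset E → Finset E → Finset E → ℝ) (c : ℝ)
    (R B Rb Bb : Finset E) (L : List (ι × Finset E)) : Prop where
  disj : Disjoint R B
  full : R ∪ B = univ
  subR : Rb ⊆ R
  subB : Bb ⊆ B
  board_sub : ∀ x ∈ L, x.2 ⊆ P x.1
  board_disj : ∀ x ∈ L, Disjoint x.2 (Rb ∪ Bb)
  order : L.Pairwise (fun new old => new.1 ≠ old.1 ∧ Disjoint (P old.1) new.2)
  cover : ∀ e, e ∉ Rb ∪ Bb → ∃ x ∈ L, e ∈ x.2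
  p_lt : ∀ i, p i Rb Bb < 2 * θ i
  p_ge : ∀ x ∈ L, θ x.1 ≤ p x.1 Rb Bb
  pot : Φ Rb Bb < 1
  small : ∀ x ∈ L, S x.1 x.2 (R ∩ x.2) (B ∩ x.2) ≤ c

/-- The probability that a random completion of the position has at least `a` elements of `P`. -/
noncomputable def val (a : ℝ) (P R B : Finset E) : ℝ :=
  avg (fun T => if a ≤ ((T ∩ P).card : ℝ) then (1 : ℝ) else 0) R B

/-- The constant that normalises the weight `wgt (2 x - 1) P`, `|P| = m`, with respect to the
target `a`. -/
noncomputable def cst (x : ℝ) (m : ℕ) (a : ℝ) : ℝ :=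
  Real.exp (-(a * Real.log (2 * x) + (m - a) * Real.log (2 - 2 * x)))

/-- A piece of a potential: a level, a set of elements and a target. -/
structure Piece (E : Type) where
  x : ℝ
  P : Finset E
  a : ℝ

/-- All elements of the pieces of a list. -/
def used : List (Piece E) → Finset E
  | [] => ∅
  | (p :: l) => p.P ∪ used l

/-- The potential of a list of pieces, the newest first; a piece only counts the elements that
are not in an older piece. -/
noncomputable def pot : List (Piece E) → Finset E → Finset E → ℝ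
  | [], _, _ => 1
  | (p :: l), R, B => cst p.x p.P.card p.a * wgt (2 * p.x - 1) (p.P \ used l) R B * pot l R B

/-- The starting value of the potential of a list of pieces. -/
noncomputable def pcst : List (Piece E) → ℝ
  | [] => 1
  | (p :: l) => cst p.x p.P.card p.a * pcst l

/-- The number of overlaps of a list of pieces. -/
def ov : List (Piece E) → ℕ
  | [] => 0
  | (p :: l) => (p.P ∩ used l).card + ov l

end general

section lists

variable {X : Type} [Fintype X] [DecidableEq X]

/-- All lists of length `r`. -/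
def LL (X : Type) [Fintype X] [DecidableEq X] : ℕ → Finset (List X)
  | 0 => {[]}
  | (r + 1) => ((univ : Finset X) ×ˢ LL X r).map
      ⟨fun p => p.1 :: p.2, fun a b h => by
        rw [List.cons.injEq] at h
        exact Prod.ext h.1 h.2⟩

/-- The product of step weights along a list (the newest first). -/
noncomputable def Wt {X : Type} (F : List X → X → ℝ) : List X → ℝ
  | [] => 1
  | (x :: l) => F l x * Wt F l

end lists

/-! ## Constants -/

/-- `N ^ x`. -/
noncomputable def ex (N : ℕ) (x : ℝ) : ℝ := Real.exp (x * Real.log N)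

/-- The threshold between light and heavy intersections. -/
noncomputable def x0 (α : ℝ) : ℝ := be α / 16

noncomputable def c0 (α : ℝ) : ℝ := x0 α ^ 2 / 12

noncomputable def k0 (α : ℝ) : ℝ := x0 α ^ 2 / 20

noncomputable def I1 (α : ℝ) : ℕ := ⌈16 / c0 α⌉₊

noncomputable def e0 (α ε : ℝ) : ℝ := min ε (k0 α) / 16

noncomputable def dl (α ε : ℝ) : ℝ := e0 α ε / (I1 α + 2)

noncomputable def I2 (α : ℝ) : ℕ := I1 α + ⌈16 / k0 α⌉₊

noncomputable def m0 (α : ℝ) : ℕ := ⌈16 / k0 α⌉₊

noncomputable def I3 (α : ℝ) : ℕ := I1 α + ⌈32 / k0 α⌉₊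

noncomputable def C1 (α : ℝ) : ℕ := m0 α * I2 α

noncomputable def CK (α : ℝ) : ℕ := 1 + (C1 α + I1 α) * (1 + (C1 α + I1 α))

noncomputable def r1 (α : ℝ) : ℕ := ⌈2 / x0 α⌉₊

noncomputable def Rmax (α ε : ℝ) (q : ℕ) : ℕ := ⌈8 / (ε * be α) * q⌉₊

/-- The regime of parameters. -/
def Reg (α ε : ℝ) (q N : ℕ) : Prop :=
  Real.exp (be α * q / 2) ≤ N ∧ (N : ℝ) ≤ (q : ℝ) ^ 2 * Real.exp (be α * q / 2) ∧
    Mn α N q ≤ ex N (2 - ε)

/-! ## Targets -/

noncomputable def ff (α : ℝ) (q j : ℕ) : ℝ := (j + c0 α * q) / (q + j)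

/-- The level of the complement of a `j`-subset. -/
noncomputable def lev (α : ℝ) (q j : ℕ) : ℝ := α - be α / ta α * ff α q j

/-- The target for sets with `j` vertices. -/
noncomputable def tgt (α : ℝ) (q j : ℕ) : ℝ :=
  α * (q.choose 2 : ℕ) - ((q.choose 2 : ℕ) - (j.choose 2 : ℕ)) * lev α q j

variable {N : ℕ}

/-- The sets that can be declared. -/
def InR (α : ℝ) (q : ℕ) (D : Finset (Fin N)) : Prop := q ≤ D.card + I1 α ∧ D.card ≤ q

/-- The value of a set of vertices. -/
noncomputable def vv (α : ℝ) (q : ℕ) (D : Finset (Fin N)) (R B : Finset (Edge N)) : ℝ :=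
  val (tgt α q D.card) (inside D) R B

open Classical in
/-- The danger function of the abstract theorem. -/
noncomputable def pp (α : ℝ) (q : ℕ) (D : Finset (Fin N)) (R B : Finset (Edge N)) : ℝ :=
  if InR α q D then vv α q D R B else 0

/-- The thresholds. -/
noncomputable def th (α ε : ℝ) (N q j : ℕ) : ℝ := ex N (-(dl α ε * (1 + (q - j))))

/-- The levels used in the small games. -/
noncomputable def lvls (α : ℝ) (q : ℕ) : Finset ℝ :=
  insert α (((range (q ^ 2 + 2) ×ˢ range (q ^ 2 + 2)).filter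
    (fun p => 1 ≤ p.2 ∧ p.2 ≤ p.1)).image (fun p => (p.1 : ℝ) / (p.1 + p.2)))

open Classical in
/-- The potential of the small game on the board `F` of the set `D`. -/
noncomputable def Sm (α : ℝ) (q : ℕ) (D : Finset (Fin N)) (F R B : Finset (Edge N)) : ℝ :=
  if D.card ≤ q then ∑ C ∈ D.powerset, ∑ x ∈ lvls α q,
    ((q : ℝ) ^ (2 * (D.card - C.card)))⁻¹ * wgt (2 * x - 1) (F ∩ inside C) R B
  else 0

/-- The bound for the small potentials. -/
noncomputable def cS (α : ℝ) (q : ℕ) : ℝ := 4 * (lvls α q).card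

/-- The control that a declared set `D` gives for the part of `A` in its board. -/
noncomputable def bS (α : ℝ) (q y : ℕ) : ℝ := cS α q * (q : ℝ) ^ (2 * y)

/-! ## Potentials -/

open Classical in
/-- overdense cores. -/
noncomputable def Phi1 (α : ℝ) (N q : ℕ) (R B : Finset (Edge N)) : ℝ :=
  ∑ C ∈ univ.filter (fun C : Finset (Fin N) => x0 α * q ≤ C.card ∧ C.card + I1 α < q),
    ex N 2 * pot [⟨α, inside C, tgt α q C.card⟩] R B

open Classical in
/-- pairs with a small but not very small intersection -/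
noncomputable def Phi2a (α ε : ℝ) (N q : ℕ) (R B : Finset (Edge N)) : ℝ :=
  ∑ D ∈ univ.filter (fun D : Finset (Fin N) => InR α q D),
    ∑ D' ∈ univ.filter (fun D' : Finset (Fin N) => InR α q D' ∧ 16 < (D ∩ D').card ∧
      ((D ∩ D').card : ℝ) < x0 α * q),
      ex N (2 * e0 α ε) * 2 ^ ((D ∩ D').card.choose 2) *
        pot [⟨α, inside D', tgt α q D'.card⟩, ⟨α, inside D, tgt α q D.card⟩] R B

/-- The part of the set `D` outside the vertex set `U`. -/
noncomputable def part (α : ℝ) (q : ℕ) (U D : Finset (Fin N)) : Piece (Edge N) :=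
  ⟨lev α q (D ∩ U).card, priv D U, tgt α q D.card - tgt α q (D ∩ U).card⟩

/-- The whole set `D` as a piece. -/
noncomputable def whole (α : ℝ) (q : ℕ) (D : Finset (Fin N)) : Piece (Edge N) :=
  ⟨α, inside D, tgt α q D.card⟩

open Classical in
/-- pairs with a large but not very large intersection -/
noncomputable def Phi2b (α ε : ℝ) (N q : ℕ) (R B : Finset (Edge N)) : ℝ :=
  ∑ D ∈ univ.filter (fun D : Finset (Fin N) => InR α q D),
    ∑ D' ∈ univ.filter (fun D' : Finset (Fin N) => InR α q D' ∧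
      x0 α * q ≤ ((D' ∩ D).card : ℝ) ∧ (D' ∩ D).card + I2 α < q),
      2 * ex N (2 * e0 α ε) * pot [part α q D D', whole α q D] R B

/-- All vertices of a list of sets and a base set. -/
def vert (U : Finset (Fin N)) : List (Finset (Fin N)) → Finset (Fin N)
  | [] => U
  | (D :: l) => D ∪ vert U l

/-- The pieces of a chain of sets that overlap heavily with `D₀`. -/
noncomputable def chainP (α : ℝ) (q : ℕ) (D₀ : Finset (Fin N)) :
    List (Finset (Fin N)) → List (Piece (Edge N))
  | [] => [whole α q D₀]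
  | (D :: l) => part α q (vert D₀ l) D :: chainP α q D₀ l

/-- The condition on a new set of the chain. -/
def ChC (α : ℝ) (q : ℕ) (D₀ : Finset (Fin N)) (l : List (Finset (Fin N))) (D : Finset (Fin N)) :
    Prop :=
  InR α q D ∧ q ≤ (D ∩ vert D₀ l).card + I2 α ∧ ¬ D ⊆ vert D₀ l ∧
    (vert D₀ l).card ≤ q + m0 α * I2 α

open Classical in
/-- The weight of the steps of a chain. -/
noncomputable def ChW (α ε : ℝ) (N q : ℕ) (D₀ : Finset (Fin N)) (l : List (Finset (Fin N)))
    (D : Finset (Fin N)) : ℝ := if ChC α q D₀ l D then 2 * ex N (e0 α ε) else 0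

open Classical in
/-- chains -/
noncomputable def Phi3 (α ε : ℝ) (N q : ℕ) (R B : Finset (Edge N)) : ℝ :=
  ∑ D₀ ∈ univ.filter (fun D : Finset (Fin N) => InR α q D),
    ∑ l ∈ LL (Finset (Fin N)) (m0 α), ex N (e0 α ε) * Wt (ChW α ε N q D₀) l *
      pot (chainP α q D₀ l) R B

/-- The pieces of a list of light sets on top of some pieces. -/
noncomputable def lightP (α : ℝ) (q : ℕ) (base : List (Piece (Edge N))) :
    List (Finset (Fin N)) → List (Piece (Edge N))
  | [] => base
  | (D :: l) => whole α q D :: lightP α q base l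

/-- The condition on a light set. -/
def LtC (α ε : ℝ) (q : ℕ) (A U D : Finset (Fin N)) : Prop :=
  InR α q D ∧ 2 ≤ (D ∩ A).card ∧ ((D ∩ A).card : ℝ) < x0 α * q ∧
    U.card ≤ (Rmax α ε q + 2) * q

/-- The overlap allowance for a light set, `k` older sets. -/
def ovB (A U : Finset (Fin N)) (k : ℕ) (D : Finset (Fin N)) : ℕ :=
  min ((D ∩ U).card.choose 2) ((D ∩ A).card.choose 2 + k * 120)

open Classical in
/-- The weight of a step in the truncated lists. -/
noncomputable def W5 (α ε : ℝ) (N q : ℕ) (A H : Finset (Fin N)) (l : List (Finset (Fin N)))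
    (D : Finset (Fin N)) : ℝ :=
  if LtC α ε q A (vert (A ∪ H) l) D then
    2 ^ ovB A (vert (A ∪ H) l) (l.length + 1) D * ex N (e0 α ε) else 0

/-- The weight of a step in the full lists. -/
noncomputable def W4 (α ε : ℝ) (N q : ℕ) (A H : Finset (Fin N)) (l : List (Finset (Fin N)))
    (D : Finset (Fin N)) : ℝ :=
  W5 α ε N q A H l D * (2 ^ (((D ∩ A).card + C1 α).choose 2) *
    ex N (ε / 4 + ((D ∩ A).card - 2) / 8))

/-- The control constant for near sets. -/
noncomputable def Bn (α : ℝ) (q : ℕ) : ℝ := bS α q (I3 α + I2 α) ^ CK α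

/-- The control constant for heavy sets. -/
noncomputable def Bh (α : ℝ) (q y : ℕ) : ℝ := bS α q (y + I2 α) ^ (CK α * r1 α)

/-- light lists without heavy set -/
noncomputable def Phi4a (α ε : ℝ) (N q : ℕ) (R B : Finset (Edge N)) : ℝ :=
  ∑ A ∈ powersetCard q (univ : Finset (Fin N)), ∑ r ∈ range (Rmax α ε q + 1),
    ∑ l ∈ LL (Finset (Fin N)) r, ex N (-2) * Bn α q * Wt (W4 α ε N q A ∅) l *
      pot (lightP α q [whole α q A] l) R B

open Classical in
/-- light lists with a heavy set -/
noncomputable def Phi4b (α ε : ℝ) (N q : ℕ) (R B : Finset (Edge N)) : ℝ :=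
  ∑ A ∈ powersetCard q (univ : Finset (Fin N)),
    ∑ H ∈ univ.filter (fun H : Finset (Fin N) => InR α q H ∧ x0 α * q ≤ ((H ∩ A).card : ℝ) ∧
      (H ∩ A).card + I3 α < q), ∑ r ∈ range (Rmax α ε q + 1),
    ∑ l ∈ LL (Finset (Fin N)) r, 2 * ex N (e0 α ε) * Bh α q (H \ A).card * Bn α q *
      Wt (W4 α ε N q A H) l * pot (lightP α q [part α q A H, whole α q A] l) R B

/-- long light lists -/
noncomputable def Phi5 (α ε : ℝ) (N q : ℕ) (R B : Finset (Edge N)) : ℝ :=
  ∑ A ∈ powersetCard q (univ : Finset (Fin N)), ∑ l ∈ LL (Finset (Fin N)) (Rmax α ε q),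
    2 ^ (q.choose 2) * Wt (W5 α ε N q A ∅) l * pot (lightP α q [whole α q A] l) R B

/-- The potential of the big game. -/
noncomputable def Phi (α ε : ℝ) (N q : ℕ) (R B : Finset (Edge N)) : ℝ :=
  Phi1 α N q R B + Phi2a α ε N q R B + Phi2b α ε N q R B + Phi3 α ε N q R B +
    Phi4a α ε N q R B + Phi4b α ε N q R B + Phi5 α ε N q R B

end Pool.Agent.LibCA69
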