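import Mathlib
import Pool.Agent.LibCA69.Defs

/-!
# Binomial coefficients
Task ASYA.
-/

set_option autoImplicit false

namespace Pool.Agent.LibCA69

open Finset Filter Pool.Agent.H69.Clique

private lemma fact_AsyA (n : ℕ) :
    Real.log ((n + 1).factorial) ≤ 1 + Real.log (n + 1 : ℝ) + (n + 1 : ℝ) * Real.log (n + 1 : ℝ) -
      (n + 1 : ℝ) := by
  induction n with
  | zero => simp
  | succ n ih =>
    have hpos : (0 : ℝ) < (n : ℝ) + 1 := by positivity
    have hpos2 : (0 : ℝ) < (n : ℝ) + 2 := by positivity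
    rw [Nat.factorial_succ, Nat.cast_mul, Real.log_mul (by positivity)
      (by exact_mod_cast (Nat.factorial_pos _).ne')]
    push_cast
    have h1 : (1 : ℝ) - ((n + 2 : ℝ) / (n + 1))⁻¹ ≤ Real.log ((n + 2 : ℝ) / (n + 1)) :=
      Real.one_sub_inv_le_log_of_pos (by positivity)
    rw [Real.log_div hpos2.ne' hpos.ne', inv_div] at h1
    have h2 : (1 : ℝ) - ((n : ℝ) + 1) / (n + 2) = 1 / (n + 2) := by
      field_simp
      ring
    rw [h2] at h1
    have h3 : 1 ≤ ((n : ℝ) + 2) * (Real.log (n + 2) - Real.log (n + 1)) := by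
      have := mul_le_mul_of_nonneg_left h1 hpos2.le
      rwa [mul_one_div_cancel hpos2.ne'] at this
    have e1 : (n : ℝ) + 1 + 1 = n + 2 := by ring
    rw [e1]
    nlinarith [ih, h3]

/-- `C(N,q) ≤ N^q / q!` and `q! ≥ (q/e)^q`. -/
lemma log_choose_le (N q : ℕ) (hq : 1 ≤ q) (hqN : q ≤ N) :
    Real.log (N.choose q) ≤ q * (Real.log N - Real.log q + 1) := by
  have hq0 : (0 : ℝ) < q := by exact_mod_cast hq
  have hN0 : (0 : ℝ) < N := by exact_mod_cast (lt_of_lt_of_le hq hqN)
  have hf : (0 : ℝ) < (q.factorial : ℝ) := by exact_mod_cast Nat.factorial_pos q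
  have hc : (0 : ℝ) < (N.choose q : ℝ) := by exact_mod_cast Nat.choose_pos hqN
  have h1 : (N.choose q : ℝ) ≤ (N : ℝ) ^ q / q.factorial := Nat.choose_le_pow_div q N
  have h2 : (q : ℝ) ^ q / q.factorial ≤ Real.exp q := Real.pow_div_factorial_le_exp q hq0.le q
  have h3 := Real.log_le_log hc h1
  rw [Real.log_div (by positivity) hf.ne', Real.log_pow] at h3
  have h4 := Real.log_le_log (by positivity) h2
  rw [Real.log_div (by positivity) hf.ne', Real.log_pow, Real.log_exp] at h4
  linarith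

/-- `C(N,q) ≥ (N+1-q)^q / q!` (`Nat.pow_le_choose`), `q! ≤ e q (q/e)^q` and
`(1 - q/N)^q ≥ 1 - q²/N ≥ 1/2`. -/
lemma le_log_choose (N q : ℕ) (hq : 1 ≤ q) (hqN : 2 * q ^ 2 ≤ N) :
    q * (Real.log N - Real.log q + 1) - Real.log q - 2 ≤ Real.log (N.choose q) := by
  have hq0 : (0 : ℝ) < q := by exact_mod_cast hq
  have hqN' : q ≤ N := by nlinarith
  have hqN2 : q < N := by nlinarith
  have hN0 : (0 : ℝ) < N := by exact_mod_cast (lt_of_lt_of_le hq hqN')
  have hf : (0 : ℝ) < (q.factorial : ℝ) := by exact_mod_cast Nat.factorial_pos q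
  have hc : (0 : ℝ) < (N.choose q : ℝ) := by exact_mod_cast Nat.choose_pos hqN'
  have h1 : (((N + 1 - q : ℕ) : ℝ) ^ q) / q.factorial ≤ (N.choose q : ℝ) :=
    Nat.pow_le_choose q N
  have hNq : (0 : ℝ) < (N : ℝ) - q := by
    have : (q : ℝ) < N := by exact_mod_cast hqN2
    linarith
  have h2 : ((N : ℝ) - q) ≤ ((N + 1 - q : ℕ) : ℝ) := by
    rw [Nat.cast_sub (by omega)]
    push_cast
    linarith
  have h3 : ((N : ℝ) - q) ^ q / q.factorial ≤ (N.choose q : ℝ) := by
    refine le_trans ?_ h1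
    gcongr
  have h4 := Real.log_le_log (by positivity) h3
  rw [Real.log_div (by positivity) hf.ne', Real.log_pow] at h4
  -- the factorial
  have h5 : Real.log q.factorial ≤ 1 + Real.log q + q * Real.log q - q := by
    obtain ⟨m, rfl⟩ : ∃ m, q = m + 1 := ⟨q - 1, by omega⟩
    have := fact_AsyA m
    push_cast
    exact this
  -- the power
  have hx : (N : ℝ) - q = N * (1 - q / N) := by
    field_simp
  have hr : (0 : ℝ) < 1 - q / N := by
    have : (q : ℝ) / N < 1 := by
      rw [div_lt_one hN0]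
      exact_mod_cast hqN2
    linarith
  have h6 : (1 / 2 : ℝ) ≤ (1 - q / N) ^ q := by
    have hb := one_add_mul_le_pow (a := -((q : ℝ) / N)) (by
      have : (q : ℝ) / N ≤ 1 := by
        rw [div_le_one hN0]
        exact_mod_cast hqN'
      linarith) q
    have h7 : (q : ℝ) * (q / N) ≤ 1 / 2 := by
      have h8 : (2 : ℝ) * (q : ℝ) ^ 2 ≤ N := by exact_mod_cast hqN
      rw [← mul_div_assoc, div_le_iff₀ hN0]
      nlinarith
    have h9 : (1 : ℝ) + -((q : ℝ) / N) = 1 - q / N := by ring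
    rw [h9] at hb
    linarith
  have h10 := Real.log_le_log (by norm_num) h6
  rw [Real.log_pow] at h10
  have h11 : (-1 : ℝ) ≤ Real.log (1 / 2) := by
    rw [one_div, Real.log_inv]
    have := Real.log_two_lt_d9
    linarith
  have h12 : Real.log ((N : ℝ) - q) = Real.log N + Real.log (1 - q / N) := by
    rw [hx, Real.log_mul hN0.ne' hr.ne']
  rw [h12] at h4
  nlinarith [h4, h5, h10, h11]

end Pool.Agent.LibCA69
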