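import Mathlib
import Pool.Agent.LibCA69.AsyA
import Pool.Agent.H69.CliqueFinal

/-!
# The regime near `Q`
Task ASYB1.
-/

set_option autoImplicit false

namespace Pool.Agent.LibCA69

open Finset Filter Pool.Agent.H69.Clique

/-- Put `L = log N`, `u = q - Q`. By `Q_eq` (CliqueFinal),
`β q / 2 = L - log L + K + β u / 2` with the constant `K = log β + 1 - log 2 - β/2`. -/
lemma beq_eq {α : ℝ} (h0 : 1 / 2 < α) (h1 : α < 1) {N : ℕ} (hN : 2 ≤ N) (q : ℕ) :
    be α * q / 2 = Real.log N - Real.log (Real.log N) +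
      (Real.log (be α) + 1 - Real.log 2 - be α / 2) + be α * (q - Q α N) / 2 := by
  have hb := be_pos h0 h1
  rw [Q_eq h0 h1 hN]
  field_simp
  ring

lemma ev_AsyB1 (A B η : ℝ) (hA : 0 ≤ A) (hη : 0 < η) :
    ∀ᶠ L : ℝ in atTop, A * Real.log L + B ≤ η * L := by
  have hc : 0 < η / (2 * (A + 1)) := by positivity
  filter_upwards [Real.isLittleO_log_id_atTop.bound hc, eventually_ge_atTop (1 : ℝ),
    eventually_ge_atTop (2 * B / η)] with L h1 h2 h3
  rw [Real.norm_eq_abs, Real.norm_eq_abs, abs_of_nonneg (Real.log_nonneg h2), id,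
    abs_of_nonneg (by linarith)] at h1
  rw [div_le_iff₀ hη] at h3
  have h4 : A * Real.log L ≤ η / 2 * L := by
    have h5 : A * Real.log L ≤ (A + 1) * Real.log L := by
      have := Real.log_nonneg h2
      nlinarith
    have h6 : (A + 1) * Real.log L ≤ (A + 1) * (η / (2 * (A + 1)) * L) :=
      mul_le_mul_of_nonneg_left h1 (by linarith)
    have h7 : (A + 1) * (η / (2 * (A + 1)) * L) = η / 2 * L := by
      have : A + 1 ≠ 0 := by linarith
      field_simp
    linarith
  linarith

/-- The numerical part: for fixed `β > 0`, `K`, `C`, `η > 0` and large real `L`, every real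
`z` and `u` with `|u| ≤ C` and `β z / 2 = L - log L + K + β u / 2` satisfies the following. -/
lemma asy_real {β K C η : ℝ} (hβ : 0 < β) (hC : 0 < C) (hη : 0 < η)
    (hK : K = Real.log β + 1 - Real.log 2 - β / 2) :
    ∀ᶠ L : ℝ in atTop, ∀ z u : ℝ, |u| ≤ C → β * z / 2 = L - Real.log L + K + β * u / 2 →
      1 ≤ z ∧ β * z / 2 ≤ L ∧ L ≤ 2 * Real.log z + β * z / 2 ∧
      z * (L - Real.log z + 1) - β * (z * (z - 1) / 2) ≤ (2 - u + η) * L ∧
      (2 - u - η) * L ≤ z * (L - Real.log z + 1) - Real.log z - 2 - β * (z * (z - 1) / 2) := by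
  obtain ⟨M, hM⟩ : ∃ M : ℝ, M = |K| + β * C / 2 := ⟨_, rfl⟩
  have hM0 : 0 ≤ M := by rw [hM]; positivity
  filter_upwards [eventually_ge_atTop (1 : ℝ), eventually_ge_atTop β,
    Real.tendsto_log_atTop.eventually_ge_atTop M,
    Real.tendsto_log_atTop.eventually_ge_atTop (2 * Real.log β + M),
    ev_AsyB1 1 M (1 / 2) zero_le_one (by norm_num),
    ev_AsyB1 (2 + C + 2 / β) (M * (2 + C + 2 / β)) η (by positivity) hη,
    ev_AsyB1 (3 + C) (M * (2 + C) + (Real.log 2 - Real.log β) + 2) η (by positivity) hη]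
    with L c0 c3 c1 c4 c2 c5 c6
  intro z u hu hz
  have hlL : 0 ≤ Real.log L := Real.log_nonneg c0
  have hu' := abs_le.1 hu
  have hβu1 : β * u ≤ β * C := mul_le_mul_of_nonneg_left hu'.2 hβ.le
  have hβu2 : -(β * C) ≤ β * u := by nlinarith [hu'.1]
  have hK1 := le_abs_self K
  have hK2 := neg_abs_le K
  obtain ⟨w, hw⟩ : ∃ w : ℝ, w = β * z / 2 := ⟨_, rfl⟩
  rw [← hw] at hz ⊢
  have hwL : w ≤ L := by linarith
  have hwlow : L - Real.log L - M ≤ w := by linarith
  have hw2 : L / 2 ≤ w := by linarith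
  have hw0 : 0 < w := by linarith
  have hzw : z = 2 * w / β := by
    rw [hw]
    field_simp
  have hz1 : 1 ≤ z := by
    rw [hzw, le_div_iff₀ hβ]
    linarith
  have hz0 : 0 < z := by linarith
  have hlz : Real.log z = Real.log 2 + Real.log w - Real.log β := by
    rw [hzw, Real.log_div (by positivity) hβ.ne', Real.log_mul two_ne_zero hw0.ne']
  have hlw1 : Real.log w ≤ Real.log L := Real.log_le_log hw0 hwL
  have hlw2 : Real.log L - Real.log 2 ≤ Real.log w := by
    rw [← Real.log_div (by linarith) two_ne_zero]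
    exact Real.log_le_log (by linarith) hw2
  have hS : z * (L - Real.log z + 1) - β * (z * (z - 1) / 2) =
      w * (2 - u) + z * (Real.log L - Real.log w) := by
    have e1 : L = w + Real.log L - K - β * u / 2 := by linarith
    have e2 : z * (L - Real.log z + 1) = z * (w + Real.log L - K - β * u / 2 - Real.log z + 1) := by
      rw [← e1]
    rw [e2, hlz, hK, hw]
    ring
  have hcross : z * (Real.log L - Real.log w) ≤ 2 / β * (L - w) := by
    have h1 : Real.log L - Real.log w ≤ L / w - 1 := by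
      rw [← Real.log_div (by linarith) hw0.ne']
      exact Real.log_le_sub_one_of_pos (div_pos (by linarith) hw0)
    have h2 : z * (Real.log L - Real.log w) ≤ z * (L / w - 1) :=
      mul_le_mul_of_nonneg_left h1 hz0.le
    have h3 : z * (L / w - 1) = 2 / β * (L - w) := by
      rw [hzw]
      field_simp
    linarith
  have hcross0 : 0 ≤ z * (Real.log L - Real.log w) := mul_nonneg hz0.le (by linarith)
  have hD : L - w ≤ Real.log L + M := by linarith
  have hD0 : 0 ≤ L - w := by linarith
  have h2u : |2 - u| ≤ 2 + C := by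
    rw [abs_le]
    constructor <;> linarith [hu'.1, hu'.2]
  have hmain : |w * (2 - u) - L * (2 - u)| ≤ (Real.log L + M) * (2 + C) := by
    rw [← sub_mul, abs_mul]
    have h3 : |w - L| = L - w := by
      rw [abs_sub_comm, abs_of_nonneg hD0]
    rw [h3]
    exact mul_le_mul hD h2u (abs_nonneg _) (by linarith)
  have hmain' := abs_le.1 hmain
  have hb2 : 0 < 2 / β := by positivity
  refine ⟨hz1, hwL, ?_, ?_, ?_⟩
  · rw [hlz]
    linarith
  · rw [hS]
    have h4 : 2 / β * (L - w) ≤ 2 / β * (Real.log L + M) := mul_le_mul_of_nonneg_left hD hb2.le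
    nlinarith [hmain'.2]
  · have h5 : z * (L - Real.log z + 1) - Real.log z - 2 - β * (z * (z - 1) / 2) =
        w * (2 - u) + z * (Real.log L - Real.log w) - Real.log z - 2 := by
      rw [← hS]
      ring
    rw [h5, hlz]
    nlinarith [hmain'.1]

end Pool.Agent.LibCA69
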