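import Mathlib
import Pool.Agent.LibCA69.AsyB1

/-!
# The regime near `Q`
Task ASYB2.
-/

set_option autoImplicit false

namespace Pool.Agent.LibCA69

open Finset Filter Pool.Agent.H69.Clique

lemma ev_sq_asyB2 (C : ℝ) : ∀ᶠ L : ℝ in atTop, C * L ^ 2 ≤ Real.exp L := by
  have h1 := isLittleO_pow_exp_pos_mul_atTop (k := 2) (b := 1) one_pos
  simp only [one_mul] at h1
  have h2 : (0 : ℝ) < 1 / (|C| + 1) := by positivity
  have h3 := h1.bound h2
  filter_upwards [h3] with L hL
  have hq0 : (0 : ℝ) ≤ L ^ 2 := by positivity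
  rw [Real.norm_eq_abs, Real.norm_eq_abs, abs_of_nonneg hq0,
    abs_of_pos (Real.exp_pos _)] at hL
  have h5 : L ^ 2 * (|C| + 1) ≤ Real.exp L := by
    calc L ^ 2 * (|C| + 1) ≤ 1 / (|C| + 1) * Real.exp L * (|C| + 1) :=
          mul_le_mul_of_nonneg_right hL (by positivity)
      _ = _ := by field_simp
  have h6 : C * L ^ 2 ≤ L ^ 2 * (|C| + 1) := by
    have := le_abs_self C
    nlinarith
  linarith

/-- All conditions near `Q`: take the exponentials of the statements of `asy_real` with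
`z = q`, `L = log N`; `Mn α N q = C(N,q) exp(-β C(q,2))`, `log_choose_le`, `le_log_choose`. -/
theorem asym {α C η : ℝ} (h0 : 1 / 2 < α) (h1 : α < 1) (hC : 0 < C) (hη : 0 < η) :
    ∀ᶠ N : ℕ in atTop, ∀ q : ℕ, |(q : ℝ) - Q α N| ≤ C →
      Real.exp (be α * q / 2) ≤ N ∧ (N : ℝ) ≤ (q : ℝ) ^ 2 * Real.exp (be α * q / 2) ∧
      ex N (2 - (q - Q α N) - η) ≤ Mn α N q ∧ Mn α N q ≤ ex N (2 - (q - Q α N) + η) := by
  have hb := be_pos h0 h1
  have hR := asy_real (β := be α) (K := Real.log (be α) + 1 - Real.log 2 - be α / 2)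
    (C := C) (η := η) hb hC hη rfl
  have htend : Tendsto (fun N : ℕ => Real.log (N : ℝ)) atTop atTop :=
    Real.tendsto_log_atTop.comp tendsto_natCast_atTop_atTop
  filter_upwards [htend.eventually hR, htend.eventually (ev_sq_asyB2 (8 / be α ^ 2)),
    eventually_ge_atTop 2] with N hN hE hN2
  intro q hq
  obtain ⟨a1, a2, a3, a4, a5⟩ := hN q (q - Q α N) hq (beq_eq h0 h1 hN2 q)
  have hNpos : (0 : ℝ) < N := by
    have : 0 < N := by omega
    exact_mod_cast this
  have hqpos : (0 : ℝ) < q := by linarith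
  have hq1 : 1 ≤ q := by exact_mod_cast a1
  rw [Real.exp_log hNpos] at hE
  have hqN : 2 * q ^ 2 ≤ N := by
    have e1 : (q : ℝ) ≤ 2 * Real.log N / be α := by
      rw [le_div_iff₀ hb]
      linarith
    have e2 : (q : ℝ) ^ 2 ≤ (2 * Real.log N / be α) ^ 2 := pow_le_pow_left₀ hqpos.le e1 2
    have e3 : 2 * (2 * Real.log N / be α) ^ 2 = 8 / be α ^ 2 * Real.log N ^ 2 := by
      rw [div_pow]
      ring
    have e4 : 2 * (q : ℝ) ^ 2 ≤ N := by
      calc 2 * (q : ℝ) ^ 2 ≤ 2 * (2 * Real.log N / be α) ^ 2 := by linarith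
        _ = 8 / be α ^ 2 * Real.log N ^ 2 := e3
        _ ≤ N := hE
    exact_mod_cast e4
  have hqleN : q ≤ N := by nlinarith
  have hch : 0 < N.choose q := Nat.choose_pos hqleN
  have hchr : (0 : ℝ) < (N.choose q : ℕ) := by exact_mod_cast hch
  have hc2 : ((q.choose 2 : ℕ) : ℝ) = (q : ℝ) * (q - 1) / 2 := Nat.cast_choose_two ℝ q
  have hMn : Mn α N q = Real.exp (Real.log (N.choose q : ℕ) - be α * ((q : ℝ) * (q - 1) / 2)) := by
    unfold Mn
    rw [hc2, Real.exp_sub, Real.exp_log hchr, Real.exp_neg]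
    rfl
  refine ⟨?_, ?_, ?_, ?_⟩
  · calc Real.exp (be α * q / 2) ≤ Real.exp (Real.log N) := Real.exp_le_exp.2 a2
      _ = N := Real.exp_log hNpos
  · calc (N : ℝ) = Real.exp (Real.log N) := (Real.exp_log hNpos).symm
      _ ≤ Real.exp (2 * Real.log q + be α * q / 2) := Real.exp_le_exp.2 a3
      _ = (q : ℝ) ^ 2 * Real.exp (be α * q / 2) := by
          rw [Real.exp_add]
          congr 1
          have : 2 * Real.log (q : ℝ) = Real.log q + Real.log q := by ring
          rw [this, Real.exp_add, Real.exp_log hqpos]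
          ring
  · rw [hMn]
    unfold ex
    apply Real.exp_le_exp.2
    have := le_log_choose N q hq1 hqN
    linarith
  · rw [hMn]
    unfold ex
    apply Real.exp_le_exp.2
    have := log_choose_le N q hq1 hqleN
    linarith

end Pool.Agent.LibCA69
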