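import Pool.Agent.LibCA69.Defs

/-!
# Task LIST: sums over lists
-/

set_option autoImplicit false

namespace Pool.Agent.LibCA69

open Finset

variable {X : Type} [Fintype X] [DecidableEq X]

theorem mem_LL (r : ℕ) (l : List X) : l ∈ LL X r ↔ l.length = r := by
  induction r generalizing l with
  | zero =>
    unfold LL
    rw [mem_singleton, List.length_eq_zero_iff]
  | succ r ih =>
    unfold LL
    rw [mem_map]
    constructor
    · rintro ⟨p, hp, rfl⟩
      rw [mem_product] at hp
      change (p.1 :: p.2).length = r + 1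
      rw [List.length_cons, (ih p.2).mp hp.2]
    · intro h
      cases l with
      | nil => simp at h
      | cons x l =>
        refine ⟨(x, l), ?_, rfl⟩
        rw [mem_product]
        refine ⟨mem_univ _, (ih l).mpr ?_⟩
        simpa using h

theorem sum_LL_succ (r : ℕ) (g : List X → ℝ) :
    ∑ l ∈ LL X (r + 1), g l = ∑ l ∈ LL X r, ∑ x : X, g (x :: l) := by
  conv_lhs => unfold LL
  rw [sum_map, sum_product_right]
  rfl

theorem Wt_nonneg (F : List X → X → ℝ) (hF : ∀ l x, 0 ≤ F l x) (l : List X) : 0 ≤ Wt F l := by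
  induction l with
  | nil => exact zero_le_one
  | cons x l ih => exact mul_nonneg (hF l x) ih

theorem sum_Wt_le (F : List X → X → ℝ) (hF : ∀ l x, 0 ≤ F l x) (ρ : ℝ) (hρ : 0 ≤ ρ) (r : ℕ)
    (h : ∀ l : List X, l.length < r → ∑ x : X, F l x ≤ ρ) :
    ∑ l ∈ LL X r, Wt F l ≤ ρ ^ r := by
  induction r with
  | zero =>
    unfold LL
    rw [sum_singleton, pow_zero]
    exact le_rfl
  | succ r ih =>
    rw [sum_LL_succ]
    have h1 := ih fun l hl => h l (by omega)
    calc ∑ l ∈ LL X r, ∑ x : X, Wt F (x :: l) ≤ ∑ l ∈ LL X r, ρ * Wt F l := by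
          refine sum_le_sum fun l hl => ?_
          have hlen : l.length = r := (mem_LL r l).mp hl
          have e : ∑ x : X, Wt F (x :: l) = (∑ x : X, F l x) * Wt F l := by
            rw [sum_mul]
            rfl
          rw [e]
          exact mul_le_mul_of_nonneg_right (h l (by omega)) (Wt_nonneg F hF l)
      _ = ρ * ∑ l ∈ LL X r, Wt F l := by rw [mul_sum]
      _ ≤ ρ * ρ ^ r := mul_le_mul_of_nonneg_left h1 hρ
      _ = ρ ^ (r + 1) := by rw [pow_succ, mul_comm]

end Pool.Agent.LibCA69
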