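import Pool.Agent.LibCA69.Ctl
import Pool.Agent.LibCA69.Lists

/-!
# Task CHAIN1: the declared sets close to a given one have few vertices

If not, choose greedily a list `l` of length `m0` with `ChC` at each step (each step adds at most
`I2` vertices); then the term of `(D₀, l)` in `Phi3` is at least `1` (`part_val`, `markov`; the
pieces of `chainP` are disjoint).
-/

set_option autoImplicit false

namespace Pool.Agent.LibCA69

open Finset Filter Pool.Agent.H69.Clique

/-- A chain of declared sets (the newest first). -/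
def ChV {N : ℕ} (α ε : ℝ) (q : ℕ) (R B : Finset (Edge N)) (D₀ : Finset (Fin N)) :
    List (Finset (Fin N)) → Prop
  | [] => True
  | (D :: l) => Dc α ε q R B D ∧ ChC α q D₀ l D ∧ ChV α ε q R B D₀ l

/-- All edges of a chain are inside its vertex set. -/
theorem used_chain1 {N : ℕ} (α : ℝ) (q : ℕ) (D₀ : Finset (Fin N)) (l : List (Finset (Fin N))) :
    used (chainP α q D₀ l) ⊆ inside (vert D₀ l) := by
  induction l with
  | nil => simp [chainP, used, vert, whole]
  | cons D l ih =>
    show priv D (vert D₀ l) ∪ used (chainP α q D₀ l) ⊆ inside (D ∪ vert D₀ l)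
    apply union_subset
    · exact sdiff_subset.trans (inside_mono subset_union_left)
    · exact ih.trans (inside_mono subset_union_right)

theorem chain_real {α ε : ℝ} (h0 : 1 / 2 < α) (h1 : α < 1) (hε : 0 < ε) (hε1 : ε ≤ 1) :
    ∀ᶠ q : ℕ in atTop, ∀ N : ℕ, Reg α ε q N → ∀ R B : Finset (Edge N), Disjoint R B →
      Ctl α ε q R B → ∀ D₀ : Finset (Fin N), Dc α ε q R B D₀ → ∀ l : List (Finset (Fin N)),
      ChV α ε q R B D₀ l →
      1 ≤ ex N (e0 α ε) * Wt (ChW α ε N q D₀) l * pot (chainP α q D₀ l) R B := by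
  classical
  have hx0l := x0_le h0 h1
  filter_upwards [part_val h0 h1 hε hε1, N_large h0 h1, eventually_ge_atTop 1,
    eventually_ge_atTop (2 * I2 α)]
    with q hpv hNl hq1 hqI N hReg R B hd hCtl D₀ hD₀ l
  have hN1 : 1 ≤ N := by
    have := (hNl N hReg.1).2
    omega
  induction l with
  | nil =>
    intro _
    have h2 := (ex_le_vv h0 h1 hε hN1 hD₀).trans (markov h0.le h1 _ _ _ _ hd)
    have h3 : pot (chainP α q D₀ []) R B =
        cst α (inside D₀).card (tgt α q D₀.card) * wgt (2 * α - 1) (inside D₀) R B := by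
      simp [chainP, pot, used, whole]
    have h4 : ex N (e0 α ε) * ex N (-(e0 α ε)) = 1 := by
      rw [← ex_add, add_neg_cancel, ex_zero]
    rw [h3]
    calc (1 : ℝ) = ex N (e0 α ε) * ex N (-(e0 α ε)) := h4.symm
      _ ≤ ex N (e0 α ε) * (cst α (inside D₀).card (tgt α q D₀.card) *
          wgt (2 * α - 1) (inside D₀) R B) := mul_le_mul_of_nonneg_left h2 (ex_pos _ _).le
      _ = _ := by simp [Wt]
  | cons D l ih =>
    rintro ⟨hD, hC, hV⟩
    have hih := ih hV
    obtain ⟨c1, c2, c3, c4⟩ := hC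
    have hx : x0 α * q ≤ ((D ∩ vert D₀ l).card : ℝ) := by
      have g1 : (q : ℝ) ≤ (D ∩ vert D₀ l).card + I2 α := by exact_mod_cast c2
      have g2 : 2 * (I2 α : ℝ) ≤ q := by exact_mod_cast hqI
      have g3 : x0 α * q ≤ 1 / 16 * q := mul_le_mul_of_nonneg_right hx0l (by positivity)
      linarith
    have hpart := hpv N hReg R B hd hCtl D (vert D₀ l) hD hx c3
    have hlev1 : 1 / 2 ≤ lev α q (D ∩ vert D₀ l).card :=
      lev_ge h0 h1 q _ ((card_le_card inter_subset_left).trans c1.2) hq1
    have hlev2 := lev_le h0 h1 q (D ∩ vert D₀ l).card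
    have hmk := hpart.trans (markov (x := lev α q (D ∩ vert D₀ l).card) hlev1 (by linarith)
      (part α q (vert D₀ l) D).a (part α q (vert D₀ l) D).P R B hd)
    have hP : (part α q (vert D₀ l) D).P \ used (chainP α q D₀ l) =
        (part α q (vert D₀ l) D).P := by
      apply sdiff_eq_self_of_disjoint
      have : Disjoint (inside D \ inside (vert D₀ l)) (inside (vert D₀ l)) := sdiff_disjoint
      exact this.mono_right (used_chain1 α q D₀ l)
    have hpot : pot (chainP α q D₀ (D :: l)) R B =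
        cst (lev α q (D ∩ vert D₀ l).card) (part α q (vert D₀ l) D).P.card
          (part α q (vert D₀ l) D).a *
        wgt (2 * lev α q (D ∩ vert D₀ l).card - 1) (part α q (vert D₀ l) D).P R B *
        pot (chainP α q D₀ l) R B := by
      show cst _ _ _ * wgt _ ((part α q (vert D₀ l) D).P \ used (chainP α q D₀ l)) R B * _ = _
      rw [hP]
      rfl
    have hWt : Wt (ChW α ε N q D₀) (D :: l) = 2 * ex N (e0 α ε) * Wt (ChW α ε N q D₀) l := by
      show ChW α ε N q D₀ l D * _ = _
      unfold ChW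
      rw [if_pos ⟨c1, c2, c3, c4⟩]
    rw [hpot, hWt]
    obtain ⟨y, hy⟩ : ∃ y, y = cst (lev α q (D ∩ vert D₀ l).card)
        (part α q (vert D₀ l) D).P.card (part α q (vert D₀ l) D).a *
        wgt (2 * lev α q (D ∩ vert D₀ l).card - 1) (part α q (vert D₀ l) D).P R B := ⟨_, rfl⟩
    rw [← hy] at hmk ⊢
    have h4 : ex N (e0 α ε) * ex N (-(e0 α ε)) = 1 := by
      rw [← ex_add, add_neg_cancel, ex_zero]
    have h5 : 1 ≤ 2 * ex N (e0 α ε) * y := by
      have h6 := mul_le_mul_of_nonneg_left hmk (by have := (ex_pos N (e0 α ε)).le; positivity :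
        0 ≤ 2 * ex N (e0 α ε))
      linarith
    calc (1 : ℝ) ≤ ex N (e0 α ε) * Wt (ChW α ε N q D₀) l * pot (chainP α q D₀ l) R B := hih
      _ = 1 * (ex N (e0 α ε) * Wt (ChW α ε N q D₀) l * pot (chainP α q D₀ l) R B) :=
          (one_mul _).symm
      _ ≤ (2 * ex N (e0 α ε) * y) *
          (ex N (e0 α ε) * Wt (ChW α ε N q D₀) l * pot (chainP α q D₀ l) R B) :=
          mul_le_mul_of_nonneg_right h5 (by linarith)
      _ = _ := by ring

end Pool.Agent.LibCA69
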