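import Pool.Agent.LibCA69.Chain1

/-!
# Task CHAIN2: the declared sets close to a given one have few vertices

If not, choose greedily a list `l` of length `m0` with `ChC` at each step (each step adds at most
`I2` vertices); then the term of `(D₀, l)` in `Phi3` is at least `1` (`part_val`, `markov`; the
pieces of `chainP` are disjoint).
-/

set_option autoImplicit false

namespace Pool.Agent.LibCA69

open Finset Filter Pool.Agent.H69.Clique

theorem sub_vert_chain2 {N : ℕ} (D₀ : Finset (Fin N)) (l : List (Finset (Fin N))) :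
    D₀ ⊆ vert D₀ l := by
  induction l with
  | nil => exact subset_rfl
  | cons D l ih => exact ih.trans subset_union_right

theorem ChW_nonneg_chain2 {N : ℕ} (α ε : ℝ) (q : ℕ) (D₀ : Finset (Fin N))
    (l : List (Finset (Fin N))) (D : Finset (Fin N)) : 0 ≤ ChW α ε N q D₀ l D := by
  unfold ChW
  split_ifs
  · have := (ex_pos N (e0 α ε)).le
    positivity
  · exact le_rfl

/-- The terms of `Phi3` are nonnegative. -/
theorem term_nonneg_chain2 {N : ℕ} {α ε : ℝ} (h0 : 1 / 2 < α) (h1 : α < 1) {q : ℕ} (hq : 1 ≤ q)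
    (R B : Finset (Edge N)) (D₀ : Finset (Fin N)) (l : List (Finset (Fin N))) :
    0 ≤ Wt (ChW α ε N q D₀) l * pot (chainP α q D₀ l) R B := by
  induction l with
  | nil =>
    have h3 : pot (chainP α q D₀ []) R B =
        cst α (inside D₀).card (tgt α q D₀.card) * wgt (2 * α - 1) (inside D₀) R B := by
      simp [chainP, pot, used, whole]
    rw [h3]
    have h4 := (cst_pos α (inside D₀).card (tgt α q D₀.card)).le
    have h5 := wgt_nonneg (by linarith : 0 ≤ 2 * α - 1) (by linarith) (inside D₀) R B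
    have h6 : Wt (ChW α ε N q D₀) [] = 1 := rfl
    rw [h6]
    positivity
  | cons D l ih =>
    have hW : Wt (ChW α ε N q D₀) (D :: l) = ChW α ε N q D₀ l D * Wt (ChW α ε N q D₀) l := rfl
    by_cases hC : ChC α q D₀ l D
    · have hlev1 : 1 / 2 ≤ lev α q (D ∩ vert D₀ l).card :=
        lev_ge h0 h1 q _ ((card_le_card inter_subset_left).trans hC.1.2) hq
      have hlev2 := lev_le h0 h1 q (D ∩ vert D₀ l).card
      have hpot : pot (chainP α q D₀ (D :: l)) R B =
          cst (lev α q (D ∩ vert D₀ l).card) (part α q (vert D₀ l) D).P.card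
            (part α q (vert D₀ l) D).a *
          wgt (2 * lev α q (D ∩ vert D₀ l).card - 1)
            ((part α q (vert D₀ l) D).P \ used (chainP α q D₀ l)) R B *
          pot (chainP α q D₀ l) R B := rfl
      have h4 := (cst_pos (lev α q (D ∩ vert D₀ l).card) (part α q (vert D₀ l) D).P.card
            (part α q (vert D₀ l) D).a).le
      have h5 := wgt_nonneg (by linarith : 0 ≤ 2 * lev α q (D ∩ vert D₀ l).card - 1)
        (by linarith) ((part α q (vert D₀ l) D).P \ used (chainP α q D₀ l)) R B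
      have h6 := ChW_nonneg_chain2 α ε q D₀ l D
      rw [hW, hpot]
      have h7 := mul_nonneg (mul_nonneg h6 (mul_nonneg h4 h5)) ih
      refine h7.trans (le_of_eq ?_)
      ring
    · have : ChW α ε N q D₀ l D = 0 := by
        unfold ChW
        rw [if_neg hC]
      rw [hW, this, zero_mul, zero_mul]

/-- The greedy choice. -/
theorem greedy_chain2 {N : ℕ} {α ε : ℝ} {q : ℕ} {R B : Finset (Edge N)} {D₀ : Finset (Fin N)}
    (hD₀ : Dc α ε q R B D₀) (K : Finset (Finset (Fin N)))
    (hK : ∀ D ∈ K, Dc α ε q R B D ∧ q ≤ (D ∩ D₀).card + I2 α)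
    (hbig : C1 α < ((K.biUnion id) \ D₀).card) (k : ℕ) (hk : k ≤ m0 α) :
    ∃ l : List (Finset (Fin N)), l.length = k ∧ ChV α ε q R B D₀ l ∧
      (vert D₀ l \ D₀).card ≤ k * I2 α := by
  induction k with
  | zero => exact ⟨[], rfl, trivial, by simp [vert]⟩
  | succ k ih =>
    obtain ⟨l, hl1, hl2, hl3⟩ := ih (by omega)
    have hlt : (vert D₀ l \ D₀).card < ((K.biUnion id) \ D₀).card := by
      refine lt_of_le_of_lt hl3 (lt_of_le_of_lt ?_ hbig)
      unfold C1
      exact Nat.mul_le_mul_right _ (by omega)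
    obtain ⟨x, hx1, hx2⟩ := exists_mem_notMem_of_card_lt_card hlt
    obtain ⟨hx3, hxD₀⟩ := Finset.mem_sdiff.1 hx1
    obtain ⟨D, hDK, hxD⟩ := Finset.mem_biUnion.1 hx3
    simp only [id] at hxD
    have hxv : x ∉ vert D₀ l := fun h => hx2 (mem_sdiff.2 ⟨h, hxD₀⟩)
    obtain ⟨hDc, hDq⟩ := hK D hDK
    have hsub := sub_vert_chain2 D₀ l
    have hle : (D ∩ D₀).card ≤ (D ∩ vert D₀ l).card :=
      card_le_card (inter_subset_inter_left hsub)
    refine ⟨D :: l, by rw [List.length_cons, hl1], ⟨hDc, ⟨hDc.1, by omega,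
      fun h => hxv (h hxD), ?_⟩, hl2⟩, ?_⟩
    · have h3 : (vert D₀ l).card ≤ (vert D₀ l \ D₀).card + D₀.card := by
        rw [← card_sdiff_add_card_inter (vert D₀ l) D₀]
        exact Nat.add_le_add_left (card_le_card inter_subset_right) _
      have h4 : k * I2 α ≤ m0 α * I2 α := Nat.mul_le_mul_right _ (by omega)
      have h5 := hD₀.1.2
      omega
    · have h3 : vert D₀ (D :: l) \ D₀ = (D \ D₀) ∪ (vert D₀ l \ D₀) := by
        show (D ∪ vert D₀ l) \ D₀ = _
        exact union_sdiff_distrib _ _ _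
      rw [h3]
      have h4 : (D \ D₀).card ≤ I2 α := by
        have h5 := card_sdiff_add_card_inter D D₀
        have h6 := hDc.1.2
        omega
      calc ((D \ D₀) ∪ (vert D₀ l \ D₀)).card ≤ (D \ D₀).card + (vert D₀ l \ D₀).card :=
            card_union_le _ _
        _ ≤ I2 α + k * I2 α := Nat.add_le_add h4 hl3
        _ = (k + 1) * I2 α := by ring

theorem chain_bound {α ε : ℝ} (h0 : 1 / 2 < α) (h1 : α < 1) (hε : 0 < ε) (hε1 : ε ≤ 1) :
    ∀ᶠ q : ℕ in atTop, ∀ N : ℕ, Reg α ε q N → ∀ R B : Finset (Edge N), Disjoint R B →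
      Ctl α ε q R B → Phi3 α ε N q R B < 1 →
      ∀ D₀ : Finset (Fin N), Dc α ε q R B D₀ → ∀ K : Finset (Finset (Fin N)),
      (∀ D ∈ K, Dc α ε q R B D ∧ q ≤ (D ∩ D₀).card + I2 α) →
      ((K.biUnion id) \ D₀).card ≤ C1 α := by
  classical
  filter_upwards [chain_real h0 h1 hε hε1, eventually_ge_atTop 1]
    with q hcr hq1 N hReg R B hd hCtl h3 D₀ hD₀ K hK
  by_contra hcon
  rw [not_le] at hcon
  obtain ⟨l, hl1, hl2, _⟩ := greedy_chain2 hD₀ K hK hcon (m0 α) le_rfl
  have hterm := hcr N hReg R B hd hCtl D₀ hD₀ l hl2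
  apply absurd h3
  rw [not_lt]
  unfold Phi3
  refine hterm.trans ?_
  have hnn : ∀ D₀ : Finset (Fin N), ∀ l : List (Finset (Fin N)),
      0 ≤ ex N (e0 α ε) * Wt (ChW α ε N q D₀) l * pot (chainP α q D₀ l) R B := by
    intro D₀ l
    have g1 := term_nonneg_chain2 (ε := ε) h0 h1 hq1 R B D₀ l
    have g2 := (ex_pos N (e0 α ε)).le
    rw [mul_assoc]
    exact mul_nonneg g2 g1
  refine le_trans ?_ (single_le_sum (fun D _ => sum_nonneg (fun l _ => hnn D l))
    (mem_filter.2 ⟨mem_univ D₀, hD₀.1⟩))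
  exact single_le_sum (f := fun l : List (Finset (Fin N)) =>
      ex N (e0 α ε) * Wt (ChW α ε N q D₀) l * pot (chainP α q D₀ l) R B)
    (fun l _ => hnn D₀ l) ((mem_LL (m0 α) l).2 hl1)

end Pool.Agent.LibCA69
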