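import Pool.Agent.LibCA69.Val
import Pool.Agent.H69.CliqueProb

/-!
# Task CHER: the tilted weights are sharp for some level

Write `y = a - |P ∩ R|` and let `r` be the number of elements of `P` outside `R ∪ B`; then
`val a P R B = ℙ(Bin(r, 1/2) ≥ y)` and `cst x |P| a * wgt (2 x - 1) P R B =
(2 x) ^ (-y) * (2 - 2 x) ^ (-(r - y))`.
* `y > r`: first alternative.  * `y ≤ r / 2`: `x = 1 / 2` and `val ≥ 1 / 2`.
* `r / 2 < y ≤ r`, `k = ⌈y⌉ < r`: `x = k / r` and `bt_mode` (file `CliqueProb`) with `α = k / r`.
* `k = r`: `x = (r + 1) / (r + 2)`, `val ≥ 2 ^ (-r)`.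
-/

set_option autoImplicit false

namespace Pool.Agent.LibCA69

open Finset Pool.Agent.H69.Clique

variable {E : Type} [Fintype E] [DecidableEq E]

lemma card_Chernoff (P R B : Finset E) (hd : Disjoint R B) :
    P.card = (P ∩ R).card + (P ∩ B).card + (free R B ∩ P).card := by
  have h1 : P = ((P ∩ R) ∪ (P ∩ B)) ∪ (free R B ∩ P) := by
    ext x
    simp only [mem_union, mem_inter, mem_free]
    tauto
  have h2 : Disjoint (P ∩ R) (P ∩ B) := by
    rw [Finset.disjoint_left]
    intro x hx hx'
    exact Finset.disjoint_left.1 hd (mem_inter.1 hx).2 (mem_inter.1 hx').2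
  have h3 : Disjoint ((P ∩ R) ∪ (P ∩ B)) (free R B ∩ P) := by
    rw [Finset.disjoint_left]
    intro x hx hx'
    have h4 := mem_free.1 (mem_inter.1 hx').1
    rw [mem_union, not_or] at h4
    rcases mem_union.1 hx with h | h
    · exact h4.1 (mem_inter.1 h).2
    · exact h4.2 (mem_inter.1 h).2
  calc P.card = (((P ∩ R) ∪ (P ∩ B)) ∪ (free R B ∩ P)).card := by rw [← h1]
    _ = (P ∩ R).card + (P ∩ B).card + (free R B ∩ P).card := by
      rw [card_union_of_disjoint h3, card_union_of_disjoint h2]

lemma val_ge_Chernoff (a : ℝ) (P R B : Finset E) (k : ℕ) (hk : a ≤ (P ∩ R).card + k) :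
    ((free R B ∩ P).card.choose k : ℝ) / 2 ^ (free R B ∩ P).card ≤ val a P R B := by
  unfold val avg
  rw [sum_boole, div_le_div_iff₀ (by positivity) (by positivity)]
  have h2 : (powersetCard k (free R B ∩ P) ×ˢ (free R B \ P).powerset).card ≤
      ((free R B).powerset.filter (fun T => a ≤ (((R ∪ T) ∩ P).card : ℝ))).card := by
    refine card_le_card_of_injOn (fun p => p.1 ∪ p.2) ?_ ?_
    · rintro ⟨T1, T2⟩ hp
      rw [mem_coe, mem_product, mem_powersetCard, mem_powerset] at hp
      obtain ⟨⟨hT1, hc⟩, hT2⟩ := hp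
      rw [mem_coe, mem_filter, mem_powerset]
      refine ⟨union_subset (hT1.trans inter_subset_left) (hT2.trans sdiff_subset), ?_⟩
      have hsub : (P ∩ R) ∪ T1 ⊆ (R ∪ (T1 ∪ T2)) ∩ P := by
        intro x hx
        rcases mem_union.1 hx with h | h
        · exact mem_inter.2 ⟨mem_union_left _ (mem_inter.1 h).2, (mem_inter.1 h).1⟩
        · exact mem_inter.2 ⟨mem_union_right _ (mem_union_left _ h), (mem_inter.1 (hT1 h)).2⟩
      have hdis : Disjoint (P ∩ R) T1 := by
        rw [Finset.disjoint_left]
        intro x hx hx'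
        have h4 := mem_free.1 (mem_inter.1 (hT1 hx')).1
        rw [mem_union, not_or] at h4
        exact h4.1 (mem_inter.1 hx).2
      have hcard := card_le_card hsub
      rw [card_union_of_disjoint hdis, hc] at hcard
      have hcard' : ((P ∩ R).card : ℝ) + k ≤ (((R ∪ (T1 ∪ T2)) ∩ P).card : ℝ) := by
        exact_mod_cast hcard
      exact hk.trans hcard'
    · rintro ⟨T1, T2⟩ hp ⟨T1', T2'⟩ hp' he
      rw [mem_coe, mem_product, mem_powersetCard, mem_powerset] at hp hp'
      have he' : T1 ∪ T2 = T1' ∪ T2' := he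
      have e1 : ∀ (T S : Finset E), T ⊆ free R B ∩ P → S ⊆ free R B \ P →
          T = (T ∪ S) ∩ P ∧ S = (T ∪ S) \ P := by
        intro T S hT hS
        constructor
        · ext x
          rw [mem_inter, mem_union]
          constructor
          · intro hx
            exact ⟨Or.inl hx, (mem_inter.1 (hT hx)).2⟩
          · rintro ⟨hx | hx, hxP⟩
            · exact hx
            · exact absurd hxP (mem_sdiff.1 (hS hx)).2
        · ext x
          rw [mem_sdiff, mem_union]
          constructor
          · intro hx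
            exact ⟨Or.inr hx, (mem_sdiff.1 (hS hx)).2⟩
          · rintro ⟨hx | hx, hxP⟩
            · exact absurd (mem_inter.1 (hT hx)).2 hxP
            · exact hx
      have h1 := e1 T1 T2 hp.1.1 hp.2
      have h1' := e1 T1' T2' hp'.1.1 hp'.2
      apply Prod.ext
      · change T1 = T1'
        rw [h1.1, h1'.1, he']
      · change T2 = T2'
        rw [h1.2, h1'.2, he']
  rw [card_product, card_powersetCard, card_powerset] at h2
  have h3 : (free R B).card = (free R B ∩ P).card + (free R B \ P).card :=
    (card_inter_add_card_sdiff _ _).symm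
  have h4 : (((free R B ∩ P).card.choose k * 2 ^ (free R B \ P).card : ℕ) : ℝ) ≤
      (((free R B).powerset.filter (fun T => a ≤ (((R ∪ T) ∩ P).card : ℝ))).card : ℝ) := by
    exact_mod_cast h2
  push_cast at h4
  rw [h3, pow_add]
  have h5 : (0 : ℝ) < 2 ^ (free R B ∩ P).card := by positivity
  nlinarith

lemma weight_Chernoff {x : ℝ} (h0 : 0 < x) (h1 : x < 1) (a : ℝ) (P R B : Finset E)
    (hd : Disjoint R B) : cst x P.card a * wgt (2 * x - 1) P R B =
      Real.exp (-((a - (P ∩ R).card) * Real.log (2 * x) +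
        ((free R B ∩ P).card - (a - (P ∩ R).card)) * Real.log (2 - 2 * x))) := by
  have hc : (P.card : ℝ) = (P ∩ R).card + (P ∩ B).card + (free R B ∩ P).card := by
    exact_mod_cast card_Chernoff P R B hd
  have e1 : (1 + (2 * x - 1)) ^ (P ∩ R).card = Real.exp ((P ∩ R).card * Real.log (2 * x)) := by
    rw [Real.exp_nat_mul, Real.exp_log (by linarith)]
    congr 1
    ring
  have e2 : (1 - (2 * x - 1)) ^ (P ∩ B).card = Real.exp ((P ∩ B).card * Real.log (2 - 2 * x)) := by
    rw [Real.exp_nat_mul, Real.exp_log (by linarith)]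
    congr 1
    ring
  unfold cst wgt
  rw [e1, e2, ← Real.exp_add, ← Real.exp_add, hc]
  congr 1
  ring

lemma mem_lvls_Chernoff (α : ℝ) (q p1 p2 : ℕ) (h1 : p1 < q ^ 2 + 2) (h2 : p2 < q ^ 2 + 2)
    (h3 : 1 ≤ p2) (h4 : p2 ≤ p1) : (p1 : ℝ) / (p1 + p2) ∈ lvls α q := by
  unfold lvls
  refine mem_insert_of_mem (mem_image.2 ⟨(p1, p2), ?_, rfl⟩)
  rw [mem_filter, mem_product, mem_range, mem_range]
  exact ⟨⟨h1, h2⟩, h3, h4⟩

theorem reverse_chernoff (α : ℝ) (q : ℕ) (a : ℝ) (P R B : Finset E) (hd : Disjoint R B)
    (hP : P.card ≤ q ^ 2) :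
    ((P.card : ℝ) - (P ∩ B).card < a) ∨
    ∃ x ∈ lvls α q, 1 / 2 ≤ x ∧ x < 1 ∧ cst x P.card a * wgt (2 * x - 1) P R B ≤
      4 * ((q : ℝ) ^ 2 + 1) ^ 2 * val a P R B := by
  have hcard := card_Chernoff P R B hd
  have hval := val_ge_Chernoff a P R B
  have hW := fun (x : ℝ) (h0 : 0 < x) (h1 : x < 1) => weight_Chernoff h0 h1 a P R B hd
  generalize (free R B ∩ P).card = r at hcard hval hW
  by_cases h1 : (P.card : ℝ) - (P ∩ B).card < a
  · exact Or.inl h1
  right
  rw [not_lt] at h1
  have hcard' : (P.card : ℝ) = (P ∩ R).card + (P ∩ B).card + r := by exact_mod_cast hcard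
  obtain ⟨y, hy⟩ : ∃ y : ℝ, y = a - (P ∩ R).card := ⟨_, rfl⟩
  rw [← hy] at hW
  have hyr : y ≤ r := by rw [hy]; linarith
  have hval' : ∀ k : ℕ, y ≤ k → (r.choose k : ℝ) / 2 ^ r ≤ val a P R B :=
    fun k hk => hval k (by rw [hy] at hk; linarith)
  have hrq : r ≤ q ^ 2 := by omega
  have hrq' : (r : ℝ) ≤ (q : ℝ) ^ 2 := by exact_mod_cast hrq
  obtain ⟨Q, hQ⟩ : ∃ Q : ℝ, Q = (q : ℝ) ^ 2 + 1 := ⟨_, rfl⟩
  rw [← hQ]
  have hQ1 : 1 ≤ Q := by rw [hQ]; nlinarith [sq_nonneg (q : ℝ)]
  have hrQ : (r : ℝ) + 1 ≤ Q := by rw [hQ]; linarith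
  have hr0 : (0 : ℝ) ≤ r := Nat.cast_nonneg r
  by_cases h2 : y ≤ r / 2
  · refine ⟨1 / 2, ?_, le_rfl, by norm_num, ?_⟩
    · have h3 := mem_lvls_Chernoff α q 1 1 (by omega) (by omega) le_rfl le_rfl
      norm_num at h3
      norm_num
      exact h3
    · rw [hW (1 / 2) (by norm_num) (by norm_num)]
      have e1 : (2 : ℝ) * (1 / 2) = 1 := by norm_num
      have e2 : (2 : ℝ) - 1 = 1 := by norm_num
      rw [e1, e2, Real.log_one, mul_zero, mul_zero, add_zero, neg_zero, Real.exp_zero]
      have hv : 1 / (2 * ((r : ℝ) + 1)) ≤ val a P R B := by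
        rcases Nat.lt_or_ge r 2 with h3 | h3
        · have h4 := hval' r (by linarith)
          rw [Nat.choose_self, Nat.cast_one] at h4
          refine le_trans ?_ h4
          have h5 : r = 0 ∨ r = 1 := by omega
          rcases h5 with rfl | rfl
          · norm_num
          · norm_num
        · have h4 := bt_mode (α := 1 / 2) le_rfl (by norm_num) r h3
          have h5 := hval' ⌈(1 / 2 : ℝ) * r⌉₊ (by
            refine le_trans ?_ (Nat.le_ceil _)
            linarith)
          refine h4.trans (le_trans (le_of_eq ?_) h5)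
          unfold bt
          have h6 : ⌈(1 / 2 : ℝ) * r⌉₊ ≤ r := Nat.ceil_le.2 (by linarith)
          have h7 : (1 - 1 / 2 : ℝ) = 1 / 2 := by norm_num
          rw [h7, mul_assoc, ← pow_add, Nat.add_sub_cancel' h6, one_div, inv_pow]
          rfl
      have h4 : 1 ≤ 2 * ((r : ℝ) + 1) * val a P R B := by
        rw [div_le_iff₀ (by positivity)] at hv
        linarith
      have h5 : 0 < val a P R B := lt_of_lt_of_le (by positivity) hv
      have h6 : 2 * ((r : ℝ) + 1) * val a P R B ≤ 4 * Q ^ 2 * val a P R B := by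
        apply mul_le_mul_of_nonneg_right _ h5.le
        nlinarith
      linarith
  · rw [not_le] at h2
    have hy0 : 0 < y := lt_of_le_of_lt (by positivity) h2
    obtain ⟨k, hk⟩ : ∃ k : ℕ, k = ⌈y⌉₊ := ⟨_, rfl⟩
    have hk1 : y ≤ k := by rw [hk]; exact Nat.le_ceil y
    have hk2 : (k : ℝ) < y + 1 := by rw [hk]; exact Nat.ceil_lt_add_one hy0.le
    have hkr : k ≤ r := by rw [hk]; exact Nat.ceil_le.2 hyr
    have hk0 : (0 : ℝ) < k := lt_of_lt_of_le hy0 hk1
    have hk0' : 0 < k := by exact_mod_cast hk0
    have hvk := hval' k hk1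
    rcases Nat.lt_or_ge k r with hlt | hge
    · -- the level `k / r`
      have hlt' : (k : ℝ) + 1 ≤ r := by exact_mod_cast hlt
      have hrpos : (0 : ℝ) < r := by linarith
      obtain ⟨x, hx⟩ : ∃ x : ℝ, x = k / r := ⟨_, rfl⟩
      have hx0 : 0 < x := by rw [hx]; positivity
      have hx12 : 1 / 2 ≤ x := by
        rw [hx, div_le_div_iff₀ (by norm_num) hrpos]
        linarith
      have hx1 : x < 1 := by
        rw [hx, div_lt_one hrpos]
        linarith
      have hxr : x * r = k := by
        rw [hx, div_mul_cancel₀ _ hrpos.ne']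
      refine ⟨x, ?_, hx12, hx1, ?_⟩
      · have h3 := mem_lvls_Chernoff α q k (r - k) (by omega) (by omega) (by omega) (by
          have h4 : (r : ℝ) < 2 * k := by linarith
          have h5 : r < 2 * k := by exact_mod_cast h4
          omega)
        rw [Nat.cast_sub hkr, add_sub_cancel] at h3
        rw [hx]
        exact h3
      · rw [hW x hx0 hx1]
        have hL1 : 0 ≤ Real.log (2 * x) := Real.log_nonneg (by linarith)
        have hL2 : Real.log (2 - 2 * x) ≤ 0 := Real.log_nonpos (by linarith) (by linarith)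
        have e1 : -(y * Real.log (2 * x) + (r - y) * Real.log (2 - 2 * x)) ≤
            -(k * Real.log (2 * x) + (r - k) * Real.log (2 - 2 * x)) +
              (Real.log (2 * x) - Real.log (2 - 2 * x)) := by
          nlinarith
        have e2 : Real.exp (Real.log (2 * x) - Real.log (2 - 2 * x)) ≤ r := by
          rw [Real.exp_sub, Real.exp_log (by linarith), Real.exp_log (by linarith),
            div_le_iff₀ (by linarith)]
          nlinarith
        have e3 : Real.exp (k * Real.log (2 * x) + (r - k) * Real.log (2 - 2 * x)) =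
            2 ^ r * (x ^ k * (1 - x) ^ (r - k)) := by
          rw [Real.exp_add, Real.exp_nat_mul, Real.exp_log (by linarith), ← Nat.cast_sub hkr,
            Real.exp_nat_mul, Real.exp_log (by linarith), mul_pow,
            show (2 : ℝ) - 2 * x = 2 * (1 - x) by ring, mul_pow]
          have h6 : (2 : ℝ) ^ r = 2 ^ k * 2 ^ (r - k) := by
            rw [← pow_add, Nat.add_sub_cancel' hkr]
          rw [h6]
          ring
        have hb := bt_mode hx12 hx1 r (by omega)
        rw [hxr, Nat.ceil_natCast] at hb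
        unfold bt at hb
        have hw : 0 < x ^ k * (1 - x) ^ (r - k) := by
          have : 0 < 1 - x := by linarith
          positivity
        have h2r : (0 : ℝ) < 2 ^ r := by positivity
        have e4 : Real.exp (-(k * Real.log (2 * x) + (r - k) * Real.log (2 - 2 * x))) ≤
            2 * (r + 1) * val a P R B := by
          rw [Real.exp_neg, e3]
          have h7 : (2 ^ r * (x ^ k * (1 - x) ^ (r - k)))⁻¹ ≤
              2 * (r + 1) * ((r.choose k : ℝ) / 2 ^ r) := by
            rw [inv_eq_one_div, div_le_iff₀ (by positivity)]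
            rw [div_le_iff₀ (by positivity)] at hb
            have h8 : 2 * ((r : ℝ) + 1) * ((r.choose k : ℝ) / 2 ^ r) *
                (2 ^ r * (x ^ k * (1 - x) ^ (r - k))) =
                (r.choose k : ℝ) * x ^ k * (1 - x) ^ (r - k) * (2 * (r + 1)) := by
              field_simp
            rw [h8]
            exact hb
          exact h7.trans (mul_le_mul_of_nonneg_left hvk (by positivity))
        have hv0 : 0 ≤ val a P R B := le_trans (by positivity) hvk
        calc Real.exp (-(y * Real.log (2 * x) + (r - y) * Real.log (2 - 2 * x)))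
            ≤ Real.exp (-(k * Real.log (2 * x) + (r - k) * Real.log (2 - 2 * x)) +
              (Real.log (2 * x) - Real.log (2 - 2 * x))) := Real.exp_le_exp.2 e1
          _ = Real.exp (-(k * Real.log (2 * x) + (r - k) * Real.log (2 - 2 * x))) *
              Real.exp (Real.log (2 * x) - Real.log (2 - 2 * x)) := Real.exp_add _ _
          _ ≤ 2 * (r + 1) * val a P R B * r :=
              mul_le_mul e4 e2 (Real.exp_pos _).le (by positivity)
          _ = 2 * (r + 1) * r * val a P R B := by ring
          _ ≤ 4 * Q ^ 2 * val a P R B := by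
              apply mul_le_mul_of_nonneg_right _ hv0
              nlinarith
    · -- the level `(r + 1) / (r + 2)`
      have hkr' : k = r := le_antisymm hkr hge
      rw [hkr'] at hk1 hk2 hk0 hvk
      rw [Nat.choose_self, Nat.cast_one] at hvk
      have hr1 : (1 : ℝ) ≤ r := by
        have : 1 ≤ r := by omega
        exact_mod_cast this
      obtain ⟨x, hx⟩ : ∃ x : ℝ, x = (r + 1) / (r + 2) := ⟨_, rfl⟩
      have hr2 : (0 : ℝ) < r + 2 := by linarith
      have hxe : 1 - x = 1 / (r + 2) := by
        rw [hx, eq_div_iff hr2.ne', sub_mul, div_mul_cancel₀ _ hr2.ne']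
        ring
      have hx0 : 0 < x := by rw [hx]; positivity
      have hx12 : 1 / 2 ≤ x := by
        rw [hx, div_le_div_iff₀ (by norm_num) hr2]
        linarith
      have hx1 : x < 1 := by
        rw [hx, div_lt_one hr2]
        linarith
      refine ⟨x, ?_, hx12, hx1, ?_⟩
      · have h3 := mem_lvls_Chernoff α q (r + 1) 1 (by omega) (by omega) le_rfl (by omega)
        push_cast at h3
        rw [hx]
        rw [show (r : ℝ) + 1 + 1 = r + 2 by ring] at h3
        exact h3
      · rw [hW x hx0 hx1]
        have hL1 : 0 ≤ Real.log (2 * x) := Real.log_nonneg (by linarith)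
        have hL2 : Real.log (2 - 2 * x) ≤ 0 := Real.log_nonpos (by linarith) (by linarith)
        have e1 : -(y * Real.log (2 * x) + (r - y) * Real.log (2 - 2 * x)) ≤
            -(r * Real.log (2 * x)) + (Real.log (2 * x) - Real.log (2 - 2 * x)) := by
          nlinarith
        have e2 : Real.exp (Real.log (2 * x) - Real.log (2 - 2 * x)) = r + 1 := by
          rw [Real.exp_sub, Real.exp_log (by linarith), Real.exp_log (by linarith),
            show (2 : ℝ) - 2 * x = 2 * (1 - x) by ring, hxe, hx]
          field_simp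
        have e3 : Real.exp (r * Real.log (2 * x)) = 2 ^ r * x ^ r := by
          rw [Real.exp_nat_mul, Real.exp_log (by linarith), mul_pow]
        have e4 : 2 / ((r : ℝ) + 2) ≤ x ^ r := by
          have h6 := one_add_mul_le_pow (a := -(1 / ((r : ℝ) + 2))) (by
            have : 1 / ((r : ℝ) + 2) ≤ 1 := by
              rw [div_le_one hr2]
              linarith
            linarith) r
          have h7 : 1 + -(1 / ((r : ℝ) + 2)) = x := by linarith
          rw [h7] at h6
          refine le_trans (le_of_eq ?_) h6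
          field_simp
          ring
        have hv0 : 0 ≤ val a P R B := le_trans (by positivity) hvk
        have e5 : Real.exp (-(r * Real.log (2 * x))) ≤ (r + 2) / 2 * val a P R B := by
          rw [Real.exp_neg, e3]
          have h8 : (2 ^ r * x ^ r)⁻¹ ≤ ((r : ℝ) + 2) / 2 * (1 / 2 ^ r) := by
            rw [mul_inv, mul_comm]
            have h9 : (x ^ r)⁻¹ ≤ (r + 2) / 2 := by
              have h10 := inv_anti₀ (by positivity : (0 : ℝ) < 2 / ((r : ℝ) + 2)) e4
              rwa [inv_div] at h10
            rw [one_div]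
            exact mul_le_mul_of_nonneg_right h9 (by positivity)
          exact h8.trans (mul_le_mul_of_nonneg_left hvk (by positivity))
        calc Real.exp (-(y * Real.log (2 * x) + (r - y) * Real.log (2 - 2 * x)))
            ≤ Real.exp (-(r * Real.log (2 * x)) +
              (Real.log (2 * x) - Real.log (2 - 2 * x))) := Real.exp_le_exp.2 e1
          _ = Real.exp (-(r * Real.log (2 * x))) *
              Real.exp (Real.log (2 * x) - Real.log (2 - 2 * x)) := Real.exp_add _ _
          _ ≤ (r + 2) / 2 * val a P R B * (r + 1) := by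
              rw [e2]
              exact mul_le_mul_of_nonneg_right e5 (by positivity)
          _ = (r + 2) / 2 * (r + 1) * val a P R B := by ring
          _ ≤ 4 * Q ^ 2 * val a P R B := by
              apply mul_le_mul_of_nonneg_right _ hv0
              nlinarith

end Pool.Agent.LibCA69
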