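import Pool.Agent.LibCA69.Defs

/-!
# Task COMB1: nonnegative combinations of product weights
-/

set_option autoImplicit false

namespace Pool.Agent.LibCA69

open Finset Pool.Agent.H69.Clique

variable {E : Type} [Fintype E] [DecidableEq E]

omit [Fintype E] [DecidableEq E] in
lemma pw_nonneg_Comb1 {g : E → ℝ} (hg : ∀ x, 0 ≤ g x ∧ g x ≤ 1) (R B : Finset E) :
    0 ≤ pw g R B := by
  unfold pw
  refine mul_nonneg (prod_nonneg fun x _ => ?_) (prod_nonneg fun x _ => ?_)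
  · linarith [(hg x).1]
  · linarith [(hg x).2]

omit [Fintype E] in
lemma pw_insert_left_Comb1 (g : E → ℝ) (R B : Finset E) (e : E) (he : e ∉ R) :
    pw g (insert e R) B = (1 + g e) * pw g R B := by
  unfold pw
  rw [prod_insert he, mul_assoc]

omit [Fintype E] in
lemma pw_insert_right_Comb1 (g : E → ℝ) (R B : Finset E) (e : E) (he : e ∉ B) :
    pw g R (insert e B) = (1 - g e) * pw g R B := by
  unfold pw
  rw [prod_insert he]
  ring

theorem comb_zero : Comb (fun (_ _ : Finset E) => (0 : ℝ)) := by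
  refine ⟨Unit, ∅, fun _ => 0, fun _ _ => 0, ?_, ?_, ?_⟩
  · intro i hi
    exact absurd hi (notMem_empty i)
  · intro i hi
    exact absurd hi (notMem_empty i)
  · intro R B
    rw [sum_empty]

theorem comb_add {φ ψ : Finset E → Finset E → ℝ} (h1 : Comb φ) (h2 : Comb ψ) :
    Comb (fun R B => φ R B + ψ R B) := by
  obtain ⟨κ₁, s₁, c₁, g₁, hc₁, hg₁, e₁⟩ := h1
  obtain ⟨κ₂, s₂, c₂, g₂, hc₂, hg₂, e₂⟩ := h2
  refine ⟨κ₁ ⊕ κ₂, s₁.disjSum s₂, Sum.elim c₁ c₂, Sum.elim g₁ g₂, ?_, ?_, ?_⟩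
  · intro i hi
    rcases i with i | i
    · exact hc₁ i (Finset.inl_mem_disjSum.1 hi)
    · exact hc₂ i (Finset.inr_mem_disjSum.1 hi)
  · intro i hi
    rcases i with i | i
    · exact hg₁ i (Finset.inl_mem_disjSum.1 hi)
    · exact hg₂ i (Finset.inr_mem_disjSum.1 hi)
  · intro R B
    change φ R B + ψ R B = _
    rw [sum_disjSum, e₁, e₂]
    rfl

theorem comb_sum {κ : Type} (s : Finset κ) (φ : κ → Finset E → Finset E → ℝ)
    (h : ∀ i ∈ s, Comb (φ i)) : Comb (fun R B => ∑ i ∈ s, φ i R B) := by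
  induction s using Finset.cons_induction with
  | empty =>
    simp only [sum_empty]
    exact comb_zero
  | cons a s ha ih =>
    simp only [sum_cons]
    exact comb_add (h a (mem_cons_self a s)) (ih fun i hi => h i (mem_cons_of_mem hi))

theorem comb_smul {φ : Finset E → Finset E → ℝ} (c : ℝ) (hc : 0 ≤ c) (h : Comb φ) :
    Comb (fun R B => c * φ R B) := by
  obtain ⟨κ₁, s₁, c₁, g₁, hc₁, hg₁, e₁⟩ := h
  refine ⟨κ₁, s₁, fun i => c * c₁ i, g₁, fun i hi => mul_nonneg hc (hc₁ i hi), hg₁, ?_⟩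
  intro R B
  change c * φ R B = ∑ i ∈ s₁, c * c₁ i * pw (g₁ i) R B
  rw [e₁, mul_sum]
  exact sum_congr rfl fun i _ => by ring

theorem comb_wgt {ε : ℝ} (h0 : 0 ≤ ε) (h1 : ε ≤ 1) (P : Finset E) : Comb (wgt ε P) := by
  refine ⟨Unit, {()}, fun _ => 1, fun _ x => if x ∈ P then ε else 0, fun _ _ => zero_le_one,
    ?_, ?_⟩
  · intro _ _ x
    change 0 ≤ (if x ∈ P then ε else 0) ∧ (if x ∈ P then ε else 0) ≤ 1
    split_ifs
    · exact ⟨h0, h1⟩
    · exact ⟨le_rfl, zero_le_one⟩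
  · intro R B
    rw [sum_singleton, one_mul]
    unfold wgt pw
    have e1 : ∀ x, (1 : ℝ) + (if x ∈ P then ε else 0) = if x ∈ P then 1 + ε else 1 := by
      intro x
      split_ifs <;> ring
    have e2 : ∀ x, (1 : ℝ) - (if x ∈ P then ε else 0) = if x ∈ P then 1 - ε else 1 := by
      intro x
      split_ifs <;> ring
    simp only [e1, e2]
    rw [prod_ite, prod_ite]
    simp only [prod_const, one_pow, mul_one, filter_mem_eq_inter]
    rw [inter_comm P R, inter_comm P B]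

theorem comb_harmonic {φ : Finset E → Finset E → ℝ} (h : Comb φ) : Harmonic φ := by
  obtain ⟨κ₁, s₁, c₁, g₁, hc₁, hg₁, e₁⟩ := h
  intro R B _ e he
  rw [mem_union, not_or] at he
  rw [e₁, e₁, e₁, ← sum_add_distrib, mul_sum]
  refine sum_congr rfl fun i _ => ?_
  rw [pw_insert_left_Comb1 _ _ _ _ he.1, pw_insert_right_Comb1 _ _ _ _ he.2]
  ring

theorem comb_nonneg {φ : Finset E → Finset E → ℝ} (h : Comb φ) (R B : Finset E) : 0 ≤ φ R B := by
  obtain ⟨κ₁, s₁, c₁, g₁, hc₁, hg₁, e₁⟩ := h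
  rw [e₁]
  exact sum_nonneg fun i hi => mul_nonneg (hc₁ i hi) (pw_nonneg_Comb1 (hg₁ i hi) R B)

theorem comb_mono {φ : Finset E → Finset E → ℝ} (h : Comb φ) (R B : Finset E) (e : E)
    (he : e ∉ R ∪ B) : φ R B ≤ φ (insert e R) B := by
  obtain ⟨κ₁, s₁, c₁, g₁, hc₁, hg₁, e₁⟩ := h
  rw [mem_union, not_or] at he
  rw [e₁, e₁]
  refine sum_le_sum fun i hi => mul_le_mul_of_nonneg_left ?_ (hc₁ i hi)
  rw [pw_insert_left_Comb1 _ _ _ _ he.1]
  have h1 := pw_nonneg_Comb1 (hg₁ i hi) R B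
  have h2 := (hg₁ i hi e).1
  nlinarith

theorem comb_anti {φ : Finset E → Finset E → ℝ} (h : Comb φ) (R B : Finset E) (e : E)
    (he : e ∉ R ∪ B) : φ R (insert e B) ≤ φ R B := by
  obtain ⟨κ₁, s₁, c₁, g₁, hc₁, hg₁, e₁⟩ := h
  rw [mem_union, not_or] at he
  rw [e₁, e₁]
  refine sum_le_sum fun i hi => mul_le_mul_of_nonneg_left ?_ (hc₁ i hi)
  rw [pw_insert_right_Comb1 _ _ _ _ he.2]
  have h1 := pw_nonneg_Comb1 (hg₁ i hi) R B
  have h2 := (hg₁ i hi e).1
  nlinarith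

end Pool.Agent.LibCA69
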