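import Pool.Agent.LibCA69.Comb1

/-!
# Task COMB2: nonnegative combinations of product weights
-/

set_option autoImplicit false

namespace Pool.Agent.LibCA69

open Finset Pool.Agent.H69.Clique

variable {E : Type} [Fintype E] [DecidableEq E]

omit [Fintype E] in
lemma pw_nonneg_Comb2 {g : E → ℝ} (hg : ∀ x, 0 ≤ g x ∧ g x ≤ 1) (R B : Finset E) :
    0 ≤ pw g R B := by
  unfold pw
  refine mul_nonneg (prod_nonneg fun x _ => ?_) (prod_nonneg fun x _ => ?_)
  · linarith [(hg x).1]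
  · linarith [(hg x).2]

omit [Fintype E] in
lemma pw_insert_left_Comb2 (g : E → ℝ) (R B : Finset E) (e : E) (he : e ∉ R) :
    pw g (insert e R) B = (1 + g e) * pw g R B := by
  unfold pw
  rw [prod_insert he, mul_assoc]

omit [Fintype E] in
lemma pw_insert_right_Comb2 (g : E → ℝ) (R B : Finset E) (e : E) (he : e ∉ B) :
    pw g R (insert e B) = (1 - g e) * pw g R B := by
  unfold pw
  rw [prod_insert he]
  ring

theorem comb_cross {φ : Finset E → Finset E → ℝ} (h : Comb φ) (R B : Finset E) (e f : E)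
    (he : e ∉ R ∪ B) (hf : f ∉ R ∪ B) (hef : e ≠ f) : cross φ R B e f ≤ 0 := by
  obtain ⟨κ₁, s₁, c₁, g₁, hc₁, hg₁, e₁⟩ := h
  rw [mem_union, not_or] at he hf
  unfold cross
  rw [e₁, e₁, e₁, e₁, ← sum_sub_distrib, ← sum_sub_distrib, ← sum_add_distrib]
  refine sum_nonpos fun i hi => ?_
  rw [pw_insert_left_Comb2 _ _ _ _ he.1, pw_insert_left_Comb2 _ _ _ _ he.1,
    pw_insert_right_Comb2 _ _ _ _ hf.2]
  have h1 := pw_nonneg_Comb2 (hg₁ i hi) R B
  have h2 : c₁ i * ((1 + g₁ i e) * ((1 - g₁ i f) * pw (g₁ i) R B)) -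
      c₁ i * ((1 + g₁ i e) * pw (g₁ i) R B) - c₁ i * ((1 - g₁ i f) * pw (g₁ i) R B) +
      c₁ i * pw (g₁ i) R B = -(c₁ i * (g₁ i e * g₁ i f * pw (g₁ i) R B)) := by ring
  rw [h2, neg_nonpos]
  exact mul_nonneg (hc₁ i hi) (mul_nonneg (mul_nonneg (hg₁ i hi e).1 (hg₁ i hi f).1) h1)

theorem comb_start {φ : Finset E → Finset E → ℝ} (h : Comb φ) (e : E) :
    φ {e} ∅ ≤ 2 * φ ∅ ∅ := by
  obtain ⟨κ₁, s₁, c₁, g₁, hc₁, hg₁, e₁⟩ := h
  rw [e₁, e₁, mul_sum]
  refine sum_le_sum fun i hi => ?_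
  have h1 : pw (g₁ i) {e} ∅ = 1 + g₁ i e := by
    unfold pw
    rw [prod_singleton, prod_empty, mul_one]
  have h2 : pw (g₁ i) ∅ ∅ = 1 := by
    unfold pw
    rw [prod_empty, prod_empty, mul_one]
  rw [h1, h2]
  have h3 := hc₁ i hi
  have h4 := (hg₁ i hi e).2
  nlinarith

theorem cst_pos (x : ℝ) (m : ℕ) (a : ℝ) : 0 < cst x m a := Real.exp_pos _

theorem pot_nonneg (l : List (Piece E)) (h : ∀ p ∈ l, 1 / 2 ≤ p.x ∧ p.x ≤ 1) (R B : Finset E) :
    0 ≤ pot l R B := by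
  induction l with
  | nil => exact zero_le_one
  | cons p l ih =>
    have h1 := h p List.mem_cons_self
    exact mul_nonneg (mul_nonneg (cst_pos _ _ _).le
      (wgt_nonneg (by linarith [h1.1]) (by linarith [h1.2]) _ _ _))
      (ih fun p' hp' => h p' (List.mem_cons_of_mem _ hp'))

/-- The levels of the elements. -/
noncomputable def gl_Comb2 : List (Piece E) → E → ℝ
  | [], _ => 0
  | (p :: l), x => if x ∈ p.P \ used l then 2 * p.x - 1 else gl_Comb2 l x

omit [Fintype E] in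
lemma gl_zero_Comb2 (l : List (Piece E)) : ∀ x, x ∉ used l → gl_Comb2 l x = 0 := by
  induction l with
  | nil => intro x _; rfl
  | cons p l ih =>
    intro x hx
    have hx' : x ∉ p.P ∪ used l := hx
    rw [mem_union, not_or] at hx'
    change (if x ∈ p.P \ used l then 2 * p.x - 1 else gl_Comb2 l x) = 0
    rw [if_neg (fun h => hx'.1 (mem_sdiff.1 h).1), ih x hx'.2]

omit [Fintype E] in
lemma gl_bd_Comb2 (l : List (Piece E)) (h : ∀ p ∈ l, 1 / 2 ≤ p.x ∧ p.x ≤ 1) :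
    ∀ x, 0 ≤ gl_Comb2 l x ∧ gl_Comb2 l x ≤ 1 := by
  induction l with
  | nil => intro x; exact ⟨le_rfl, zero_le_one⟩
  | cons p l ih =>
    intro x
    have h1 := h p List.mem_cons_self
    have h2 := ih (fun p' hp' => h p' (List.mem_cons_of_mem _ hp')) x
    change 0 ≤ (if x ∈ p.P \ used l then 2 * p.x - 1 else gl_Comb2 l x) ∧
      (if x ∈ p.P \ used l then 2 * p.x - 1 else gl_Comb2 l x) ≤ 1
    split_ifs
    · exact ⟨by linarith [h1.1], by linarith [h1.2]⟩
    · exact h2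

omit [Fintype E] in
lemma wgt_eq_Comb2 (ε : ℝ) (P R B : Finset E) : wgt ε P R B =
    (∏ x ∈ R, if x ∈ P then 1 + ε else 1) * ∏ x ∈ B, if x ∈ P then 1 - ε else 1 := by
  unfold wgt
  rw [prod_ite, prod_ite]
  simp only [prod_const, one_pow, mul_one, filter_mem_eq_inter]
  rw [inter_comm P R, inter_comm P B]

omit [Fintype E] in
lemma pot_eq_Comb2 (l : List (Piece E)) (R B : Finset E) :
    pot l R B = pcst l * pw (gl_Comb2 l) R B := by
  induction l with
  | nil =>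
    change (1 : ℝ) = 1 * ((∏ x ∈ R, (1 + 0)) * ∏ x ∈ B, (1 - 0))
    simp
  | cons p l ih =>
    change cst p.x p.P.card p.a * wgt (2 * p.x - 1) (p.P \ used l) R B * pot l R B =
      cst p.x p.P.card p.a * pcst l * pw (gl_Comb2 (p :: l)) R B
    have h1 : pw (gl_Comb2 (p :: l)) R B =
        wgt (2 * p.x - 1) (p.P \ used l) R B * pw (gl_Comb2 l) R B := by
      rw [wgt_eq_Comb2]
      unfold pw
      have hR : ∏ x ∈ R, (1 + gl_Comb2 (p :: l) x) =
          (∏ x ∈ R, if x ∈ p.P \ used l then 1 + (2 * p.x - 1) else 1) *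
            ∏ x ∈ R, (1 + gl_Comb2 l x) := by
        rw [← prod_mul_distrib]
        refine prod_congr rfl fun x _ => ?_
        change 1 + (if x ∈ p.P \ used l then 2 * p.x - 1 else gl_Comb2 l x) = _
        by_cases hx : x ∈ p.P \ used l
        · rw [if_pos hx, if_pos hx, gl_zero_Comb2 l x (mem_sdiff.1 hx).2, add_zero, mul_one]
        · rw [if_neg hx, if_neg hx, one_mul]
      have hB : ∏ x ∈ B, (1 - gl_Comb2 (p :: l) x) =
          (∏ x ∈ B, if x ∈ p.P \ used l then 1 - (2 * p.x - 1) else 1) *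
            ∏ x ∈ B, (1 - gl_Comb2 l x) := by
        rw [← prod_mul_distrib]
        refine prod_congr rfl fun x _ => ?_
        change 1 - (if x ∈ p.P \ used l then 2 * p.x - 1 else gl_Comb2 l x) = _
        by_cases hx : x ∈ p.P \ used l
        · rw [if_pos hx, if_pos hx, gl_zero_Comb2 l x (mem_sdiff.1 hx).2, sub_zero, mul_one]
        · rw [if_neg hx, if_neg hx, one_mul]
      rw [hR, hB]
      ring
    rw [h1, ih]
    ring

theorem comb_pot (l : List (Piece E)) (h : ∀ p ∈ l, 1 / 2 ≤ p.x ∧ p.x ≤ 1) : Comb (pot l) := by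
  refine ⟨Unit, {()}, fun _ => pcst l, fun _ => gl_Comb2 l, fun _ _ => ?_,
    fun _ _ => gl_bd_Comb2 l h, fun R B => ?_⟩
  · clear h
    induction l with
    | nil => exact zero_le_one
    | cons p l ih => exact mul_nonneg (cst_pos _ _ _).le ih
  · rw [sum_singleton]
    exact pot_eq_Comb2 l R B

theorem pot_start (l : List (Piece E)) : pot l ∅ ∅ = pcst l := by
  rw [pot_eq_Comb2]
  unfold pw
  rw [prod_empty, prod_empty, mul_one, mul_one]

/-- Removing `k` elements from the set of a weight costs at most a factor `2 ^ k`. -/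
theorem wgt_sdiff {ε : ℝ} (h0 : 0 ≤ ε) (h1 : ε ≤ 1) (P U R B : Finset E) (hd : Disjoint R B) :
    wgt ε P R B ≤ 2 ^ (P ∩ U).card * wgt ε (P \ U) R B := by
  have key : ∀ T : Finset E, (P ∩ T).card = ((P ∩ U) ∩ T).card + ((P \ U) ∩ T).card := by
    intro T
    rw [← card_union_of_disjoint]
    · congr 1
      ext x
      simp only [mem_inter, mem_union, mem_sdiff]
      tauto
    · rw [Finset.disjoint_left]
      intro x hx hx'
      simp only [mem_inter, mem_sdiff] at hx hx'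
      exact hx'.1.2 hx.1.2
  unfold wgt
  rw [key R, key B, pow_add, pow_add]
  have hA : (1 + ε) ^ ((P ∩ U) ∩ R).card ≤ 2 ^ (P ∩ U).card := by
    calc (1 + ε) ^ ((P ∩ U) ∩ R).card ≤ 2 ^ ((P ∩ U) ∩ R).card :=
          pow_le_pow_left₀ (by linarith) (by linarith) _
      _ ≤ 2 ^ (P ∩ U).card := pow_le_pow_right₀ (by norm_num) (card_le_card inter_subset_left)
  have hB : (1 - ε) ^ ((P ∩ U) ∩ B).card ≤ 1 := pow_le_one₀ (by linarith) (by linarith)
  have hA0 : 0 ≤ (1 + ε) ^ ((P ∩ U) ∩ R).card := pow_nonneg (by linarith) _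
  have hB0 : 0 ≤ (1 - ε) ^ ((P ∩ U) ∩ B).card := pow_nonneg (by linarith) _
  have hC0 : 0 ≤ (1 + ε) ^ ((P \ U) ∩ R).card := pow_nonneg (by linarith) _
  have hD0 : 0 ≤ (1 - ε) ^ ((P \ U) ∩ B).card := pow_nonneg (by linarith) _
  calc (1 + ε) ^ ((P ∩ U) ∩ R).card * (1 + ε) ^ ((P \ U) ∩ R).card *
      ((1 - ε) ^ ((P ∩ U) ∩ B).card * (1 - ε) ^ ((P \ U) ∩ B).card)
      = ((1 + ε) ^ ((P ∩ U) ∩ R).card * (1 - ε) ^ ((P ∩ U) ∩ B).card) *
        ((1 + ε) ^ ((P \ U) ∩ R).card * (1 - ε) ^ ((P \ U) ∩ B).card) := by ring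
    _ ≤ 2 ^ (P ∩ U).card * ((1 + ε) ^ ((P \ U) ∩ R).card * (1 - ε) ^ ((P \ U) ∩ B).card) := by
        refine mul_le_mul_of_nonneg_right ?_ (mul_nonneg hC0 hD0)
        calc (1 + ε) ^ ((P ∩ U) ∩ R).card * (1 - ε) ^ ((P ∩ U) ∩ B).card
            ≤ (1 + ε) ^ ((P ∩ U) ∩ R).card * 1 := mul_le_mul_of_nonneg_left hB hA0
          _ ≤ 2 ^ (P ∩ U).card := by rw [mul_one]; exact hA

end Pool.Agent.LibCA69
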