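import Pool.Agent.LibCA69.Num
import Pool.Agent.LibCA69.Val

/-!
# Task CTL1: controlled cores and the dense parts of declared sets
-/

set_option autoImplicit false

namespace Pool.Agent.LibCA69

open Finset Filter Pool.Agent.H69.Clique

variable {N : ℕ}

/-- All cores are under control. -/
def Ctl (α ε : ℝ) (q : ℕ) (R B : Finset (Edge N)) : Prop :=
  (∀ C : Finset (Fin N), InR α q C → vv α q C R B < 2 * th α ε N q C.card) ∧
  (∀ C : Finset (Fin N), x0 α * q ≤ C.card → C.card + I1 α < q → vv α q C R B ≤ ex N (-2))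

/-- `D` has been declared. -/
def Dc (α ε : ℝ) (q : ℕ) (R B : Finset (Edge N)) (D : Finset (Fin N)) : Prop :=
  InR α q D ∧ th α ε N q D.card ≤ vv α q D R B

theorem pot_single_ctl1 {E : Type} [Fintype E] [DecidableEq E] (x a : ℝ) (P R B : Finset E) :
    pot [⟨x, P, a⟩] R B = cst x P.card a * wgt (2 * x - 1) P R B := by
  simp only [pot, used, sdiff_empty, mul_one]

/-- From the first potential. -/
theorem core_of_phi1 {α : ℝ} (h0 : 1 / 2 < α) (h1 : α < 1) {q : ℕ} {R B : Finset (Edge N)}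
    (hd : Disjoint R B) (hΦ : Phi1 α N q R B < 1) (C : Finset (Fin N))
    (hC : x0 α * q ≤ C.card) (hC2 : C.card + I1 α < q) : vv α q C R B ≤ ex N (-2) := by
  classical
  have hmk := markov (x := α) h0.le h1 (tgt α q C.card) (inside C) R B hd
  have hpos : 0 < ex N 2 := ex_pos N 2
  have hterm : ex N 2 * pot [⟨α, inside C, tgt α q C.card⟩] R B ≤ Phi1 α N q R B := by
    have h := Finset.single_le_sum
      (f := fun C : Finset (Fin N) =>
        ex N 2 * pot [(⟨α, inside C, tgt α q C.card⟩ : Piece (Edge N))] R B)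
      (s := univ.filter (fun C : Finset (Fin N) => x0 α * q ≤ C.card ∧ C.card + I1 α < q))
      (a := C) (by
        intro C' _
        refine mul_nonneg (ex_pos N 2).le (pot_nonneg _ ?_ R B)
        intro p hp
        rw [List.mem_singleton] at hp
        rw [hp]
        exact ⟨h0.le, h1.le⟩) (by
        rw [mem_filter]
        exact ⟨mem_univ _, hC, hC2⟩)
    unfold Phi1
    simpa using h
  rw [pot_single_ctl1] at hterm
  have h2 : ex N 2 * vv α q C R B ≤ 1 := by
    calc ex N 2 * vv α q C R B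
        ≤ ex N 2 * (cst α (inside C).card (tgt α q C.card) *
            wgt (2 * α - 1) (inside C) R B) := mul_le_mul_of_nonneg_left hmk hpos.le
      _ ≤ Phi1 α N q R B := hterm
      _ ≤ 1 := hΦ.le
  rw [ex_neg, ← one_div, le_div_iff₀ hpos, mul_comm]
  exact h2

/-- Declared sets have value at least `N ^ (-e0)`. -/
theorem ex_le_vv {α ε : ℝ} (h0 : 1 / 2 < α) (h1 : α < 1) (hε : 0 < ε) {q : ℕ} (hN : 1 ≤ N)
    {R B : Finset (Edge N)} {D : Finset (Fin N)} (hD : Dc α ε q R B D) :
    ex N (-(e0 α ε)) ≤ vv α q D R B := by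
  obtain ⟨⟨hq, hq2⟩, hth⟩ := hD
  refine le_trans ?_ hth
  unfold th
  refine ex_mono hN ?_
  have he := e0_pos (ε := ε) h0 h1 hε
  have hI : (0 : ℝ) < (I1 α : ℝ) + 2 := by positivity
  have hcast : (q : ℝ) ≤ (D.card : ℝ) + (I1 α : ℝ) := by exact_mod_cast hq
  have hle : (1 : ℝ) + ((q : ℝ) - (D.card : ℝ)) ≤ (I1 α : ℝ) + 2 := by linarith
  have hdl : dl α ε * (1 + ((q : ℝ) - (D.card : ℝ))) ≤ e0 α ε := by
    calc dl α ε * (1 + ((q : ℝ) - (D.card : ℝ)))
        ≤ dl α ε * ((I1 α : ℝ) + 2) :=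
          mul_le_mul_of_nonneg_left hle (dl_pos h0 h1 hε).le
      _ = e0 α ε := by
          unfold dl
          field_simp
  linarith

end Pool.Agent.LibCA69
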