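import Pool.Agent.LibCA69.Ctl1

/-!
# Task CTL2: controlled cores and the dense parts of declared sets
-/

set_option autoImplicit false

namespace Pool.Agent.LibCA69

open Finset Filter Pool.Agent.H69.Clique

variable {N : ℕ}

lemma inside_split_ctl2 (D U : Finset (Fin N)) : inside D = inside (D ∩ U) ∪ priv D U := by
  classical
  ext e
  unfold priv inside
  simp only [mem_union, Finset.mem_sdiff, mem_filter, mem_univ, true_and, mem_inter]
  constructor
  · intro h
    by_cases h2 : ∀ v ∈ e.1, v ∈ U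
    · left
      exact fun v hv => ⟨h v hv, h2 v hv⟩
    · right
      exact ⟨h, h2⟩
  · rintro (h | h)
    · exact fun v hv => (h v hv).1
    · exact h.1

/-- The part of a declared set outside a controlled core is dense: `inside D` is the union of
`inside (D ∩ U)` and `priv D U`, use `val_union`; `th` of the core is smaller by `ex N (-dl)`. -/
theorem part_val {α ε : ℝ} (h0 : 1 / 2 < α) (h1 : α < 1) (hε : 0 < ε) (hε1 : ε ≤ 1) :
    ∀ᶠ q : ℕ in atTop, ∀ N : ℕ, Reg α ε q N → ∀ R B : Finset (Edge N), Disjoint R B →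
      Ctl α ε q R B → ∀ D U : Finset (Fin N), Dc α ε q R B D →
      x0 α * q ≤ ((D ∩ U).card : ℝ) → ¬ D ⊆ U →
      ex N (-(e0 α ε)) / 2 ≤ val (part α q U D).a (part α q U D).P R B := by
  have _ := hε1
  have hdl := dl_pos h0 h1 hε
  filter_upwards [poly_le h0 h1 4 (dl α ε) 0 hdl, poly_le h0 h1 2 1 0 one_pos] with q hp1 hp2 N hN
    R B _ hctl D U hD hx hDU
  obtain ⟨hN1, _, _⟩ := hN
  have hNpos : (0 : ℝ) < N := lt_of_lt_of_le (Real.exp_pos _) hN1
  have hN1' : 1 ≤ N := by
    have : 0 < N := by exact_mod_cast hNpos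
    omega
  have a4 : 4 ≤ ex N (dl α ε) := by
    have := hp1 N hN1
    simpa using this
  have a2 : 2 ≤ ex N 1 := by
    have := hp2 N hN1
    simpa using this
  obtain ⟨⟨hD1, hD2⟩, hDth⟩ := hD
  have hcard : (D ∩ U).card < D.card := by
    refine card_lt_card ⟨inter_subset_left, fun h => hDU ?_⟩
    exact fun x hx => (mem_inter.mp (h hx)).2
  have hsplit : vv α q D R B ≤ vv α q (D ∩ U) R B +
      val (part α q U D).a (part α q U D).P R B := by
    have h2 := val_union (tgt α q D.card) (tgt α q (D ∩ U).card) (inside (D ∩ U)) (priv D U) R B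
    rw [← inside_split_ctl2] at h2
    exact h2
  -- `th |D| ≥ ex N (-e0)`
  have hth : ex N (-(e0 α ε)) ≤ th α ε N q D.card := by
    unfold th
    apply ex_mono hN1'
    apply neg_le_neg
    have h3 : (q : ℝ) ≤ D.card + I1 α := by exact_mod_cast hD1
    calc dl α ε * (1 + ((q : ℝ) - D.card)) ≤ dl α ε * ((I1 α : ℝ) + 2) := by
          apply mul_le_mul_of_nonneg_left _ hdl.le
          linarith
      _ = e0 α ε := by
          unfold dl
          have hI : (0 : ℝ) ≤ (I1 α : ℝ) := by positivity
          field_simp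
  -- the core is small
  have hcore : vv α q (D ∩ U) R B ≤ th α ε N q D.card / 2 := by
    by_cases hI : q ≤ (D ∩ U).card + I1 α
    · have h3 := (hctl.1 (D ∩ U) ⟨hI, by omega⟩).le
      refine h3.trans ?_
      have hdc : ((D ∩ U).card : ℝ) + 1 ≤ D.card := by exact_mod_cast hcard
      have h4 : th α ε N q (D ∩ U).card ≤ th α ε N q D.card * (ex N (dl α ε))⁻¹ := by
        unfold th
        rw [← ex_neg, ← ex_add]
        apply ex_mono hN1'
        have h5 : dl α ε * (1 + ((q : ℝ) - D.card)) + dl α ε ≤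
            dl α ε * (1 + ((q : ℝ) - (D ∩ U).card)) := by nlinarith
        linarith
      have h6 : (ex N (dl α ε))⁻¹ ≤ 1 / 4 := by
        rw [inv_eq_one_div]
        exact one_div_le_one_div_of_le (by norm_num) a4
      have h7 : 0 < th α ε N q D.card := ex_pos _ _
      have h8 : th α ε N q D.card * (ex N (dl α ε))⁻¹ ≤ th α ε N q D.card * (1 / 4) :=
        mul_le_mul_of_nonneg_left h6 h7.le
      linarith
    · have h3 := hctl.2 (D ∩ U) hx (by omega)
      refine h3.trans ?_
      have he0 := e0_le (ε := ε) h0 h1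
      have h4 : ex N (-2) ≤ ex N (-(e0 α ε)) * (ex N 1)⁻¹ := by
        rw [← ex_neg, ← ex_add]
        apply ex_mono hN1'
        linarith
      have h6 : (ex N 1)⁻¹ ≤ 1 / 2 := by
        rw [inv_eq_one_div]
        exact one_div_le_one_div_of_le (by norm_num) a2
      have h7 : 0 < ex N (-(e0 α ε)) := ex_pos _ _
      have h8 : ex N (-(e0 α ε)) * (ex N 1)⁻¹ ≤ ex N (-(e0 α ε)) * (1 / 2) :=
        mul_le_mul_of_nonneg_left h6 h7.le
      linarith
  linarith

end Pool.Agent.LibCA69
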