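import Pool.Agent.LibCA69.Ctl

/-!
# Task DICH: declared sets are almost disjoint or almost equal
-/

set_option autoImplicit false

namespace Pool.Agent.LibCA69

open Finset Filter Pool.Agent.H69.Clique

/-- The potential of two pieces. -/
theorem pot_two_dich {E : Type} [Fintype E] [DecidableEq E] (p p' : Piece E) (R B : Finset E) :
    pot [p', p] R B = cst p'.x p'.P.card p'.a * wgt (2 * p'.x - 1) (p'.P \ p.P) R B *
      (cst p.x p.P.card p.a * wgt (2 * p.x - 1) p.P R B) := by
  simp [pot, used]

theorem vv_le_dich {α : ℝ} (h0 : 1 / 2 < α) (h1 : α < 1) {q N : ℕ} {R B : Finset (Edge N)}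
    (hd : Disjoint R B) (D : Finset (Fin N)) :
    vv α q D R B ≤ cst α (inside D).card (tgt α q D.card) * wgt (2 * α - 1) (inside D) R B :=
  markov h0.le h1 _ _ _ _ hd

/-- Otherwise the term of `(D, D')` in `Phi2a` or `Phi2b` is at least `1` (`markov`, `wgt_sdiff`,
`ex_le_vv`, `part_val`). -/
theorem dichotomy {α ε : ℝ} (h0 : 1 / 2 < α) (h1 : α < 1) (hε : 0 < ε) (hε1 : ε ≤ 1) :
    ∀ᶠ q : ℕ in atTop, ∀ N : ℕ, Reg α ε q N → ∀ R B : Finset (Edge N), Disjoint R B →
      Ctl α ε q R B → Phi2a α ε N q R B < 1 → Phi2b α ε N q R B < 1 →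
      ∀ D D' : Finset (Fin N), Dc α ε q R B D → Dc α ε q R B D' → D ≠ D' →
      (D ∩ D').card ≤ 16 ∨ q ≤ (D ∩ D').card + I2 α := by
  classical
  filter_upwards [part_val h0 h1 hε hε1, N_large h0 h1, eventually_ge_atTop 1]
    with q hpv hNl hq1 N hReg R B hd hCtl h2a h2b D D' hD hD' hne
  have hN1 : 1 ≤ N := by
    have := (hNl N hReg.1).2
    omega
  by_contra hcon
  push Not at hcon
  obtain ⟨hc1, hc2⟩ := hcon
  have hvD := ex_le_vv h0 h1 hε hN1 hD
  have hvD' := ex_le_vv h0 h1 hε hN1 hD'
  have hmD := hvD.trans (vv_le_dich h0 h1 hd D)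
  have hmD' := hvD'.trans (vv_le_dich h0 h1 hd D')
  have hex := ex_pos N (-(e0 α ε))
  by_cases hx : ((D ∩ D').card : ℝ) < x0 α * q
  · -- small intersection
    apply absurd h2a
    rw [not_lt]
    have hterm : 1 ≤ ex N (2 * e0 α ε) * 2 ^ ((D ∩ D').card.choose 2) *
        pot [⟨α, inside D', tgt α q D'.card⟩, ⟨α, inside D, tgt α q D.card⟩] R B := by
      rw [pot_two_dich]
      simp only
      have hw := wgt_sdiff (by linarith : 0 ≤ 2 * α - 1) (by linarith) (inside D') (inside D) R B hd
      rw [← inside_inter, card_inside, inter_comm D' D] at hw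
      have g1 : ex N (-(e0 α ε)) ≤ 2 ^ ((D ∩ D').card.choose 2) *
          (cst α (inside D').card (tgt α q D'.card) *
            wgt (2 * α - 1) (inside D' \ inside D) R B) := by
        refine hmD'.trans ?_
        calc cst α (inside D').card (tgt α q D'.card) * wgt (2 * α - 1) (inside D') R B
            ≤ cst α (inside D').card (tgt α q D'.card) * (2 ^ ((D ∩ D').card.choose 2) *
              wgt (2 * α - 1) (inside D' \ inside D) R B) :=
              mul_le_mul_of_nonneg_left hw (cst_pos _ _ _).le
          _ = _ := by ring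
      have g2 : ex N (2 * e0 α ε) * (ex N (-(e0 α ε)) * ex N (-(e0 α ε))) = 1 := by
        rw [← ex_add, ← ex_add, ← ex_zero N]
        congr 1
        ring
      calc (1 : ℝ) = ex N (2 * e0 α ε) * (ex N (-(e0 α ε)) * ex N (-(e0 α ε))) := g2.symm
        _ ≤ ex N (2 * e0 α ε) * ((2 ^ ((D ∩ D').card.choose 2) *
          (cst α (inside D').card (tgt α q D'.card) *
            wgt (2 * α - 1) (inside D' \ inside D) R B)) *
            (cst α (inside D).card (tgt α q D.card) * wgt (2 * α - 1) (inside D) R B)) := by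
            apply mul_le_mul_of_nonneg_left _ (ex_pos _ _).le
            exact mul_le_mul g1 hmD hex.le (hex.le.trans g1)
        _ = _ := by ring
    have hnn : ∀ D ∈ univ.filter (fun D : Finset (Fin N) => InR α q D),
        ∀ D' ∈ univ.filter (fun D' : Finset (Fin N) => InR α q D' ∧ 16 < (D ∩ D').card ∧
        ((D ∩ D').card : ℝ) < x0 α * q), 0 ≤ ex N (2 * e0 α ε) * 2 ^ ((D ∩ D').card.choose 2) *
        pot [⟨α, inside D', tgt α q D'.card⟩, ⟨α, inside D, tgt α q D.card⟩] R B := by
      intro D _ D' _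
      have h3 : 0 ≤ pot [⟨α, inside D', tgt α q D'.card⟩, ⟨α, inside D, tgt α q D.card⟩] R B := by
        apply pot_nonneg
        intro p hp
        simp only [List.mem_cons, List.not_mem_nil, or_false] at hp
        rcases hp with rfl | rfl
        · exact ⟨h0.le, h1.le⟩
        · exact ⟨h0.le, h1.le⟩
      have h4 := (ex_pos N (2 * e0 α ε)).le
      positivity
    unfold Phi2a
    refine hterm.trans ?_
    refine le_trans ?_ (single_le_sum (fun D hD => sum_nonneg (hnn D hD))
      (mem_filter.2 ⟨mem_univ D, hD.1⟩))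
    exact single_le_sum (f := fun D' : Finset (Fin N) => ex N (2 * e0 α ε) *
        2 ^ ((D ∩ D').card.choose 2) *
        pot [⟨α, inside D', tgt α q D'.card⟩, ⟨α, inside D, tgt α q D.card⟩] R B)
      (fun D' hD' => hnn D (mem_filter.2 ⟨mem_univ D, hD.1⟩) D' hD')
      (mem_filter.2 ⟨mem_univ D', hD'.1, hc1, hx⟩)
  · -- large intersection
    rw [not_lt] at hx
    apply absurd h2b
    rw [not_lt]
    have hI : I1 α ≤ I2 α := by
      unfold I2
      omega
    have hsub : ¬ D' ⊆ D := by
      intro hs
      have h3 : (D ∩ D').card = D'.card := by rw [inter_eq_right.2 hs]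
      have h4 := hD'.1.1
      omega
    have hx' : x0 α * q ≤ ((D' ∩ D).card : ℝ) := by rwa [inter_comm]
    have hpart := hpv N hReg R B hd hCtl D' D hD' hx' hsub
    have hlev1 : 1 / 2 ≤ lev α q (D' ∩ D).card :=
      lev_ge h0 h1 q _ ((card_le_card inter_subset_left).trans hD'.1.2) hq1
    have hlev2 := lev_le h0 h1 q (D' ∩ D).card
    have hmk := hpart.trans (markov (x := lev α q (D' ∩ D).card) hlev1 (by linarith)
      (part α q D D').a (part α q D D').P R B hd)
    have hterm : 1 ≤ 2 * ex N (2 * e0 α ε) * pot [part α q D D', whole α q D] R B := by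
      rw [pot_two_dich]
      have hP : (part α q D D').P \ (whole α q D).P = (part α q D D').P := by
        unfold part whole priv
        simp
      rw [hP]
      have g2 : 2 * ex N (2 * e0 α ε) * (ex N (-(e0 α ε)) / 2 * ex N (-(e0 α ε))) = 1 := by
        have g3 : ex N (2 * e0 α ε) * (ex N (-(e0 α ε)) * ex N (-(e0 α ε))) = 1 := by
          rw [← ex_add, ← ex_add, ← ex_zero N]
          congr 1
          ring
        linarith
      refine g2.ge.trans ?_
      apply mul_le_mul_of_nonneg_left _ (by have := (ex_pos N (2 * e0 α ε)).le; positivity)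
      apply mul_le_mul hmk hmD hex.le
      exact le_trans (by positivity) hmk
    have hnn : ∀ D ∈ univ.filter (fun D : Finset (Fin N) => InR α q D),
        ∀ D' ∈ univ.filter (fun D' : Finset (Fin N) => InR α q D' ∧
      x0 α * q ≤ ((D' ∩ D).card : ℝ) ∧ (D' ∩ D).card + I2 α < q),
        0 ≤ 2 * ex N (2 * e0 α ε) * pot [part α q D D', whole α q D] R B := by
      intro D _ D' hD'
      rw [mem_filter] at hD'
      have h3 : 0 ≤ pot [part α q D D', whole α q D] R B := by
        apply pot_nonneg
        intro p hp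
        simp only [List.mem_cons, List.not_mem_nil, or_false] at hp
        rcases hp with rfl | rfl
        · refine ⟨lev_ge h0 h1 q _ ((card_le_card inter_subset_left).trans hD'.2.1.2) hq1, ?_⟩
          exact (lev_le h0 h1 q _).trans h1.le
        · exact ⟨h0.le, h1.le⟩
      have h4 := (ex_pos N (2 * e0 α ε)).le
      positivity
    unfold Phi2b
    refine hterm.trans ?_
    refine le_trans ?_ (single_le_sum (fun D hD => sum_nonneg (hnn D hD))
      (mem_filter.2 ⟨mem_univ D, hD.1⟩))
    exact single_le_sum (f := fun D' : Finset (Fin N) => 2 * ex N (2 * e0 α ε) *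
        pot [part α q D D', whole α q D] R B)
      (fun D' hD' => hnn D (mem_filter.2 ⟨mem_univ D, hD.1⟩) D' hD')
      (mem_filter.2 ⟨mem_univ D', hD'.1, hx', by rw [inter_comm]; exact hc2⟩)

end Pool.Agent.LibCA69
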