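import Mathlib
import Pool.Agent.H69.CliqueFinal

/-!
# The exact value
Task EXACT1 (`hasDense_pred`).
-/

set_option autoImplicit false

namespace Pool.Agent.LibCA69

open Finset Filter Pool.Agent.H69.Clique Topology

lemma mem_inside_exact1 {N : ℕ} (A : Finset (Fin N)) (e : Edge N) :
    e ∈ inside A ↔ ∀ v ∈ e.1, v ∈ A := by
  simp [inside]

lemma card_miss_exact1 {N : ℕ} (A : Finset (Fin N)) (e : Edge N) (he : e ∈ inside A) :
    (A.filter (fun v => v ∉ e.1)).card = A.card - 2 := by
  classical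
  rw [mem_inside_exact1] at he
  obtain ⟨e, hd⟩ := e
  induction e using Sym2.ind with
  | _ a b =>
    have hab : a ≠ b := by simpa using hd
    have ha : a ∈ A := he a (by simp)
    have hb : b ∈ A := he b (by simp)
    have e1 : A.filter (fun v => v ∉ s(a, b)) = (A.erase a).erase b := by
      ext v
      simp only [mem_filter, Sym2.mem_iff, not_or, mem_erase]
      tauto
    change (A.filter (fun v => v ∉ s(a, b))).card = A.card - 2
    rw [e1, card_erase_of_mem (mem_erase.mpr ⟨hab.symm, hb⟩), card_erase_of_mem ha]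
    omega

/-- A dense set with `q + 1` vertices contains one with `q` vertices (average over the removed
vertex: `∑_{v ∈ A} |R ∩ inside (A \ v)| = (q - 1) |R ∩ inside A|`, and
`(q + 1) C(q,2) = (q - 1) C(q+1,2)`). -/
lemma hasDense_pred {α : ℝ} (h0 : 0 ≤ α) (N q : ℕ) (R : Finset (Edge N))
    (h : HasDense N α (q + 1) R) : HasDense N α q R := by
  classical
  have _ := h0
  obtain ⟨A, hA, hd⟩ := h
  by_cases hq : q ≤ 1
  · have hne : A.Nonempty := by
      rw [← card_pos, hA]
      omega
    obtain ⟨v, hv⟩ := hne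
    refine ⟨A.erase v, ?_, ?_⟩
    · rw [card_erase_of_mem hv, hA]
      rfl
    · have h1 : q.choose 2 = 0 := Nat.choose_eq_zero_of_lt (by omega)
      rw [h1]
      simp
  · by_contra hcon
    have hlt : ∀ v ∈ A, ((R ∩ inside (A.erase v)).card : ℝ) < α * (q.choose 2 : ℝ) := by
      intro v hv
      by_contra h2
      apply hcon
      refine ⟨A.erase v, ?_, not_lt.mp h2⟩
      rw [card_erase_of_mem hv, hA]
      rfl
    have hsum : ∑ v ∈ A, (R ∩ inside (A.erase v)).card = (R ∩ inside A).card * (q - 1) := by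
      have e1 : ∀ v ∈ A, (R ∩ inside (A.erase v)).card =
          ((R ∩ inside A).filter (fun e => v ∉ e.1)).card := by
        intro v _
        congr 1
        ext e
        simp only [mem_inter, mem_filter, mem_inside_exact1, mem_erase]
        constructor
        · rintro ⟨h1, h2⟩
          exact ⟨⟨h1, fun w hw => (h2 w hw).2⟩, fun hv => (h2 v hv).1 rfl⟩
        · rintro ⟨⟨h1, h2⟩, h3⟩
          exact ⟨h1, fun w hw => ⟨fun hwv => h3 (hwv ▸ hw), h2 w hw⟩⟩
      rw [sum_congr rfl e1]
      have e2 : ∑ v ∈ A, ((R ∩ inside A).filter (fun e => v ∉ e.1)).card =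
          ∑ e ∈ R ∩ inside A, (A.filter (fun v => v ∉ e.1)).card := by
        simp only [card_filter]
        exact sum_comm
      rw [e2, sum_congr rfl fun e he => card_miss_exact1 A e (mem_inter.mp he).2, sum_const,
        smul_eq_mul, hA]
      rfl
    have hne : A.Nonempty := by
      rw [← card_pos, hA]
      omega
    have h3 : ∑ v ∈ A, ((R ∩ inside (A.erase v)).card : ℝ) < ∑ v ∈ A, α * (q.choose 2 : ℝ) :=
      sum_lt_sum_of_nonempty hne hlt
    rw [sum_const, nsmul_eq_mul, hA] at h3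
    have h4 : ∑ v ∈ A, ((R ∩ inside (A.erase v)).card : ℝ) =
        ((R ∩ inside A).card : ℝ) * ((q : ℝ) - 1) := by
      have h5 : ((∑ v ∈ A, (R ∩ inside (A.erase v)).card : ℕ) : ℝ) =
          (((R ∩ inside A).card * (q - 1) : ℕ) : ℝ) := by rw [hsum]
      push_cast [Nat.cast_sub (show 1 ≤ q by omega)] at h5
      exact h5
    rw [h4] at h3
    -- `(q + 1) C(q, 2) = (q - 1) C(q + 1, 2)`
    have h6 : ((q + 1 : ℕ) : ℝ) * (q.choose 2 : ℝ) =
        ((q : ℝ) - 1) * ((q + 1).choose 2 : ℝ) := by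
      rw [Nat.cast_choose_two, Nat.cast_choose_two]
      push_cast
      ring
    have hq1 : (0 : ℝ) < (q : ℝ) - 1 := by
      have : (1 : ℝ) < q := by exact_mod_cast (by omega : 1 < q)
      linarith
    have h7 : ((R ∩ inside A).card : ℝ) * ((q : ℝ) - 1) <
        (α * ((q + 1).choose 2 : ℝ)) * ((q : ℝ) - 1) := by
      calc _ < ((q + 1 : ℕ) : ℝ) * (α * (q.choose 2 : ℝ)) := h3
        _ = α * (((q + 1 : ℕ) : ℝ) * (q.choose 2 : ℝ)) := by ring
        _ = _ := by rw [h6]; ring
    have h8 := lt_of_mul_lt_mul_right h7 hq1.le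
    exact absurd hd (not_le.mpr h8)

lemma guarantees_anti {α : ℝ} (h0 : 0 ≤ α) (N : ℕ) {q q' : ℕ} (hq : q ≤ q')
    (h : MakerGuarantees (HasDense N α q')) : MakerGuarantees (HasDense N α q) := by
  induction q', hq using Nat.le_induction with
  | base => exact h
  | succ k _ ih =>
    apply ih
    obtain ⟨σ, hσ, hW⟩ := h
    exact ⟨σ, hσ, fun τ hτ => hasDense_pred h0 N k _ (hW τ hτ)⟩

end Pool.Agent.LibCA69
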