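import Mathlib

/-!
# A sequence of integers close to a sequence of reals
Task FLOOR (only Mathlib).
-/

set_option autoImplicit false

namespace Pool.Agent.LibCA69

open Finset Filter Topology

/-- If `A` lies between `⌊Q - ε⌋` and `⌊Q + ε⌋` eventually for every `ε > 0`, then
`A = ⌊Q + o(1)⌋`. -/
lemma floor_lemma (A : ℕ → ℤ) (Q : ℕ → ℝ)
    (h : ∀ ε : ℝ, 0 < ε → ε < 1 / 4 → ∀ᶠ N in atTop, ⌊Q N - ε⌋ ≤ A N ∧ A N ≤ ⌊Q N + ε⌋) :
    ∃ e : ℕ → ℝ, Tendsto e atTop (𝓝 0) ∧ ∀ᶠ N in atTop, A N = ⌊Q N + e N⌋ := by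
  classical
  set e : ℕ → ℝ := fun N => if (A N : ℝ) > Q N then (A N : ℝ) - Q N
    else if (A N : ℝ) + 1 ≤ Q N then (A N : ℝ) + 1 - Q N - 1 / ((N : ℝ) + 2) else 0 with he
  refine ⟨e, ?_, ?_⟩
  · rw [Metric.tendsto_atTop]
    intro η hη
    have hη' : 0 < min (η / 2) (1 / 8) := by positivity
    obtain ⟨n1, hn1⟩ := eventually_atTop.1 (h (min (η / 2) (1 / 8)) hη'
      (lt_of_le_of_lt (min_le_right _ _) (by norm_num)))
    have hlim : Tendsto (fun N : ℕ => 1 / ((N : ℝ) + 2)) atTop (𝓝 0) := by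
      have h1 : Tendsto (fun N : ℕ => (N : ℝ) + 2) atTop atTop :=
        tendsto_atTop_add_const_right _ _ tendsto_natCast_atTop_atTop
      have h2 := h1.inv_tendsto_atTop
      simp only [one_div]
      exact h2
    obtain ⟨n2, hn2⟩ := (Metric.tendsto_atTop.1 hlim) (η / 2) (by linarith)
    refine ⟨max n1 n2, fun N hN => ?_⟩
    obtain ⟨a1, a2⟩ := hn1 N (le_trans (le_max_left _ _) hN)
    have a3 := hn2 N (le_trans (le_max_right _ _) hN)
    rw [Real.dist_eq, sub_zero] at a3 ⊢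
    have hpos : (0 : ℝ) < 1 / ((N : ℝ) + 2) := by positivity
    rw [abs_of_pos hpos] at a3
    have b1 : Q N - min (η / 2) (1 / 8) < A N + 1 := by
      have := Int.lt_floor_add_one (Q N - min (η / 2) (1 / 8))
      have h2 : ((⌊Q N - min (η / 2) (1 / 8)⌋ : ℤ) : ℝ) ≤ A N := by exact_mod_cast a1
      linarith
    have b2 : (A N : ℝ) ≤ Q N + min (η / 2) (1 / 8) := by
      have := Int.floor_le (Q N + min (η / 2) (1 / 8))
      have h2 : (A N : ℝ) ≤ ((⌊Q N + min (η / 2) (1 / 8)⌋ : ℤ) : ℝ) := by exact_mod_cast a2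
      linarith
    have b3 : min (η / 2) (1 / 8) ≤ η / 2 := min_le_left _ _
    rw [he]
    simp only
    split_ifs with c1 c2
    · rw [abs_lt]
      constructor <;> linarith
    · rw [abs_lt]
      constructor <;> linarith
    · simpa using hη
  · refine Eventually.of_forall (fun N => ?_)
    rw [he]
    simp only
    have hpos : (0 : ℝ) < 1 / ((N : ℝ) + 2) := by positivity
    have hle : 1 / ((N : ℝ) + 2) ≤ 1 / 2 := by
      apply one_div_le_one_div_of_le (by norm_num)
      have : (0 : ℝ) ≤ N := Nat.cast_nonneg N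
      linarith
    symm
    rw [Int.floor_eq_iff]
    split_ifs with c1 c2
    · constructor <;> linarith
    · constructor <;> linarith
    · push Not at c1 c2
      constructor <;> linarith

end Pool.Agent.LibCA69
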