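import Pool.Agent.LibCA69.TopP

/-!
# One term of `Phi4b`
Task TOP4B.
-/

set_option autoImplicit false

namespace Pool.Agent.LibCA69

open Finset Filter Pool.Agent.H69.Clique

/-- One term of the sum `Phi4b` is at most the sum; like `phi5_term` (TopP.lean), with the sums over
`H` and `r` too. The levels of the pieces are `lev α q (H ∩ A).card ∈ [1/2, α]` (`lev_ge`,
`lev_le`; for the other `H` of the sum the filter gives `(H ∩ A).card ≤ q` as `A.card = q`) and `α`. -/
theorem phi4b_term {N : ℕ} {α : ℝ} (ε : ℝ) (h0 : 1 / 2 < α) (h1 : α < 1) {q : ℕ} (hq : 1 ≤ q)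
    (A H : Finset (Fin N)) (hA : A.card = q) (hH : InR α q H)
    (hH2 : x0 α * q ≤ ((H ∩ A).card : ℝ)) (hH3 : (H ∩ A).card + I3 α < q)
    (l : List (Finset (Fin N))) (hl : l.length ≤ Rmax α ε q) (R B : Finset (Edge N)) :
    2 * ex N (e0 α ε) * Bh α q (H \ A).card * Bn α q * Wt (W4 α ε N q A H) l *
      pot (lightP α q [part α q A H, whole α q A] l) R B ≤ Phi4b α ε N q R B := by
  classical
  have hl' : l ∈ LL (Finset (Fin N)) l.length := (mem_LL _ _).2 rfl
  have hr' : l.length ∈ range (Rmax α ε q + 1) := mem_range.2 (by omega)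
  have hA' : A ∈ powersetCard q (univ : Finset (Fin N)) := mem_powersetCard.2 ⟨subset_univ _, hA⟩
  have hW5 : ∀ (A H : Finset (Fin N)) l D, 0 ≤ W5 α ε N q A H l D := fun A H l D => by
    unfold W5; split_ifs
    · exact mul_nonneg (by positivity) (ex_pos _ _).le
    · exact le_rfl
  have hW : ∀ (A H : Finset (Fin N)) l, 0 ≤ Wt (W4 α ε N q A H) l := fun A H l =>
    Wt_nonneg _ (fun l D => by
      unfold W4
      exact mul_nonneg (hW5 A H l D) (mul_nonneg (by positivity) (ex_pos _ _).le)) l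
  have hx : ∀ (A H : Finset (Fin N)), (H ∩ A).card ≤ q → ∀ (l : List (Finset (Fin N))),
      ∀ p ∈ lightP α q [part α q A H, whole α q A] l, 1 / 2 ≤ p.x ∧ p.x ≤ 1 := by
    intro A H hAH l
    induction l with
    | nil =>
      intro p hp
      simp only [lightP, List.mem_cons, List.not_mem_nil, or_false] at hp
      rcases hp with rfl | rfl
      · exact ⟨lev_ge h0 h1 q _ hAH hq, (lev_le h0 h1 q _).trans h1.le⟩
      · exact ⟨h0.le, h1.le⟩
    | cons D l ih =>
      intro p hp
      simp only [lightP, List.mem_cons] at hp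
      rcases hp with rfl | hp
      · exact ⟨h0.le, h1.le⟩
      · exact ih p hp
  have hBn : 0 ≤ Bn α q := by
    unfold Bn bS cS
    positivity
  have hBh : ∀ y, 0 ≤ Bh α q y := by
    intro y
    unfold Bh bS cS
    positivity
  have hnn : ∀ (A H : Finset (Fin N)), (H ∩ A).card ≤ q → ∀ (l : List (Finset (Fin N))),
      0 ≤ 2 * ex N (e0 α ε) * Bh α q (H \ A).card * Bn α q * Wt (W4 α ε N q A H) l *
      pot (lightP α q [part α q A H, whole α q A] l) R B :=
    fun A H hAH l => mul_nonneg (mul_nonneg (mul_nonneg (mul_nonneg (mul_nonneg zero_le_two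
      (ex_pos _ _).le) (hBh _)) hBn) (hW A H l)) (pot_nonneg _ (hx A H hAH l) R B)
  have hle : ∀ (A H : Finset (Fin N)), A.card = q → (H ∩ A).card ≤ q := fun A H hA => by
    rw [← hA]
    exact card_le_card inter_subset_right
  have hH' : H ∈ univ.filter (fun H : Finset (Fin N) => InR α q H ∧
      x0 α * q ≤ ((H ∩ A).card : ℝ) ∧ (H ∩ A).card + I3 α < q) :=
    mem_filter.2 ⟨mem_univ _, hH, hH2, hH3⟩
  unfold Phi4b
  refine le_trans ?_ (single_le_sum (f := fun A =>
    ∑ H ∈ univ.filter (fun H : Finset (Fin N) => InR α q H ∧ x0 α * q ≤ ((H ∩ A).card : ℝ) ∧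
      (H ∩ A).card + I3 α < q), ∑ r ∈ range (Rmax α ε q + 1),
    ∑ l ∈ LL (Finset (Fin N)) r, 2 * ex N (e0 α ε) * Bh α q (H \ A).card * Bn α q *
      Wt (W4 α ε N q A H) l * pot (lightP α q [part α q A H, whole α q A] l) R B)
    (fun A hA2 => sum_nonneg (fun H _ => sum_nonneg (fun r _ => sum_nonneg
      (fun l _ => hnn A H (hle A H (mem_powersetCard.1 hA2).2) l)))) hA')
  refine le_trans ?_ (single_le_sum (f := fun H => ∑ r ∈ range (Rmax α ε q + 1),
    ∑ l ∈ LL (Finset (Fin N)) r, 2 * ex N (e0 α ε) * Bh α q (H \ A).card * Bn α q *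
      Wt (W4 α ε N q A H) l * pot (lightP α q [part α q A H, whole α q A] l) R B)
    (fun H _ => sum_nonneg (fun r _ => sum_nonneg (fun l _ => hnn A H (hle A H hA) l))) hH')
  refine le_trans ?_ (single_le_sum (f := fun r => ∑ l ∈ LL (Finset (Fin N)) r,
    2 * ex N (e0 α ε) * Bh α q (H \ A).card * Bn α q *
      Wt (W4 α ε N q A H) l * pot (lightP α q [part α q A H, whole α q A] l) R B)
    (fun r _ => sum_nonneg (fun l _ => hnn A H (hle A H hA) l)) hr')
  exact single_le_sum (f := fun l => 2 * ex N (e0 α ε) * Bh α q (H \ A).card * Bn α q *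
      Wt (W4 α ε N q A H) l * pot (lightP α q [part α q A H, whole α q A] l) R B)
    (fun l _ => hnn A H (hle A H hA) l) hl'

end Pool.Agent.LibCA69
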