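import Pool.Agent.LibCA69.Top4A
import Pool.Agent.LibCA69.Top4B

/-!
# Breaker's side, assembly
-/

set_option autoImplicit false

namespace Pool.Agent.LibCA69

open Finset Filter Pool.Agent.H69.Clique

theorem exists_list {α : Type} [DecidableEq α] (s : Finset α) (P : α → α → Prop)
    (hP : ∀ a ∈ s, ∀ b ∈ s, a ≠ b → P a b) :
    ∃ l : List α, l.length = s.card ∧ (∀ a, a ∈ l ↔ a ∈ s) ∧ l.Pairwise P ∧
      ∀ f : α → ℝ, (l.map f).prod = ∏ a ∈ s, f a := by
  refine ⟨s.toList, length_toList s, fun a => mem_toList, ?_, fun f => prod_map_toList s f⟩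
  have h := s.nodup_toList
  unfold List.Nodup at h
  refine List.Pairwise.imp_of_mem ?_ h
  intro a b ha hb hab
  exact hP a (mem_toList.1 ha) b (mem_toList.1 hb) hab

theorem no_dense {α ε : ℝ} (h0 : 1 / 2 < α) (h1 : α < 1) (hε : 0 < ε) (hε1 : ε ≤ 1) :
    ∀ᶠ q : ℕ in atTop, ∀ N : ℕ, Reg α ε q N → ∀ R B Rb Bb L, Cfg α ε N q R B Rb Bb L →
      ¬ HasDense N α q R := by
  classical
  filter_upwards [exists_rep h0 h1 hε hε1, split_prod h0 h1 hε hε1, split_prod' h0 h1 hε hε1,
    fin_num h0 h1 hε, part_val h0 h1 hε hε1, N_large h0 h1, eventually_ge_atTop 1]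
    with q hrep hsplit hsplit' hfin hpart hNl hq N hReg R B Rb Bb L hC
  rintro ⟨A, hA, hdens⟩
  obtain ⟨hN2q, hN2⟩ := hNl N hReg.1
  have hN1 : 1 ≤ N := by omega
  have hd := cfg_disj hC
  have hctl := cfg_ctl h0 h1 hq hC
  obtain ⟨p1, p2a, p2b, p3, p4a, p4b, p5⟩ := cfg_phi h0 h1 hq hC
  obtain ⟨P, hP⟩ := hrep N hReg R B Rb Bb L hC A
  have hPdc : ∀ r ∈ P, Dc α ε q Rb Bb r := by
    intro r hr
    obtain ⟨y, hy, rfl⟩ := hP.mem r hr
    exact cfg_dc hC y (mem_att.1 hy).1
  have hP2 := two_le_rep hC A P hP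
  have hcls := prod_cls hq A L P hP
  have hαl : α ∈ lvls α q := mem_insert_self _ _
  set vA := pot [whole α q A] Rb Bb with hvA
  have hvA' : vA = cst α (q.choose 2) (α * (q.choose 2 : ℕ)) *
      wgt (2 * α - 1) (inside A) Rb Bb := pot_whole α q A hA Rb Bb
  have hvA0 : 0 ≤ vA := by
    rw [hvA']
    exact mul_nonneg (cst_pos _ _ _).le (wgt_nonneg (by linarith) (by linarith) _ _ _)
  have hfi := final_ineq h0 h1 hq hC A hA hdens α hαl h0.le h1
  rw [← hvA'] at hfi
  set M := ∏ y ∈ att A L, mm α q A y with hM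
  set Lt := P.filter (fun r => ((r ∩ A).card : ℝ) < x0 α * q) with hLt
  have hLtmem : ∀ r ∈ Lt, r ∈ P ∧ ((r ∩ A).card : ℝ) < x0 α * q := fun r hr => mem_filter.1 hr
  have hbase : ∀ p ∈ [whole α q A], 1 / 2 ≤ p.x ∧ p.x ≤ 1 := by
    intro p hp
    rw [List.mem_singleton] at hp
    subst hp
    exact ⟨h0.le, h1.le⟩
  -- step 1: there are at most `Rmax` light representatives
  have step1 : Lt.card ≤ Rmax α ε q := by
    by_contra hcon
    push Not at hcon
    obtain ⟨T, hT, hTc⟩ := exists_subset_card_eq hcon.le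
    obtain ⟨l, hl1, hl2, hl3, -⟩ := exists_list T (fun D D' => (D ∩ D').card ≤ 16)
      (fun a ha b hb hab => hP.sep a (hLtmem a (hT ha)).1 b (hLtmem b (hT hb)).1 hab)
    rw [hTc] at hl1
    have h5 := phi5_term ε h0 h1 A hA l hl1 Rb Bb
    have hre := light_real h0 h1 hε hN1 Rb Bb hd A ∅ hA (by simp) [whole α q A] hbase
      (by simp [used, whole]) l hl1.le hl3 (by
        intro D hD
        have hDT := hT ((hl2 D).1 hD)
        exact ⟨hPdc D (hLtmem D hDT).1, hP2 D (hLtmem D hDT).1, (hLtmem D hDT).2, by simp⟩)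
    have hM2 := prod_mm_le α hq hC A hA
    have : (1 : ℝ) ≤ 2 ^ (q.choose 2) * Wt (W5 α ε N q A ∅) l *
        pot (lightP α q [whole α q A] l) Rb Bb := by
      calc (1 : ℝ) ≤ vA * M := hfi
        _ ≤ vA * 2 ^ (q.choose 2) := mul_le_mul_of_nonneg_left hM2 hvA0
        _ ≤ (Wt (W5 α ε N q A ∅) l * pot (lightP α q [whole α q A] l) Rb Bb) *
            2 ^ (q.choose 2) := mul_le_mul_of_nonneg_right hre (by positivity)
        _ = _ := by ring
    linarith
  obtain ⟨l, hl1, hl2, hl3, hl4⟩ := exists_list Lt (fun D D' => (D ∩ D').card ≤ 16)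
    (fun a ha b hb hab => hP.sep a (hLtmem a ha).1 b (hLtmem b hb).1 hab)
  have hl1' : l.length ≤ Rmax α ε q := hl1.le.trans step1
  -- step 2: there is no heavy representative
  have step2 : ∀ r ∈ P, x0 α * q ≤ ((r ∩ A).card : ℝ) → ¬ (r ∩ A).card + I3 α < q := by
    intro r₀ hr₀ hx₀ hI₀
    set Hv := P.filter (fun r => x0 α * q ≤ ((r ∩ A).card : ℝ) ∧ (r ∩ A).card + I3 α < q) with hHv
    have hne : Hv.Nonempty := ⟨r₀, mem_filter.2 ⟨hr₀, hx₀, hI₀⟩⟩
    obtain ⟨H, hH, hmax⟩ := exists_max_image Hv (fun r => (r \ A).card) hne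
    obtain ⟨hHP, hHx, hHI⟩ := mem_filter.1 hH
    have hsp := hsplit N hReg R B Rb Bb L hC A hA P hP (H \ A).card
      (fun r hr a b => hmax r (mem_filter.2 ⟨hr, a, b⟩))
    have hHdc := hPdc H hHP
    have h4 := phi4b_term ε h0 h1 hq A H hA hHdc.1 hHx hHI l hl1' Rb Bb
    have hnsub : ¬ H ⊆ A := by
      intro hsub
      have e1 : (H ∩ A) = H := inter_eq_left.2 hsub
      rw [e1] at hHI
      have e2 := hHdc.1.1
      have e3 : I1 α ≤ I3 α := Nat.le_add_right _ _
      omega
    have hpv := hpart N hReg Rb Bb hd hctl H A hHdc hHx hnsub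
    have hHq : (H ∩ A).card ≤ q := by
      rw [← hA]
      exact card_le_card inter_subset_right
    have hlev1 := lev_ge h0 h1 q (H ∩ A).card hHq hq
    have hlev2 := lev_le h0 h1 q (H ∩ A).card
    have hmk := markov (x := (part α q A H).x) hlev1 (lt_of_le_of_lt hlev2 h1)
      (part α q A H).a (part α q A H).P Rb Bb hd
    have hb2 : ∀ p ∈ [part α q A H, whole α q A], 1 / 2 ≤ p.x ∧ p.x ≤ 1 := by
      intro p hp
      rw [List.mem_cons, List.mem_singleton] at hp
      rcases hp with rfl | rfl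
      · exact ⟨hlev1, hlev2.trans h1.le⟩
      · exact ⟨h0.le, h1.le⟩
    have hused : used [part α q A H, whole α q A] ⊆ inside A ∪ inside H := by
      simp only [used, union_empty]
      intro e he
      rw [mem_union] at he
      rw [mem_union]
      rcases he with he | he
      · right
        exact priv_subset _ _ he
      · left
        exact he
    have hre := light_real h0 h1 hε hN1 Rb Bb hd A H hA hHdc.1.2 [part α q A H, whole α q A] hb2
      hused l hl1' hl3 (by
        intro D hD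
        have hDT := (hl2 D).1 hD
        refine ⟨hPdc D (hLtmem D hDT).1, hP2 D (hLtmem D hDT).1, (hLtmem D hDT).2, ?_⟩
        apply hP.sep D (hLtmem D hDT).1 H hHP
        rintro rfl
        exact absurd (hLtmem D hDT).2 (not_lt.2 hHx))
    have hpb : pot [part α q A H, whole α q A] Rb Bb =
        cst (part α q A H).x (part α q A H).P.card (part α q A H).a *
          wgt (2 * (part α q A H).x - 1) (part α q A H).P Rb Bb * vA := by
      have e1 : (part α q A H).P \ inside A = (part α q A H).P := by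
        apply sdiff_eq_self_of_disjoint
        exact sdiff_disjoint
      rw [hvA]
      simp only [pot, used, union_empty]
      have e2 : (part α q A H).P \ (whole α q A).P = (part α q A H).P := e1
      rw [e2]
    have hWW := Wt_W4 α ε N q A H l
    rw [hl4] at hWW
    have hprodex : (∏ r ∈ Lt, (2 : ℝ) ^ (((r ∩ A).card + C1 α).choose 2)) ≤
        ∏ r ∈ Lt, (2 : ℝ) ^ (((r ∩ A).card + C1 α).choose 2) *
          ex N (ε / 4 + ((r ∩ A).card - 2) / 8) := by
      apply Finset.prod_le_prod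
      · intro r _
        positivity
      · intro r hr
        apply le_mul_of_one_le_right (by positivity)
        apply one_le_ex hN1
        have : (2 : ℝ) ≤ (r ∩ A).card := by exact_mod_cast hP2 r (hLtmem r hr).1
        have : 0 ≤ ((r ∩ A).card - 2 : ℝ) / 8 := by linarith
        linarith
    have hBn : 0 ≤ Bn α q := pow_nonneg (zero_le_one.trans (one_le_bS α q _ hq)) _
    have hBh : 0 ≤ Bh α q (H \ A).card := pow_nonneg (zero_le_one.trans (one_le_bS α q _ hq)) _
    set pl := ∏ r ∈ Lt, (2 : ℝ) ^ (((r ∩ A).card + C1 α).choose 2) with hpl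
    set pe := ∏ r ∈ Lt, (2 : ℝ) ^ (((r ∩ A).card + C1 α).choose 2) *
          ex N (ε / 4 + ((r ∩ A).card - 2) / 8) with hpe
    have hpl0 : 0 ≤ pl := prod_nonneg (fun _ _ => by positivity)
    have hex : ex N (e0 α ε) * ex N (-(e0 α ε)) = 1 := by
      rw [← ex_add, add_neg_cancel, ex_zero]
    have hpbge : ex N (-(e0 α ε)) / 2 * vA ≤ pot [part α q A H, whole α q A] Rb Bb := by
      rw [hpb]
      exact mul_le_mul_of_nonneg_right (hpv.trans hmk) hvA0
    have hpb0 : 0 ≤ pot [part α q A H, whole α q A] Rb Bb :=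
      le_trans (mul_nonneg (by have := ex_pos N (-(e0 α ε)); linarith) hvA0) hpbge
    have hM3 : M ≤ Bn α q * Bh α q (H \ A).card * pl := hcls.trans hsp
    have hBB : 0 ≤ 2 * ex N (e0 α ε) * Bh α q (H \ A).card * Bn α q :=
      mul_nonneg (mul_nonneg (mul_nonneg two_pos.le (ex_pos _ _).le) hBh) hBn
    have : (1 : ℝ) ≤ 2 * ex N (e0 α ε) * Bh α q (H \ A).card * Bn α q *
        Wt (W4 α ε N q A H) l * pot (lightP α q [part α q A H, whole α q A] l) Rb Bb := by
      rw [hWW]
      calc (1 : ℝ) ≤ vA * M := hfi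
        _ ≤ vA * (Bn α q * Bh α q (H \ A).card * pl) := mul_le_mul_of_nonneg_left hM3 hvA0
        _ = (2 * ex N (e0 α ε) * Bh α q (H \ A).card * Bn α q) * pl *
            (ex N (-(e0 α ε)) / 2 * vA) := by
            linear_combination (-(vA * (Bn α q * Bh α q (H \ A).card * pl))) * hex
        _ ≤ (2 * ex N (e0 α ε) * Bh α q (H \ A).card * Bn α q) * pe *
            pot [part α q A H, whole α q A] Rb Bb := by
            apply mul_le_mul (mul_le_mul_of_nonneg_left hprodex hBB) hpbge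
              (mul_nonneg (by have := ex_pos N (-(e0 α ε)); linarith) hvA0)
            exact mul_nonneg hBB (hpl0.trans hprodex)
        _ ≤ (2 * ex N (e0 α ε) * Bh α q (H \ A).card * Bn α q) * pe *
            (Wt (W5 α ε N q A H) l * pot (lightP α q [part α q A H, whole α q A] l) Rb Bb) := by
            apply mul_le_mul_of_nonneg_left hre
            exact mul_nonneg hBB (hpl0.trans hprodex)
        _ = _ := by ring
    linarith
  -- step 3: the light representatives
  have hsp := hsplit' N hReg R B Rb Bb L hC A hA P hP step2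
  set pl := ∏ r ∈ Lt, (2 : ℝ) ^ (((r ∩ A).card + C1 α).choose 2) with hpl
  have hpl0 : 0 ≤ pl := prod_nonneg (fun _ _ => by positivity)
  have hBn : 0 ≤ Bn α q := pow_nonneg (zero_le_one.trans (one_le_bS α q _ hq)) _
  have hM3 : M ≤ Bn α q * pl := hcls.trans hsp
  have step3 : ∑ r ∈ Lt, (ε / 4 + (((r ∩ A).card : ℝ) - 2) / 8) < 2 := by
    by_contra hcon
    push Not at hcon
    have h4 := phi4a_term ε h0 h1 hq A hA l hl1' Rb Bb
    have hre := light_real h0 h1 hε hN1 Rb Bb hd A ∅ hA (by simp) [whole α q A] hbase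
      (by simp [used, whole]) l hl1' hl3 (by
        intro D hD
        have hDT := (hl2 D).1 hD
        exact ⟨hPdc D (hLtmem D hDT).1, hP2 D (hLtmem D hDT).1, (hLtmem D hDT).2, by simp⟩)
    have hWW := Wt_W4 α ε N q A ∅ l
    rw [hl4, prod_mul_distrib] at hWW
    have hexs : ∏ r ∈ Lt, ex N (ε / 4 + (((r ∩ A).card : ℝ) - 2) / 8) =
        ex N (∑ r ∈ Lt, (ε / 4 + (((r ∩ A).card : ℝ) - 2) / 8)) := by
      unfold ex
      rw [sum_mul, Real.exp_sum]
    rw [hexs] at hWW
    have hge : 1 ≤ ex N (-2) * ex N (∑ r ∈ Lt, (ε / 4 + (((r ∩ A).card : ℝ) - 2) / 8)) := by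
      rw [← ex_add]
      apply one_le_ex hN1
      linarith
    have : (1 : ℝ) ≤ ex N (-2) * Bn α q * Wt (W4 α ε N q A ∅) l *
        pot (lightP α q [whole α q A] l) Rb Bb := by
      rw [hWW]
      calc (1 : ℝ) ≤ vA * M := hfi
        _ ≤ vA * (Bn α q * pl) := mul_le_mul_of_nonneg_left hM3 hvA0
        _ ≤ (ex N (-2) * ex N (∑ r ∈ Lt, (ε / 4 + (((r ∩ A).card : ℝ) - 2) / 8))) *
            (vA * (Bn α q * pl)) :=
            le_mul_of_one_le_left (mul_nonneg hvA0 (mul_nonneg hBn hpl0)) hge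
        _ ≤ (ex N (-2) * ex N (∑ r ∈ Lt, (ε / 4 + (((r ∩ A).card : ℝ) - 2) / 8))) *
            ((Wt (W5 α ε N q A ∅) l * pot (lightP α q [whole α q A] l) Rb Bb) *
              (Bn α q * pl)) := by
            apply mul_le_mul_of_nonneg_left _ (zero_le_one.trans hge)
            exact mul_le_mul_of_nonneg_right hre (mul_nonneg hBn hpl0)
        _ = _ := by ring
    linarith
  -- step 4: the end
  have hterm : ∀ r ∈ Lt, 0 ≤ (((r ∩ A).card : ℝ) - 2) / 8 := by
    intro r hr
    have : (2 : ℝ) ≤ (r ∩ A).card := by exact_mod_cast hP2 r (hLtmem r hr).1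
    linarith
  have hcardLt : Lt.card ≤ ⌈8 / ε⌉₊ := by
    have e1 : (Lt.card : ℝ) * (ε / 4) ≤ 2 := by
      rw [← nsmul_eq_mul, ← sum_const]
      refine (sum_le_sum (fun r hr => ?_)).trans step3.le
      have := hterm r hr
      linarith
    have e2 : (Lt.card : ℝ) ≤ 8 / ε := by
      rw [le_div_iff₀ hε]
      linarith
    exact_mod_cast e2.trans (Nat.le_ceil _)
  have hv17 : ∀ r ∈ Lt, (r ∩ A).card ≤ 17 := by
    intro r hr
    have e1 : ε / 4 + (((r ∩ A).card : ℝ) - 2) / 8 ≤
        ∑ r ∈ Lt, (ε / 4 + (((r ∩ A).card : ℝ) - 2) / 8) :=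
      single_le_sum (f := fun r => ε / 4 + (((r ∩ A).card : ℝ) - 2) / 8)
        (fun r hr => by have := hterm r hr; positivity) hr
    have e2 : ((r ∩ A).card : ℝ) < 18 := by linarith
    have e3 : (r ∩ A).card < 18 := by exact_mod_cast e2
    omega
  have hp2 : pl ≤ 2 ^ (((17 + C1 α).choose 2) * ⌈8 / ε⌉₊) := by
    calc pl ≤ ∏ r ∈ Lt, (2 : ℝ) ^ ((17 + C1 α).choose 2) := by
          apply Finset.prod_le_prod (fun _ _ => by positivity)
          intro r hr
          apply pow_le_pow_right₀ one_le_two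
          apply Nat.choose_le_choose
          have := hv17 r hr
          omega
      _ = (2 : ℝ) ^ (((17 + C1 α).choose 2) * Lt.card) := by rw [prod_const, ← pow_mul]
      _ ≤ _ := pow_le_pow_right₀ one_le_two (Nat.mul_le_mul_left _ hcardLt)
  have hcardA : (inside A).card ≤ q ^ 2 := by
    rw [card_inside, hA]
    exact (Nat.choose_le_pow q 2)
  have hinA : (inside A).card = q.choose 2 := by rw [card_inside, hA]
  rcases reverse_chernoff α q (α * (q.choose 2 : ℕ)) (inside A) Rb Bb hd hcardA with hlt | hx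
  · -- the target cannot be reached
    have e1 : (R ∩ inside A).card + (inside A ∩ Bb).card ≤ (inside A).card := by
      rw [← card_union_of_disjoint]
      · apply card_le_card
        apply union_subset inter_subset_right inter_subset_left
      · apply disjoint_of_subset_left inter_subset_left
        apply disjoint_of_subset_right inter_subset_right
        exact disjoint_of_subset_right hC.subB hC.disj
    have e2 : ((R ∩ inside A).card : ℝ) + (inside A ∩ Bb).card ≤ (inside A).card := by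
      exact_mod_cast e1
    linarith
  · obtain ⟨x, hxl, hx0, hx1, hxc⟩ := hx
    rw [hinA] at hxc
    have hfx := final_ineq h0 h1 hq hC A hA hdens x hxl hx0 hx1
    have hvv : val (α * (q.choose 2 : ℕ)) (inside A) Rb Bb < 2 * ex N (-(dl α ε)) := by
      have e1 := hctl.1 A ⟨by omega, hA.le⟩
      unfold vv th at e1
      rw [hA, tgt_self] at e1
      have e2 : -(dl α ε * (1 + ((q : ℝ) - q))) = -(dl α ε) := by ring
      rw [e2] at e1
      exact e1
    have hq2 : 0 < 4 * ((q : ℝ) ^ 2 + 1) ^ 2 := by positivity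
    have hM4 : M ≤ Bn α q * 2 ^ (((17 + C1 α).choose 2) * ⌈8 / ε⌉₊) :=
      hM3.trans (mul_le_mul_of_nonneg_left hp2 hBn)
    have hM0 : 0 ≤ M := prod_nonneg (fun y _ => zero_le_one.trans (one_le_mm α q hq A y))
    have hf := hfin N hReg.1
    have hexd : ex N (dl α ε) * ex N (-(dl α ε)) = 1 := by
      rw [← ex_add, add_neg_cancel, ex_zero]
    have hexn := ex_pos N (-(dl α ε))
    have : (1 : ℝ) < 1 := by
      calc (1 : ℝ) ≤ cst x (q.choose 2) (α * (q.choose 2 : ℕ)) *
            wgt (2 * x - 1) (inside A) Rb Bb * M := hfx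
        _ ≤ (4 * ((q : ℝ) ^ 2 + 1) ^ 2 * val (α * (q.choose 2 : ℕ)) (inside A) Rb Bb) * M :=
            mul_le_mul_of_nonneg_right hxc hM0
        _ ≤ (4 * ((q : ℝ) ^ 2 + 1) ^ 2 * (2 * ex N (-(dl α ε)))) *
            (Bn α q * 2 ^ (((17 + C1 α).choose 2) * ⌈8 / ε⌉₊)) := by
            apply mul_le_mul (mul_le_mul_of_nonneg_left hvv.le hq2.le) hM4 hM0
            positivity
        _ = (8 * ((q : ℝ) ^ 2 + 1) ^ 2 * Bn α q *
            2 ^ (((17 + C1 α).choose 2) * ⌈8 / ε⌉₊)) * ex N (-(dl α ε)) := by ring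
        _ < ex N (dl α ε) * ex N (-(dl α ε)) := mul_lt_mul_of_pos_right hf hexn
        _ = 1 := hexd
    exact absurd this (lt_irrefl _)

theorem breaker_exact {α ε : ℝ} (h0 : 1 / 2 < α) (h1 : α < 1) (hε : 0 < ε) (hε1 : ε ≤ 1) :
    ∀ᶠ q : ℕ in atTop, ∀ N : ℕ, Reg α ε q N → ¬ MakerGuarantees (HasDense N α q) :=
  breaker_of_final h0 h1 hε hε1 (no_dense h0 h1 hε hε1)

end Pool.Agent.LibCA69
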