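import Pool.Agent.LibCA69.Exact1
import Pool.Agent.LibCA69.Floor
import Pool.Agent.LibCA69.AsyB
import Pool.Agent.LibCA69.MakD
import Pool.Agent.LibCA69.Top

/-!
# The exact value
Nothing to do here.
-/

set_option autoImplicit false

namespace Pool.Agent.LibCA69

open Finset Filter Pool.Agent.H69.Clique Topology

lemma tendsto_Q {α : ℝ} (h0 : 1 / 2 < α) (h1 : α < 1) : Tendsto (fun N : ℕ => Q α N) atTop atTop := by
  have hb := be_pos h0 h1
  have hlim : Tendsto (fun N : ℕ => Real.log N / be α) atTop atTop :=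
    tendsto_log_cast.atTop_div_const hb
  exact tendsto_atTop_mono' atTop ((Q_bounds h0 h1).mono (fun N h => h.1)) hlim

/-- Every statement that holds for all large `q` holds for all `q` near `Q α N`, `N` large. -/
lemma ev_near {α C : ℝ} (h0 : 1 / 2 < α) (h1 : α < 1) {P : ℕ → Prop}
    (hP : ∀ᶠ q : ℕ in atTop, P q) :
    ∀ᶠ N : ℕ in atTop, ∀ q : ℕ, |(q : ℝ) - Q α N| ≤ C → P q := by
  obtain ⟨q₀, hq₀⟩ := eventually_atTop.1 hP
  filter_upwards [(tendsto_Q h0 h1).eventually (eventually_ge_atTop ((q₀ : ℝ) + C))] with N hN q hq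
  apply hq₀
  have := (abs_le.1 hq).1
  have h2 : (q₀ : ℝ) ≤ q := by linarith
  exact_mod_cast h2

theorem between {α ε : ℝ} (h0 : 1 / 2 < α) (h1 : α < 1) (hε : 0 < ε) (hε1 : ε < 1 / 4) :
    ∀ᶠ N : ℕ in atTop,
      IsGreatest {q : ℕ | MakerGuarantees (HasDense N α q)} (achievement N α) ∧
      ⌊Q α N - ε⌋ ≤ (achievement N α : ℤ) ∧ (achievement N α : ℤ) ≤ ⌊Q α N + ε⌋ := by
  have hα0 : 0 ≤ α := by linarith
  filter_upwards [eventually_ge_atTop 2, asym (C := 2) (η := ε / 2) h0 h1 two_pos (by linarith),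
    ev_near (C := 2) h0 h1 (maker_exact h0 h1 (ε := ε / 2) (by linarith)),
    ev_near (C := 2) h0 h1 (breaker_exact h0 h1 (ε := ε / 2) (by linarith) (by linarith)),
    (tendsto_Q h0 h1).eventually (eventually_ge_atTop 3)] with N hN2 hasy hM hB hQ3
  -- Maker
  have hfl0 : (0 : ℝ) ≤ Q α N - ε := by linarith
  set q := ⌊Q α N - ε⌋₊ with hq
  have q1 : (q : ℝ) ≤ Q α N - ε := Nat.floor_le hfl0
  have q2 : Q α N - ε < q + 1 := Nat.lt_floor_add_one _
  have hqn : |(q : ℝ) - Q α N| ≤ 2 := by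
    rw [abs_le]
    constructor <;> linarith
  obtain ⟨m1, m2, m3, -⟩ := hasy q hqn
  have hMq : MakerGuarantees (HasDense N α q) := by
    apply hM q hqn N m1 m2
    refine le_trans ?_ m3
    unfold ex
    apply Real.exp_le_exp.2
    have hlog : 0 ≤ Real.log N := Real.log_natCast_nonneg N
    apply mul_le_mul_of_nonneg_right _ hlog
    linarith
  -- Breaker
  have hfl1 : (0 : ℝ) ≤ Q α N + ε := by linarith
  set p := ⌊Q α N + ε⌋₊ + 1 with hp
  have p1 : (p : ℝ) ≤ Q α N + ε + 1 := by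
    rw [hp]
    push_cast
    have := Nat.floor_le hfl1
    linarith
  have p2 : Q α N + ε < p := by
    rw [hp]
    push_cast
    exact Nat.lt_floor_add_one _
  have hpn : |(p : ℝ) - Q α N| ≤ 2 := by
    rw [abs_le]
    constructor <;> linarith
  obtain ⟨n1, n2, -, n4⟩ := hasy p hpn
  have hBp : ¬ MakerGuarantees (HasDense N α p) := by
    apply hB p hpn N ⟨n1, n2, ?_⟩
    refine n4.trans ?_
    unfold ex
    apply Real.exp_le_exp.2
    have hlog : 0 ≤ Real.log N := Real.log_natCast_nonneg N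
    apply mul_le_mul_of_nonneg_right _ hlog
    linarith
  have hbdd : BddAbove {q : ℕ | MakerGuarantees (HasDense N α q)} := by
    refine ⟨p, fun k hk => ?_⟩
    by_contra hcon
    push Not at hcon
    exact hBp (guarantees_anti hα0 N hcon.le hk)
  have h3 : MakerGuarantees (HasDense N α (achievement N α)) := Nat.sSup_mem ⟨q, hMq⟩ hbdd
  refine ⟨⟨h3, fun k hk => le_csSup hbdd hk⟩, ?_, ?_⟩
  · have h2 : q ≤ achievement N α := le_csSup hbdd hMq
    have e1 : ⌊Q α N - ε⌋ = (q : ℤ) := (Int.natCast_floor_eq_floor hfl0).symm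
    rw [e1]
    exact_mod_cast h2
  · have h4 : achievement N α < p := by
      by_contra hcon
      push Not at hcon
      exact hBp (guarantees_anti hα0 N hcon h3)
    have e1 : ⌊Q α N + ε⌋ = ((⌊Q α N + ε⌋₊ : ℕ) : ℤ) := (Int.natCast_floor_eq_floor hfl1).symm
    rw [e1]
    have h5 : achievement N α ≤ ⌊Q α N + ε⌋₊ := by omega
    exact_mod_cast h5

/-- The exact value of the achievement number. -/
theorem exact_value {α : ℝ} (h0 : 1 / 2 < α) (h1 : α < 1) :
    ∃ ε : ℕ → ℝ, Tendsto ε atTop (𝓝 0) ∧ ∀ᶠ N : ℕ in atTop,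
      IsGreatest {q : ℕ | MakerGuarantees (HasDense N α q)} (achievement N α) ∧
      (achievement N α : ℤ) = ⌊Q α N + ε N⌋ := by
  obtain ⟨e, he, hev⟩ := floor_lemma (fun N => (achievement N α : ℤ)) (fun N => Q α N)
    (fun ε hε hε1 => (between h0 h1 hε hε1).mono (fun N h => h.2))
  refine ⟨e, he, ?_⟩
  filter_upwards [hev, between h0 h1 (ε := 1 / 8) (by norm_num) (by norm_num)] with N a b
  exact ⟨b.1, a⟩

end Pool.Agent.LibCA69
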