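import Pool.Agent.LibCA69.FinDefs

/-!
# Task FINA1: the final inequality

At the end every edge is in `Rb ∪ Bb` or in exactly one board, so
`wgt (2x-1) (inside A) R B = wgt (2x-1) (inside A) Rb Bb * ∏_{y ∈ L.toFinset}
wgt (2x-1) (y.2 ∩ inside A) (R ∩ y.2) (B ∩ y.2)`.  The left side is at least `1 / cst` because
`R` has at least `α C(q,2)` edges in `A` (`log (2x) ≥ log (2-2x)`).  A factor with
`y.2 ∩ inside A = ∅` is `1`, the others are at most `mm`: at most `2 ^ |y.2 ∩ inside A|`, and at
most `bS` by the field `small`, since `Sm` contains the term of `C = y.1 ∩ A`.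
-/

set_option autoImplicit false

namespace Pool.Agent.LibCA69

open Finset Filter Pool.Agent.H69.Clique

variable {N : ℕ}

/-- the weight as a product over all elements -/
private theorem wgt_prod_FinA1 {E : Type} [Fintype E] [DecidableEq E] (x : ℝ) (P R B : Finset E)
    (hRB : Disjoint R B) (hP : P ⊆ R ∪ B) :
    wgt (2 * x - 1) P R B = ∏ e ∈ P, (if e ∈ R then 2 * x else 2 - 2 * x) := by
  unfold wgt
  have h1 : P.filter (fun e => e ∈ R) = P ∩ R := by
    ext e
    simp
  have h2 : P.filter (fun e => e ∉ R) = P ∩ B := by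
    ext e
    simp only [mem_filter, mem_inter]
    constructor
    · rintro ⟨he, heR⟩
      refine ⟨he, ?_⟩
      rcases mem_union.1 (hP he) with h | h
      · exact absurd h heR
      · exact h
    · rintro ⟨he, heB⟩
      exact ⟨he, fun h => disjoint_left.1 hRB h heB⟩
  rw [← prod_filter_mul_prod_filter_not P (fun e => e ∈ R), h1, h2]
  congr 1
  · rw [prod_congr rfl (fun e he => if_pos (mem_inter.1 he).2), prod_const]
    congr 1
    ring
  · rw [prod_congr rfl (fun e he => if_neg (fun h => disjoint_left.1 hRB h (mem_inter.1 he).2)),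
      prod_const]
    congr 1
    ring

private theorem lvls_FinA1 {α : ℝ} (h0 : 1 / 2 < α) (h1 : α < 1) {q : ℕ} {x : ℝ}
    (hx : x ∈ lvls α q) : 1 / 2 ≤ x ∧ x ≤ 1 := by
  unfold lvls at hx
  rcases mem_insert.1 hx with h | h
  · rw [h]
    exact ⟨h0.le, h1.le⟩
  · obtain ⟨p, hp, rfl⟩ := mem_image.1 h
    have h2 := (mem_filter.1 hp).2
    have h3 : (1 : ℝ) ≤ p.2 := by exact_mod_cast h2.1
    have h4 : (p.2 : ℝ) ≤ p.1 := by exact_mod_cast h2.2
    have h5 : (0 : ℝ) < (p.1 : ℝ) + p.2 := by linarith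
    constructor
    · rw [div_le_div_iff₀ two_pos h5]
      linarith
    · rw [div_le_one h5]
      linarith

private theorem boards_disj_FinA1 {α ε : ℝ} {q : ℕ}
    {R B Rb Bb : Finset (Edge N)} {L : List (Finset (Fin N) × Finset (Edge N))}
    (h : Cfg α ε N q R B Rb Bb L) : ∀ y ∈ L, ∀ z ∈ L, y ≠ z → Disjoint y.2 z.2 := by
  have h1 : L.Pairwise (fun new old => Disjoint new.2 old.2) := by
    have h2 := h.order
    have h3 := h.board_sub
    clear h
    induction L with
    | nil => exact List.Pairwise.nil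
    | cons a l ih =>
      rw [List.pairwise_cons] at h2 ⊢
      refine ⟨fun b hb => ?_, ih h2.2 (fun x hx => h3 x (List.mem_cons_of_mem _ hx))⟩
      exact (disjoint_of_subset_left (h3 b (List.mem_cons_of_mem _ hb)) (h2.1 b hb).2).symm
  haveI : Std.Symm (fun y z : Finset (Fin N) × Finset (Edge N) => Disjoint y.2 z.2) :=
    ⟨fun y z h => h.symm⟩
  intro y hy z hz hyz
  exact h1.forall hy hz hyz

theorem final_ineq {α ε : ℝ} (h0 : 1 / 2 < α) (h1 : α < 1) {q : ℕ} (hq : 1 ≤ q)
    {R B Rb Bb : Finset (Edge N)} {L : List (Finset (Fin N) × Finset (Edge N))}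
    (h : Cfg α ε N q R B Rb Bb L) (A : Finset (Fin N)) (hA : A.card = q)
    (hd : α * (q.choose 2 : ℕ) ≤ ((R ∩ inside A).card : ℝ)) (x : ℝ) (hx : x ∈ lvls α q)
    (hx0 : 1 / 2 ≤ x) (hx1 : x < 1) :
    1 ≤ cst x (q.choose 2) (α * (q.choose 2 : ℕ)) * wgt (2 * x - 1) (inside A) Rb Bb *
      ∏ y ∈ att A L, mm α q A y := by
  classical
  set m := q.choose 2 with hm
  have hinA : (inside A).card = m := by rw [card_inside, hA]
  have hRB := h.disj
  have hbd : Disjoint Rb Bb := cfg_disj h
  -- the first claim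
  have hcl1 : 1 ≤ cst x m (α * (m : ℕ)) * wgt (2 * x - 1) (inside A) R B := by
    have hu : inside A ∩ R ∪ inside A ∩ B = inside A := by
      rw [← inter_union_distrib_left, h.full, inter_univ]
    have hdj : Disjoint (inside A ∩ R) (inside A ∩ B) :=
      disjoint_of_subset_left inter_subset_right (disjoint_of_subset_right inter_subset_right hRB)
    have hcard : (inside A ∩ R).card + (inside A ∩ B).card = m := by
      rw [← card_union_of_disjoint hdj, hu, hinA]
    have hRc : α * (m : ℝ) ≤ ((inside A ∩ R).card : ℝ) := by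
      rw [inter_comm]
      exact hd
    unfold cst wgt
    have e1 : (1 : ℝ) + (2 * x - 1) = 2 * x := by ring
    have e2 : (1 : ℝ) - (2 * x - 1) = 2 - 2 * x := by ring
    rw [e1, e2]
    have p1 : (0 : ℝ) < 2 * x := by linarith
    have p2 : (0 : ℝ) < 2 - 2 * x := by linarith
    have w1 : (2 * x) ^ (inside A ∩ R).card = Real.exp ((inside A ∩ R).card * Real.log (2 * x)) := by
      rw [Real.exp_nat_mul, Real.exp_log p1]
    have w2 : (2 - 2 * x) ^ (inside A ∩ B).card =
        Real.exp ((inside A ∩ B).card * Real.log (2 - 2 * x)) := by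
      rw [Real.exp_nat_mul, Real.exp_log p2]
    rw [w1, w2, ← Real.exp_add, ← Real.exp_add]
    apply Real.one_le_exp
    have hB : ((inside A ∩ B).card : ℝ) = m - (inside A ∩ R).card := by
      have : ((inside A ∩ R).card : ℝ) + (inside A ∩ B).card = m := by exact_mod_cast hcard
      linarith
    rw [hB]
    have hlog : Real.log (2 - 2 * x) ≤ Real.log (2 * x) := Real.log_le_log p2 (by linarith)
    nlinarith [mul_nonneg (sub_nonneg.2 hRc) (sub_nonneg.2 hlog)]
  -- decomposition
  have hw0 : ∀ e : Edge N, 0 ≤ (if e ∈ R then 2 * x else 2 - 2 * x) := by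
    intro e
    split_ifs <;> linarith
  have hw2 : ∀ e : Edge N, (if e ∈ R then 2 * x else 2 - 2 * x) ≤ 2 := by
    intro e
    split_ifs <;> linarith
  have hsplit : inside A = (inside A ∩ (Rb ∪ Bb)) ∪
      (att A L).biUnion (fun y => y.2 ∩ inside A) := by
    ext e
    simp only [mem_union, mem_inter, mem_biUnion]
    constructor
    · intro he
      by_cases hb : e ∈ Rb ∪ Bb
      · exact Or.inl ⟨he, mem_union.1 hb⟩
      · obtain ⟨y, hy, hey⟩ := h.cover e hb
        exact Or.inr ⟨y, mem_att.2 ⟨hy, ⟨e, mem_inter.2 ⟨hey, he⟩⟩⟩, hey, he⟩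
    · rintro (⟨he, _⟩ | ⟨_, _, _, he⟩)
      · exact he
      · exact he
  have hdisj1 : Disjoint (inside A ∩ (Rb ∪ Bb)) ((att A L).biUnion (fun y => y.2 ∩ inside A)) := by
    rw [disjoint_biUnion_right]
    intro y hy
    exact (disjoint_of_subset_left inter_subset_left
      (disjoint_of_subset_right inter_subset_right (h.board_disj y (mem_att.1 hy).1))).symm
  have hdisj2 : Set.PairwiseDisjoint ((att A L : Finset _) : Set (Finset (Fin N) × Finset (Edge N)))
      (fun y => y.2 ∩ inside A) := by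
    intro y hy z hz hyz
    exact disjoint_of_subset_left inter_subset_left (disjoint_of_subset_right inter_subset_left
      (boards_disj_FinA1 h y (mem_att.1 hy).1 z (mem_att.1 hz).1 hyz))
  have hWA : wgt (2 * x - 1) (inside A) R B =
      wgt (2 * x - 1) (inside A) Rb Bb *
        ∏ y ∈ att A L, ∏ e ∈ y.2 ∩ inside A, (if e ∈ R then 2 * x else 2 - 2 * x) := by
    rw [wgt_prod_FinA1 x (inside A) R B hRB (by rw [h.full]; exact subset_univ _)]
    conv_lhs => rw [hsplit]
    rw [prod_union hdisj1, prod_biUnion hdisj2]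
    congr 1
    have e1 : wgt (2 * x - 1) (inside A) Rb Bb = wgt (2 * x - 1) (inside A ∩ (Rb ∪ Bb)) Rb Bb := by
      unfold wgt
      congr 3
      · rw [inter_assoc, inter_eq_right.2 (subset_union_left : Rb ⊆ Rb ∪ Bb)]
      · rw [inter_assoc, inter_eq_right.2 (subset_union_right : Bb ⊆ Rb ∪ Bb)]
    rw [e1, wgt_prod_FinA1 x _ Rb Bb hbd inter_subset_right]
    refine prod_congr rfl fun e he => ?_
    have he' := (mem_inter.1 he).2
    rcases mem_union.1 he' with h' | h'
    · rw [if_pos h', if_pos (h.subR h')]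
    · rw [if_neg (fun hh => disjoint_left.1 hbd hh h'),
        if_neg (fun hh => disjoint_left.1 hRB hh (h.subB h'))]
  have hwb : 0 ≤ wgt (2 * x - 1) (inside A) Rb Bb := wgt_nonneg (by linarith) (by linarith) _ _ _
  have hfac : ∀ y ∈ att A L, ∏ e ∈ y.2 ∩ inside A, (if e ∈ R then 2 * x else 2 - 2 * x) ≤
      mm α q A y := by
    intro y hy
    have hyL := (mem_att.1 hy).1
    refine le_min ?_ ?_
    · calc ∏ e ∈ y.2 ∩ inside A, (if e ∈ R then 2 * x else 2 - 2 * x)
          ≤ ∏ _e ∈ y.2 ∩ inside A, (2 : ℝ) := prod_le_prod (fun e _ => hw0 e) (fun e _ => hw2 e)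
        _ = 2 ^ (y.2 ∩ inside A).card := by rw [prod_const]
    · have hsm := h.small y hyL
      have hcard : y.1.card ≤ q := (cfg_dc h y hyL).1.2
      have hsub : y.2 ⊆ inside y.1 := h.board_sub y hyL
      unfold Sm at hsm
      rw [if_pos hcard] at hsm
      have hmem : y.1 ∩ A ∈ y.1.powerset := mem_powerset.2 inter_subset_left
      have hnn : ∀ C ∈ y.1.powerset, ∀ z ∈ lvls α q,
          0 ≤ ((q : ℝ) ^ (2 * (y.1.card - C.card)))⁻¹ *
            wgt (2 * z - 1) (y.2 ∩ inside C) (R ∩ y.2) (B ∩ y.2) := by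
        intro C _ z hz
        have hz' := lvls_FinA1 h0 h1 hz
        exact mul_nonneg (by positivity) (wgt_nonneg (by linarith) (by linarith) _ _ _)
      have hs1 : ((q : ℝ) ^ (2 * (y.1.card - (y.1 ∩ A).card)))⁻¹ *
          wgt (2 * x - 1) (y.2 ∩ inside (y.1 ∩ A)) (R ∩ y.2) (B ∩ y.2) ≤ cS α q := by
        refine le_trans ?_ hsm
        refine le_trans ?_ (single_le_sum (f := fun C => ∑ z ∈ lvls α q,
          ((q : ℝ) ^ (2 * (y.1.card - C.card)))⁻¹ *
            wgt (2 * z - 1) (y.2 ∩ inside C) (R ∩ y.2) (B ∩ y.2))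
          (fun C hC => sum_nonneg (fun z hz => hnn C hC z hz)) hmem)
        exact single_le_sum (f := fun z => ((q : ℝ) ^ (2 * (y.1.card - (y.1 ∩ A).card)))⁻¹ *
          wgt (2 * z - 1) (y.2 ∩ inside (y.1 ∩ A)) (R ∩ y.2) (B ∩ y.2))
          (fun z hz => hnn _ hmem z hz) hx
      have hin : y.2 ∩ inside (y.1 ∩ A) = y.2 ∩ inside A := by
        rw [inside_inter, ← inter_assoc, inter_eq_left.2 hsub]
      have hq0 : (0 : ℝ) < q := by exact_mod_cast hq
      have hcd : y.1.card - (y.1 ∩ A).card = (y.1 \ A).card := by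
        have := card_sdiff_add_card_inter y.1 A
        omega
      rw [hin, hcd, inv_mul_le_iff₀ (by positivity)] at hs1
      have hw : wgt (2 * x - 1) (y.2 ∩ inside A) (R ∩ y.2) (B ∩ y.2) =
          ∏ e ∈ y.2 ∩ inside A, (if e ∈ R then 2 * x else 2 - 2 * x) := by
        rw [wgt_prod_FinA1 x _ (R ∩ y.2) (B ∩ y.2)
          (disjoint_of_subset_left inter_subset_left (disjoint_of_subset_right inter_subset_left
            hRB)) (by
            rw [← union_inter_distrib_right, h.full, univ_inter]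
            exact inter_subset_left)]
        refine prod_congr rfl fun e he => ?_
        have hey := (mem_inter.1 he).1
        by_cases heR : e ∈ R
        · rw [if_pos heR, if_pos (mem_inter.2 ⟨heR, hey⟩)]
        · rw [if_neg heR, if_neg (fun hh => heR (mem_inter.1 hh).1)]
      rw [← hw]
      unfold bS
      rw [mul_comm (cS α q)]
      exact hs1
  have hcst : 0 < cst x m (α * (m : ℕ)) := Real.exp_pos _
  refine hcl1.trans ?_
  rw [hWA, mul_assoc]
  refine mul_le_mul_of_nonneg_left ?_ hcst.le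
  refine mul_le_mul_of_nonneg_left ?_ hwb
  exact prod_le_prod (fun y _ => prod_nonneg (fun e _ => hw0 e)) hfac

end Pool.Agent.LibCA69
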