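import Pool.Agent.LibCA69.FinA1

/-!
# Task FINA2: the final inequality

At the end every edge is in `Rb ∪ Bb` or in exactly one board, so
`wgt (2x-1) (inside A) R B = wgt (2x-1) (inside A) Rb Bb * ∏_{y ∈ L.toFinset}
wgt (2x-1) (y.2 ∩ inside A) (R ∩ y.2) (B ∩ y.2)`.  The left side is at least `1 / cst` because
`R` has at least `α C(q,2)` edges in `A` (`log (2x) ≥ log (2-2x)`).  A factor with
`y.2 ∩ inside A = ∅` is `1`, the others are at most `mm`: at most `2 ^ |y.2 ∩ inside A|`, and at
most `bS` by the field `small`, since `Sm` contains the term of `C = y.1 ∩ A`.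
-/

set_option autoImplicit false

namespace Pool.Agent.LibCA69

open Finset Filter Pool.Agent.H69.Clique

variable {N : ℕ}

private theorem boards_disj_FinA2 {α ε : ℝ} {q : ℕ}
    {R B Rb Bb : Finset (Edge N)} {L : List (Finset (Fin N) × Finset (Edge N))}
    (h : Cfg α ε N q R B Rb Bb L) : ∀ y ∈ L, ∀ z ∈ L, y ≠ z → Disjoint y.2 z.2 := by
  have h1 : L.Pairwise (fun new old => Disjoint new.2 old.2) := by
    have h2 := h.order
    have h3 := h.board_sub
    clear h
    induction L with
    | nil => exact List.Pairwise.nil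
    | cons a l ih =>
      rw [List.pairwise_cons] at h2 ⊢
      refine ⟨fun b hb => ?_, ih h2.2 (fun x hx => h3 x (List.mem_cons_of_mem _ hx))⟩
      exact (disjoint_of_subset_left (h3 b (List.mem_cons_of_mem _ hb)) (h2.1 b hb).2).symm
  haveI : Std.Symm (fun y z : Finset (Fin N) × Finset (Edge N) => Disjoint y.2 z.2) :=
    ⟨fun y z h => h.symm⟩
  intro y hy z hz hyz
  exact h1.forall hy hz hyz

/-- The crude version: the boards are disjoint, so the product of `2 ^ |y.2 ∩ inside A|` is at most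
`2 ^ C(q,2)`. -/
theorem prod_mm_le (α : ℝ) {ε : ℝ} {q : ℕ} (hq : 1 ≤ q) {R B Rb Bb : Finset (Edge N)}
    {L : List (Finset (Fin N) × Finset (Edge N))} (h : Cfg α ε N q R B Rb Bb L)
    (A : Finset (Fin N)) (hA : A.card = q) : ∏ y ∈ att A L, mm α q A y ≤ 2 ^ (q.choose 2) := by
  classical
  have hdisj2 : Set.PairwiseDisjoint ((att A L : Finset _) : Set (Finset (Fin N) × Finset (Edge N)))
      (fun y => y.2 ∩ inside A) := by
    intro y hy z hz hyz
    exact disjoint_of_subset_left inter_subset_left (disjoint_of_subset_right inter_subset_left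
      (boards_disj_FinA2 h y (mem_att.1 hy).1 z (mem_att.1 hz).1 hyz))
  have h1 : ∑ y ∈ att A L, (y.2 ∩ inside A).card ≤ q.choose 2 := by
    rw [← card_biUnion hdisj2, ← hA, ← card_inside]
    refine card_le_card ?_
    intro e he
    obtain ⟨y, _, hey⟩ := mem_biUnion.1 he
    exact (mem_inter.1 hey).2
  calc ∏ y ∈ att A L, mm α q A y ≤ ∏ y ∈ att A L, (2 : ℝ) ^ (y.2 ∩ inside A).card :=
        prod_le_prod (fun y _ => zero_le_one.trans (one_le_mm α q hq A y)) (fun y _ => min_le_left _ _)
    _ = 2 ^ (∑ y ∈ att A L, (y.2 ∩ inside A).card) := prod_pow_eq_pow_sum _ _ _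
    _ ≤ 2 ^ (q.choose 2) := pow_le_pow_right₀ one_le_two h1

end Pool.Agent.LibCA69
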