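import Pool.Agent.LibCA69.FinDefs

/-!
# Task FINB1: representatives

A maximal subset of `(att A L).image Prod.fst` whose members have pairwise at most `16` common
vertices.  By the dichotomy every `y` is close to a representative (a declared set is close to
itself as `I1 ≤ I2`).
-/

set_option autoImplicit false

namespace Pool.Agent.LibCA69

open Finset Filter Pool.Agent.H69.Clique

theorem exists_rep {α ε : ℝ} (h0 : 1 / 2 < α) (h1 : α < 1) (hε : 0 < ε) (hε1 : ε ≤ 1) :
    ∀ᶠ q : ℕ in atTop, ∀ N : ℕ, Reg α ε q N → ∀ R B Rb Bb L, Cfg α ε N q R B Rb Bb L →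
      ∀ A : Finset (Fin N), ∃ P : Finset (Finset (Fin N)), IsRep α q A L P := by
  classical
  filter_upwards [dichotomy h0 h1 hε hε1, eventually_ge_atTop 1] with q hdich hq N hN R B Rb Bb L
    hcfg A
  set S : Finset (Finset (Fin N)) := (att A L).image Prod.fst with hS
  set T : Finset (Finset (Finset (Fin N))) := S.powerset.filter
    (fun P => ∀ r ∈ P, ∀ r' ∈ P, r ≠ r' → (r ∩ r').card ≤ 16) with hT
  have hne : T.Nonempty := by
    refine ⟨∅, ?_⟩
    rw [hT, mem_filter]
    exact ⟨empty_mem_powerset _, fun r hr => absurd hr (notMem_empty r)⟩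
  obtain ⟨P, hP, hmax⟩ := T.exists_max_image (fun P => P.card) hne
  rw [hT, mem_filter, mem_powerset] at hP
  have hdc := cfg_dc hcfg
  have hctl := cfg_ctl h0 h1 hq hcfg
  have hphi := cfg_phi h0 h1 hq hcfg
  have hdisj := cfg_disj hcfg
  refine ⟨P, ⟨?_, hP.2, ?_⟩⟩
  · intro r hr
    have h2 := hP.1 hr
    rw [hS, mem_image] at h2
    exact h2
  · intro y hy
    have hyL : y ∈ L := (mem_att.mp hy).1
    have hyD := hdc y hyL
    by_cases hyP : y.1 ∈ P
    · refine ⟨y.1, hyP, ?_⟩
      rw [inter_self]
      have h2 : q ≤ y.1.card + I1 α := hyD.1.1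
      have h3 : I1 α ≤ I2 α := Nat.le_add_right _ _
      omega
    · by_contra hcon
      push Not at hcon
      have hsmall : ∀ r ∈ P, (y.1 ∩ r).card ≤ 16 := by
        intro r hr
        have h2 := hP.1 hr
        rw [hS, mem_image] at h2
        obtain ⟨z, hz, hzr⟩ := h2
        have hzD := hdc z (mem_att.mp hz).1
        rw [hzr] at hzD
        have hner : y.1 ≠ r := fun h => hyP (h ▸ hr)
        rcases hdich N hN Rb Bb hdisj hctl hphi.2.1 hphi.2.2.1 y.1 r hyD hzD hner with h3 | h3
        · exact h3
        · exact absurd h3 (not_le.mpr (hcon r hr))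
      have hnew : insert y.1 P ∈ T := by
        rw [hT, mem_filter, mem_powerset]
        constructor
        · intro r hr
          rw [mem_insert] at hr
          rcases hr with rfl | hr
          · rw [hS, mem_image]
            exact ⟨y, hy, rfl⟩
          · exact hP.1 hr
        · intro r hr r' hr' hrr
          rw [mem_insert] at hr hr'
          rcases hr with rfl | hr
          · rcases hr' with rfl | hr'
            · exact absurd rfl hrr
            · exact hsmall r' hr'
          · rcases hr' with rfl | hr'
            · rw [inter_comm]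
              exact hsmall r hr
            · exact hP.2 r hr r' hr' hrr
      have h4 := hmax _ hnew
      rw [card_insert_of_notMem hyP] at h4
      omega

end Pool.Agent.LibCA69
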