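import Pool.Agent.LibCA69.FinB1

/-!
# Task FINB2: representatives

A maximal subset of `(att A L).image Prod.fst` whose members have pairwise at most `16` common
vertices.  By the dichotomy every `y` is close to a representative (a declared set is close to
itself as `I1 ≤ I2`).
-/

set_option autoImplicit false

namespace Pool.Agent.LibCA69

open Finset Filter Pool.Agent.H69.Clique

theorem prod_biUnion_le_finB2 {ι κ : Type} [DecidableEq ι] [DecidableEq κ] (f : κ → ℝ)
    (hf : ∀ y, 1 ≤ f y) (t : ι → Finset κ) (s : Finset ι) :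
    ∏ y ∈ s.biUnion t, f y ≤ ∏ r ∈ s, ∏ y ∈ t r, f y := by
  have hpos : ∀ u : Finset κ, 1 ≤ ∏ y ∈ u, f y := fun u =>
    Finset.prod_induction f (fun x => 1 ≤ x) (fun a b ha hb => one_le_mul_of_one_le_of_one_le ha hb)
      le_rfl (fun y _ => hf y)
  induction s using Finset.induction_on with
  | empty => simp
  | insert a s ha ih =>
    rw [Finset.biUnion_insert, Finset.prod_insert ha]
    have h1 := Finset.prod_union_inter (s₁ := t a) (s₂ := s.biUnion t) (f := f)
    have h2 := hpos (t a ∩ s.biUnion t)
    have h3 := hpos (t a ∪ s.biUnion t)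
    have h4 := hpos (t a)
    calc ∏ y ∈ t a ∪ s.biUnion t, f y ≤
        (∏ y ∈ t a ∪ s.biUnion t, f y) * ∏ y ∈ t a ∩ s.biUnion t, f y :=
          le_mul_of_one_le_right (by linarith) h2
      _ = (∏ y ∈ t a, f y) * ∏ y ∈ s.biUnion t, f y := h1
      _ ≤ (∏ y ∈ t a, f y) * ∏ r ∈ s, ∏ y ∈ t r, f y :=
          mul_le_mul_of_nonneg_left ih (by linarith)

/-- Every factor is at least `1`, so the product over all attached boards is at most the product
over the classes. -/
theorem prod_cls {α : ℝ} {N q : ℕ} (hq : 1 ≤ q) (A : Finset (Fin N))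
    (L : List (Finset (Fin N) × Finset (Edge N))) (P : Finset (Finset (Fin N)))
    (hP : IsRep α q A L P) :
    ∏ y ∈ att A L, mm α q A y ≤ ∏ r ∈ P, ∏ y ∈ cls α q A L r, mm α q A y := by
  classical
  have h1 : att A L = P.biUnion (cls α q A L) := by
    ext y
    rw [mem_biUnion]
    constructor
    · intro hy
      obtain ⟨r, hr, h2⟩ := hP.cov y hy
      refine ⟨r, hr, ?_⟩
      unfold cls
      rw [mem_filter]
      exact ⟨hy, h2⟩
    · rintro ⟨r, _, hy⟩
      unfold cls at hy
      exact (mem_filter.mp hy).1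
  rw [h1]
  exact prod_biUnion_le_finB2 (mm α q A) (one_le_mm α q hq A) _ _

end Pool.Agent.LibCA69
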