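import Pool.Agent.LibCA69.FinDefs

/-!
# Task FINC1: one class of attached boards

Let `r` be declared, `K = (cls α q A L r).image Prod.fst` and `V = r ∪ K.biUnion id`; by
`chain_bound` `|V \ r| ≤ C1`.
* `class_light`: the boards are disjoint and `y.2 ∩ inside A ⊆ inside (A ∩ V)`.
* `class_card`: choose `e y ∈ y.2 ∩ inside A` for each `y` of the class; `e y ⊆ y.1 ⊆ V`, and for
  older `y'` (later in the list `L`) `e y` is not inside `y'.1` (field `order`), with
  `|V \ y'.1| ≤ C1 + I1`.  Let `y₁` be the oldest; all others have an end point `x` in `V \ y₁.1`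
  (at most `C1 + I1` possibilities); among those with end point `x` let `y₂` be the oldest: the
  other end point of the remaining ones is in `V \ y₂.1`; and `e` is injective.
* `class_heavy`: each factor is at most `bS α q |y.1 \ A| ≤ bS α q (|r \ A| + I2)`.
-/

set_option autoImplicit false

namespace Pool.Agent.LibCA69

open Finset Filter Pool.Agent.H69.Clique

variable {N : ℕ}

/-- the boards of a configuration are disjoint and inside their sets -/
theorem boards_finC1 {α ε : ℝ} {q : ℕ} {R B Rb Bb : Finset (Edge N)}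
    {L : List (Finset (Fin N) × Finset (Edge N))} (h : Cfg α ε N q R B Rb Bb L) :
    (∀ y ∈ L, y.2 ⊆ inside y.1) ∧ ∀ y ∈ L, ∀ y' ∈ L, y ≠ y' → Disjoint y.2 y'.2 := by
  have hsub : ∀ y ∈ L, y.2 ⊆ inside y.1 := h.board_sub
  refine ⟨hsub, ?_⟩
  have h1 : L.Pairwise (fun a b => Disjoint a.2 b.2) := by
    refine List.Pairwise.imp_of_mem ?_ h.order
    intro a b ha hb hab
    exact (disjoint_of_subset_left (hsub b hb) hab.2).symm
  have h3 : Std.Symm (fun a b : Finset (Fin N) × Finset (Edge N) => Disjoint a.2 b.2) :=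
    ⟨fun _ _ hab => hab.symm⟩
  intro y hy y' hy' hne
  exact h1.forall hy hy' hne

/-- the vertices of a class -/
theorem class_V_finC1 {α ε : ℝ} (h0 : 1 / 2 < α) (h1 : α < 1) (hε : 0 < ε) (hε1 : ε ≤ 1) :
    ∀ᶠ q : ℕ in atTop, ∀ N : ℕ, Reg α ε q N → ∀ R B Rb Bb L, Cfg α ε N q R B Rb Bb L →
      ∀ A r : Finset (Fin N), Dc α ε q Rb Bb r →
      (((cls α q A L r).image Prod.fst).biUnion id \ r).card ≤ C1 α := by
  filter_upwards [chain_bound h0 h1 hε hε1, eventually_ge_atTop 1] with q hq hq1 N hN R B Rb Bb L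
    hc A r hr
  refine hq N hN Rb Bb (cfg_disj hc) (cfg_ctl h0 h1 hq1 hc) (cfg_phi h0 h1 hq1 hc).2.2.2.1 r hr _ ?_
  intro D hD
  obtain ⟨y, hy, rfl⟩ := mem_image.mp hD
  unfold cls at hy
  rw [mem_filter, mem_att] at hy
  exact ⟨cfg_dc hc y hy.1.1, hy.2⟩

theorem class_light {α ε : ℝ} (h0 : 1 / 2 < α) (h1 : α < 1) (hε : 0 < ε) (hε1 : ε ≤ 1) :
    ∀ᶠ q : ℕ in atTop, ∀ N : ℕ, Reg α ε q N → ∀ R B Rb Bb L, Cfg α ε N q R B Rb Bb L →
      ∀ A r : Finset (Fin N), Dc α ε q Rb Bb r →
      ∏ y ∈ cls α q A L r, mm α q A y ≤ 2 ^ (((r ∩ A).card + C1 α).choose 2) := by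
  filter_upwards [class_V_finC1 h0 h1 hε hε1, eventually_ge_atTop 1] with q hq hq1 N hN R B Rb Bb L
    hc A r hr
  have hV := hq N hN R B Rb Bb L hc A r hr
  set K := ((cls α q A L r).image Prod.fst).biUnion id with hK
  set V := r ∪ K with hVdef
  obtain ⟨hsub, hdis⟩ := boards_finC1 hc
  have hmem : ∀ y ∈ cls α q A L r, y ∈ L := by
    intro y hy
    unfold cls at hy
    rw [mem_filter, mem_att] at hy
    exact hy.1.1
  have hstep : ∏ y ∈ cls α q A L r, mm α q A y ≤
      ∏ y ∈ cls α q A L r, (2 : ℝ) ^ (y.2 ∩ inside A).card := by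
    refine prod_le_prod (fun y _ => ?_) (fun y _ => ?_)
    · exact zero_le_one.trans (one_le_mm α q hq1 A y)
    · exact min_le_left _ _
  refine hstep.trans ?_
  rw [prod_pow_eq_pow_sum]
  refine pow_le_pow_right₀ one_le_two ?_
  have hcard : ∑ y ∈ cls α q A L r, (y.2 ∩ inside A).card =
      ((cls α q A L r).biUnion fun y => y.2 ∩ inside A).card := by
    rw [card_biUnion]
    intro y hy y' hy' hne
    exact disjoint_of_subset_left inter_subset_left
      (disjoint_of_subset_right inter_subset_left (hdis y (hmem y hy) y' (hmem y' hy') hne))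
  rw [hcard]
  have hsubV : ((cls α q A L r).biUnion fun y => y.2 ∩ inside A) ⊆ inside (V ∩ A) := by
    intro e he
    obtain ⟨y, hy, he⟩ := mem_biUnion.mp he
    rw [inside_inter, mem_inter]
    rw [mem_inter] at he
    refine ⟨inside_mono ?_ (hsub y (hmem y hy) he.1), he.2⟩
    intro v hv
    rw [hVdef, mem_union]
    right
    rw [hK, mem_biUnion]
    exact ⟨y.1, mem_image.mpr ⟨y, hy, rfl⟩, hv⟩
  refine (card_le_card hsubV).trans ?_
  rw [card_inside]
  refine Nat.choose_le_choose 2 ?_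
  have h2 : V ∩ A ⊆ (r ∩ A) ∪ (K \ r) := by
    intro v hv
    rw [mem_inter, hVdef, mem_union] at hv
    rw [mem_union, mem_inter, Finset.mem_sdiff]
    by_cases hvr : v ∈ r
    · exact Or.inl ⟨hvr, hv.2⟩
    · exact Or.inr ⟨hv.1.resolve_left hvr, hvr⟩
  exact (card_le_card h2).trans ((card_union_le _ _).trans (Nat.add_le_add_left hV _))

end Pool.Agent.LibCA69
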