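import Pool.Agent.LibCA69.FinC1

/-!
# Task FINC2: one class of attached boards

Let `r` be declared, `K = (cls α q A L r).image Prod.fst` and `V = r ∪ K.biUnion id`; by
`chain_bound` `|V \ r| ≤ C1`.
* `class_light`: the boards are disjoint and `y.2 ∩ inside A ⊆ inside (A ∩ V)`.
* `class_card`: choose `e y ∈ y.2 ∩ inside A` for each `y` of the class; `e y ⊆ y.1 ⊆ V`, and for
  older `y'` (later in the list `L`) `e y` is not inside `y'.1` (field `order`), with
  `|V \ y'.1| ≤ C1 + I1`.  Let `y₁` be the oldest; all others have an end point `x` in `V \ y₁.1`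
  (at most `C1 + I1` possibilities); among those with end point `x` let `y₂` be the oldest: the
  other end point of the remaining ones is in `V \ y₂.1`; and `e` is injective.
* `class_heavy`: each factor is at most `bS α q |y.1 \ A| ≤ bS α q (|r \ A| + I2)`.
-/

set_option autoImplicit false

namespace Pool.Agent.LibCA69

open Finset Filter Pool.Agent.H69.Clique

/-- the oldest element of a set of elements of a list -/
theorem oldest_finC2 {X : Type} [DecidableEq X] (Rel : X → X → Prop) (L : List X)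
    (hL : L.Pairwise Rel) (T : Finset X) (hT : T.Nonempty) (hTL : ∀ y ∈ T, y ∈ L) :
    ∃ y₁ ∈ T, ∀ y ∈ T, y ≠ y₁ → Rel y y₁ := by
  induction L generalizing T with
  | nil =>
    obtain ⟨y, hy⟩ := hT
    exact absurd (hTL y hy) List.not_mem_nil
  | cons a l ih =>
    rw [List.pairwise_cons] at hL
    by_cases hne : (T.filter (fun y => y ∈ l)).Nonempty
    · obtain ⟨y₁, hy₁, h1⟩ := ih hL.2 (T.filter (fun y => y ∈ l)) hne
        (fun y hy => (mem_filter.mp hy).2)
      rw [mem_filter] at hy₁
      refine ⟨y₁, hy₁.1, fun y hy hyne => ?_⟩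
      by_cases hyl : y ∈ l
      · exact h1 y (mem_filter.mpr ⟨hy, hyl⟩) hyne
      · have h2 : y = a := by
          rcases List.mem_cons.mp (hTL y hy) with h3 | h3
          · exact h3
          · exact absurd h3 hyl
        rw [h2]
        exact hL.1 y₁ hy₁.2
    · obtain ⟨y₁, hy₁⟩ := hT
      refine ⟨y₁, hy₁, fun y hy hyne => ?_⟩
      have h2 : ∀ z ∈ T, z = a := by
        intro z hz
        rcases List.mem_cons.mp (hTL z hz) with h3 | h3
        · exact h3
        · exact absurd ⟨z, mem_filter.mpr ⟨hz, h3⟩⟩ hne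
      exact absurd ((h2 y hy).trans (h2 y₁ hy₁).symm) hyne

variable {N : ℕ}

/-- the number of boards, if all the edges chosen in the boards lie in `V` and every set misses
at most `m` vertices of `V` -/
theorem count_finC2 (L : List (Finset (Fin N) × Finset (Edge N)))
    (hord : L.Pairwise (fun new old => new.1 ≠ old.1 ∧ Disjoint (inside old.1) new.2))
    (T : Finset (Finset (Fin N) × Finset (Edge N))) (hTL : ∀ y ∈ T, y ∈ L)
    (V : Finset (Fin N)) (m : ℕ) (e : Finset (Fin N) × Finset (Edge N) → Edge N)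
    (he : ∀ y ∈ T, e y ∈ y.2 ∧ e y ∈ inside y.1) (hV : ∀ y ∈ T, y.1 ⊆ V)
    (hm : ∀ y ∈ T, (V \ y.1).card ≤ m)
    (hinj : ∀ y ∈ T, ∀ y' ∈ T, e y = e y' → y = y') :
    T.card ≤ 1 + m * (1 + m) := by
  classical
  -- an element of an older set is not inside
  have hout : ∀ y₁ ∈ T, ∀ y ∈ T, (y.1 ≠ y₁.1 ∧ Disjoint (inside y₁.1) y.2) →
      ∃ x ∈ (e y).1, x ∈ V \ y₁.1 := by
    intro y₁ _ y hy h1
    have h2 : e y ∉ inside y₁.1 := fun h3 => disjoint_left.1 h1.2 h3 (he y hy).1
    rw [mem_inside] at h2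
    push Not at h2
    obtain ⟨x, hx, hx1⟩ := h2
    refine ⟨x, hx, ?_⟩
    rw [Finset.mem_sdiff]
    exact ⟨hV y hy ((mem_inside.mp (he y hy).2) x hx), hx1⟩
  -- the sets with a given vertex
  have hstar : ∀ x : Fin N, (T.filter (fun y => x ∈ (e y).1)).card ≤ 1 + m := by
    intro x
    set U := T.filter (fun y => x ∈ (e y).1) with hU
    by_cases hne : U.Nonempty
    · obtain ⟨y₂, hy₂, h2⟩ := oldest_finC2 _ L hord U hne
        (fun y hy => hTL y (mem_filter.mp hy).1)
      rw [hU, mem_filter] at hy₂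
      have h3 : (U.erase y₂).card ≤ (V \ y₂.1).card := by
        have h4 : ∀ y ∈ U.erase y₂, ∃ z ∈ V \ y₂.1, (e y).1 = s(x, z) := by
          intro y hy
          rw [mem_erase] at hy
          have hyT := mem_filter.mp hy.2
          obtain ⟨z, hz, hz2⟩ := hout y₂ hy₂.1 y hyT.1 (h2 y hy.2 hy.1)
          refine ⟨z, hz2, ?_⟩
          have hxz : x ≠ z := by
            rintro rfl
            have h5 := (mem_inside.mp (he y₂ hy₂.1).2) x hy₂.2
            exact (Finset.mem_sdiff.mp hz2).2 h5
          exact ((Sym2.mem_and_mem_iff hxz).mp ⟨hyT.2, hz⟩)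
        have hNx : Nonempty (Fin N) := ⟨x⟩
        choose! g hg1 hg2 using h4
        refine card_le_card_of_injOn g (fun y hy => hg1 y hy) ?_
        intro y hy y' hy' hgg
        have h5 : (e y).1 = (e y').1 := by
          rw [hg2 y hy, hg2 y' hy', hgg]
        exact hinj y (mem_filter.mp (mem_erase.mp hy).2).1 y'
          (mem_filter.mp (mem_erase.mp hy').2).1 (Subtype.ext h5)
      have h4 : U.card ≤ (U.erase y₂).card + 1 := by
        rw [card_erase_of_mem (by rw [hU, mem_filter]; exact hy₂)]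
        omega
      have h5 := hm y₂ hy₂.1
      omega
    · rw [not_nonempty_iff_eq_empty] at hne
      rw [hne, card_empty]
      omega
  by_cases hT : T.Nonempty
  · obtain ⟨y₁, hy₁, h1⟩ := oldest_finC2 _ L hord T hT hTL
    have h2 : T ⊆ insert y₁ ((V \ y₁.1).biUnion fun x => T.filter (fun y => x ∈ (e y).1)) := by
      intro y hy
      rw [mem_insert]
      by_cases hyne : y = y₁
      · exact Or.inl hyne
      · right
        obtain ⟨x, hx, hx2⟩ := hout y₁ hy₁ y hy (h1 y hy hyne)
        rw [mem_biUnion]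
        exact ⟨x, hx2, mem_filter.mpr ⟨hy, hx⟩⟩
    have h3 := card_le_card h2
    have h4 := card_insert_le y₁ ((V \ y₁.1).biUnion fun x => T.filter (fun y => x ∈ (e y).1))
    have h5 := card_biUnion_le_card_mul (V \ y₁.1) (fun x => T.filter (fun y => x ∈ (e y).1)) (1 + m)
      (fun x _ => hstar x)
    have h6 := Nat.mul_le_mul_right (1 + m) (hm y₁ hy₁)
    omega
  · rw [not_nonempty_iff_eq_empty] at hT
    rw [hT, card_empty]
    omega

theorem class_card {α ε : ℝ} (h0 : 1 / 2 < α) (h1 : α < 1) (hε : 0 < ε) (hε1 : ε ≤ 1) :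
    ∀ᶠ q : ℕ in atTop, ∀ N : ℕ, Reg α ε q N → ∀ R B Rb Bb L, Cfg α ε N q R B Rb Bb L →
      ∀ A r : Finset (Fin N), Dc α ε q Rb Bb r → (cls α q A L r).card ≤ CK α := by
  filter_upwards [class_V_finC1 h0 h1 hε hε1, eventually_ge_atTop 1] with q hq hq1 N hN R B Rb Bb L
    hc A r hr
  have hV := hq N hN R B Rb Bb L hc A r hr
  set K := ((cls α q A L r).image Prod.fst).biUnion id with hK
  obtain ⟨hsub, hdis⟩ := boards_finC1 hc
  have hmem : ∀ y ∈ cls α q A L r, y ∈ L ∧ (y.2 ∩ inside A).Nonempty := by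
    intro y hy
    unfold cls at hy
    rw [mem_filter, mem_att] at hy
    exact hy.1
  by_cases hT : (cls α q A L r).Nonempty
  · obtain ⟨y₀, hy₀⟩ := hT
    have hNe : Nonempty (Edge N) := ⟨(hmem y₀ hy₀).2.choose⟩
    have hex : ∀ y ∈ cls α q A L r, ∃ f : Edge N, f ∈ y.2 ∩ inside A := fun y hy => (hmem y hy).2
    choose! e he using hex
    have h2 : (r ∪ K).card ≤ q + C1 α := by
      have h3 : r ∪ K = r ∪ (K \ r) := by rw [union_sdiff_self_eq_union]
      rw [h3]
      exact (card_union_le _ _).trans (Nat.add_le_add hr.1.2 hV)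
    have hsubV : ∀ y ∈ cls α q A L r, y.1 ⊆ r ∪ K := by
      intro y hy v hv
      rw [mem_union]
      right
      rw [hK, mem_biUnion]
      exact ⟨y.1, mem_image.mpr ⟨y, hy, rfl⟩, hv⟩
    unfold CK
    refine count_finC2 L hc.order (cls α q A L r) (fun y hy => (hmem y hy).1) (r ∪ K)
      (C1 α + I1 α) e ?_ hsubV ?_ ?_
    · intro y hy
      have h3 := mem_inter.mp (he y hy)
      exact ⟨h3.1, hsub y (hmem y hy).1 h3.1⟩
    · intro y hy
      have h3 := (cfg_dc hc y (hmem y hy).1).1.1
      rw [card_sdiff_of_subset (hsubV y hy)]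
      omega
    · intro y hy y' hy' hee
      by_contra hne
      have h3 := hdis y (hmem y hy).1 y' (hmem y' hy').1 hne
      refine disjoint_left.1 h3 (mem_inter.mp (he y hy)).1 ?_
      rw [hee]
      exact (mem_inter.mp (he y' hy')).1
  · rw [not_nonempty_iff_eq_empty] at hT
    rw [hT, card_empty]
    exact Nat.zero_le _

end Pool.Agent.LibCA69
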