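import Pool.Agent.LibCA69.FinC2

/-!
# Task FINC3: one class of attached boards

Let `r` be declared, `K = (cls α q A L r).image Prod.fst` and `V = r ∪ K.biUnion id`; by
`chain_bound` `|V \ r| ≤ C1`.
* `class_light`: the boards are disjoint and `y.2 ∩ inside A ⊆ inside (A ∩ V)`.
* `class_card`: choose `e y ∈ y.2 ∩ inside A` for each `y` of the class; `e y ⊆ y.1 ⊆ V`, and for
  older `y'` (later in the list `L`) `e y` is not inside `y'.1` (field `order`), with
  `|V \ y'.1| ≤ C1 + I1`.  Let `y₁` be the oldest; all others have an end point `x` in `V \ y₁.1`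
  (at most `C1 + I1` possibilities); among those with end point `x` let `y₂` be the oldest: the
  other end point of the remaining ones is in `V \ y₂.1`; and `e` is injective.
* `class_heavy`: each factor is at most `bS α q |y.1 \ A| ≤ bS α q (|r \ A| + I2)`.
-/

set_option autoImplicit false

namespace Pool.Agent.LibCA69

open Finset Filter Pool.Agent.H69.Clique

theorem class_heavy {α ε : ℝ} (h0 : 1 / 2 < α) (h1 : α < 1) (hε : 0 < ε) (hε1 : ε ≤ 1) :
    ∀ᶠ q : ℕ in atTop, ∀ N : ℕ, Reg α ε q N → ∀ R B Rb Bb L, Cfg α ε N q R B Rb Bb L →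
      ∀ A r : Finset (Fin N), Dc α ε q Rb Bb r →
      ∏ y ∈ cls α q A L r, mm α q A y ≤ bS α q ((r \ A).card + I2 α) ^ CK α := by
  filter_upwards [class_card h0 h1 hε hε1, eventually_ge_atTop 1] with q hq hq1 N hN R B Rb Bb L
    hc A r hr
  have hcard := hq N hN R B Rb Bb L hc A r hr
  have hb := one_le_bS α q ((r \ A).card + I2 α) hq1
  have hstep : ∏ y ∈ cls α q A L r, mm α q A y ≤
      ∏ _y ∈ cls α q A L r, bS α q ((r \ A).card + I2 α) := by
    refine prod_le_prod (fun y _ => ?_) (fun y hy => ?_)
    · exact zero_le_one.trans (one_le_mm α q hq1 A y)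
    · refine (min_le_right _ _).trans (bS_mono α q _ _ hq1 ?_)
      unfold cls at hy
      rw [mem_filter, mem_att] at hy
      have h2 := (cfg_dc hc y hy.1.1).1.2
      have h3 : y.1 \ A ⊆ (r \ A) ∪ (y.1 \ r) := by
        intro v hv
        rw [Finset.mem_sdiff] at hv
        rw [mem_union, Finset.mem_sdiff, Finset.mem_sdiff]
        by_cases hvr : v ∈ r
        · exact Or.inl ⟨hvr, hv.2⟩
        · exact Or.inr ⟨hv.1, hvr⟩
      have h4 : (y.1 \ r).card + (y.1 ∩ r).card = y.1.card := card_sdiff_add_card_inter _ _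
      have h5 := (card_le_card h3).trans (card_union_le _ _)
      have h6 := hy.2
      omega
  refine hstep.trans ?_
  rw [prod_const]
  exact pow_le_pow_right₀ hb hcard

end Pool.Agent.LibCA69
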