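import Pool.Agent.LibCA69.FinDefs

/-!
# Task FIND1: few representatives meet `A` in many vertices
-/

set_option autoImplicit false

namespace Pool.Agent.LibCA69

open Finset Filter Pool.Agent.H69.Clique

/-- Two near representatives would have `q - 2 I3 > 16` common vertices. -/
theorem near_unique (α : ℝ) :
    ∀ᶠ q : ℕ in atTop, ∀ N : ℕ, ∀ A r r' : Finset (Fin N), A.card = q →
      (r ∩ r').card ≤ 16 → q ≤ (r ∩ A).card + I3 α → q ≤ (r' ∩ A).card + I3 α → False := by
  filter_upwards [eventually_gt_atTop (16 + 2 * I3 α)] with q hq N A r r' hA h16 h1 h2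
  have h3 : ((r ∩ A) ∪ (r' ∩ A)).card ≤ q := by
    rw [← hA]
    exact card_le_card (union_subset inter_subset_right inter_subset_right)
  have h4 : ((r ∩ A) ∩ (r' ∩ A)).card ≤ 16 := by
    refine le_trans (card_le_card ?_) h16
    intro x hx
    simp only [mem_inter] at hx ⊢
    exact ⟨hx.1.1, hx.2.1⟩
  have h5 := card_union_add_card_inter (r ∩ A) (r' ∩ A)
  omega

end Pool.Agent.LibCA69
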