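import Pool.Agent.LibCA69.FinD1

/-!
# Task FIND2: few representatives meet `A` in many vertices
-/

set_option autoImplicit false

namespace Pool.Agent.LibCA69

open Finset Filter Pool.Agent.H69.Clique

/-- A Bonferroni inequality. -/
theorem bonf_FinD2 {X : Type} [DecidableEq X] (A : Finset X) (P : Finset (Finset X)) :
    (∀ r ∈ P, ∀ r' ∈ P, r ≠ r' → (r ∩ r').card ≤ 16) →
      ∑ r ∈ P, (r ∩ A).card ≤ (A ∩ P.biUnion id).card + 16 * P.card ^ 2 := by
  induction P using Finset.induction_on with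
  | empty => intro _; simp
  | insert r P hr ih =>
    intro h
    have ih' := ih (fun a ha b hb => h a (mem_insert_of_mem ha) b (mem_insert_of_mem hb))
    rw [sum_insert hr, card_insert_of_notMem hr]
    have h1 : (r ∩ A).card = ((r ∩ A) \ P.biUnion id).card + ((r ∩ A) ∩ P.biUnion id).card := by
      rw [add_comm]
      exact (card_inter_add_card_sdiff (r ∩ A) (P.biUnion id)).symm
    have h2 : ((r ∩ A) ∩ P.biUnion id).card ≤ 16 * P.card := by
      calc ((r ∩ A) ∩ P.biUnion id).card ≤ (P.biUnion (fun r' => r ∩ r')).card := by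
            refine card_le_card ?_
            intro x hx
            simp only [mem_inter, mem_biUnion, id] at hx ⊢
            obtain ⟨⟨hxr, _⟩, r', hr', hxr'⟩ := hx
            exact ⟨r', hr', hxr, hxr'⟩
        _ ≤ ∑ r' ∈ P, (r ∩ r').card := card_biUnion_le
        _ ≤ ∑ r' ∈ P, 16 := by
            refine sum_le_sum (fun r' hr' => ?_)
            refine h r (mem_insert_self _ _) r' (mem_insert_of_mem hr') ?_
            rintro rfl
            exact hr hr'
        _ = 16 * P.card := by rw [sum_const, smul_eq_mul, mul_comm]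
    have h3 : (A ∩ P.biUnion id).card + ((r ∩ A) \ P.biUnion id).card ≤
        (A ∩ (insert r P).biUnion id).card := by
      rw [← card_union_of_disjoint]
      · refine card_le_card ?_
        intro x hx
        simp only [mem_union, mem_inter, Finset.mem_sdiff, mem_biUnion, id, mem_insert] at hx ⊢
        rcases hx with ⟨hA, r', hr', hx⟩ | ⟨⟨hr1, hA⟩, _⟩
        · exact ⟨hA, r', Or.inr hr', hx⟩
        · exact ⟨hA, r, Or.inl rfl, hr1⟩
      · rw [disjoint_left]
        intro x hx hx'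
        rw [Finset.mem_sdiff] at hx'
        exact hx'.2 (mem_inter.1 hx).2
    nlinarith

/-- Otherwise `q ≥ t x₀ q - 16 t²` for `t = r1`. -/
theorem heavy_count {α : ℝ} (h0 : 1 / 2 < α) (h1 : α < 1) :
    ∀ᶠ q : ℕ in atTop, ∀ N : ℕ, ∀ (A : Finset (Fin N)) (P : Finset (Finset (Fin N))),
      A.card = q → (∀ r ∈ P, ∀ r' ∈ P, r ≠ r' → (r ∩ r').card ≤ 16) →
      (∀ r ∈ P, x0 α * q ≤ ((r ∩ A).card : ℝ)) → P.card ≤ r1 α := by
  filter_upwards [eventually_gt_atTop (16 * (r1 α + 1) ^ 2)] with q hq N A P hA hP hr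
  by_contra hcon
  push Not at hcon
  obtain ⟨P', hP', hc⟩ := exists_subset_card_eq (Nat.succ_le_of_lt hcon)
  have hb := bonf_FinD2 A P' (fun r h r' h' => hP r (hP' h) r' (hP' h'))
  have h2 : (A ∩ P'.biUnion id).card ≤ q := hA ▸ card_le_card inter_subset_left
  have h3 : (P'.card : ℝ) * (x0 α * q) ≤ ((∑ r ∈ P', (r ∩ A).card : ℕ) : ℝ) := by
    push_cast
    calc (P'.card : ℝ) * (x0 α * q) = ∑ r ∈ P', x0 α * q := by
          rw [sum_const, nsmul_eq_mul]
      _ ≤ ∑ r ∈ P', ((r ∩ A).card : ℝ) := sum_le_sum (fun r h => hr r (hP' h))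
  have hx := x0_pos h0 h1
  have h4 : 2 / x0 α ≤ r1 α := Nat.le_ceil _
  rw [div_le_iff₀ hx] at h4
  have h5 : ((∑ r ∈ P', (r ∩ A).card : ℕ) : ℝ) ≤ q + 16 * ((r1 α : ℝ) + 1) ^ 2 := by
    have : ∑ r ∈ P', (r ∩ A).card ≤ q + 16 * (r1 α + 1) ^ 2 := by
      rw [hc, Nat.succ_eq_add_one] at hb
      exact hb.trans (Nat.add_le_add_right h2 _)
    exact_mod_cast this
  rw [hc, Nat.succ_eq_add_one] at h3
  push_cast at h3 h5
  have h6 : (16 * ((r1 α : ℝ) + 1) ^ 2) < q := by exact_mod_cast hq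
  have hq0 : (0 : ℝ) ≤ q := Nat.cast_nonneg q
  have h7 : ((r1 α : ℝ) + 1) * (x0 α * q) ≤ q + 16 * ((r1 α : ℝ) + 1) ^ 2 := h3.trans h5
  have h8 : 2 * (q : ℝ) ≤ r1 α * x0 α * q := mul_le_mul_of_nonneg_right h4 hq0
  nlinarith [mul_nonneg hx.le hq0]

end Pool.Agent.LibCA69
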