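import Pool.Agent.LibCA69.Inst
import Pool.Agent.LibCA69.Dich
import Pool.Agent.LibCA69.Chain

/-!
# Boards attached to a set
-/

set_option autoImplicit false

namespace Pool.Agent.LibCA69

open Finset Filter Pool.Agent.H69.Clique

variable {N : ℕ}

open Classical in
/-- The declared sets whose boards meet `inside A`. -/
noncomputable def att (A : Finset (Fin N)) (L : List (Finset (Fin N) × Finset (Edge N))) :
    Finset (Finset (Fin N) × Finset (Edge N)) :=
  L.toFinset.filter (fun y => (y.2 ∩ inside A).Nonempty)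

/-- The control that Breaker has over the part of `A` in the board of `y`. -/
noncomputable def mm (α : ℝ) (q : ℕ) (A : Finset (Fin N))
    (y : Finset (Fin N) × Finset (Edge N)) : ℝ :=
  min ((2 : ℝ) ^ (y.2 ∩ inside A).card) (bS α q (y.1 \ A).card)

/-- The attached boards of declared sets close to `r`. -/
noncomputable def cls (α : ℝ) (q : ℕ) (A : Finset (Fin N))
    (L : List (Finset (Fin N) × Finset (Edge N))) (r : Finset (Fin N)) :
    Finset (Finset (Fin N) × Finset (Edge N)) :=
  (att A L).filter (fun y => q ≤ (y.1 ∩ r).card + I2 α)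

/-- `P` is a system of representatives of the attached declared sets. -/
structure IsRep (α : ℝ) (q : ℕ) (A : Finset (Fin N))
    (L : List (Finset (Fin N) × Finset (Edge N))) (P : Finset (Finset (Fin N))) : Prop where
  mem : ∀ r ∈ P, ∃ y ∈ att A L, y.1 = r
  sep : ∀ r ∈ P, ∀ r' ∈ P, r ≠ r' → (r ∩ r').card ≤ 16
  cov : ∀ y ∈ att A L, ∃ r ∈ P, q ≤ (y.1 ∩ r).card + I2 α

theorem mem_att {A : Finset (Fin N)} {L : List (Finset (Fin N) × Finset (Edge N))}
    {y : Finset (Fin N) × Finset (Edge N)} :
    y ∈ att A L ↔ y ∈ L ∧ (y.2 ∩ inside A).Nonempty := by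
  unfold att
  rw [mem_filter, List.mem_toFinset]

theorem one_le_mm (α : ℝ) (q : ℕ) (hq : 1 ≤ q) (A : Finset (Fin N))
    (y : Finset (Fin N) × Finset (Edge N)) : 1 ≤ mm α q A y :=
  le_min (one_le_pow₀ one_le_two) (one_le_bS α q _ hq)

end Pool.Agent.LibCA69
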