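import Pool.Agent.LibCA69.FinA
import Pool.Agent.LibCA69.FinB
import Pool.Agent.LibCA69.FinC
import Pool.Agent.LibCA69.FinD
import Pool.Agent.LibCA69.Real
import Pool.Agent.LibCA69.Chernoff

/-!
# Task FINE1: small pieces for the end of Breaker's side
-/

set_option autoImplicit false

namespace Pool.Agent.LibCA69

open Finset Filter Pool.Agent.H69.Clique

/-- The last numerical comparison. -/
theorem fin_num {α ε : ℝ} (h0 : 1 / 2 < α) (h1 : α < 1) (hε : 0 < ε) :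
    ∀ᶠ q : ℕ in atTop, ∀ N : ℕ, Real.exp (be α * q / 2) ≤ N →
      8 * ((q : ℝ) ^ 2 + 1) ^ 2 * Bn α q * 2 ^ (((17 + C1 α).choose 2) * ⌈8 / ε⌉₊) <
        ex N (dl α ε) := by
  have hb := be_pos h0 h1
  have hdl := dl_pos h0 h1 hε
  set y₀ := I3 α + I2 α with hy₀
  set K := CK α with hK
  set T : ℝ := 2 ^ (((17 + C1 α).choose 2) * ⌈8 / ε⌉₊) with hT
  have hT0 : 0 < T := by positivity
  set C₀ : ℝ := 32 * 40 ^ K * T with hC₀
  have hC₀0 : 0 < C₀ := by positivity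
  filter_upwards [eventually_ge_atTop 1,
    poly_le h0 h1 (C₀ + 1) (dl α ε) (4 + (4 + 2 * y₀) * K) hdl] with q hq hpoly
  intro N hN
  have hqr : (1 : ℝ) ≤ q := by exact_mod_cast hq
  have hq0 : (0 : ℝ) < q := by linarith
  refine lt_of_lt_of_le ?_ (hpoly N hN)
  have e1 : Bn α q ≤ (40 * (q : ℝ) ^ 4 * (q : ℝ) ^ (2 * y₀)) ^ K := by
    unfold Bn
    refine pow_le_pow_left₀ (zero_le_one.trans (one_le_bS α q _ hq)) ?_ K
    unfold bS
    exact mul_le_mul_of_nonneg_right (cS_le α q hq) (by positivity)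
  have e2 : (40 * (q : ℝ) ^ 4 * (q : ℝ) ^ (2 * y₀)) ^ K = 40 ^ K * (q : ℝ) ^ ((4 + 2 * y₀) * K) := by
    rw [mul_assoc, ← pow_add, mul_pow, ← pow_mul]
  rw [e2] at e1
  have e3 : ((q : ℝ) ^ 2 + 1) ^ 2 ≤ 4 * (q : ℝ) ^ 4 := by
    have h5 : (1 : ℝ) ≤ (q : ℝ) ^ 2 := one_le_pow₀ hqr
    have h6 : ((q : ℝ) ^ 2 + 1) ^ 2 ≤ (2 * (q : ℝ) ^ 2) ^ 2 :=
      pow_le_pow_left₀ (by positivity) (by linarith) 2
    refine h6.trans (le_of_eq ?_)
    ring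
  have hBn : 0 ≤ Bn α q := pow_nonneg (zero_le_one.trans (one_le_bS α q _ hq)) _
  calc 8 * ((q : ℝ) ^ 2 + 1) ^ 2 * Bn α q * T
      ≤ 8 * (4 * (q : ℝ) ^ 4) * (40 ^ K * (q : ℝ) ^ ((4 + 2 * y₀) * K)) * T := by
        gcongr
    _ = C₀ * (q : ℝ) ^ (4 + (4 + 2 * y₀) * K) := by
        rw [hC₀, pow_add]
        ring
    _ < (C₀ + 1) * (q : ℝ) ^ (4 + (4 + 2 * y₀) * K) := by
        have h5 : 0 < (q : ℝ) ^ (4 + (4 + 2 * y₀) * K) := by positivity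
        nlinarith

end Pool.Agent.LibCA69
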