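import Pool.Agent.LibCA69.FinE1

/-!
# Task FINE2: small pieces for the end of Breaker's side
-/

set_option autoImplicit false

namespace Pool.Agent.LibCA69

open Finset Filter Pool.Agent.H69.Clique

/-- The common part of `split_prod` and `split_prod'`. -/
theorem split_prod_FinE2 {α ε : ℝ} (h0 : 1 / 2 < α) (h1 : α < 1) (hε : 0 < ε) (hε1 : ε ≤ 1) :
    ∀ᶠ q : ℕ in atTop, ∀ N : ℕ, Reg α ε q N → ∀ R B Rb Bb L, Cfg α ε N q R B Rb Bb L →
      ∀ A : Finset (Fin N), A.card = q → ∀ P : Finset (Finset (Fin N)), IsRep α q A L P →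
      ∀ (y : ℕ) (X : ℝ), 0 ≤ X → (∀ r ∈ P, x0 α * q ≤ ((r ∩ A).card : ℝ) →
        (r ∩ A).card + I3 α < q → (r \ A).card ≤ y ∧ Bh α q y ≤ X) → 1 ≤ X →
      ∏ r ∈ P, ∏ z ∈ cls α q A L r, mm α q A z ≤ Bn α q * X *
        ∏ r ∈ P.filter (fun r => ((r ∩ A).card : ℝ) < x0 α * q),
          (2 : ℝ) ^ (((r ∩ A).card + C1 α).choose 2) := by
  filter_upwards [eventually_ge_atTop 1, class_light h0 h1 hε hε1, class_heavy h0 h1 hε hε1,
    near_unique α, heavy_count h0 h1] with q hq hlight hheavy hnear hcount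
  intro N hN R B Rb Bb L hcfg A hA P hP y X hX0 hy hX1
  have hDc : ∀ r ∈ P, Dc α ε q Rb Bb r := by
    intro r hr
    obtain ⟨z, hz, rfl⟩ := hP.mem r hr
    exact cfg_dc hcfg z (mem_att.1 hz).1
  set F : Finset (Fin N) → ℝ := fun r => ∏ z ∈ cls α q A L r, mm α q A z with hF
  have hF1 : ∀ r, 0 ≤ F r := by
    intro r
    exact prod_nonneg fun z _ => zero_le_one.trans (one_le_mm α q hq A z)
  have hb1 : ∀ m, 1 ≤ bS α q m := fun m => one_le_bS α q m hq
  have hBn1 : 1 ≤ Bn α q := one_le_pow₀ (hb1 _)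
  rw [← prod_filter_mul_prod_filter_not P (fun r => ((r ∩ A).card : ℝ) < x0 α * q)]
  set P' := P.filter (fun r => ¬ ((r ∩ A).card : ℝ) < x0 α * q) with hP'
  have hP'P : P' ⊆ P := filter_subset _ _
  have hl : ∏ r ∈ P.filter (fun r => ((r ∩ A).card : ℝ) < x0 α * q), F r ≤
      ∏ r ∈ P.filter (fun r => ((r ∩ A).card : ℝ) < x0 α * q),
        (2 : ℝ) ^ (((r ∩ A).card + C1 α).choose 2) := by
    refine prod_le_prod (fun r _ => hF1 r) fun r hr => ?_
    exact hlight N hN R B Rb Bb L hcfg A r (hDc r (mem_filter.1 hr).1)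
  have hn : ∏ r ∈ P', F r ≤ Bn α q * X := by
    rw [← prod_filter_mul_prod_filter_not P' (fun r => q ≤ (r ∩ A).card + I3 α)]
    refine mul_le_mul ?_ ?_ (prod_nonneg fun r _ => hF1 r) (zero_le_one.trans hBn1)
    · -- at most one near representative
      have hc : (P'.filter (fun r => q ≤ (r ∩ A).card + I3 α)).card ≤ 1 := by
        rw [card_le_one]
        intro r hr r' hr'
        by_contra hne
        rw [mem_filter] at hr hr'
        exact hnear N A r r' hA (hP.sep r (hP'P hr.1) r' (hP'P hr'.1) hne) hr.2 hr'.2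
      have hc2 : ∏ r ∈ P'.filter (fun r => q ≤ (r ∩ A).card + I3 α), F r ≤
          ∏ _r ∈ P'.filter (fun r => q ≤ (r ∩ A).card + I3 α), Bn α q := by
        refine prod_le_prod (fun r _ => hF1 r) fun r hr => ?_
        rw [mem_filter] at hr
        have hrP := hP'P hr.1
        have h2 := hheavy N hN R B Rb Bb L hcfg A r (hDc r hrP)
        refine h2.trans ?_
        unfold Bn
        refine pow_le_pow_left₀ (zero_le_one.trans (hb1 _)) (bS_mono α q _ _ hq ?_) _
        have h3 : (r ∩ A).card + (r \ A).card = r.card := card_inter_add_card_sdiff r A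
        have h4 : r.card ≤ q := (hDc r hrP).1.2
        have h5 := hr.2
        omega
      rw [prod_const] at hc2
      refine hc2.trans ?_
      calc Bn α q ^ (P'.filter (fun r => q ≤ (r ∩ A).card + I3 α)).card ≤ Bn α q ^ 1 :=
            pow_le_pow_right₀ hBn1 hc
        _ = Bn α q := pow_one _
    · -- the heavy representatives
      set Q := P'.filter (fun r => ¬ q ≤ (r ∩ A).card + I3 α) with hQ
      have hQ1 : ∀ r ∈ Q, r ∈ P ∧ x0 α * q ≤ ((r ∩ A).card : ℝ) ∧ (r ∩ A).card + I3 α < q := by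
        intro r hr
        rw [hQ, mem_filter, hP', mem_filter] at hr
        exact ⟨hr.1.1, not_lt.1 hr.1.2, not_le.1 hr.2⟩
      rcases Q.eq_empty_or_nonempty with he | ⟨r₁, hr₁⟩
      · rw [he, prod_empty]
        exact hX1
      · have hXB : Bh α q y ≤ X := (hy r₁ (hQ1 r₁ hr₁).1 (hQ1 r₁ hr₁).2.1 (hQ1 r₁ hr₁).2.2).2
        refine le_trans ?_ hXB
        have hc : Q.card ≤ r1 α := hcount N A Q hA
          (fun r hr r' hr' hne => hP.sep r (hQ1 r hr).1 r' (hQ1 r' hr').1 hne)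
          (fun r hr => (hQ1 r hr).2.1)
        have hc2 : ∏ r ∈ Q, F r ≤ ∏ _r ∈ Q, bS α q (y + I2 α) ^ CK α := by
          refine prod_le_prod (fun r _ => hF1 r) fun r hr => ?_
          obtain ⟨hrP, h3, h4⟩ := hQ1 r hr
          have h2 := hheavy N hN R B Rb Bb L hcfg A r (hDc r hrP)
          refine h2.trans ?_
          refine pow_le_pow_left₀ (zero_le_one.trans (hb1 _)) (bS_mono α q _ _ hq ?_) _
          have h5 := (hy r hrP h3 h4).1
          omega
        rw [prod_const] at hc2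
        refine hc2.trans ?_
        unfold Bh
        rw [pow_mul]
        exact pow_le_pow_right₀ (one_le_pow₀ (hb1 _)) hc
  calc (∏ r ∈ P.filter (fun r => ((r ∩ A).card : ℝ) < x0 α * q), F r) * ∏ r ∈ P', F r
      ≤ (∏ r ∈ P.filter (fun r => ((r ∩ A).card : ℝ) < x0 α * q),
        (2 : ℝ) ^ (((r ∩ A).card + C1 α).choose 2)) * (Bn α q * X) :=
        mul_le_mul hl hn (prod_nonneg fun r _ => hF1 r) (prod_nonneg fun r _ => by positivity)
    _ = _ := by ring

/-- The product over the classes, split into near, heavy and light representatives.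
`near_unique`, `heavy_count`, `class_heavy`, `class_light`. -/
theorem split_prod {α ε : ℝ} (h0 : 1 / 2 < α) (h1 : α < 1) (hε : 0 < ε) (hε1 : ε ≤ 1) :
    ∀ᶠ q : ℕ in atTop, ∀ N : ℕ, Reg α ε q N → ∀ R B Rb Bb L, Cfg α ε N q R B Rb Bb L →
      ∀ A : Finset (Fin N), A.card = q → ∀ P : Finset (Finset (Fin N)), IsRep α q A L P →
      ∀ y : ℕ, (∀ r ∈ P, x0 α * q ≤ ((r ∩ A).card : ℝ) → (r ∩ A).card + I3 α < q →
        (r \ A).card ≤ y) →
      ∏ r ∈ P, ∏ z ∈ cls α q A L r, mm α q A z ≤ Bn α q * Bh α q y *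
        ∏ r ∈ P.filter (fun r => ((r ∩ A).card : ℝ) < x0 α * q),
          (2 : ℝ) ^ (((r ∩ A).card + C1 α).choose 2) := by
  filter_upwards [eventually_ge_atTop 1, split_prod_FinE2 h0 h1 hε hε1] with q hq h
  intro N hN R B Rb Bb L hcfg A hA P hP y hy
  have hB1 : 1 ≤ Bh α q y := one_le_pow₀ (one_le_bS α q _ hq)
  exact h N hN R B Rb Bb L hcfg A hA P hP y (Bh α q y) (zero_le_one.trans hB1)
    (fun r hr h3 h4 => ⟨hy r hr h3 h4, le_rfl⟩) hB1

/-- The same without heavy representatives. -/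
theorem split_prod' {α ε : ℝ} (h0 : 1 / 2 < α) (h1 : α < 1) (hε : 0 < ε) (hε1 : ε ≤ 1) :
    ∀ᶠ q : ℕ in atTop, ∀ N : ℕ, Reg α ε q N → ∀ R B Rb Bb L, Cfg α ε N q R B Rb Bb L →
      ∀ A : Finset (Fin N), A.card = q → ∀ P : Finset (Finset (Fin N)), IsRep α q A L P →
      (∀ r ∈ P, x0 α * q ≤ ((r ∩ A).card : ℝ) → ¬ (r ∩ A).card + I3 α < q) →
      ∏ r ∈ P, ∏ z ∈ cls α q A L r, mm α q A z ≤ Bn α q *
        ∏ r ∈ P.filter (fun r => ((r ∩ A).card : ℝ) < x0 α * q),
          (2 : ℝ) ^ (((r ∩ A).card + C1 α).choose 2) := by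
  filter_upwards [split_prod_FinE2 h0 h1 hε hε1] with q h
  intro N hN R B Rb Bb L hcfg A hA P hP hy
  have h2 := h N hN R B Rb Bb L hcfg A hA P hP 0 1 zero_le_one
    (fun r hr h3 h4 => absurd h4 (hy r hr h3)) le_rfl
  rw [mul_one] at h2
  exact h2

/-- A representative has at least two vertices in `A`. -/
theorem two_le_rep {α ε : ℝ} {N q : ℕ} {R B Rb Bb : Finset (Edge N)}
    {L : List (Finset (Fin N) × Finset (Edge N))} (h : Cfg α ε N q R B Rb Bb L)
    (A : Finset (Fin N)) (P : Finset (Finset (Fin N))) (hP : IsRep α q A L P) :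
    ∀ r ∈ P, 2 ≤ (r ∩ A).card := by
  intro r hr
  obtain ⟨z, hz, rfl⟩ := hP.mem r hr
  rw [mem_att] at hz
  obtain ⟨hzL, e, he⟩ := hz
  rw [mem_inter] at he
  have h1 : e ∈ inside z.1 := h.board_sub z hzL he.1
  have h2 : e ∈ inside (z.1 ∩ A) := by
    rw [inside_inter, mem_inter]
    exact ⟨h1, he.2⟩
  by_contra hlt
  have h3 := card_inside (z.1 ∩ A)
  rw [Nat.choose_eq_zero_of_lt (not_le.1 hlt), card_eq_zero] at h3
  rw [h3] at h2
  simp at h2

end Pool.Agent.LibCA69
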