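import Pool.Agent.LibCA69.GameC

/-!
# The decomposition theorem (big game and small games)
-/

set_option autoImplicit false

namespace Pool.Agent.LibCA69

open Finset Pool.Agent.H69.Clique

variable {E : Type} [Fintype E] [DecidableEq E]

theorem breaker_decomp {ι : Type} [Fintype ι] [DecidableEq ι] (P : ι → Finset E)
    (p : ι → Finset E → Finset E → ℝ) (θ : ι → ℝ) (Φ : Finset E → Finset E → ℝ)
    (S : ι → Finset E → Finset E → Finset E → ℝ) (c : ℝ) (W : Finset E → Prop)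
    (hθ : ∀ i, 0 < θ i)
    (hp2 : ∀ i R B e, Disjoint R B → e ∉ R ∪ B → p i (insert e R) B ≤ 2 * p i R B)
    (hpB : ∀ i R B e, Disjoint R B → e ∉ R ∪ B → p i R (insert e B) ≤ p i R B)
    (hloc : ∀ i R B e, Disjoint R B → e ∉ R ∪ B → e ∉ P i →
      p i (insert e R) B = p i R B ∧ p i R (insert e B) = p i R B)
    (hp0 : ∀ i, p i ∅ ∅ < θ i)
    (hΦ : Comb Φ) (hΦ0 : Φ ∅ ∅ < 1 / 2)
    (hS : ∀ i F, Comb (S i F)) (hS0 : ∀ i F, 2 * S i F ∅ ∅ ≤ c)
    (hW : ∀ R B Rb Bb L, FinalCfg P p θ Φ S c R B Rb Bb L → ¬ W R) :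
    ¬ MakerGuarantees W := by
  have hD : (⟨P, p, θ, Φ, S, c⟩ : Dat E ι).Ok := ⟨hθ, hp2, hpB, hloc, hp0, hΦ, hΦ0, hS, hS0⟩
  apply not_guarantees W (fun R B => ∃ Rb Bb : Finset E, ∃ L : List (ι × Finset E),
    Inv ⟨P, p, θ, Φ, S, c⟩ R B Rb Bb L)
  · exact ⟨∅, ∅, [], inv_start hD⟩
  · rintro R B ⟨Rb, Bb, L, h⟩
    exact h.disj
  · rintro R B e ⟨Rb, Bb, L, h⟩ he
    by_cases hfull : insert e R ∪ B = univ
    · left
      obtain ⟨Rb', Bb', L', h'⟩ := final_cfg' hD h e he hfull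
      exact ⟨hfull, hW _ _ _ _ _ h'⟩
    · right
      by_cases heb : e ∈ brd L
      · exact maker_board hD h e he heb hfull
      · exact maker_big hD h e he heb hfull
  · rintro R B ⟨Rb, Bb, L, h⟩ hfull
    exact hW _ _ _ _ _ (final_cfg hD h hfull)

end Pool.Agent.LibCA69
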