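import Pool.Agent.LibCA69.Comb

/-!
# Task GAMEA1: from a maintainable set of positions to a strategy of Breaker

`τ R' B` is some `f ∉ R' ∪ B` with `J R' (insert f B)` if there is one, otherwise any unclaimed
element.  See `breaker_wins` in `Pool/Agent/H69/CliqueGame.lean` (also `play_full`, `play_succ`).
-/

set_option autoImplicit false

namespace Pool.Agent.LibCA69

open Finset Pool.Agent.H69.Clique

variable {E : Type} [Fintype E] [DecidableEq E]

/-- A set `J` of positions at Maker's turn that Breaker can maintain. -/
theorem not_guarantees (W : Finset E → Prop) (J : Finset E → Finset E → Prop) (h0 : J ∅ ∅)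
    (hd : ∀ R B, J R B → Disjoint R B)
    (hstep : ∀ R B e, J R B → e ∉ R ∪ B →
      (insert e R ∪ B = univ ∧ ¬ W (insert e R)) ∨
      (∃ f, f ∉ insert e R ∪ B ∧ J (insert e R) (insert f B)))
    (hfin : ∀ R B, J R B → R ∪ B = univ → ¬ W R) : ¬ MakerGuarantees W := by
  classical
  rintro ⟨σ, hleg, hall⟩
  have : Nonempty E := ⟨σ ∅ ∅⟩
  have hchoice : ∀ R B : Finset E, ∃ f : E, (R ∪ B ≠ univ → f ∉ R ∪ B) ∧
      ((∃ f, f ∉ R ∪ B ∧ J R (insert f B)) → J R (insert f B)) := by
    intro R B
    by_cases hex : ∃ f, f ∉ R ∪ B ∧ J R (insert f B)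
    · obtain ⟨f, hf1, hf2⟩ := hex
      exact ⟨f, fun _ => hf1, fun _ => hf2⟩
    · by_cases hu : R ∪ B = univ
      · exact ⟨Classical.arbitrary E, fun h => absurd hu h, fun h => absurd h hex⟩
      · obtain ⟨f, hf⟩ : ∃ f, f ∉ R ∪ B := by
          by_contra hcon
          push Not at hcon
          exact hu (eq_univ_iff_forall.2 hcon)
        exact ⟨f, fun _ => hf, fun h => absurd h hex⟩
  choose τ hτ using hchoice
  have hlegτ : Legal τ := fun R B h => (hτ R B).1 h
  have inv : ∀ n : ℕ, J (play σ τ n).1 (play σ τ n).2 ∨
      ((play σ τ n).1 ∪ (play σ τ n).2 = univ ∧ ¬ W (play σ τ n).1) := by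
    intro n
    induction n with
    | zero => exact Or.inl h0
    | succ n ih =>
      rw [play_succ]
      set p := play σ τ n with hp
      by_cases hu : p.1 ∪ p.2 = univ
      · have : H69.Clique.round σ τ p = p := by
          unfold H69.Clique.round
          rw [if_pos hu]
        rw [this]
        exact ih
      · have hJ : J p.1 p.2 := ih.resolve_right (fun h => hu h.1)
        have he := hleg p.1 p.2 hu
        set e := σ p.1 p.2 with hedef
        unfold H69.Clique.round
        rw [if_neg hu]
        split_ifs with h2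
        · rcases hstep p.1 p.2 e hJ he with h3 | ⟨f, hf, _⟩
          · exact Or.inr h3
          · rw [h2] at hf
            exact absurd (mem_univ f) hf
        · rcases hstep p.1 p.2 e hJ he with h3 | h3
          · exact absurd h3.1 h2
          · exact Or.inl ((hτ (insert e p.1) p.2).2 h3)
  have hfull := play_full σ τ hleg
  have hW := hall τ hlegτ
  rcases inv (Fintype.card E) with h | h
  · exact hfin _ _ h hfull hW
  · exact h.2 hW

end Pool.Agent.LibCA69
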