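import Pool.Agent.LibCA69.GameA1

/-!
# Task GAMEA2: the Erdős–Selfridge step
-/

set_option autoImplicit false

namespace Pool.Agent.LibCA69

open Finset Pool.Agent.H69.Clique

variable {E : Type} [Fintype E] [DecidableEq E]

/-- The Erdős–Selfridge step on a set `F` of unclaimed elements: there is an answer `f ∈ F` after
which the potential is not larger, even after a further move of Maker in `F`. -/
theorem es_step {φ : Finset E → Finset E → ℝ} (h : Comb φ) (R B F : Finset E)
    (hd : Disjoint R B) (hF : ∀ f ∈ F, f ∉ R ∪ B) (hne : F.Nonempty) :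
    ∃ f ∈ F, φ R (insert f B) ≤ φ R B ∧
      ∀ g ∈ F, g ≠ f → φ (insert g R) (insert f B) ≤ φ R B := by
  obtain ⟨f, hf, hmax⟩ := exists_max_image F (fun f => φ (insert f R) B) hne
  refine ⟨f, hf, comb_anti h R B f (hF f hf), ?_⟩
  intro g hg hgf
  have h1 := comb_cross h R B g f (hF g hg) (hF f hf) hgf
  have h2 := comb_harmonic h R B hd f (hF f hf)
  have h3 := hmax g hg
  unfold cross at h1
  linarith

end Pool.Agent.LibCA69
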