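import Pool.Agent.LibCA69.GameDefs

/-!
# Task GAMEB1: declaring the dangerous targets

Declare a dangerous undeclared target `i` with the board `P i \ (Rb ∪ Bb ∪ brd L)`; the number of
undeclared targets drops.
-/

set_option autoImplicit false

namespace Pool.Agent.LibCA69

open Finset Pool.Agent.H69.Clique

variable {E : Type} [Fintype E] [DecidableEq E]

theorem decl_one {ι : Type} [DecidableEq ι] {D : Dat E ι} (hD : D.Ok)
    {R B Rb Bb : Finset E} {L : List (ι × Finset E)} (h : Inv0 D R B Rb Bb L) (i : ι)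
    (hi : ∀ x ∈ L, x.1 ≠ i) (hp : D.θ i ≤ D.p i Rb Bb) :
    Inv0 D R B Rb Bb ((i, D.P i \ (Rb ∪ Bb ∪ brd L)) :: L) := by
  have hb : brd ((i, D.P i \ (Rb ∪ Bb ∪ brd L)) :: L) = D.P i \ (Rb ∪ Bb ∪ brd L) ∪ brd L := rfl
  have hsub : brd L ⊆ brd ((i, D.P i \ (Rb ∪ Bb ∪ brd L)) :: L) := by
    rw [hb]; exact subset_union_right
  have hR : R ∩ (D.P i \ (Rb ∪ Bb ∪ brd L)) = ∅ := by
    ext e
    simp only [mem_inter, mem_sdiff, mem_union, notMem_empty, iff_false]
    rintro ⟨h1, h2, h3⟩
    have := h.coverR h1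
    rw [mem_union] at this
    tauto
  have hB : B ∩ (D.P i \ (Rb ∪ Bb ∪ brd L)) = ∅ := by
    ext e
    simp only [mem_inter, mem_sdiff, mem_union, notMem_empty, iff_false]
    rintro ⟨h1, h2, h3⟩
    have := h.coverB h1
    rw [mem_union] at this
    tauto
  refine ⟨h.disj, h.subR, h.subB, ?_, ?_, ?_, ?_, ?_, ?_, h.p_lt, ?_, h.pot, ?_, ?_, ?_⟩
  · exact h.coverR.trans (union_subset_union_right hsub)
  · exact h.coverB.trans (union_subset_union_right hsub)
  · intro x hx
    rcases List.mem_cons.1 hx with rfl | hx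
    · exact sdiff_subset
    · exact h.board_sub x hx
  · intro x hx
    rcases List.mem_cons.1 hx with rfl | hx
    · exact (disjoint_sdiff_self_left).mono_right subset_union_left
    · exact h.board_disj x hx
  · refine List.Pairwise.cons ?_ h.order
    intro x hx
    refine ⟨(hi x hx).symm, ?_⟩
    exact (disjoint_sdiff_self_right).mono_left (h.closed x hx)
  · intro x hx
    rcases List.mem_cons.1 hx with rfl | hx
    · intro e he
      simp only [hb, mem_union, mem_sdiff]
      tauto
    · exact (h.closed x hx).trans (union_subset_union_right hsub)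
  · intro x hx
    rcases List.mem_cons.1 hx with rfl | hx
    · exact hp
    · exact h.p_ge x hx
  · intro e he
    refine h.pot_next e (fun h' => he ?_)
    exact union_subset_union_right hsub h'
  · intro x hx
    rcases List.mem_cons.1 hx with rfl | hx
    · simp only [hR, hB]
      have h1 := hD.hS0 i (D.P i \ (Rb ∪ Bb ∪ brd L))
      have h2 := comb_nonneg (hD.hS i (D.P i \ (Rb ∪ Bb ∪ brd L))) ∅ ∅
      linarith
    · exact h.small x hx
  · intro x hx e he he'
    rcases List.mem_cons.1 hx with rfl | hx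
    · simp only [hR, hB]
      have h1 := hD.hS0 i (D.P i \ (Rb ∪ Bb ∪ brd L))
      have h2 := comb_start (hD.hS i (D.P i \ (Rb ∪ Bb ∪ brd L))) e
      rw [insert_empty_eq]
      linarith
    · exact h.small_next x hx e he he'

end Pool.Agent.LibCA69
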