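import Pool.Agent.LibCA69.GameB1

/-!
# Task GAMEB2: declaring the dangerous targets

Declare a dangerous undeclared target `i` with the board `P i \ (Rb ∪ Bb ∪ brd L)`; the number of
undeclared targets drops.
-/

set_option autoImplicit false

namespace Pool.Agent.LibCA69

open Finset Pool.Agent.H69.Clique

variable {E : Type} [Fintype E] [DecidableEq E]

theorem decl_all {ι : Type} [Fintype ι] [DecidableEq ι] {D : Dat E ι} (hD : D.Ok)
    {R B Rb Bb : Finset E} {L : List (ι × Finset E)} (h : Inv0 D R B Rb Bb L) :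
    ∃ L' : List (ι × Finset E), Inv D R B Rb Bb L' := by
  classical
  have key : ∀ n : ℕ, ∀ L : List (ι × Finset E),
      (univ.filter (fun i : ι => ∀ x ∈ L, x.1 ≠ i)).card = n → Inv0 D R B Rb Bb L →
      ∃ L' : List (ι × Finset E), Inv D R B Rb Bb L' := by
    intro n
    induction n using Nat.strong_induction_on with
    | _ n ih =>
      intro L hn h
      by_cases hs : ∀ i, (∀ x ∈ L, x.1 ≠ i) → D.p i Rb Bb < D.θ i
      · exact ⟨L, ⟨h, hs⟩⟩
      · push Not at hs
        obtain ⟨i, hi, hp⟩ := hs
        refine ih _ ?_ ((i, D.P i \ (Rb ∪ Bb ∪ brd L)) :: L) rfl (decl_one hD h i hi hp)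
        rw [← hn]
        apply card_lt_card
        rw [Finset.ssubset_iff_of_subset]
        · refine ⟨i, mem_filter.2 ⟨mem_univ _, hi⟩, ?_⟩
          intro h'
          exact (mem_filter.1 h').2 (i, D.P i \ (Rb ∪ Bb ∪ brd L)) List.mem_cons_self rfl
        · intro j hj
          rw [mem_filter] at hj ⊢
          exact ⟨mem_univ _, fun x hx => hj.2 x (List.mem_cons_of_mem _ hx)⟩
  exact key _ L rfl h

end Pool.Agent.LibCA69
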