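import Pool.Agent.LibCA69.GameB

/-!
# Task GAMEC1: the transitions
-/

set_option autoImplicit false

namespace Pool.Agent.LibCA69

open Finset Pool.Agent.H69.Clique

variable {E : Type} [Fintype E] [DecidableEq E]

theorem inv_start {ι : Type} {D : Dat E ι} (hD : D.Ok) : Inv D ∅ ∅ ∅ ∅ [] := by
  refine ⟨⟨disjoint_empty_left _, subset_rfl, subset_rfl, empty_subset _, empty_subset _,
    ?_, ?_, List.Pairwise.nil, ?_, ?_, ?_, ?_, ?_, ?_, ?_⟩, ?_⟩
  · intro x hx
    exact absurd hx List.not_mem_nil
  · intro x hx
    exact absurd hx List.not_mem_nil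
  · intro x hx
    exact absurd hx List.not_mem_nil
  · intro i
    have h1 := hD.hp0 i
    have h2 := hD.hθ i
    linarith
  · intro x hx
    exact absurd hx List.not_mem_nil
  · have := hD.hΦ0
    linarith
  · intro e _
    have h1 := comb_start hD.hΦ e
    have h2 := hD.hΦ0
    have h3 : insert e (∅ : Finset E) = {e} := rfl
    rw [h3]
    linarith
  · intro x hx
    exact absurd hx List.not_mem_nil
  · intro x hx
    exact absurd hx List.not_mem_nil
  · intro i _
    exact hD.hp0 i

/-- Boards of different entries are disjoint. -/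
theorem board_unique {ι : Type} {D : Dat E ι} {R B Rb Bb : Finset E} {L : List (ι × Finset E)}
    (h : Inv0 D R B Rb Bb L) {x y : ι × Finset E} (hx : x ∈ L) (hy : y ∈ L) {e : E}
    (hex : e ∈ x.2) (hey : e ∈ y.2) : x = y := by
  by_contra hne
  have hsymm : L.Pairwise (fun a b => a ≠ b → Disjoint a.2 b.2) := by
    refine List.Pairwise.imp_of_mem ?_ h.order
    intro a b ha hb hab _
    exact (disjoint_of_subset_left (h.board_sub b hb) hab.2).symm
  have hsym : Std.Symm (fun a b : ι × Finset E => a ≠ b → Disjoint a.2 b.2) :=
    ⟨fun a b h hab => (h (Ne.symm hab)).symm⟩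
  have key := List.Pairwise.forall_of_forall (R := fun a b : ι × Finset E => a ≠ b → Disjoint a.2 b.2)
      (fun a _ h => absurd rfl h) hsymm hx hy hne
  exact (Finset.disjoint_left.1 key) hex hey

/-- An extra move of Breaker. -/
theorem inv_extra {ι : Type} {D : Dat E ι} (hD : D.Ok) {R B Rb Bb : Finset E}
    {L : List (ι × Finset E)} (h : Inv D R B Rb Bb L) (f : E) (hf : f ∉ R ∪ B) :
    ∃ Bb' : Finset E, Inv D R (insert f B) Rb Bb' L := by
  have hfR : f ∉ R := fun h' => hf (mem_union_left _ h')
  have hfB : f ∉ B := fun h' => hf (mem_union_right _ h')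
  have hd' : Disjoint R (insert f B) := disjoint_insert_right' h.disj hf
  by_cases hfb : f ∈ brd L
  · -- in a board
    obtain ⟨y, hy, hfy⟩ := (mem_brd L f).1 hfb
    refine ⟨Bb, ⟨⟨hd', h.subR, h.subB.trans (subset_insert _ _), h.coverR, ?_, h.board_sub,
      h.board_disj, h.order, h.closed, h.p_lt, h.p_ge, h.pot, h.pot_next, ?_, ?_⟩, h.safe⟩⟩
    · rw [insert_subset_iff]
      exact ⟨mem_union_right _ hfb, h.coverB⟩
    · intro x hx
      by_cases hfx : f ∈ x.2
      · rw [insert_inter_of_mem hfx]
        refine (comb_anti (hD.hS x.1 x.2) (R ∩ x.2) (B ∩ x.2) f ?_).trans (h.small x hx)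
        intro h'
        rw [mem_union, mem_inter, mem_inter] at h'
        rcases h' with h' | h'
        · exact hfR h'.1
        · exact hfB h'.1
      · rw [insert_inter_of_notMem hfx]
        exact h.small x hx
    · intro x hx g hg hg2
      have hg3 : g ∉ R ∪ B := fun h' => hg2 (union_subset_union_right (subset_insert _ _) h')
      have hgf : g ≠ f := by
        rintro rfl
        exact hg2 (mem_union_right _ (mem_insert_self _ _))
      by_cases hfx : f ∈ x.2
      · rw [insert_inter_of_mem hfx]
        refine (comb_anti (hD.hS x.1 x.2) (insert g (R ∩ x.2)) (B ∩ x.2) f ?_).trans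
          (h.small_next x hx g hg hg3)
        intro h'
        rw [mem_union, mem_insert, mem_inter, mem_inter] at h'
        rcases h' with (h' | h') | h'
        · exact hgf h'.symm
        · exact hfR h'.1
        · exact hfB h'.1
      · rw [insert_inter_of_notMem hfx]
        exact h.small_next x hx g hg hg3
  · -- in the big board
    have hfRb : f ∉ Rb := fun h' => hfR (h.subR h')
    have hfBb : f ∉ Bb := fun h' => hfB (h.subB h')
    have hfb2 : f ∉ Rb ∪ Bb := by
      rw [mem_union, not_or]
      exact ⟨hfRb, hfBb⟩
    have hdb : Disjoint Rb Bb := disjoint_of_subset_left h.subR (disjoint_of_subset_right h.subB h.disj)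
    have hfx : ∀ x ∈ L, f ∉ x.2 := fun x hx h' => hfb ((mem_brd L f).2 ⟨x, hx, h'⟩)
    refine ⟨insert f Bb, ⟨⟨hd', h.subR, insert_subset_insert _ h.subB, h.coverR, ?_, h.board_sub,
      ?_, h.order, ?_, ?_, ?_, ?_, ?_, ?_, ?_⟩, ?_⟩⟩
    · rw [insert_subset_iff]
      refine ⟨mem_union_left _ (mem_insert_self _ _), h.coverB.trans ?_⟩
      exact union_subset_union_left (subset_insert _ _)
    · intro x hx
      rw [union_insert, disjoint_insert_right]
      exact ⟨hfx x hx, h.board_disj x hx⟩
    · intro x hx
      refine (h.closed x hx).trans ?_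
      exact union_subset_union_left (union_subset_union_right (subset_insert _ _))
    · intro i
      exact (hD.hpB i Rb Bb f hdb hfb2).trans_lt (h.p_lt i)
    · intro x hx
      have hfP : f ∉ D.P x.1 := by
        intro h'
        have := h.closed x hx h'
        rw [mem_union] at this
        rcases this with h2 | h2
        · exact hfb2 h2
        · exact hfb h2
      rw [(hD.hloc x.1 Rb Bb f hdb hfb2 hfP).2]
      exact h.p_ge x hx
    · exact (comb_anti hD.hΦ Rb Bb f hfb2).trans_lt h.pot
    · intro g hg
      have hg2 : g ∉ Rb ∪ Bb ∪ brd L := fun h' =>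
        hg (union_subset_union_left (union_subset_union_right (subset_insert _ _)) h')
      have hgf : f ≠ g := by
        rintro rfl
        exact hg (mem_union_left _ (mem_union_right _ (mem_insert_self _ _)))
      refine (comb_anti hD.hΦ (insert g Rb) Bb f ?_).trans_lt (h.pot_next g hg2)
      intro h'
      rw [insert_union, mem_insert] at h'
      rcases h' with h' | h'
      · exact hgf h'
      · exact hfb2 h'
    · intro x hx
      rw [insert_inter_of_notMem (hfx x hx)]
      exact h.small x hx
    · intro x hx g hg hg2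
      rw [insert_inter_of_notMem (hfx x hx)]
      exact h.small_next x hx g hg
        (fun h' => hg2 (union_subset_union_right (subset_insert _ _) h'))
    · intro i hi
      exact (hD.hpB i Rb Bb f hdb hfb2).trans_lt (h.safe i hi)

/-- Maker's move in a board, before the answer: the fields that survive. -/
theorem maker_board {ι : Type} {D : Dat E ι} (hD : D.Ok) {R B Rb Bb : Finset E}
    {L : List (ι × Finset E)} (h : Inv D R B Rb Bb L) (e : E) (he : e ∉ R ∪ B)
    (heb : e ∈ brd L) (hfull : insert e R ∪ B ≠ univ) :
    ∃ f, f ∉ insert e R ∪ B ∧ ∃ Rb' Bb' : Finset E, ∃ L' : List (ι × Finset E),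
      Inv D (insert e R) (insert f B) Rb' Bb' L' := by
  classical
  obtain ⟨x, hx, hex⟩ := (mem_brd L e).1 heb
  have heR : e ∉ R := fun h' => he (mem_union_left _ h')
  have heB : e ∉ B := fun h' => he (mem_union_right _ h')
  have hd1 : Disjoint (insert e R) B := disjoint_insert_left' h.disj he
  have hother : ∀ y ∈ L, y ≠ x → e ∉ y.2 := fun y hy hyx h' =>
    hyx (board_unique h.toInv0 hy hx h' hex)
  have hcovR : insert e R ⊆ Rb ∪ brd L := by
    rw [insert_subset_iff]
    exact ⟨mem_union_right _ heb, h.coverR⟩
  set F := x.2.filter (fun f => f ∉ insert e R ∪ B) with hF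
  by_cases hne : F.Nonempty
  · have hR' : Disjoint (insert e (R ∩ x.2)) (B ∩ x.2) := by
      refine disjoint_of_subset_left ?_ (disjoint_of_subset_right inter_subset_left hd1)
      exact insert_subset_insert _ inter_subset_left
    obtain ⟨f, hfF, hf1, hf2⟩ := es_step (hD.hS x.1 x.2) (insert e (R ∩ x.2)) (B ∩ x.2) F hR'
      (by
        intro f hf h'
        have h3 := (mem_filter.1 hf).2
        apply h3
        rw [mem_union, mem_insert, mem_inter, mem_inter] at h'
        rw [mem_union, mem_insert]
        rcases h' with (h' | h') | h'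
        · exact Or.inl (Or.inl h')
        · exact Or.inl (Or.inr h'.1)
        · exact Or.inr h'.1) hne
    obtain ⟨hfx, hff⟩ := mem_filter.1 hfF
    have hfb : f ∈ brd L := (mem_brd L f).2 ⟨x, hx, hfx⟩
    have hotherf : ∀ y ∈ L, y ≠ x → f ∉ y.2 := fun y hy hyx h' =>
      hyx (board_unique h.toInv0 hy hx h' hfx)
    have hsn := h.small_next x hx e hex he
    refine ⟨f, hff, Rb, Bb, L, ⟨⟨disjoint_insert_right' hd1 hff, h.subR.trans (subset_insert _ _),
      h.subB.trans (subset_insert _ _), hcovR, ?_, h.board_sub,
      h.board_disj, h.order, h.closed, h.p_lt, h.p_ge, h.pot, h.pot_next, ?_, ?_⟩, h.safe⟩⟩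
    · rw [insert_subset_iff]
      exact ⟨mem_union_right _ hfb, h.coverB⟩
    · intro y hy
      by_cases hyx : y = x
      · subst hyx
        rw [insert_inter_of_mem hex, insert_inter_of_mem hfx]
        exact hf1.trans hsn
      · rw [insert_inter_of_notMem (hother y hy hyx), insert_inter_of_notMem (hotherf y hy hyx)]
        exact h.small y hy
    · intro y hy g hg hg2
      have hg3 : g ∉ insert e R ∪ B := fun h' =>
        hg2 (union_subset_union_right (subset_insert _ _) h')
      by_cases hyx : y = x
      · subst hyx
        rw [insert_inter_of_mem hex, insert_inter_of_mem hfx]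
        have hgf : g ≠ f := by
          rintro rfl
          exact hg2 (mem_union_right _ (mem_insert_self _ _))
        exact (hf2 g (mem_filter.2 ⟨hg, hg3⟩) hgf).trans hsn
      · rw [insert_inter_of_notMem (hother y hy hyx), insert_inter_of_notMem (hotherf y hy hyx)]
        refine h.small_next y hy g hg (fun h' => hg3 ?_)
        exact union_subset_union_left (subset_insert _ _) h'
  · -- the board is full
    have hI : Inv D (insert e R) B Rb Bb L := by
      refine ⟨⟨hd1, h.subR.trans (subset_insert _ _), h.subB, hcovR, h.coverB, h.board_sub,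
      h.board_disj, h.order, h.closed, h.p_lt, h.p_ge, h.pot, h.pot_next, ?_, ?_⟩, h.safe⟩
      · intro y hy
        by_cases hyx : y = x
        · subst hyx
          rw [insert_inter_of_mem hex]
          exact h.small_next y hy e hex he
        · rw [insert_inter_of_notMem (hother y hy hyx)]
          exact h.small y hy
      · intro y hy g hg hg2
        by_cases hyx : y = x
        · subst hyx
          exact absurd ⟨g, mem_filter.2 ⟨hg, hg2⟩⟩ hne
        · rw [insert_inter_of_notMem (hother y hy hyx)]
          refine h.small_next y hy g hg (fun h' => hg2 ?_)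
          exact union_subset_union_left (subset_insert _ _) h'
    obtain ⟨f, hf⟩ : ∃ f, f ∉ insert e R ∪ B := by
      by_contra hcon
      push Not at hcon
      exact hfull (eq_univ_iff_forall.2 hcon)
    obtain ⟨Bb', hB'⟩ := inv_extra hD hI f hf
    exact ⟨f, hf, Rb, Bb', L, hB'⟩

end Pool.Agent.LibCA69
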