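import Pool.Agent.LibCA69.GameC1

/-!
# Task GAMEC2: the transitions
-/

set_option autoImplicit false

namespace Pool.Agent.LibCA69

open Finset Pool.Agent.H69.Clique

variable {E : Type} [Fintype E] [DecidableEq E]

/-- Maker's move outside the boards, before the answer: the danger stays below twice the
threshold. -/
theorem big_p {ι : Type} {D : Dat E ι} (hD : D.Ok) {R B Rb Bb : Finset E}
    {L : List (ι × Finset E)} (h : Inv D R B Rb Bb L) (e : E) (heb : e ∉ Rb ∪ Bb ∪ brd L) :
    (∀ i, D.p i (insert e Rb) Bb < 2 * D.θ i) ∧
      ∀ x ∈ L, D.p x.1 (insert e Rb) Bb = D.p x.1 Rb Bb := by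
  have hdb : Disjoint Rb Bb := disjoint_of_subset_left h.subR (disjoint_of_subset_right h.subB h.disj)
  have he2 : e ∉ Rb ∪ Bb := fun h' => heb (mem_union_left _ h')
  have hx : ∀ x ∈ L, D.p x.1 (insert e Rb) Bb = D.p x.1 Rb Bb := by
    intro x hx
    refine (hD.hloc x.1 Rb Bb e hdb he2 (fun h' => heb ?_)).1
    exact h.closed x hx h'
  refine ⟨fun i => ?_, hx⟩
  by_cases hi : ∀ x ∈ L, x.1 ≠ i
  · have h1 := h.safe i hi
    have h2 := hD.hp2 i Rb Bb e hdb he2
    linarith
  · push Not at hi
    obtain ⟨x, hxL, rfl⟩ := hi
    rw [hx x hxL]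
    exact h.p_lt x.1

/-- Maker's move outside the boards (answer outside the boards if possible, then
`decl_all`). -/
theorem maker_big {ι : Type} [Fintype ι] [DecidableEq ι] {D : Dat E ι} (hD : D.Ok)
    {R B Rb Bb : Finset E} {L : List (ι × Finset E)} (h : Inv D R B Rb Bb L) (e : E)
    (he : e ∉ R ∪ B) (heb : e ∉ brd L) (hfull : insert e R ∪ B ≠ univ) :
    ∃ f, f ∉ insert e R ∪ B ∧ ∃ Rb' Bb' : Finset E, ∃ L' : List (ι × Finset E),
      Inv D (insert e R) (insert f B) Rb' Bb' L' := by
  classical
  have heR : e ∉ R := fun h' => he (mem_union_left _ h')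
  have heB : e ∉ B := fun h' => he (mem_union_right _ h')
  have hd1 : Disjoint (insert e R) B := disjoint_insert_left' h.disj he
  have hdb : Disjoint Rb Bb := disjoint_of_subset_left h.subR (disjoint_of_subset_right h.subB h.disj)
  have hebig : e ∉ Rb ∪ Bb ∪ brd L := by
    rw [mem_union, mem_union, not_or, not_or]
    exact ⟨⟨fun h' => heR (h.subR h'), fun h' => heB (h.subB h')⟩, heb⟩
  have he2 : e ∉ Rb ∪ Bb := fun h' => hebig (mem_union_left _ h')
  have hdb1 : Disjoint (insert e Rb) Bb := disjoint_insert_left' hdb he2
  obtain ⟨hp1, hp2⟩ := big_p hD h e hebig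
  have hex : ∀ x ∈ L, e ∉ x.2 := fun x hx h' => heb ((mem_brd L e).2 ⟨x, hx, h'⟩)
  set F := univ.filter (fun f => f ∉ insert e Rb ∪ Bb ∪ brd L) with hF
  have hpe := h.pot_next e hebig
  by_cases hne : F.Nonempty
  · obtain ⟨f, hfF, hf1, hf2⟩ := es_step hD.hΦ (insert e Rb) Bb F hdb1
      (fun f hf h' => (mem_filter.1 hf).2 (mem_union_left _ h')) hne
    have hff := (mem_filter.1 hfF).2
    rw [mem_union, mem_union, not_or, not_or] at hff
    obtain ⟨⟨hfRb, hfBb⟩, hfb⟩ := hff
    have hfe : f ≠ e := by
      rintro rfl
      exact hfRb (mem_insert_self _ _)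
    have hfR : f ∉ R := by
      intro h'
      have := h.coverR h'
      rw [mem_union] at this
      rcases this with h2 | h2
      · exact hfRb (mem_insert_of_mem h2)
      · exact hfb h2
    have hfB : f ∉ B := by
      intro h'
      have := h.coverB h'
      rw [mem_union] at this
      rcases this with h2 | h2
      · exact hfBb h2
      · exact hfb h2
    have hf : f ∉ insert e R ∪ B := by
      rw [mem_union, mem_insert, not_or, not_or]
      exact ⟨⟨hfe, hfR⟩, hfB⟩
    have hfx : ∀ x ∈ L, f ∉ x.2 := fun x hx h' => hfb ((mem_brd L f).2 ⟨x, hx, h'⟩)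
    have hf2' : f ∉ insert e Rb ∪ Bb := by
      rw [mem_union, not_or]
      exact ⟨hfRb, hfBb⟩
    have hI0 : Inv0 D (insert e R) (insert f B) (insert e Rb) (insert f Bb) L := by
      refine ⟨disjoint_insert_right' hd1 hf, insert_subset_insert _ h.subR,
        insert_subset_insert _ h.subB, ?_, ?_, h.board_sub, ?_, h.order, ?_, ?_, ?_, ?_, ?_, ?_, ?_⟩
      · rw [insert_subset_iff]
        refine ⟨mem_union_left _ (mem_insert_self _ _), h.coverR.trans ?_⟩
        exact union_subset_union_left (subset_insert _ _)
      · rw [insert_subset_iff]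
        refine ⟨mem_union_left _ (mem_insert_self _ _), h.coverB.trans ?_⟩
        exact union_subset_union_left (subset_insert _ _)
      · intro x hx
        rw [union_insert, insert_union, disjoint_insert_right, disjoint_insert_right]
        exact ⟨hfx x hx, hex x hx, h.board_disj x hx⟩
      · intro x hx
        refine (h.closed x hx).trans ?_
        exact union_subset_union_left (union_subset_union (subset_insert _ _) (subset_insert _ _))
      · intro i
        exact (hD.hpB i (insert e Rb) Bb f hdb1 hf2').trans_lt (hp1 i)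
      · intro x hx
        have hfP : f ∉ D.P x.1 := by
          intro h'
          have := h.closed x hx h'
          rw [mem_union, mem_union] at this
          rcases this with (h2 | h2) | h2
          · exact hfRb (mem_insert_of_mem h2)
          · exact hfBb h2
          · exact hfb h2
        rw [(hD.hloc x.1 (insert e Rb) Bb f hdb1 hf2' hfP).2, hp2 x hx]
        exact h.p_ge x hx
      · exact hf1.trans_lt hpe
      · intro g hg
        have hg2 : g ∉ insert e Rb ∪ Bb ∪ brd L := fun h' =>
          hg (union_subset_union_left (union_subset_union_right (subset_insert _ _)) h')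
        have hgf : g ≠ f := by
          rintro rfl
          exact hg (mem_union_left _ (mem_union_right _ (mem_insert_self _ _)))
        exact (hf2 g (mem_filter.2 ⟨mem_univ _, hg2⟩) hgf).trans_lt hpe
      · intro x hx
        rw [insert_inter_of_notMem (hex x hx), insert_inter_of_notMem (hfx x hx)]
        exact h.small x hx
      · intro x hx g hg hg2
        rw [insert_inter_of_notMem (hex x hx), insert_inter_of_notMem (hfx x hx)]
        exact h.small_next x hx g hg (fun h' => hg2
          (union_subset_union (subset_insert _ _) (subset_insert _ _) h'))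
    obtain ⟨L', hL'⟩ := decl_all hD hI0
    exact ⟨f, hf, _, _, L', hL'⟩
  · have hI0 : Inv0 D (insert e R) B (insert e Rb) Bb L := by
      refine ⟨hd1, insert_subset_insert _ h.subR, h.subB, ?_, h.coverB, h.board_sub, ?_, h.order,
        ?_, hp1, ?_, hpe, ?_, ?_, ?_⟩
      · rw [insert_subset_iff]
        refine ⟨mem_union_left _ (mem_insert_self _ _), h.coverR.trans ?_⟩
        exact union_subset_union_left (subset_insert _ _)
      · intro x hx
        rw [insert_union, disjoint_insert_right]
        exact ⟨hex x hx, h.board_disj x hx⟩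
      · intro x hx
        refine (h.closed x hx).trans ?_
        exact union_subset_union_left (union_subset_union_left (subset_insert _ _))
      · intro x hx
        rw [hp2 x hx]
        exact h.p_ge x hx
      · intro g hg
        exact absurd ⟨g, mem_filter.2 ⟨mem_univ _, hg⟩⟩ hne
      · intro x hx
        rw [insert_inter_of_notMem (hex x hx)]
        exact h.small x hx
      · intro x hx g hg hg2
        rw [insert_inter_of_notMem (hex x hx)]
        exact h.small_next x hx g hg (fun h' => hg2
          (union_subset_union_left (subset_insert _ _) h'))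
    obtain ⟨L', hL'⟩ := decl_all hD hI0
    obtain ⟨f, hf⟩ : ∃ f, f ∉ insert e R ∪ B := by
      by_contra hcon
      push Not at hcon
      exact hfull (eq_univ_iff_forall.2 hcon)
    obtain ⟨Bb', hB'⟩ := inv_extra hD hL' f hf
    exact ⟨f, hf, _, Bb', L', hB'⟩

end Pool.Agent.LibCA69
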