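import Pool.Agent.LibCA69.GameC2

/-!
# Task GAMEC3: the transitions
-/

set_option autoImplicit false

namespace Pool.Agent.LibCA69

open Finset Pool.Agent.H69.Clique

variable {E : Type} [Fintype E] [DecidableEq E]

/-- The end of the play, after a move of Breaker. -/
theorem final_cfg {ι : Type} {D : Dat E ι} (hD : D.Ok) {R B Rb Bb : Finset E}
    {L : List (ι × Finset E)} (h : Inv D R B Rb Bb L) (hfull : R ∪ B = univ) :
    FinalCfg D.P D.p D.θ D.Φ D.S D.c R B Rb Bb L := by
  refine ⟨h.disj, hfull, h.subR, h.subB, h.board_sub, h.board_disj, h.order, ?_, h.p_lt, h.p_ge,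
    h.pot, h.small⟩
  intro e he
  have h1 : e ∈ R ∪ B := by
    rw [hfull]
    exact mem_univ e
  rw [← mem_brd]
  rw [mem_union, not_or] at he
  rcases mem_union.1 h1 with h2 | h2
  · exact (mem_union.1 (h.coverR h2)).resolve_left he.1
  · exact (mem_union.1 (h.coverB h2)).resolve_left he.2

/-- The end of the play, after a move of Maker. -/
theorem final_cfg' {ι : Type} {D : Dat E ι} (hD : D.Ok) {R B Rb Bb : Finset E}
    {L : List (ι × Finset E)} (h : Inv D R B Rb Bb L) (e : E) (he : e ∉ R ∪ B)
    (hfull : insert e R ∪ B = univ) :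
    ∃ Rb' Bb' : Finset E, ∃ L' : List (ι × Finset E),
      FinalCfg D.P D.p D.θ D.Φ D.S D.c (insert e R) B Rb' Bb' L' := by
  have heR : e ∉ R := fun h' => he (mem_union_left _ h')
  have heB : e ∉ B := fun h' => he (mem_union_right _ h')
  have hd1 : Disjoint (insert e R) B := disjoint_insert_left' h.disj he
  by_cases heb : e ∈ brd L
  · obtain ⟨x, hx, hex⟩ := (mem_brd L e).1 heb
    have hother : ∀ y ∈ L, y ≠ x → e ∉ y.2 := fun y hy hyx h' =>
      hyx (board_unique h.toInv0 hy hx h' hex)
    refine ⟨Rb, Bb, L, hd1, hfull, h.subR.trans (subset_insert _ _), h.subB, h.board_sub,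
      h.board_disj, h.order, ?_, h.p_lt, h.p_ge, h.pot, ?_⟩
    · intro g hg
      have h1 : g ∈ insert e R ∪ B := by
        rw [hfull]
        exact mem_univ g
      rw [← mem_brd]
      rw [mem_union, not_or] at hg
      rw [mem_union, mem_insert] at h1
      rcases h1 with (rfl | h2) | h2
      · exact heb
      · exact (mem_union.1 (h.coverR h2)).resolve_left hg.1
      · exact (mem_union.1 (h.coverB h2)).resolve_left hg.2
    · intro y hy
      by_cases hyx : y = x
      · subst hyx
        rw [insert_inter_of_mem hex]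
        exact h.small_next y hy e hex he
      · rw [insert_inter_of_notMem (hother y hy hyx)]
        exact h.small y hy
  · have hebig : e ∉ Rb ∪ Bb ∪ brd L := by
      rw [mem_union, mem_union, not_or, not_or]
      exact ⟨⟨fun h' => heR (h.subR h'), fun h' => heB (h.subB h')⟩, heb⟩
    obtain ⟨hp1, hp2⟩ := big_p hD h e hebig
    have hex : ∀ x ∈ L, e ∉ x.2 := fun x hx h' => heb ((mem_brd L e).2 ⟨x, hx, h'⟩)
    refine ⟨insert e Rb, Bb, L, hd1, hfull, insert_subset_insert _ h.subR, h.subB, h.board_sub,
      ?_, h.order, ?_, hp1, ?_, h.pot_next e hebig, ?_⟩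
    · intro x hx
      rw [insert_union, disjoint_insert_right]
      exact ⟨hex x hx, h.board_disj x hx⟩
    · intro g hg
      have h1 : g ∈ insert e R ∪ B := by
        rw [hfull]
        exact mem_univ g
      rw [← mem_brd]
      rw [mem_union, mem_insert, not_or, not_or] at hg
      rw [mem_union, mem_insert] at h1
      rcases h1 with (h2 | h2) | h2
      · exact absurd h2 hg.1.1
      · exact (mem_union.1 (h.coverR h2)).resolve_left hg.1.2
      · exact (mem_union.1 (h.coverB h2)).resolve_left hg.2
    · intro x hx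
      rw [hp2 x hx]
      exact h.p_ge x hx
    · intro x hx
      rw [insert_inter_of_notMem (hex x hx)]
      exact h.small x hx

end Pool.Agent.LibCA69
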