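import Pool.Agent.LibCA69.GameA

/-!
# The invariant of the decomposition theorem
-/

set_option autoImplicit false

namespace Pool.Agent.LibCA69

open Finset Pool.Agent.H69.Clique

variable {E : Type} [Fintype E] [DecidableEq E]

/-- The union of the boards. -/
def brd {ι : Type} (L : List (ι × Finset E)) : Finset E := L.foldr (fun x F => x.2 ∪ F) ∅

theorem mem_brd {ι : Type} (L : List (ι × Finset E)) (e : E) :
    e ∈ brd L ↔ ∃ x ∈ L, e ∈ x.2 := by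
  induction L with
  | nil => simp [brd]
  | cons x L ih =>
    have : brd (x :: L) = x.2 ∪ brd L := rfl
    rw [this, mem_union, ih]
    simp

/-- The data of the decomposition theorem. -/
structure Dat (E ι : Type) [Fintype E] [DecidableEq E] where
  P : ι → Finset E
  p : ι → Finset E → Finset E → ℝ
  θ : ι → ℝ
  Φ : Finset E → Finset E → ℝ
  S : ι → Finset E → Finset E → Finset E → ℝ
  c : ℝ

/-- The assumptions of the decomposition theorem. -/
structure Dat.Ok {ι : Type} (D : Dat E ι) : Prop where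
  hθ : ∀ i, 0 < D.θ i
  hp2 : ∀ i R B e, Disjoint R B → e ∉ R ∪ B → D.p i (insert e R) B ≤ 2 * D.p i R B
  hpB : ∀ i R B e, Disjoint R B → e ∉ R ∪ B → D.p i R (insert e B) ≤ D.p i R B
  hloc : ∀ i R B e, Disjoint R B → e ∉ R ∪ B → e ∉ D.P i →
      D.p i (insert e R) B = D.p i R B ∧ D.p i R (insert e B) = D.p i R B
  hp0 : ∀ i, D.p i ∅ ∅ < D.θ i
  hΦ : Comb D.Φ
  hΦ0 : D.Φ ∅ ∅ < 1 / 2
  hS : ∀ i F, Comb (D.S i F)
  hS0 : ∀ i F, 2 * D.S i F ∅ ∅ ≤ D.c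

/-- The part of the invariant without the declaration of new targets: it allows
undeclared targets to be dangerous. -/
structure Inv0 {ι : Type} (D : Dat E ι) (R B Rb Bb : Finset E) (L : List (ι × Finset E)) :
    Prop where
  disj : Disjoint R B
  subR : Rb ⊆ R
  subB : Bb ⊆ B
  coverR : R ⊆ Rb ∪ brd L
  coverB : B ⊆ Bb ∪ brd L
  board_sub : ∀ x ∈ L, x.2 ⊆ D.P x.1
  board_disj : ∀ x ∈ L, Disjoint x.2 (Rb ∪ Bb)
  order : L.Pairwise (fun new old => new.1 ≠ old.1 ∧ Disjoint (D.P old.1) new.2)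
  closed : ∀ x ∈ L, D.P x.1 ⊆ Rb ∪ Bb ∪ brd L
  p_lt : ∀ i, D.p i Rb Bb < 2 * D.θ i
  p_ge : ∀ x ∈ L, D.θ x.1 ≤ D.p x.1 Rb Bb
  pot : D.Φ Rb Bb < 1
  pot_next : ∀ e, e ∉ Rb ∪ Bb ∪ brd L → D.Φ (insert e Rb) Bb < 1
  small : ∀ x ∈ L, D.S x.1 x.2 (R ∩ x.2) (B ∩ x.2) ≤ D.c
  small_next : ∀ x ∈ L, ∀ e ∈ x.2, e ∉ R ∪ B →
    D.S x.1 x.2 (insert e (R ∩ x.2)) (B ∩ x.2) ≤ D.c

/-- The invariant: moreover undeclared targets are not dangerous. -/
structure Inv {ι : Type} (D : Dat E ι) (R B Rb Bb : Finset E) (L : List (ι × Finset E)) :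
    Prop extends Inv0 D R B Rb Bb L where
  safe : ∀ i, (∀ x ∈ L, x.1 ≠ i) → D.p i Rb Bb < D.θ i

end Pool.Agent.LibCA69
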