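import Pool.Agent.LibCA69.Num
import Pool.Agent.LibCA69.Val

/-!
# Task INSTA: the small potentials
-/

set_option autoImplicit false

namespace Pool.Agent.LibCA69

open Finset Filter Pool.Agent.H69.Clique

lemma lvls_mem_instA {α : ℝ} (h0 : 1 / 2 < α) (h1 : α < 1) (q : ℕ) {x : ℝ}
    (hx : x ∈ lvls α q) : 1 / 2 ≤ x ∧ x ≤ 1 := by
  unfold lvls at hx
  rw [mem_insert] at hx
  rcases hx with rfl | hx
  · exact ⟨h0.le, h1.le⟩
  · rw [mem_image] at hx
    obtain ⟨p, hp, rfl⟩ := hx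
    rw [mem_filter] at hp
    obtain ⟨_, hp1, hp2⟩ := hp
    have a1 : (1 : ℝ) ≤ p.2 := by exact_mod_cast hp1
    have a2 : (p.2 : ℝ) ≤ p.1 := by exact_mod_cast hp2
    have a3 : (0 : ℝ) < p.1 + p.2 := by linarith
    constructor
    · rw [le_div_iff₀ a3]
      linarith
    · rw [div_le_one a3]
      linarith

theorem Sm_comb {N : ℕ} {α : ℝ} (h0 : 1 / 2 < α) (h1 : α < 1) (q : ℕ) (D : Finset (Fin N))
    (F : Finset (Edge N)) : Comb (Sm α q D F) := by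
  classical
  by_cases hD : D.card ≤ q
  · have e : Sm α q D F = fun R B => ∑ C ∈ D.powerset, ∑ x ∈ lvls α q,
        ((q : ℝ) ^ (2 * (D.card - C.card)))⁻¹ * wgt (2 * x - 1) (F ∩ inside C) R B := by
      funext R B
      unfold Sm
      rw [if_pos hD]
    rw [e]
    refine comb_sum _ (fun C R B => ∑ x ∈ lvls α q,
        ((q : ℝ) ^ (2 * (D.card - C.card)))⁻¹ * wgt (2 * x - 1) (F ∩ inside C) R B) ?_
    intro C _
    refine comb_sum _ (fun x R B =>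
        ((q : ℝ) ^ (2 * (D.card - C.card)))⁻¹ * wgt (2 * x - 1) (F ∩ inside C) R B) ?_
    intro x hx
    obtain ⟨hx1, hx2⟩ := lvls_mem_instA h0 h1 q hx
    exact comb_smul _ (by positivity) (comb_wgt (by linarith) (by linarith) _)
  · have e : Sm α q D F = fun _ _ => (0 : ℝ) := by
      funext R B
      unfold Sm
      rw [if_neg hD]
    rw [e]
    exact comb_zero

lemma pow_le_two_instA (q k : ℕ) (hq : 1 ≤ q) (hk : k ≤ q) :
    (1 + ((q : ℝ) ^ 2)⁻¹) ^ k ≤ 2 := by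
  have hq0 : (1 : ℝ) ≤ q := by exact_mod_cast hq
  have hy : (0 : ℝ) ≤ ((q : ℝ) ^ 2)⁻¹ := by positivity
  have h1 : (1 + ((q : ℝ) ^ 2)⁻¹) ^ k ≤ (1 + ((q : ℝ) ^ 2)⁻¹) ^ q :=
    pow_le_pow_right₀ (by linarith) hk
  refine h1.trans ?_
  rcases Nat.lt_or_ge 1 q with h2 | h2
  · have h3 : (1 + ((q : ℝ) ^ 2)⁻¹) ≤ Real.exp (((q : ℝ) ^ 2)⁻¹) := by
      have := Real.add_one_le_exp (((q : ℝ) ^ 2)⁻¹)
      linarith
    have h4 : (1 + ((q : ℝ) ^ 2)⁻¹) ^ q ≤ Real.exp (((q : ℝ) ^ 2)⁻¹) ^ q :=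
      pow_le_pow_left₀ (by linarith) h3 q
    refine h4.trans ?_
    rw [← Real.exp_nat_mul]
    have hq2 : (2 : ℝ) ≤ q := by exact_mod_cast h2
    have h5 : (q : ℝ) * ((q : ℝ) ^ 2)⁻¹ ≤ 1 / 2 := by
      have e : (q : ℝ) * ((q : ℝ) ^ 2)⁻¹ = 1 / q := by field_simp
      rw [e]
      exact one_div_le_one_div_of_le (by norm_num) hq2
    refine (Real.exp_le_exp.mpr h5).trans ?_
    have h6 : Real.exp (1 / 2) ^ 2 = Real.exp 1 := by
      rw [← Real.exp_nat_mul]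
      norm_num
    have h7 : Real.exp 1 < 2.7182818286 := Real.exp_one_lt_d9
    by_contra hc
    push Not at hc
    have h8 : (4 : ℝ) ≤ Real.exp (1 / 2) ^ 2 := by nlinarith
    rw [h6] at h8
    linarith
  · have h3 : q = 1 := by omega
    rw [h3]
    norm_num

/-- `∑_{C ⊆ D} q^(-2 (|D| - |C|)) = (1 + q^(-2))^|D| ≤ 2`. -/
theorem Sm_start {N : ℕ} (α : ℝ) (q : ℕ) (hq : 1 ≤ q) (D : Finset (Fin N))
    (F : Finset (Edge N)) : 2 * Sm α q D F ∅ ∅ ≤ cS α q := by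
  classical
  unfold cS
  by_cases hD : D.card ≤ q
  · have e : Sm α q D F ∅ ∅ = ∑ C ∈ D.powerset, ((lvls α q).card : ℝ) *
        (((q : ℝ) ^ 2)⁻¹) ^ (D.card - C.card) := by
      unfold Sm
      rw [if_pos hD]
      refine sum_congr rfl fun C _ => ?_
      have e1 : ∀ x ∈ lvls α q, ((q : ℝ) ^ (2 * (D.card - C.card)))⁻¹ *
          wgt (2 * x - 1) (F ∩ inside C) ∅ ∅ = (((q : ℝ) ^ 2)⁻¹) ^ (D.card - C.card) := by
        intro x _
        unfold wgt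
        rw [inter_empty, card_empty, pow_zero, pow_zero, mul_one, mul_one, pow_mul, inv_pow]
      rw [sum_congr rfl e1, sum_const, nsmul_eq_mul]
    rw [e, ← mul_sum]
    have e2 : ∑ C ∈ D.powerset, (((q : ℝ) ^ 2)⁻¹) ^ (D.card - C.card) =
        (1 + ((q : ℝ) ^ 2)⁻¹) ^ D.card := by
      rw [← sum_pow_mul_eq_add_pow]
      refine sum_congr rfl fun C _ => ?_
      rw [one_pow, one_mul]
    rw [e2]
    have h1 := pow_le_two_instA q D.card hq hD
    have h2 : (0 : ℝ) ≤ ((lvls α q).card : ℝ) := by positivity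
    nlinarith
  · unfold Sm
    rw [if_neg hD, mul_zero]
    positivity

end Pool.Agent.LibCA69
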