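import Pool.Agent.LibCA69.Num
import Pool.Agent.LibCA69.Val

/-!
# Task INSTB: the starting values
-/

set_option autoImplicit false

namespace Pool.Agent.LibCA69

open Finset Filter Pool.Agent.H69.Clique

lemma cst_le_instB {α : ℝ} (h0 : 1 / 2 < α) (h1 : α < 1) (m : ℕ) (a : ℝ) (ha : α * m ≤ a) :
    cst α m a ≤ Real.exp (-(be α * m)) := by
  unfold cst
  apply Real.exp_le_exp.mpr
  apply neg_le_neg
  have hta := ta_pos h0 h1
  have e1 : Real.log (2 * α) = Real.log 2 + Real.log α :=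
    Real.log_mul two_ne_zero (by linarith)
  have e2 : Real.log (2 - 2 * α) = Real.log 2 + Real.log (1 - α) := by
    have : 2 - 2 * α = 2 * (1 - α) := by ring
    rw [this]
    exact Real.log_mul two_ne_zero (by linarith)
  have e3 : a * Real.log (2 * α) + (m - a) * Real.log (2 - 2 * α) =
      be α * m + ta α * (a - α * m) := by
    rw [e1, e2]
    unfold be ta
    ring
  rw [e3]
  have : 0 ≤ ta α * (a - α * m) := mul_nonneg hta.le (by linarith)
  linarith

/-- The starting values are tiny: `vv α q D ∅ ∅ ≤ cst α (j choose 2) (tgt α q j)`, `j = |D|`, and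
`cst α (j choose 2) (tgt α q j) ≤ exp (-(be α * (j choose 2)))`; here `j ≥ q - I1`. -/
theorem vv_start {α ε : ℝ} (h0 : 1 / 2 < α) (h1 : α < 1) (hε : 0 < ε) (hε1 : ε ≤ 1) :
    ∀ᶠ q : ℕ in atTop, ∀ N : ℕ, Reg α ε q N → ∀ D : Finset (Fin N), InR α q D →
      vv α q D ∅ ∅ < th α ε N q D.card := by
  have _ := hε1
  have hbe := be_pos h0 h1
  filter_upwards [eventually_ge_atTop (2 * (I1 α + 1)), eventually_gt_atTop ⌈1 / be α + 1 / 4⌉₊,
    eventually_ge_atTop 1] with q hq1 hq2 hq3 N hN D hD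
  obtain ⟨hN1, hN2, _⟩ := hN
  obtain ⟨hD1, hD2⟩ := hD
  set j := D.card with hj
  have hq0 : (1 : ℝ) ≤ q := by exact_mod_cast hq3
  have hNpos : (0 : ℝ) < N := lt_of_lt_of_le (Real.exp_pos _) hN1
  have hN1' : 1 ≤ N := by
    have : 0 < N := by exact_mod_cast hNpos
    omega
  have hlog : Real.log N ≤ 2 * Real.log q + be α * q / 2 := by
    have h2 := Real.log_le_log hNpos hN2
    rw [Real.log_mul (by positivity) (Real.exp_pos _).ne', Real.log_exp, Real.log_pow] at h2
    push_cast at h2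
    exact h2
  have hlogq : Real.log q ≤ q := by
    have := Real.log_le_sub_one_of_pos (show (0 : ℝ) < q by linarith)
    linarith
  have hlog0 : 0 ≤ Real.log N := Real.log_nonneg (by exact_mod_cast hN1')
  -- the value
  have hval : vv α q D ∅ ∅ ≤ Real.exp (-(be α * (j.choose 2 : ℕ))) := by
    unfold vv
    refine (markov h0.le h1 _ (inside D) ∅ ∅ (disjoint_empty_left _)).trans ?_
    have hw : wgt (2 * α - 1) (inside D) ∅ ∅ = 1 := by
      unfold wgt
      simp
    rw [hw, mul_one, card_inside]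
    refine cst_le_instB h0 h1 _ _ ?_
    unfold tgt
    have hle := lev_le h0 h1 q j
    have hch : ((j.choose 2 : ℕ) : ℝ) ≤ (q.choose 2 : ℕ) := by
      exact_mod_cast Nat.choose_le_choose 2 hD2
    nlinarith
  refine lt_of_le_of_lt hval ?_
  unfold th ex
  apply Real.exp_lt_exp.mpr
  -- the threshold
  have hjq : (q : ℝ) - j ≤ I1 α := by
    have : (q : ℝ) ≤ j + I1 α := by exact_mod_cast hD1
    linarith
  have hdl : dl α ε * (1 + ((q : ℝ) - j)) ≤ 1 / 16 := by
    have hdlp := dl_pos h0 h1 hε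
    have he0 := e0_le (ε := ε) h0 h1
    have he0p := e0_pos h0 h1 hε
    have hI : (0 : ℝ) ≤ (I1 α : ℝ) := by positivity
    calc dl α ε * (1 + ((q : ℝ) - j)) ≤ dl α ε * ((I1 α : ℝ) + 2) := by
          apply mul_le_mul_of_nonneg_left _ hdlp.le
          linarith
      _ = e0 α ε := by
          unfold dl
          field_simp
      _ ≤ 1 / 16 := he0
  have hI2 : (q : ℝ) / 2 ≤ (j : ℝ) - 1 := by
    have h2 : q ≤ 2 * (j - 1) := by omega
    have h3 : (q : ℝ) ≤ 2 * ((j - 1 : ℕ) : ℝ) := by exact_mod_cast h2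
    rw [Nat.cast_sub (by omega)] at h3
    push_cast at h3
    linarith
  have hch : (q : ℝ) ^ 2 / 8 ≤ ((j.choose 2 : ℕ) : ℝ) := by
    rw [Nat.cast_choose_two]
    nlinarith
  have hq4 : 1 / be α + 1 / 4 < q := lt_of_le_of_lt (Nat.le_ceil _) (by exact_mod_cast hq2)
  have hq5 : 1 + be α / 4 < be α * q := by
    have h2 := mul_lt_mul_of_pos_left hq4 hbe
    have e : be α * (1 / be α + 1 / 4) = 1 + be α / 4 := by field_simp
    rw [e] at h2
    exact h2
  have h6 : dl α ε * (1 + ((q : ℝ) - j)) * Real.log N ≤ 1 / 16 * (2 * q + be α * q / 2) := by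
    calc dl α ε * (1 + ((q : ℝ) - j)) * Real.log N ≤ 1 / 16 * Real.log N :=
          mul_le_mul_of_nonneg_right hdl hlog0
      _ ≤ _ := by linarith
  have h7 : 1 / 16 * (2 * q + be α * q / 2) < be α * ((q : ℝ) ^ 2 / 8) := by
    nlinarith
  have h8 : be α * ((q : ℝ) ^ 2 / 8) ≤ be α * ((j.choose 2 : ℕ) : ℝ) :=
    mul_le_mul_of_nonneg_left hch hbe.le
  linarith

end Pool.Agent.LibCA69
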