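import Pool.Agent.LibCA69.Num
import Pool.Agent.LibCA69.Comb

/-!
# Task SUM1: the starting value of `Phi1`

`∑_{j < q - I1} C(N, j) ex N 2 * cst ≤ ∑ ex N (4 - c0/2 * (q - j)) ≤ q * ex N (-4)` by `rare_core`.
-/

set_option autoImplicit false

namespace Pool.Agent.LibCA69

open Finset Filter Pool.Agent.H69.Clique

open Classical in
theorem phi1_start {α ε : ℝ} (h0 : 1 / 2 < α) (h1 : α < 1) (hε : 0 < ε) :
    ∀ᶠ q : ℕ in atTop, ∀ N : ℕ, Reg α ε q N → Phi1 α N q ∅ ∅ ≤ 1 / 16 := by
  have hb : 0 < be α := be_pos h0 h1
  have hc0 : 0 < c0 α := by
    unfold c0 x0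
    positivity
  filter_upwards [rare_core h0 h1 hε, poly_le h0 h1 16 4 1 (by norm_num), N_large h0 h1]
    with q hrare hpoly hN N hReg
  have hN1 : 1 ≤ N := le_trans (by norm_num) (hN N hReg.1).2
  have hrare := hrare N hReg
  have hpoly := hpoly N hReg.1
  unfold Phi1
  -- each term
  have hterm : ∀ C : Finset (Fin N), ex N 2 * pot [⟨α, inside C, tgt α q C.card⟩] ∅ ∅ =
      ex N 2 * cst α (C.card.choose 2) (tgt α q C.card) := by
    intro C
    rw [pot_start]
    simp only [pcst, mul_one, card_inside]
  -- compare with the sum over all sets of fewer than `q` elements, by cardinality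
  have hI : 16 / c0 α ≤ (I1 α : ℝ) := Nat.le_ceil _
  have hI' : 16 ≤ (I1 α : ℝ) * c0 α := by
    rwa [div_le_iff₀ hc0] at hI
  calc ∑ C ∈ univ.filter (fun C : Finset (Fin N) => x0 α * q ≤ C.card ∧ C.card + I1 α < q),
        ex N 2 * pot [⟨α, inside C, tgt α q C.card⟩] ∅ ∅
      = ∑ C ∈ univ.filter (fun C : Finset (Fin N) => x0 α * q ≤ C.card ∧ C.card + I1 α < q),
        ex N 2 * cst α (C.card.choose 2) (tgt α q C.card) :=
        Finset.sum_congr rfl (fun C _ => hterm C)
    _ ≤ ∑ C ∈ univ.filter (fun C : Finset (Fin N) => C.card + I1 α < q),
        ex N 2 * cst α (C.card.choose 2) (tgt α q C.card) := by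
        apply Finset.sum_le_sum_of_subset_of_nonneg
        · intro C hC
          simp only [mem_filter, mem_univ, true_and] at hC ⊢
          exact hC.2
        · intro C _ _
          exact mul_nonneg (ex_pos _ _).le (cst_pos _ _ _).le
    _ = ∑ j ∈ range q, ∑ C ∈ (univ.filter (fun C : Finset (Fin N) => C.card + I1 α < q)).filter
          (fun C => C.card = j), ex N 2 * cst α (C.card.choose 2) (tgt α q C.card) := by
        refine (Finset.sum_fiberwise_of_maps_to ?_ _).symm
        intro C hC
        simp only [mem_filter, mem_univ, true_and] at hC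
        simp only [mem_range]
        omega
    _ ≤ ∑ j ∈ range q, ex N (-4) := by
        apply Finset.sum_le_sum
        intro j hj
        by_cases hjI : j + I1 α < q
        · have h1' : ∑ C ∈ (univ.filter (fun C : Finset (Fin N) => C.card + I1 α < q)).filter
              (fun C => C.card = j), ex N 2 * cst α (C.card.choose 2) (tgt α q C.card)
              = (N.choose j : ℝ) * (ex N 2 * cst α (j.choose 2) (tgt α q j)) := by
            have e1 : (univ.filter (fun C : Finset (Fin N) => C.card + I1 α < q)).filter
                (fun C => C.card = j) = powersetCard j (univ : Finset (Fin N)) := by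
              ext C
              simp only [mem_filter, mem_univ, true_and, mem_powersetCard, subset_univ]
              constructor
              · exact fun h => h.2
              · intro h
                exact ⟨by rw [h]; exact hjI, h⟩
            rw [e1]
            rw [Finset.sum_congr rfl (g := fun _ => ex N 2 * cst α (j.choose 2) (tgt α q j))]
            · rw [Finset.sum_const, card_powersetCard, Finset.card_univ, Fintype.card_fin,
                nsmul_eq_mul]
            · intro C hC
              rw [mem_powersetCard] at hC
              rw [hC.2]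
          rw [h1']
          have h2 := hrare j (by omega)
          have hjr : (j : ℝ) + I1 α ≤ q := by exact_mod_cast hjI.le
          calc (N.choose j : ℝ) * (ex N 2 * cst α (j.choose 2) (tgt α q j))
              = ex N 2 * ((N.choose j : ℝ) * cst α (j.choose 2) (tgt α q j)) := by ring
            _ ≤ ex N 2 * (ex N (2 - ε) * ex N (-(c0 α / 2 * (q - j)))) :=
                mul_le_mul_of_nonneg_left h2 (ex_pos _ _).le
            _ = ex N (2 + ((2 - ε) + (-(c0 α / 2 * (q - j))))) := by
                rw [ex_add, ex_add]
            _ ≤ ex N (-4) := by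
                apply ex_mono hN1
                nlinarith
        · have e1 : (univ.filter (fun C : Finset (Fin N) => C.card + I1 α < q)).filter
              (fun C => C.card = j) = ∅ := by
            ext C
            simp only [mem_filter, mem_univ, true_and, notMem_empty, iff_false, not_and]
            intro h h'
            rw [h'] at h
            exact hjI h
          rw [e1, Finset.sum_empty]
          exact (ex_pos _ _).le
    _ = q * ex N (-4) := by
        rw [Finset.sum_const, card_range, nsmul_eq_mul]
    _ ≤ 1 / 16 := by
        rw [ex_neg]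
        have h4 : 0 < ex N 4 := ex_pos _ _
        rw [← div_eq_mul_inv, div_le_iff₀ h4]
        rw [pow_one] at hpoly
        linarith

open Classical in
theorem phi1_comb {α : ℝ} (h0 : 1 / 2 < α) (h1 : α < 1) (N q : ℕ) : Comb (Phi1 α N q) := by
  unfold Phi1
  apply comb_sum
  intro C _
  apply comb_smul _ (ex_pos _ _).le
  apply comb_pot
  intro p hp
  simp only [List.mem_singleton] at hp
  subst hp
  exact ⟨h0.le, h1.le⟩

end Pool.Agent.LibCA69
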