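import Pool.Agent.LibCA69.Num
import Pool.Agent.LibCA69.Comb

/-!
# Task SUM2B: the starting value of `Phi2b`

For given `d, d', v`: `C(N,d) cst * C(d,v) N^(d'-v) * cst * 2 ex N (2 e0)
≤ ex N 2 * q^(d-v) * ex N (-k0 (d'-v)) * ...` (`rare_core`, `rare_part`), with
`d' - v ≥ I2 - I1 ≥ 16 / k0` and `d - v ≤ d' - v + I1`.
-/

set_option autoImplicit false

namespace Pool.Agent.LibCA69

open Finset Filter Pool.Agent.H69.Clique

open Classical in
/-- a sum over a set of sets, split according to the size -/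
private theorem sum2B_size {N : ℕ} (q : ℕ) (F : Finset (Finset (Fin N))) (hF : ∀ D ∈ F, D.card ≤ q)
    (g : ℕ → ℝ) (B : ℝ) (hg : ∀ d, 0 ≤ g d) (hB : ∀ d ≤ q, (N.choose d : ℝ) * g d ≤ B) :
    ∑ D ∈ F, g D.card ≤ (q + 1) * B := by
  have h1 : ∑ D ∈ F, g D.card = ∑ d ∈ range (q + 1), ∑ D ∈ F with D.card = d, g D.card := by
    refine (sum_fiberwise_of_maps_to (fun D hD => ?_) _).symm
    rw [mem_range]
    have := hF D hD
    omega
  rw [h1]
  have h2 : ∀ d ∈ range (q + 1), ∑ D ∈ F with D.card = d, g D.card ≤ B := by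
    intro d hd
    have hd' : d ≤ q := by
      rw [mem_range] at hd
      omega
    have h3 : ∑ D ∈ F with D.card = d, g D.card = ((F.filter (fun D => D.card = d)).card : ℝ) * g d := by
      rw [← nsmul_eq_mul, ← sum_const]
      refine sum_congr rfl fun D hD => ?_
      rw [(mem_filter.1 hD).2]
    rw [h3]
    refine le_trans (mul_le_mul_of_nonneg_right ?_ (hg d)) (hB d hd')
    have h4 : (F.filter (fun D => D.card = d)).card ≤ (powersetCard d (univ : Finset (Fin N))).card := by
      refine card_le_card fun D hD => ?_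
      rw [mem_powersetCard]
      exact ⟨subset_univ _, (mem_filter.1 hD).2⟩
    rw [card_powersetCard, card_univ, Fintype.card_fin] at h4
    exact_mod_cast h4
  refine (sum_le_sum h2).trans (le_of_eq ?_)
  rw [sum_const, card_range, nsmul_eq_mul]
  push_cast
  ring

open Classical in
/-- a sum over a set of sets, split according to the size and the size of the intersection -/
private theorem sum2B_inter {N : ℕ} (q : ℕ) (U : Finset (Fin N)) (G : Finset (Finset (Fin N)))
    (hG : ∀ D ∈ G, D.card ≤ q)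
    (g : ℕ → ℕ → ℝ) (B : ℝ) (hB0 : 0 ≤ B) (hg : ∀ d v, 0 ≤ g d v)
    (hB : ∀ D ∈ G, (U.card.choose (D ∩ U).card : ℝ) * (N.choose (D.card - (D ∩ U).card) : ℝ) *
      g D.card (D ∩ U).card ≤ B) :
    ∑ D ∈ G, g D.card (D ∩ U).card ≤ (q + 1) ^ 2 * B := by
  have h1 : ∑ D ∈ G, g D.card (D ∩ U).card = ∑ p ∈ range (q + 1) ×ˢ range (q + 1),
      ∑ D ∈ G with (D.card, (D ∩ U).card) = p, g D.card (D ∩ U).card := by
    refine (sum_fiberwise_of_maps_to (fun D hD => ?_) _).symm
    rw [mem_product, mem_range, mem_range]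
    have h2 := hG D hD
    have h3 : (D ∩ U).card ≤ D.card := card_le_card inter_subset_left
    constructor
    · show D.card < q + 1
      omega
    · show (D ∩ U).card < q + 1
      omega
  rw [h1]
  have h2 : ∀ p ∈ range (q + 1) ×ˢ range (q + 1),
      ∑ D ∈ G with (D.card, (D ∩ U).card) = p, g D.card (D ∩ U).card ≤ B := by
    intro p _
    have h3 : ∑ D ∈ G with (D.card, (D ∩ U).card) = p, g D.card (D ∩ U).card =
        ((G.filter (fun D => (D.card, (D ∩ U).card) = p)).card : ℝ) * g p.1 p.2 := by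
      rw [← nsmul_eq_mul, ← sum_const]
      refine sum_congr rfl fun D hD => ?_
      have := (mem_filter.1 hD).2
      rw [← this]
    rw [h3]
    rcases (G.filter (fun D => (D.card, (D ∩ U).card) = p)).eq_empty_or_nonempty with h0 | h0
    · rw [h0, card_empty, Nat.cast_zero, zero_mul]
      exact hB0
    · obtain ⟨D, hD⟩ := h0
      have hD1 := (mem_filter.1 hD).1
      have hD2 := (mem_filter.1 hD).2
      have h4 := hB D hD1
      refine le_trans (b := ((univ.filter (fun D : Finset (Fin N) =>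
        D.card = p.1 ∧ (D ∩ U).card = p.2)).card : ℝ) * g p.1 p.2)
        (mul_le_mul_of_nonneg_right ?_ (hg p.1 p.2)) ?_
      · have h5 : (G.filter (fun D => (D.card, (D ∩ U).card) = p)).card ≤
            (univ.filter (fun D : Finset (Fin N) => D.card = p.1 ∧ (D ∩ U).card = p.2)).card := by
          refine card_le_card fun D' hD' => ?_
          have h6 := (mem_filter.1 hD').2
          rw [mem_filter]
          exact ⟨mem_univ _, congrArg Prod.fst h6, congrArg Prod.snd h6⟩
        exact_mod_cast h5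
      · refine le_trans (mul_le_mul_of_nonneg_right (card_inter_le U p.1 p.2) (hg p.1 p.2)) ?_
        have h7 : D.card = p.1 := congrArg Prod.fst hD2
        have h8 : (D ∩ U).card = p.2 := congrArg Prod.snd hD2
        rw [h7, h8] at h4
        exact h4
  refine (sum_le_sum h2).trans (le_of_eq ?_)
  rw [sum_const, card_product, card_range, nsmul_eq_mul]
  push_cast
  ring

/-- the number of subsets -/
private theorem sum2B_choose {d v q : ℕ} (hq : 1 ≤ q) (hv : v ≤ d) (hd : d ≤ q) :
    (d.choose v : ℝ) ≤ (q : ℝ) ^ (q - v) := by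
  have h1 : d.choose v ≤ q ^ (q - v) := by
    rw [← Nat.choose_symm hv]
    calc d.choose (d - v) ≤ d ^ (d - v) := Nat.choose_le_pow _ _
      _ ≤ q ^ (d - v) := Nat.pow_le_pow_left hd _
      _ ≤ q ^ (q - v) := Nat.pow_le_pow_right hq (by omega)
  exact_mod_cast h1

theorem phi2b_start {α ε : ℝ} (h0 : 1 / 2 < α) (h1 : α < 1) (hε : 0 < ε) :
    ∀ᶠ q : ℕ in atTop, ∀ N : ℕ, Reg α ε q N → Phi2b α ε N q ∅ ∅ ≤ 1 / 16 := by
  classical
  have hk0 := k0_pos h0 h1
  obtain ⟨η, hη⟩ : ∃ η : ℝ, η = min (k0 α / 2) (1 / (I1 α + 1)) := ⟨_, rfl⟩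
  have hI1 : (0 : ℝ) < I1 α + 1 := by positivity
  have hη0 : 0 < η := by
    rw [hη]
    exact lt_min (by positivity) (by positivity)
  have hη1 : η ≤ k0 α / 2 := by
    rw [hη]
    exact min_le_left _ _
  have hη2 : η * I1 α ≤ 1 := by
    have h2 : η ≤ 1 / (I1 α + 1) := by
      rw [hη]
      exact min_le_right _ _
    have h3 : η * (I1 α + 1) ≤ 1 := by
      rw [le_div_iff₀ hI1] at h2
      exact h2
    linarith
  filter_upwards [rare_core h0 h1 hε, rare_part h0 h1 hε, poly_le h0 h1 1 η 1 hη0,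
    poly_le h0 h1 256 1 3 one_pos, N_large h0 h1, eventually_ge_atTop 1] with
    q hcore hpart hp1 hp2 hNl hq N hReg
  have hN2 : 2 ≤ N := (hNl N hReg.1).2
  have hN1 : 1 ≤ N := by omega
  have hqη : (q : ℝ) ≤ ex N η := by
    have := hp1 N hReg.1
    rw [pow_one, one_mul] at this
    exact this
  have he0 := e0_le (ε := ε) h0 h1
  have hc0 := c0_pos h0 h1
  -- the starting values
  have hstart : ∀ D D' : Finset (Fin N), pot [part α q D D', whole α q D] ∅ ∅ =
      cst (lev α q (D' ∩ D).card) (D'.card.choose 2 - (D' ∩ D).card.choose 2)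
        (tgt α q D'.card - tgt α q (D' ∩ D).card) * cst α (D.card.choose 2) (tgt α q D.card) := by
    intro D D'
    rw [pot_start]
    simp only [pcst, part, whole, mul_one]
    rw [card_priv, card_inside]
  -- the inner sum
  have hinner : ∀ D : Finset (Fin N), InR α q D →
      ∑ D' ∈ univ.filter (fun D' : Finset (Fin N) => InR α q D' ∧
        x0 α * q ≤ ((D' ∩ D).card : ℝ) ∧ (D' ∩ D).card + I2 α < q),
        cst (lev α q (D' ∩ D).card) (D'.card.choose 2 - (D' ∩ D).card.choose 2)
          (tgt α q D'.card - tgt α q (D' ∩ D).card) ≤ (q + 1) ^ 2 * ex N (-7) := by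
    intro D hD
    refine sum2B_inter q D _ (fun D' hD' => (mem_filter.1 hD').2.1.2)
      (fun d v => cst (lev α q v) (d.choose 2 - v.choose 2) (tgt α q d - tgt α q v)) (ex N (-7))
      (ex_pos _ _).le (fun d v => (cst_pos _ _ _).le) ?_
    intro D' hD'
    obtain ⟨⟨hD'1, hD'2⟩, hx, hI⟩ := (mem_filter.1 hD').2
    obtain ⟨v, hv⟩ : ∃ v, v = (D' ∩ D).card := ⟨_, rfl⟩
    rw [← hv] at hx hI ⊢
    have hvD : v ≤ D.card := by
      rw [hv]
      exact card_le_card inter_subset_right
    have hI2 : I2 α = I1 α + ⌈16 / k0 α⌉₊ := rfl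
    have hvd : v < D'.card := by omega
    have h2 := hpart N hReg v D'.card hx hvd hD'2 hD'1
    have h3 : (N.choose (D'.card - v) : ℝ) ≤ (N : ℝ) ^ (D'.card - v) := by
      exact_mod_cast Nat.choose_le_pow _ _
    have h4 : (D.card.choose v : ℝ) ≤ ex N ((q - v : ℝ) * η) := by
      refine (sum2B_choose hq hvD hD.2).trans ?_
      have h5 : (q : ℝ) ^ (q - v) ≤ ex N η ^ (q - v) :=
        pow_le_pow_left₀ (Nat.cast_nonneg q) hqη _
      rw [ex_pow, Nat.cast_sub (by omega)] at h5
      exact h5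
    have hcst : 0 < cst (lev α q v) (D'.card.choose 2 - v.choose 2)
      (tgt α q D'.card - tgt α q v) := cst_pos _ _ _
    calc (D.card.choose v : ℝ) * (N.choose (D'.card - v) : ℝ) *
          cst (lev α q v) (D'.card.choose 2 - v.choose 2) (tgt α q D'.card - tgt α q v)
        = (D.card.choose v : ℝ) * ((N.choose (D'.card - v) : ℝ) *
          cst (lev α q v) (D'.card.choose 2 - v.choose 2) (tgt α q D'.card - tgt α q v)) := by ring
      _ ≤ ex N ((q - v : ℝ) * η) * ((N : ℝ) ^ (D'.card - v) *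
          cst (lev α q v) (D'.card.choose 2 - v.choose 2) (tgt α q D'.card - tgt α q v)) := by
          refine mul_le_mul h4 (mul_le_mul_of_nonneg_right h3 hcst.le)
            (mul_nonneg (Nat.cast_nonneg _) hcst.le) (ex_pos _ _).le
      _ ≤ ex N ((q - v : ℝ) * η) * ex N (-(k0 α * (D'.card - v))) :=
          mul_le_mul_of_nonneg_left h2 (ex_pos _ _).le
      _ = ex N ((q - v : ℝ) * η + -(k0 α * (D'.card - v))) := (ex_add _ _ _).symm
      _ ≤ ex N (-7) := by
          refine ex_mono hN1 ?_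
          have r1 : (q : ℝ) - I1 α ≤ D'.card := by
            have : (q : ℝ) ≤ D'.card + I1 α := by exact_mod_cast hD'1
            linarith
          have r2 : 16 / k0 α ≤ (q : ℝ) - v - I1 α := by
            have h6 : 16 / k0 α ≤ ⌈16 / k0 α⌉₊ := Nat.le_ceil _
            have h7 : ((v + (I1 α + ⌈16 / k0 α⌉₊) : ℕ) : ℝ) ≤ q := by
              exact_mod_cast (by omega : v + (I1 α + ⌈16 / k0 α⌉₊) ≤ q)
            push_cast at h7
            linarith
          have r3 : 16 ≤ k0 α * ((q : ℝ) - v - I1 α) := by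
            rw [div_le_iff₀ hk0] at r2
            linarith
          have r0 : 0 ≤ (q : ℝ) - v - I1 α := le_trans (by positivity) r2
          have r4 : k0 α * ((q : ℝ) - v - I1 α) ≤ k0 α * (D'.card - v) :=
            mul_le_mul_of_nonneg_left (by linarith) hk0.le
          have r5 : ((q : ℝ) - v) * η = η * ((q : ℝ) - v - I1 α) + η * I1 α := by ring
          have r6 : η * ((q : ℝ) - v - I1 α) ≤ k0 α / 2 * ((q : ℝ) - v - I1 α) :=
            mul_le_mul_of_nonneg_right hη1 r0
          rw [r5]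
          linarith
  -- the outer sum
  have houter : ∑ D ∈ univ.filter (fun D : Finset (Fin N) => InR α q D),
      cst α (D.card.choose 2) (tgt α q D.card) ≤ (q + 1) * ex N 2 := by
    refine sum2B_size q _ (fun D hD => (mem_filter.1 hD).2.2)
      (fun d => cst α (d.choose 2) (tgt α q d)) (ex N 2) (fun d => (cst_pos _ _ _).le) ?_
    intro d hd
    refine (hcore N hReg d hd).trans ?_
    rw [← ex_add]
    refine ex_mono hN1 ?_
    have h2 : 0 ≤ c0 α / 2 * ((q : ℝ) - d) := by
      have : (d : ℝ) ≤ q := by exact_mod_cast hd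
      exact mul_nonneg (by positivity) (by linarith)
    linarith
  -- the total
  have htot : Phi2b α ε N q ∅ ∅ ≤ 2 * ex N (2 * e0 α ε) * ((q + 1) ^ 2 * ex N (-7)) *
      ((q + 1) * ex N 2) := by
    unfold Phi2b
    refine le_trans (sum_le_sum (g := fun D => 2 * ex N (2 * e0 α ε) *
      ((q + 1) ^ 2 * ex N (-7)) * cst α (D.card.choose 2) (tgt α q D.card)) ?_) ?_
    · intro D hD
      have hDR := (mem_filter.1 hD).2
      have h2 := hinner D hDR
      have hcD : 0 < cst α (D.card.choose 2) (tgt α q D.card) := cst_pos _ _ _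
      have hpos : 0 ≤ 2 * ex N (2 * e0 α ε) * cst α (D.card.choose 2) (tgt α q D.card) := by
        have := ex_pos N (2 * e0 α ε)
        positivity
      calc _ = 2 * ex N (2 * e0 α ε) * cst α (D.card.choose 2) (tgt α q D.card) *
            ∑ D' ∈ univ.filter (fun D' : Finset (Fin N) => InR α q D' ∧
              x0 α * q ≤ ((D' ∩ D).card : ℝ) ∧ (D' ∩ D).card + I2 α < q),
              cst (lev α q (D' ∩ D).card) (D'.card.choose 2 - (D' ∩ D).card.choose 2)
                (tgt α q D'.card - tgt α q (D' ∩ D).card) := by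
              rw [mul_sum]
              refine sum_congr rfl fun D' _ => ?_
              rw [hstart]
              ring
        _ ≤ 2 * ex N (2 * e0 α ε) * cst α (D.card.choose 2) (tgt α q D.card) *
            ((q + 1) ^ 2 * ex N (-7)) := mul_le_mul_of_nonneg_left h2 hpos
        _ = 2 * ex N (2 * e0 α ε) * ((q + 1) ^ 2 * ex N (-7)) *
            cst α (D.card.choose 2) (tgt α q D.card) := by ring
    · rw [← mul_sum]
      refine mul_le_mul_of_nonneg_left houter ?_
      have := ex_pos N (2 * e0 α ε)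
      have := ex_pos N (-7)
      positivity
  have hq1 : (1 : ℝ) ≤ q := by exact_mod_cast hq
  have h3 : 32 * ((q : ℝ) + 1) ^ 3 ≤ ex N 1 := by
    refine le_trans ?_ (hp2 N hReg.1)
    have h4 : ((q : ℝ) + 1) ^ 3 ≤ (2 * q) ^ 3 := pow_le_pow_left₀ (by positivity) (by linarith) 3
    calc 32 * ((q : ℝ) + 1) ^ 3 ≤ 32 * (2 * q) ^ 3 := by linarith
      _ = 256 * (q : ℝ) ^ 3 := by ring
  have h5 : ex N (2 * e0 α ε) * ex N (-7) * ex N 2 * ex N 1 ≤ 1 := by
    rw [← ex_add, ← ex_add, ← ex_add]
    have h7 : ex N (2 * e0 α ε + -7 + 2 + 1) ≤ ex N 0 := by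
      refine ex_mono hN1 ?_
      linarith
    rw [ex_zero] at h7
    exact h7
  have h6 : 0 < ex N (2 * e0 α ε) * ex N (-7) * ex N 2 :=
    mul_pos (mul_pos (ex_pos _ _) (ex_pos _ _)) (ex_pos _ _)
  calc Phi2b α ε N q ∅ ∅ ≤ 2 * ex N (2 * e0 α ε) * ((q + 1) ^ 2 * ex N (-7)) *
      ((q + 1) * ex N 2) := htot
    _ = 1 / 16 * ((ex N (2 * e0 α ε) * ex N (-7) * ex N 2) * (32 * ((q : ℝ) + 1) ^ 3)) := by ring
    _ ≤ 1 / 16 * ((ex N (2 * e0 α ε) * ex N (-7) * ex N 2) * ex N 1) := by
        refine mul_le_mul_of_nonneg_left ?_ (by norm_num)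
        exact mul_le_mul_of_nonneg_left h3 h6.le
    _ ≤ 1 / 16 := by linarith

theorem phi2b_comb {α : ℝ} (ε : ℝ) (h0 : 1 / 2 < α) (h1 : α < 1) (N q : ℕ) (hq : 1 ≤ q) :
    Comb (Phi2b α ε N q) := by
  classical
  unfold Phi2b
  refine comb_sum _ (fun D R B => ∑ D' ∈ univ.filter (fun D' : Finset (Fin N) => InR α q D' ∧
      x0 α * q ≤ ((D' ∩ D).card : ℝ) ∧ (D' ∩ D).card + I2 α < q),
      2 * ex N (2 * e0 α ε) * pot [part α q D D', whole α q D] R B) (fun D _ => ?_)
  refine comb_sum _ (fun D' R B =>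
      2 * ex N (2 * e0 α ε) * pot [part α q D D', whole α q D] R B) (fun D' hD' => ?_)
  refine comb_smul _ (mul_nonneg (by norm_num) (ex_pos _ _).le) (comb_pot _ ?_)
  intro p hp
  rw [List.mem_cons, List.mem_singleton] at hp
  rcases hp with rfl | rfl
  · have hle : (D' ∩ D).card ≤ q :=
      (card_le_card inter_subset_left).trans (mem_filter.1 hD').2.1.2
    exact ⟨lev_ge h0 h1 q _ hle hq, (lev_le h0 h1 q _).trans h1.le⟩
  · exact ⟨h0.le, h1.le⟩

end Pool.Agent.LibCA69
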