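import Pool.Agent.LibCA69.Sum4P

/-!
# Task SUM5: `Phi5`

`2 ^ (q choose 2) * ex N (2 - ε) * ex N (-(ε/2)) ^ Rmax`, `Rmax ≥ 8 q / (ε β)`,
`log N ≥ β q / 2`, `log 2 < 1`.
-/

set_option autoImplicit false

namespace Pool.Agent.LibCA69

open Finset Filter Pool.Agent.H69.Clique

/-- the estimate of the exponents -/
private theorem num_Sum5 {α ε : ℝ} (h0 : 1 / 2 < α) (h1 : α < 1) (hε : 0 < ε) (q N : ℕ)
    (hq : 3 ≤ q) (hlog : be α * q / 2 ≤ Real.log N) :
    (2 : ℝ) ^ (q.choose 2) * (ex N (-(ε / 2)) ^ Rmax α ε q * ex N (2 - ε)) ≤ 1 / 16 := by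
  have hβ := be_pos h0 h1
  have hβ1 : be α ≤ 1 := by
    have h2 := be_le_log_two h0 h1
    have h3 := Real.log_two_lt_d9
    linarith
  have hq3 : (3 : ℝ) ≤ q := by exact_mod_cast hq
  have hq0 : (0 : ℝ) < q := by linarith
  have hR : 8 / (ε * be α) * q ≤ (Rmax α ε q : ℝ) := Nat.le_ceil _
  have hlog0 : 0 ≤ Real.log N := le_trans (by positivity) hlog
  have e1 : (2 : ℝ) ^ (q.choose 2) = Real.exp ((q.choose 2 : ℕ) * Real.log 2) := by
    rw [Real.exp_nat_mul, Real.exp_log (by norm_num)]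
  have e2 : ex N (-(ε / 2)) ^ Rmax α ε q =
      Real.exp ((Rmax α ε q : ℝ) * (-(ε / 2) * Real.log N)) := by
    unfold ex
    rw [Real.exp_nat_mul]
  have e3 : (1 : ℝ) / 16 = Real.exp (-(4 * Real.log 2)) := by
    rw [Real.exp_neg, show (4 : ℝ) * Real.log 2 = ((4 : ℕ) : ℝ) * Real.log 2 by norm_num,
      Real.exp_nat_mul, Real.exp_log (by norm_num)]
    norm_num
  rw [e1, e2, e3]
  unfold ex
  rw [← Real.exp_add, ← Real.exp_add]
  apply Real.exp_le_exp.2
  have hch : ((q.choose 2 : ℕ) : ℝ) ≤ (q : ℝ) ^ 2 / 2 := by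
    rw [Nat.cast_choose_two]
    nlinarith
  have hl2 : Real.log 2 ≤ 1 := by
    have := Real.log_two_lt_d9
    linarith
  have hl2' : 0 ≤ Real.log 2 := Real.log_nonneg (by norm_num)
  -- the main term
  have h4 : 4 * q / be α * Real.log N ≤ (Rmax α ε q : ℝ) * (ε / 2 * Real.log N) := by
    have h5 : 8 / (ε * be α) * q * (ε / 2 * Real.log N) ≤
        (Rmax α ε q : ℝ) * (ε / 2 * Real.log N) :=
      mul_le_mul_of_nonneg_right hR (by positivity)
    have h6 : 8 / (ε * be α) * q * (ε / 2 * Real.log N) = 4 * q / be α * Real.log N := by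
      field_simp
      ring
    rw [h6] at h5
    exact h5
  have h7 : (q : ℝ) ^ 2 ≤ 2 * q / be α * Real.log N := by
    have h8 : 2 * q / be α * (be α * q / 2) ≤ 2 * q / be α * Real.log N :=
      mul_le_mul_of_nonneg_left hlog (by positivity)
    have h9 : 2 * q / be α * (be α * q / 2) = (q : ℝ) ^ 2 := by
      field_simp
    rw [h9] at h8
    exact h8
  have h10 : 2 * Real.log N ≤ 2 * q / be α * Real.log N := by
    apply mul_le_mul_of_nonneg_right _ hlog0
    rw [le_div_iff₀ hβ]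
    nlinarith
  have h11 : 4 * q / be α * Real.log N =
      2 * q / be α * Real.log N + 2 * q / be α * Real.log N := by ring
  have h12 : ((q.choose 2 : ℕ) : ℝ) * Real.log 2 ≤ (q : ℝ) ^ 2 / 2 * 1 :=
    mul_le_mul hch hl2 hl2' (by positivity)
  have h13 : 0 ≤ ε * Real.log N := by positivity
  have h14 : (9 : ℝ) ≤ (q : ℝ) ^ 2 := by nlinarith
  have e4 : (Rmax α ε q : ℝ) * (-(ε / 2) * Real.log N) =
      -((Rmax α ε q : ℝ) * (ε / 2 * Real.log N)) := by ring
  rw [e4]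
  have h15 : 4 * Real.log 2 ≤ 4 * 1 := by linarith
  have h16 : (2 - ε) * Real.log N = 2 * Real.log N - ε * Real.log N := by ring
  rw [h16]
  linarith

theorem phi5_start {α ε : ℝ} (h0 : 1 / 2 < α) (h1 : α < 1) (hε : 0 < ε) (hε1 : ε ≤ 1) :
    ∀ᶠ q : ℕ in atTop, ∀ N : ℕ, Reg α ε q N → Phi5 α ε N q ∅ ∅ ≤ 1 / 16 := by
  filter_upwards [sum_lists5 h0 h1 hε hε1, eventually_ge_atTop 3] with q hq hq3 N hN
  have hlog : be α * q / 2 ≤ Real.log N := by
    have h2 := log_ge h0 h1 q N hN.1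
    unfold x0 at h2
    linarith
  refine le_trans ?_ (num_Sum5 h0 h1 hε q N hq3 hlog)
  unfold Phi5
  calc ∑ A ∈ powersetCard q (univ : Finset (Fin N)), ∑ l ∈ LL (Finset (Fin N)) (Rmax α ε q),
        2 ^ (q.choose 2) * Wt (W5 α ε N q A ∅) l * pot (lightP α q [whole α q A] l) ∅ ∅
      = ∑ A ∈ powersetCard q (univ : Finset (Fin N)), 2 ^ (q.choose 2) *
          ∑ l ∈ LL (Finset (Fin N)) (Rmax α ε q),
            Wt (W5 α ε N q A ∅) l * pcst (lightP α q [whole α q A] l) := by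
        refine Finset.sum_congr rfl fun A _ => ?_
        rw [Finset.mul_sum]
        refine Finset.sum_congr rfl fun l _ => ?_
        rw [pot_start]
        ring
    _ ≤ ∑ A ∈ powersetCard q (univ : Finset (Fin N)), 2 ^ (q.choose 2) *
          (ex N (-(ε / 2)) ^ Rmax α ε q * pcst [whole α q A]) := by
        refine Finset.sum_le_sum fun A _ => ?_
        exact mul_le_mul_of_nonneg_left (hq N hN A ∅ _) (by positivity)
    _ = 2 ^ (q.choose 2) * (ex N (-(ε / 2)) ^ Rmax α ε q *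
          ∑ A ∈ powersetCard q (univ : Finset (Fin N)), pcst [whole α q A]) := by
        rw [Finset.mul_sum, Finset.mul_sum]
    _ ≤ 2 ^ (q.choose 2) * (ex N (-(ε / 2)) ^ Rmax α ε q * ex N (2 - ε)) := by
        have h3 := sum_whole h0 h1 hε q N hN
        have h4 := (ex_pos N (-(ε / 2))).le
        gcongr

theorem phi5_comb {α : ℝ} (ε : ℝ) (h0 : 1 / 2 < α) (h1 : α < 1) (N q : ℕ) (hq : 1 ≤ q) :
    Comb (Phi5 α ε N q) := by
  show Comb (fun R B => ∑ A ∈ powersetCard q (univ : Finset (Fin N)),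
    ∑ l ∈ LL (Finset (Fin N)) (Rmax α ε q),
      2 ^ (q.choose 2) * Wt (W5 α ε N q A ∅) l * pot (lightP α q [whole α q A] l) R B)
  apply comb_sum _ (fun A R B => ∑ l ∈ LL (Finset (Fin N)) (Rmax α ε q),
      2 ^ (q.choose 2) * Wt (W5 α ε N q A ∅) l * pot (lightP α q [whole α q A] l) R B)
  intro A _
  apply comb_sum _ (fun l R B =>
      2 ^ (q.choose 2) * Wt (W5 α ε N q A ∅) l * pot (lightP α q [whole α q A] l) R B)
  intro l _
  apply comb_smul
  · have h2 := Wt_nonneg (W5 α ε N q A ∅) (W5_nonneg α ε q A ∅) l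
    positivity
  · apply comb_pot
    apply lightP_mem h0 h1
    intro p hp
    rw [List.mem_singleton] at hp
    rw [hp]
    exact ⟨h0.le, h1.le⟩

end Pool.Agent.LibCA69
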