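import Pool.Agent.LibCA69.Ctl
import Pool.Agent.LibCA69.Sum1
import Pool.Agent.LibCA69.Sum2
import Pool.Agent.LibCA69.Sum3
import Pool.Agent.LibCA69.Sum4
import Pool.Agent.LibCA69.Game
import Pool.Agent.LibCA69.InstA
import Pool.Agent.LibCA69.InstB

/-!
# The instance of the decomposition theorem
-/

set_option autoImplicit false

namespace Pool.Agent.LibCA69

open Finset Filter Pool.Agent.H69.Clique

/-- The final positions of the game of the theorem. -/
abbrev Cfg (α ε : ℝ) (N q : ℕ) (R B Rb Bb : Finset (Edge N))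
    (L : List (Finset (Fin N) × Finset (Edge N))) : Prop :=
  FinalCfg (fun D : Finset (Fin N) => inside D) (fun D R B => pp α q D R B)
    (fun D => th α ε N q D.card) (Phi α ε N q) (fun D F R B => Sm α q D F R B) (cS α q)
    R B Rb Bb L

theorem phi_comb {α : ℝ} (ε : ℝ) (h0 : 1 / 2 < α) (h1 : α < 1) (N q : ℕ) (hq : 1 ≤ q) :
    Comb (Phi α ε N q) :=
  comb_add (comb_add (comb_add (comb_add (comb_add (comb_add (phi1_comb h0 h1 N q)
    (phi2a_comb ε h0 h1 N q)) (phi2b_comb ε h0 h1 N q hq)) (phi3_comb ε h0 h1 N q hq))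
    (phi4a_comb ε h0 h1 N q hq)) (phi4b_comb ε h0 h1 N q hq)) (phi5_comb ε h0 h1 N q hq)

theorem phi_start {α ε : ℝ} (h0 : 1 / 2 < α) (h1 : α < 1) (hε : 0 < ε) (hε1 : ε ≤ 1) :
    ∀ᶠ q : ℕ in atTop, ∀ N : ℕ, Reg α ε q N → Phi α ε N q ∅ ∅ < 1 / 2 := by
  filter_upwards [phi1_start h0 h1 hε, phi2a_start h0 h1 hε, phi2b_start h0 h1 hε,
    phi3_start h0 h1 hε, phi4a_start h0 h1 hε hε1, phi4b_start h0 h1 hε hε1,
    phi5_start h0 h1 hε hε1] with q a1 a2 a3 a4 a5 a6 a7 N hN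
  have b1 := a1 N hN
  have b2 := a2 N hN
  have b3 := a3 N hN
  have b4 := a4 N hN
  have b5 := a5 N hN
  have b6 := a6 N hN
  have b7 := a7 N hN
  unfold Phi
  linarith

theorem breaker_of_final {α ε : ℝ} (h0 : 1 / 2 < α) (h1 : α < 1) (hε : 0 < ε) (hε1 : ε ≤ 1)
    (hW : ∀ᶠ q : ℕ in atTop, ∀ N : ℕ, Reg α ε q N → ∀ R B Rb Bb L, Cfg α ε N q R B Rb Bb L →
      ¬ HasDense N α q R) :
    ∀ᶠ q : ℕ in atTop, ∀ N : ℕ, Reg α ε q N → ¬ MakerGuarantees (HasDense N α q) := by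
  filter_upwards [hW, phi_start h0 h1 hε hε1, vv_start h0 h1 hε hε1, eventually_ge_atTop 1]
    with q a1 a2 a3 hq N hN
  refine breaker_decomp (fun D : Finset (Fin N) => inside D) (fun D R B => pp α q D R B)
    (fun D => th α ε N q D.card) (Phi α ε N q) (fun D F R B => Sm α q D F R B) (cS α q)
    (HasDense N α q) (fun D => ex_pos _ _) ?_ ?_ ?_ ?_ (phi_comb ε h0 h1 N q hq) (a2 N hN)
    (fun D F => Sm_comb h0 h1 q D F) (fun D F => Sm_start α q hq D F) (a1 N hN)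
  · intro D R B e _ he
    unfold pp
    split_ifs
    · exact val_insert_left _ _ _ _ _ he
    · simp
  · intro D R B e _ he
    unfold pp
    split_ifs
    · exact val_insert_right _ _ _ _ _ he
    · simp
  · intro D R B e _ he heP
    unfold pp
    split_ifs
    · exact val_loc _ _ _ _ _ he heP
    · simp
  · intro D
    unfold pp
    split_ifs with h
    · exact a3 N hN D h
    · exact ex_pos _ _

/-- What the configuration says about the potentials. -/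
theorem cfg_phi {α ε : ℝ} (h0 : 1 / 2 < α) (h1 : α < 1) {N q : ℕ} (hq : 1 ≤ q)
    {R B Rb Bb : Finset (Edge N)} {L : List (Finset (Fin N) × Finset (Edge N))}
    (h : Cfg α ε N q R B Rb Bb L) :
    Phi1 α N q Rb Bb < 1 ∧ Phi2a α ε N q Rb Bb < 1 ∧ Phi2b α ε N q Rb Bb < 1 ∧
    Phi3 α ε N q Rb Bb < 1 ∧ Phi4a α ε N q Rb Bb < 1 ∧ Phi4b α ε N q Rb Bb < 1 ∧
    Phi5 α ε N q Rb Bb < 1 := by
  have hp := h.pot
  have n1 := comb_nonneg (phi1_comb h0 h1 N q) Rb Bb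
  have n2 := comb_nonneg (phi2a_comb ε h0 h1 N q) Rb Bb
  have n3 := comb_nonneg (phi2b_comb ε h0 h1 N q hq) Rb Bb
  have n4 := comb_nonneg (phi3_comb ε h0 h1 N q hq) Rb Bb
  have n5 := comb_nonneg (phi4a_comb ε h0 h1 N q hq) Rb Bb
  have n6 := comb_nonneg (phi4b_comb ε h0 h1 N q hq) Rb Bb
  have n7 := comb_nonneg (phi5_comb ε h0 h1 N q hq) Rb Bb
  unfold Phi at hp
  refine ⟨?_, ?_, ?_, ?_, ?_, ?_, ?_⟩ <;> linarith

theorem cfg_disj {α ε : ℝ} {N q : ℕ} {R B Rb Bb : Finset (Edge N)}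
    {L : List (Finset (Fin N) × Finset (Edge N))} (h : Cfg α ε N q R B Rb Bb L) :
    Disjoint Rb Bb :=
  disjoint_of_subset_left h.subR (disjoint_of_subset_right h.subB h.disj)

theorem cfg_ctl {α ε : ℝ} (h0 : 1 / 2 < α) (h1 : α < 1) {N q : ℕ} (hq : 1 ≤ q)
    {R B Rb Bb : Finset (Edge N)} {L : List (Finset (Fin N) × Finset (Edge N))}
    (h : Cfg α ε N q R B Rb Bb L) : Ctl α ε q Rb Bb := by
  refine ⟨fun C hC => ?_, fun C hC hC2 => ?_⟩
  · have := h.p_lt C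
    simp only [pp, if_pos hC] at this
    exact this
  · exact core_of_phi1 h0 h1 (cfg_disj h) (cfg_phi h0 h1 hq h).1 C hC hC2

theorem cfg_dc {α ε : ℝ} {N q : ℕ} {R B Rb Bb : Finset (Edge N)}
    {L : List (Finset (Fin N) × Finset (Edge N))} (h : Cfg α ε N q R B Rb Bb L) :
    ∀ y ∈ L, Dc α ε q Rb Bb y.1 := by
  intro y hy
  have h2 := h.p_ge y hy
  by_cases hI : InR α q y.1
  · simp only [pp, if_pos hI] at h2
    exact ⟨hI, h2⟩
  · simp only [pp, if_neg hI] at h2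
    exact absurd h2 (not_le.2 (ex_pos _ _))

end Pool.Agent.LibCA69
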