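import Pool.Agent.LibCA69.Defs

/-!
# Task LEVA: the square root of the rate function is convex

`be x = log 2 + x log x + (1 - x) log (1 - x)` is the rate function, `be' = ta`,
`ta' x = 1 / (x (1 - x))`.
`F x = 2 be x - x (1 - x) (ta x)^2` has `F (1/2) = 0` and `F' x = (2 x - 1) (ta x)^2 ≥ 0`, hence
`(ta x)^2 / be x` is increasing on `(1/2, 1)`, so `sqrt (be α) - sqrt (be x) ≤
(α - x) ta α / (2 sqrt (be α))`.
-/

set_option autoImplicit false

namespace Pool.Agent.LibCA69

open Finset Filter Pool.Agent.H69.Clique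

private theorem be_deriv_LevA {x : ℝ} (h0 : 0 < x) (h1 : x < 1) : HasDerivAt be (ta x) x := by
  have hx : x ≠ 0 := h0.ne'
  have hx1 : 1 - x ≠ 0 := by
    have : 0 < 1 - x := by linarith
    exact this.ne'
  have d1 : HasDerivAt (fun y : ℝ => y * Real.log y) (1 * Real.log x + x * x⁻¹) x :=
    (hasDerivAt_id x).mul (Real.hasDerivAt_log hx)
  have d2 : HasDerivAt (fun y : ℝ => 1 - y) (-1) x := by
    have := (hasDerivAt_id x).const_sub 1
    exact this
  have d3 : HasDerivAt (fun y : ℝ => Real.log (1 - y)) (-1 / (1 - x)) x := d2.log hx1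
  have d4 : HasDerivAt (fun y : ℝ => (1 - y) * Real.log (1 - y))
      (-1 * Real.log (1 - x) + (1 - x) * (-1 / (1 - x))) x := d2.mul d3
  have d5 : HasDerivAt (fun y : ℝ => Real.log 2 + y * Real.log y + (1 - y) * Real.log (1 - y))
      ((1 * Real.log x + x * x⁻¹) + (-1 * Real.log (1 - x) + (1 - x) * (-1 / (1 - x)))) x :=
    (d1.const_add (Real.log 2)).add d4
  have e : (1 * Real.log x + x * x⁻¹) + (-1 * Real.log (1 - x) + (1 - x) * (-1 / (1 - x))) =
      ta x := by
    unfold ta
    field_simp
    ring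
  rw [e] at d5
  exact d5

private theorem ta_deriv_LevA {x : ℝ} (h0 : 0 < x) (h1 : x < 1) :
    HasDerivAt ta (1 / (x * (1 - x))) x := by
  have hx : x ≠ 0 := h0.ne'
  have hx1 : 1 - x ≠ 0 := by
    have : 0 < 1 - x := by linarith
    exact this.ne'
  have d2 : HasDerivAt (fun y : ℝ => 1 - y) (-1) x := by
    have := (hasDerivAt_id x).const_sub 1
    exact this
  have d3 : HasDerivAt (fun y : ℝ => Real.log (1 - y)) (-1 / (1 - x)) x := d2.log hx1
  have d5 : HasDerivAt (fun y : ℝ => Real.log y - Real.log (1 - y)) (x⁻¹ - -1 / (1 - x)) x :=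
    (Real.hasDerivAt_log hx).sub d3
  have e : x⁻¹ - -1 / (1 - x) = 1 / (x * (1 - x)) := by
    field_simp
    ring
  rw [e] at d5
  exact d5

private theorem be_half_LevA : be (1 / 2) = 0 := by
  unfold be
  have h1 : Real.log (1 / 2) = -Real.log 2 := by
    rw [one_div, Real.log_inv]
  have h2 : (1 : ℝ) - 1 / 2 = 1 / 2 := by norm_num
  rw [h2, h1]
  ring

private theorem ta_half_LevA : ta (1 / 2) = 0 := by
  unfold ta
  have h2 : (1 : ℝ) - 1 / 2 = 1 / 2 := by norm_num
  rw [h2, sub_self]

private theorem ta_nonneg_LevA {x : ℝ} (h0 : 1 / 2 ≤ x) (h1 : x < 1) : 0 ≤ ta x := by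
  unfold ta
  rw [sub_nonneg]
  exact Real.log_le_log (by linarith) (by linarith)

private theorem F_nonneg_LevA {x : ℝ} (h0 : 1 / 2 ≤ x) (h1 : x < 1) :
    0 ≤ 2 * be x - x * (1 - x) * ta x ^ 2 := by
  have hd : ∀ y : ℝ, 0 < y → y < 1 →
      HasDerivAt (fun y => 2 * be y - y * (1 - y) * ta y ^ 2) ((2 * y - 1) * ta y ^ 2) y := by
    intro y hy0 hy1
    have hy : y ≠ 0 := hy0.ne'
    have hy1' : 1 - y ≠ 0 := by
      have : 0 < 1 - y := by linarith
      exact this.ne'
    have d1 := (be_deriv_LevA hy0 hy1).const_mul 2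
    have d2 : HasDerivAt (fun y : ℝ => 1 - y) (-1) y := by
      have := (hasDerivAt_id y).const_sub 1
      exact this
    have d3 : HasDerivAt (fun y : ℝ => y * (1 - y)) (1 * (1 - y) + y * (-1)) y :=
      (hasDerivAt_id y).mul d2
    have d4 := (ta_deriv_LevA hy0 hy1).pow 2
    have d5 := d1.sub (d3.mul d4)
    refine d5.congr_deriv ?_
    rw [Pi.pow_apply]
    field_simp
    ring
  have hmono : MonotoneOn (fun y => 2 * be y - y * (1 - y) * ta y ^ 2) (Set.Icc (1 / 2) x) := by
    apply monotoneOn_of_deriv_nonneg (convex_Icc _ _)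
    · intro y hy
      exact (hd y (by linarith [hy.1]) (by linarith [hy.2])).continuousAt.continuousWithinAt
    · intro y hy
      rw [interior_Icc] at hy
      exact (hd y (by linarith [hy.1]) (by linarith [hy.2])).differentiableAt.differentiableWithinAt
    · intro y hy
      rw [interior_Icc] at hy
      rw [(hd y (by linarith [hy.1]) (by linarith [hy.2])).deriv]
      have := hy.1
      have h2 : 0 ≤ 2 * y - 1 := by linarith
      positivity
  have h2 := hmono (Set.left_mem_Icc.2 h0) (Set.right_mem_Icc.2 h0) h0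
  simp only [be_half_LevA, ta_half_LevA] at h2
  linarith

private theorem ratio_LevA {y α : ℝ} (h0 : 1 / 2 < y) (hyα : y ≤ α) (h1 : α < 1) :
    ta y ^ 2 / be y ≤ ta α ^ 2 / be α := by
  have hd : ∀ z : ℝ, 1 / 2 < z → z < 1 →
      HasDerivAt (fun z => ta z ^ 2 / be z)
        (ta z * (2 * be z - z * (1 - z) * ta z ^ 2) / (z * (1 - z) * be z ^ 2)) z := by
    intro z hz0 hz1
    have hb := be_pos hz0 hz1
    have hz : z ≠ 0 := by
      have : 0 < z := by linarith
      exact this.ne'
    have hz1' : 1 - z ≠ 0 := by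
      have : 0 < 1 - z := by linarith
      exact this.ne'
    have d4 := (ta_deriv_LevA (by linarith) hz1).pow 2
    have d5 := d4.div (be_deriv_LevA (by linarith) hz1) hb.ne'
    refine d5.congr_deriv ?_
    have hb' := hb.ne'
    rw [Pi.pow_apply]
    field_simp
    ring
  have hmono : MonotoneOn (fun z => ta z ^ 2 / be z) (Set.Icc y α) := by
    apply monotoneOn_of_deriv_nonneg (convex_Icc _ _)
    · intro z hz
      exact (hd z (by linarith [hz.1]) (by linarith [hz.2])).continuousAt.continuousWithinAt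
    · intro z hz
      rw [interior_Icc] at hz
      exact (hd z (by linarith [hz.1]) (by linarith [hz.2])).differentiableAt.differentiableWithinAt
    · intro z hz
      rw [interior_Icc] at hz
      have hz0 : 1 / 2 < z := by linarith [hz.1]
      have hz1 : z < 1 := by linarith [hz.2]
      rw [(hd z hz0 hz1).deriv]
      have h2 := F_nonneg_LevA hz0.le hz1
      have h3 := ta_nonneg_LevA hz0.le hz1
      have h4 : 0 < 1 - z := by linarith
      have h5 : 0 < z := by linarith
      have h6 := be_pos hz0 hz1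
      positivity
  exact hmono (Set.left_mem_Icc.2 hyα) (Set.right_mem_Icc.2 hyα) hyα

/-- The square root of `be` lies above its tangents. -/
theorem be_ge {α x : ℝ} (h0 : 1 / 2 < α) (h1 : α < 1) (hx : 1 / 2 ≤ x) (hxα : x ≤ α)
    (hu : ta α * (α - x) ≤ 2 * be α) :
    be α * (1 - ta α * (α - x) / (2 * be α)) ^ 2 ≤ be x := by
  have hbα := be_pos h0 h1
  have hs := Real.sqrt_pos.2 hbα
  have htα := ta_nonneg_LevA h0.le h1
  have hbx : 0 ≤ be x := by
    rcases eq_or_lt_of_le hx with h | h
    · rw [← h, be_half_LevA]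
    · exact (be_pos h (by linarith)).le
  have key : √(be α) - √(be x) ≤ (ta α / (2 * √(be α))) * (α - x) := by
    apply Convex.image_sub_le_mul_sub_of_deriv_le (convex_Icc (1 / 2) α) (f := fun y => √(be y))
    · intro y hy
      have h2 : HasDerivAt be (ta y) y := be_deriv_LevA (by linarith [hy.1]) (by linarith [hy.2])
      exact (h2.continuousAt.sqrt).continuousWithinAt
    · intro y hy
      rw [interior_Icc] at hy
      have h2 : HasDerivAt be (ta y) y := be_deriv_LevA (by linarith [hy.1]) (by linarith [hy.2])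
      exact (h2.sqrt (be_pos hy.1 (by linarith [hy.2])).ne').differentiableAt.differentiableWithinAt
    · intro y hy
      rw [interior_Icc] at hy
      have hy1 : y < 1 := by linarith [hy.2]
      have h2 : HasDerivAt be (ta y) y := be_deriv_LevA (by linarith [hy.1]) hy1
      have hby := be_pos hy.1 hy1
      have hsy := Real.sqrt_pos.2 hby
      rw [(h2.sqrt hby.ne').deriv]
      have h3 := ratio_LevA hy.1 hy.2.le h1
      have hty := ta_nonneg_LevA hy.1.le hy1
      have e1 : ∀ z : ℝ, 0 ≤ ta z → 0 < be z → ta z / (2 * √(be z)) = √(ta z ^ 2 / be z) / 2 := by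
        intro z hz1 hz2
        rw [Real.sqrt_div (sq_nonneg _), Real.sqrt_sq hz1]
        ring
      rw [e1 y hty hby, e1 α htα hbα]
      have := Real.sqrt_le_sqrt h3
      linarith
    · exact ⟨hx, hxα⟩
    · exact ⟨h0.le, le_rfl⟩
    · exact hxα
  have h2 : √(be α) * (1 - ta α * (α - x) / (2 * be α)) ≤ √(be x) := by
    have e : √(be α) * (1 - ta α * (α - x) / (2 * be α)) =
        √(be α) - (ta α / (2 * √(be α))) * (α - x) := by
      have e2 : √(be α) * √(be α) = be α := Real.mul_self_sqrt hbα.le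
      have e3 : √(be α) * (ta α * (α - x) / (2 * be α)) = (ta α / (2 * √(be α))) * (α - x) := by
        rw [mul_div_assoc', div_mul_eq_mul_div, div_eq_div_iff (by positivity) (by positivity)]
        calc √(be α) * (ta α * (α - x)) * (2 * √(be α))
            = 2 * (√(be α) * √(be α)) * (ta α * (α - x)) := by ring
          _ = ta α * (α - x) * (2 * be α) := by rw [e2]; ring
      rw [mul_sub, mul_one, e3]
    rw [e]
    linarith
  have h3 : 0 ≤ 1 - ta α * (α - x) / (2 * be α) := by
    rw [sub_nonneg, div_le_one (by positivity)]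
    exact hu
  have h4 := pow_le_pow_left₀ (by positivity) h2 2
  rw [mul_pow, Real.sq_sqrt hbα.le, Real.sq_sqrt hbx] at h4
  exact h4

theorem be_le_ta {α : ℝ} (h0 : 1 / 2 < α) (h1 : α < 1) : be α ≤ ta α * (α - 1 / 2) := by
  have hα : 0 < α := by linarith
  have h1α : 0 < 1 - α := by linarith
  have h2 : Real.log (2 ^ 2 * (α * (1 - α))) ≤ 0 := by
    apply Real.log_nonpos (by positivity)
    nlinarith [sq_nonneg (2 * α - 1)]
  rw [Real.log_mul (by norm_num) (by positivity), Real.log_mul hα.ne' h1α.ne', Real.log_pow] at h2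
  push_cast at h2
  unfold be ta
  linarith

theorem be_le_log_two {α : ℝ} (h0 : 1 / 2 < α) (h1 : α < 1) : be α ≤ Real.log 2 := by
  have hα : 0 < α := by linarith
  have h1α : 0 < 1 - α := by linarith
  have h2 : Real.log α ≤ 0 := Real.log_nonpos hα.le h1.le
  have h3 : Real.log (1 - α) ≤ 0 := Real.log_nonpos h1α.le (by linarith)
  have h4 := mul_nonneg hα.le (neg_nonneg.2 h2)
  have h5 := mul_nonneg h1α.le (neg_nonneg.2 h3)
  unfold be
  linarith

end Pool.Agent.LibCA69
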