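import Pool.Agent.LibCA69.LevA

/-!
# Task LEVB1: constants, levels and targets

`ff` is increasing in `j` (`c0 ≤ 1`) and at most `1` for `j ≤ q`.
-/

set_option autoImplicit false

namespace Pool.Agent.LibCA69

open Finset Filter Pool.Agent.H69.Clique

private theorem be_le_one_LevB1 {α : ℝ} (h0 : 1 / 2 < α) (h1 : α < 1) : be α ≤ 1 := by
  have h2 := be_le_log_two h0 h1
  have h3 := Real.log_two_lt_d9
  linarith

theorem x0_pos {α : ℝ} (h0 : 1 / 2 < α) (h1 : α < 1) : 0 < x0 α := by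
  unfold x0
  have := be_pos h0 h1
  positivity

theorem x0_le {α : ℝ} (h0 : 1 / 2 < α) (h1 : α < 1) : x0 α ≤ 1 / 16 := by
  unfold x0
  have := be_le_one_LevB1 h0 h1
  linarith

theorem c0_pos {α : ℝ} (h0 : 1 / 2 < α) (h1 : α < 1) : 0 < c0 α := by
  unfold c0
  have := x0_pos h0 h1
  positivity

theorem k0_pos {α : ℝ} (h0 : 1 / 2 < α) (h1 : α < 1) : 0 < k0 α := by
  unfold k0
  have := x0_pos h0 h1
  positivity

theorem k0_le {α : ℝ} (h0 : 1 / 2 < α) (h1 : α < 1) : k0 α ≤ 1 := by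
  unfold k0
  have h2 := x0_pos h0 h1
  have h3 := x0_le h0 h1
  have h4 : x0 α ^ 2 ≤ 1 := pow_le_one₀ h2.le (by linarith)
  linarith

theorem e0_pos {α ε : ℝ} (h0 : 1 / 2 < α) (h1 : α < 1) (hε : 0 < ε) : 0 < e0 α ε := by
  unfold e0
  have h2 := k0_pos h0 h1
  have h3 : 0 < min ε (k0 α) := lt_min hε h2
  positivity

theorem e0_le {α ε : ℝ} (h0 : 1 / 2 < α) (h1 : α < 1) : e0 α ε ≤ 1 / 16 := by
  unfold e0
  have h2 := k0_le h0 h1
  have h3 : min ε (k0 α) ≤ k0 α := min_le_right _ _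
  linarith

theorem dl_pos {α ε : ℝ} (h0 : 1 / 2 < α) (h1 : α < 1) (hε : 0 < ε) : 0 < dl α ε := by
  unfold dl
  have h2 := e0_pos h0 h1 hε
  positivity

end Pool.Agent.LibCA69
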