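import Pool.Agent.LibCA69.LevB1

/-!
# Task LEVB2: constants, levels and targets

`ff` is increasing in `j` (`c0 ≤ 1`) and at most `1` for `j ≤ q`.
-/

set_option autoImplicit false

namespace Pool.Agent.LibCA69

open Finset Filter Pool.Agent.H69.Clique

private theorem c0_le_LevB2 {α : ℝ} (h0 : 1 / 2 < α) (h1 : α < 1) : c0 α ≤ 1 := by
  unfold c0
  have h2 := x0_pos h0 h1
  have h3 := x0_le h0 h1
  have h4 : x0 α ^ 2 ≤ 1 := pow_le_one₀ h2.le (by linarith)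
  linarith

private theorem ta_pos_LevB2 {α : ℝ} (h0 : 1 / 2 < α) (h1 : α < 1) : 0 < ta α := by
  unfold ta
  rw [sub_pos]
  exact Real.log_lt_log (by linarith) (by linarith)

private theorem rt_LevB2 {α : ℝ} (h0 : 1 / 2 < α) (h1 : α < 1) : 0 ≤ be α / ta α := by
  have h2 := be_pos h0 h1
  have h3 := ta_pos_LevB2 h0 h1
  positivity

theorem lev_ge {α : ℝ} (h0 : 1 / 2 < α) (h1 : α < 1) (q j : ℕ) (hj : j ≤ q) (hq : 1 ≤ q) :
    1 / 2 ≤ lev α q j := by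
  have hq1 : (1 : ℝ) ≤ q := by exact_mod_cast hq
  have hc := c0_le_LevB2 h0 h1
  have hta := ta_pos_LevB2 h0 h1
  have hff : ff α q j ≤ 1 := by
    unfold ff
    rw [div_le_one (by positivity)]
    nlinarith
  have h2 : be α / ta α ≤ α - 1 / 2 := by
    rw [div_le_iff₀ hta, mul_comm]
    exact be_le_ta h0 h1
  have h3 : be α / ta α * ff α q j ≤ be α / ta α * 1 :=
    mul_le_mul_of_nonneg_left hff (rt_LevB2 h0 h1)
  unfold lev
  linarith

theorem lev_le {α : ℝ} (h0 : 1 / 2 < α) (h1 : α < 1) (q j : ℕ) : lev α q j ≤ α := by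
  have h2 := c0_pos h0 h1
  have h3 : 0 ≤ ff α q j := by
    unfold ff
    positivity
  have h4 := mul_nonneg (rt_LevB2 h0 h1) h3
  unfold lev
  linarith

theorem lev_anti {α : ℝ} (h0 : 1 / 2 < α) (h1 : α < 1) (q j j' : ℕ) (hq : 1 ≤ q) (hj : j ≤ j') :
    lev α q j' ≤ lev α q j := by
  have hq1 : (1 : ℝ) ≤ q := by exact_mod_cast hq
  have hjj : (j : ℝ) ≤ j' := by exact_mod_cast hj
  have hj0 : (0 : ℝ) ≤ j := Nat.cast_nonneg j
  have hc := c0_le_LevB2 h0 h1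
  have hff : ff α q j ≤ ff α q j' := by
    unfold ff
    rw [div_le_div_iff₀ (by positivity) (by positivity)]
    nlinarith [mul_nonneg (mul_nonneg (sub_nonneg.2 hjj) (by linarith : (0 : ℝ) ≤ q))
      (sub_nonneg.2 hc)]
  have h3 := mul_le_mul_of_nonneg_left hff (rt_LevB2 h0 h1)
  unfold lev
  linarith

theorem tgt_self (α : ℝ) (q : ℕ) : tgt α q q = α * (q.choose 2 : ℕ) := by
  simp [tgt]

theorem tgt_sub {α : ℝ} (h0 : 1 / 2 < α) (h1 : α < 1) (q v d : ℕ) (hq : 1 ≤ q) (hv : v ≤ d)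
    (hd : d ≤ q) :
    ((d.choose 2 : ℕ) - (v.choose 2 : ℕ) : ℝ) * lev α q v ≤ tgt α q d - tgt α q v := by
  have h2 := lev_anti h0 h1 q v d hq hv
  have h3 : ((d.choose 2 : ℕ) : ℝ) ≤ (q.choose 2 : ℕ) :=
    Nat.cast_le.2 (Nat.choose_le_choose 2 hd)
  have h4 := mul_nonneg (sub_nonneg.2 h3) (sub_nonneg.2 h2)
  unfold tgt
  linarith

end Pool.Agent.LibCA69
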