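import Pool.Agent.LibCA69.NumA

/-!
# Task NUMB1: elementary estimates for large `q`

`x0 α * q = be α * q / 16 ≤ log N / 8`.  For `2 ≤ v < x0 q`:
`C(v,2) = 1 + (v - 2)(v + 1)/2` and `(v + 1)/2 * log 2 ≤ log N / 20` for large `q`;
`C(v + C, 2) = C(v,2) + v C + C(C,2)`.
-/

set_option autoImplicit false

namespace Pool.Agent.LibCA69

open Finset Filter Pool.Agent.H69.Clique

/-- `log N` is at least `8 x₀ q`. -/
theorem log_ge_numB1 {α : ℝ} (q N : ℕ)
    (h : Real.exp (be α * q / 2) ≤ N) : 8 * (x0 α * q) ≤ Real.log N := by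
  have h2 : (0 : ℝ) < N := (Real.exp_pos _).trans_le h
  rw [Real.le_log_iff_exp_le h2]
  refine le_trans (le_of_eq ?_) h
  unfold x0
  congr 1
  ring

/-- Polynomials in `q` are small powers of `N`. -/
theorem poly_le {α : ℝ} (h0 : 1 / 2 < α) (h1 : α < 1) (C η : ℝ) (k : ℕ) (hη : 0 < η) :
    ∀ᶠ q : ℕ in atTop, ∀ N : ℕ, Real.exp (be α * q / 2) ≤ N → C * (q : ℝ) ^ k ≤ ex N η := by
  have hb := be_pos h0 h1
  have hc : 0 < η * be α / 2 := by positivity
  have h2 := (isLittleO_pow_exp_pos_mul_atTop (k := k) hc).comp_tendsto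
    (tendsto_natCast_atTop_atTop (R := ℝ))
  have h3 := h2.bound (show (0 : ℝ) < 1 / (|C| + 1) by positivity)
  filter_upwards [h3] with q hq N hN
  simp only [Function.comp_apply, Real.norm_eq_abs, Real.abs_exp] at hq
  rw [abs_of_nonneg (by positivity), one_div, ← div_eq_inv_mul, le_div_iff₀ (by positivity)] at hq
  have h4 : C * (q : ℝ) ^ k ≤ Real.exp (η * be α / 2 * q) := by
    refine le_trans ?_ hq
    have h5 : (0 : ℝ) ≤ (q : ℝ) ^ k := by positivity
    have h6 := le_abs_self C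
    nlinarith
  refine h4.trans ?_
  unfold ex
  apply Real.exp_le_exp.2
  have h5 := log_ge_numB1 q N hN
  unfold x0 at h5
  have h6 : be α * q / 2 ≤ Real.log N := by linarith
  calc η * be α / 2 * q = η * (be α * q / 2) := by ring
    _ ≤ η * Real.log N := mul_le_mul_of_nonneg_left h6 hη.le

theorem N_large {α : ℝ} (h0 : 1 / 2 < α) (h1 : α < 1) :
    ∀ᶠ q : ℕ in atTop, ∀ N : ℕ, Real.exp (be α * q / 2) ≤ N → 2 * q ≤ N ∧ 2 ≤ N := by
  filter_upwards [poly_le h0 h1 2 1 1 one_pos, eventually_ge_atTop 1] with q hq hq1 N hN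
  have h2 := hq N hN
  have hN0 : (0 : ℝ) < N := (Real.exp_pos _).trans_le hN
  have h3 : ex N 1 = N := by
    unfold ex
    rw [one_mul, Real.exp_log hN0]
  rw [h3, pow_one] at h2
  have h4 : 2 * q ≤ N := by exact_mod_cast h2
  exact ⟨h4, by omega⟩

/-- `log N` is at least `8 x₀ q`. -/
theorem log_ge {α : ℝ} (h0 : 1 / 2 < α) (h1 : α < 1) (q N : ℕ)
    (h : Real.exp (be α * q / 2) ≤ N) : 8 * (x0 α * q) ≤ Real.log N :=
  log_ge_numB1 q N h

end Pool.Agent.LibCA69
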