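import Pool.Agent.LibCA69.LevB
import Pool.Agent.LibCA69.NumB1

/-!
# Task LEVC: overdense sets with `j` vertices are rare

With `n = C(q,2)`, `m = C(j,2)`, `f = ff α q j`: `log (2 α) - log (2 - 2 α) = ta α`,
`be α = log (2 - 2 α) + α * ta α` and `ta α * tgt = ta α α m + be α f (n - m)`, hence
`cst α m (tgt α q j) = exp (-(be α (m + f (n - m))))`; and
`m + f (n - m) = n - (1 - f) (n - m) = n - (1 - c0) q (q - j) (q + j - 1) / (2 (q + j))
≥ n - (1 - c0) q (q - j) / 2`.
`choose_ratio` (CliqueCount): `C(N, j) ≤ C(N, q) (2 q / N)^(q - j)`; so the product is at most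
`Mn α N q * (2 q / N * exp (be α (1 - c0) q / 2))^(q - j)
≤ ex N (2 - ε) * (2 q * N^(-c0))^(q - j)`, using `exp (be α q / 2) ≤ N`.
-/

set_option autoImplicit false

namespace Pool.Agent.LibCA69

open Finset Filter Pool.Agent.H69.Clique

/-- The exponent of `cst` in terms of the rate function. -/
theorem cst_expo_levc {x : ℝ} (h0 : 0 < x) (h1 : x < 1) (m a : ℝ) :
    a * Real.log (2 * x) + (m - a) * Real.log (2 - 2 * x) = m * be x + (a - m * x) * ta x := by
  have e1 : Real.log (2 * x) = Real.log 2 + Real.log x := Real.log_mul two_ne_zero h0.ne'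
  have e2 : Real.log (2 - 2 * x) = Real.log 2 + Real.log (1 - x) := by
    rw [← Real.log_mul two_ne_zero (by linarith)]
    congr 1
    ring
  rw [e1, e2]
  unfold be ta
  ring

theorem tgt_levc {α : ℝ} (h0 : 1 / 2 < α) (h1 : α < 1) (q j : ℕ) :
    (tgt α q j - (j.choose 2 : ℕ) * α) * ta α =
      be α * ff α q j * ((q.choose 2 : ℕ) - (j.choose 2 : ℕ)) := by
  have h2 := ta_pos h0 h1
  unfold tgt lev
  field_simp
  ring

/-- (R1) overdense sets with `j` vertices are rare. -/
theorem rare_core {α ε : ℝ} (h0 : 1 / 2 < α) (h1 : α < 1) (hε : 0 < ε) :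
    ∀ᶠ q : ℕ in atTop, ∀ N : ℕ, Reg α ε q N → ∀ j : ℕ, j ≤ q →
      (N.choose j : ℝ) * cst α (j.choose 2) (tgt α q j) ≤
        ex N (2 - ε) * ex N (-(c0 α / 2 * (q - j))) := by
  have hc0 := c0_pos h0 h1
  filter_upwards [poly_le h0 h1 2 (c0 α / 2) 1 (by linarith), N_large h0 h1,
    eventually_ge_atTop 1] with q hq1 hq2 hq3 N hReg j hjq
  obtain ⟨hR1, hR2, hR3⟩ := hReg
  have hp := hq1 N hR1
  obtain ⟨hN1, hN2⟩ := hq2 N hR1
  have hbe := be_pos h0 h1
  have hNpos : (0 : ℝ) < N := by
    have : 0 < N := by omega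
    exact_mod_cast this
  have hqr : (1 : ℝ) ≤ q := by exact_mod_cast hq3
  have hjr : (j : ℝ) ≤ q := by exact_mod_cast hjq
  have hj0 : (0 : ℝ) ≤ j := by positivity
  have hcr := choose_ratio N q hN1 hq3 (q - j) (Nat.sub_le _ _)
  have hsub : q - (q - j) = j := by omega
  rw [hsub] at hcr
  set L := Real.log N with hL
  have hexpN : Real.exp L = N := Real.exp_log hNpos
  have hLge : be α * q / 2 ≤ L := by
    rw [hL, Real.le_log_iff_exp_le hNpos]
    exact hR1
  -- the constant
  have hcst : cst α (j.choose 2) (tgt α q j) ≤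
      Real.exp (-(be α * (q.choose 2 : ℕ))) * Real.exp ((1 - c0 α) * L * ((q - j : ℕ) : ℝ)) := by
    unfold cst
    rw [← Real.exp_add]
    apply Real.exp_le_exp.2
    rw [cst_expo_levc (by linarith) h1, tgt_levc h0 h1]
    have hx0l := x0_le h0 h1
    have hx0p := x0_pos h0 h1
    have hc1 : c0 α ≤ 1 := by
      unfold c0
      nlinarith
    have hqj : (0 : ℝ) < q + j := by linarith
    have e1 : be α * ff α q j * ((q.choose 2 : ℕ) - (j.choose 2 : ℕ)) =
        be α * ((q.choose 2 : ℕ) - (j.choose 2 : ℕ)) -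
          be α * (1 - c0 α) * q * (q - j) * ((q + j - 1) / (q + j)) / 2 := by
      rw [Nat.cast_choose_two, Nat.cast_choose_two]
      unfold ff
      field_simp
      ring
    have e2 : ((q : ℝ) + j - 1) / (q + j) ≤ 1 := by
      rw [div_le_one hqj]
      linarith
    have e3 : be α * (1 - c0 α) * q * (q - j) * ((q + j - 1) / (q + j)) / 2 ≤
        be α * (1 - c0 α) * q * (q - j) * 1 / 2 := by
      apply div_le_div_of_nonneg_right _ (by norm_num)
      apply mul_le_mul_of_nonneg_left e2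
      have : 0 ≤ (q : ℝ) - j := by linarith
      have : 0 ≤ 1 - c0 α := by linarith
      positivity
    have e4 : be α * (1 - c0 α) * q * (q - j) * 1 / 2 ≤ (1 - c0 α) * L * (q - j) := by
      have g1 : 0 ≤ (q : ℝ) - j := by linarith
      have g2 : 0 ≤ 1 - c0 α := by linarith
      have g3 := mul_le_mul_of_nonneg_left hLge (mul_nonneg g2 g1)
      linarith
    have e5 : ((q - j : ℕ) : ℝ) = (q : ℝ) - j := Nat.cast_sub hjq
    rw [e5, e1]
    linarith
  have hb : (2 : ℝ) * q / N * Real.exp ((1 - c0 α) * L) ≤ Real.exp (-(c0 α / 2) * L) := by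
    rw [pow_one] at hp
    unfold ex at hp
    rw [← hL] at hp
    calc (2 : ℝ) * q / N * Real.exp ((1 - c0 α) * L)
        ≤ Real.exp (c0 α / 2 * L) / N * Real.exp ((1 - c0 α) * L) := by
          apply mul_le_mul_of_nonneg_right _ (Real.exp_pos _).le
          exact div_le_div_of_nonneg_right hp hNpos.le
      _ = Real.exp (-(c0 α / 2) * L) := by
          rw [div_mul_eq_mul_div, ← Real.exp_add, div_eq_iff hNpos.ne', ← hexpN, ← Real.exp_add]
          congr 1
          ring
  have hMn : 0 ≤ Mn α N q := Mn_nonneg α N q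
  calc (N.choose j : ℝ) * cst α (j.choose 2) (tgt α q j)
      ≤ (N.choose q * (2 * q / N) ^ (q - j)) *
        (Real.exp (-(be α * (q.choose 2 : ℕ))) *
          Real.exp ((1 - c0 α) * L * ((q - j : ℕ) : ℝ))) := by
        apply mul_le_mul hcr hcst (Real.exp_pos _).le
        positivity
    _ = Mn α N q * ((2 : ℝ) * q / N * Real.exp ((1 - c0 α) * L)) ^ (q - j) := by
        unfold Mn
        rw [mul_pow, ← Real.exp_nat_mul, mul_comm ((1 - c0 α) * L)]
        ring
    _ ≤ Mn α N q * (Real.exp (-(c0 α / 2) * L)) ^ (q - j) := by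
        apply mul_le_mul_of_nonneg_left _ hMn
        apply pow_le_pow_left₀ (by positivity) hb
    _ ≤ ex N (2 - ε) * (Real.exp (-(c0 α / 2) * L)) ^ (q - j) :=
        mul_le_mul_of_nonneg_right hR3 (by positivity)
    _ = ex N (2 - ε) * ex N (-(c0 α / 2 * (q - j))) := by
        congr 1
        unfold ex
        rw [← Real.exp_nat_mul, Nat.cast_sub hjq]
        congr 1
        ring

end Pool.Agent.LibCA69
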