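import Pool.Agent.LibCA69.LevB
import Pool.Agent.LibCA69.NumB1

/-!
# Task LEVD: the part of a `d`-set outside a `v`-set is rare

With `ξ = lev α q v` and `m = C(d,2) - C(v,2) = (d - v)(d + v - 1)/2`: by `tgt_sub` and
`log (2 ξ) ≥ log (2 - 2 ξ)` one has `cst ξ m (tgt d - tgt v) ≤ exp (-(m * be ξ))`, and by `be_ge`
`be ξ ≥ be α (1 - f/2)^2 = be α ((2 - c) q + v)^2 / (4 (q + v)^2)`, `f = ff α q v`, `c = c0 α`.
With `x = v / q ≥ x0`: `(2 - c + x)^2 / (4 (1 + x)) ≥ 1 + (x^2 - 6 c) / 8 ≥ 1 + x0^2 / 16`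
(`c = x0^2 / 12`), `d + v - 1 ≥ q + v - I1 - 1`, and
`log N ≤ be α q / 2 + 2 log q`.  So `m * be ξ ≥ (1 + x0^2/20) (d - v) log N` for large `q`.
-/

set_option autoImplicit false

namespace Pool.Agent.LibCA69

open Finset Filter Pool.Agent.H69.Clique

/-- The exponent of `cst` in terms of the rate function. -/
theorem cst_expo_levd {x : ℝ} (h0 : 0 < x) (h1 : x < 1) (m a : ℝ) :
    a * Real.log (2 * x) + (m - a) * Real.log (2 - 2 * x) = m * be x + (a - m * x) * ta x := by
  have e1 : Real.log (2 * x) = Real.log 2 + Real.log x := Real.log_mul two_ne_zero h0.ne'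
  have e2 : Real.log (2 - 2 * x) = Real.log 2 + Real.log (1 - x) := by
    rw [← Real.log_mul two_ne_zero (by linarith)]
    congr 1
    ring
  rw [e1, e2]
  unfold be ta
  ring

theorem ta_nonneg_levd {x : ℝ} (h0 : 1 / 2 ≤ x) (h1 : x < 1) : 0 ≤ ta x := by
  unfold ta
  have := Real.log_le_log (by linarith : 0 < 1 - x) (by linarith : 1 - x ≤ x)
  linarith

/-- The algebraic inequality behind the convexity. -/
theorem conv_levd (x y c s : ℝ) (hc : c = s / 12) (hs0 : 0 ≤ s)
    (hxy : x ≤ y) (hy : 0 < y) (hsy : s * y ^ 2 ≤ x ^ 2) :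
    (1 + s / 16) * (4 * (y + x) * y) ≤ ((2 - c) * y + x) ^ 2 := by
  subst hc
  have h1 := mul_nonneg (mul_nonneg hs0 hy.le) (sub_nonneg.2 hxy)
  have h2 := sq_nonneg (s * y)
  have h3 : ((2 - s / 12) * y + x) ^ 2 - (1 + s / 16) * (4 * (y + x) * y) =
      x ^ 2 - s * y ^ 2 + 5 / 12 * (s * y * (y - x)) + (s * y) ^ 2 / 144 := by ring
  linarith

theorem log_small_levd (κ : ℝ) (hκ : 0 < κ) : ∀ᶠ q : ℕ in atTop, Real.log (q : ℝ) ≤ κ * q := by
  have h1 : Tendsto (fun q : ℕ => (q : ℝ)) atTop atTop := tendsto_natCast_atTop_atTop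
  have h2 := (Real.isLittleO_log_id_atTop.comp_tendsto h1).bound hκ
  filter_upwards [h2] with q hq
  simp only [Function.comp_apply, id, Real.norm_eq_abs, Nat.abs_cast] at hq
  exact (le_abs_self _).trans hq

/-- (R2) the part of a `d`-set outside a `v`-set is rare. -/
theorem rare_part {α ε : ℝ} (h0 : 1 / 2 < α) (h1 : α < 1) (hε : 0 < ε) :
    ∀ᶠ q : ℕ in atTop, ∀ N : ℕ, Reg α ε q N → ∀ v d : ℕ, x0 α * q ≤ v → v < d → d ≤ q →
      q ≤ d + I1 α →
      (N : ℝ) ^ (d - v) * cst (lev α q v) (d.choose 2 - v.choose 2) (tgt α q d - tgt α q v) ≤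
        ex N (-(k0 α * (d - v))) := by
  have hbe := be_pos h0 h1
  have hta := ta_pos h0 h1
  have hx0p := x0_pos h0 h1
  have hx0l := x0_le h0 h1
  obtain ⟨s, hs⟩ : ∃ s, s = x0 α ^ 2 := ⟨_, rfl⟩
  have hs0 : 0 < s := by rw [hs]; positivity
  have hs1 : s ≤ 1 := by rw [hs]; nlinarith
  have hk0 : k0 α = s / 20 := by rw [hs]; rfl
  have hc0 : c0 α = s / 12 := by rw [hs]; rfl
  filter_upwards [log_small_levd (s * be α / 1280) (by positivity),
    eventually_ge_atTop ⌈640 * ((I1 α : ℝ) + 1) / s⌉₊, eventually_ge_atTop 1]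
    with q hq1 hq2 hq3 N hReg v d hv hvd hdq hqd
  obtain ⟨hR1, hR2, hR3⟩ := hReg
  have hNpos : (0 : ℝ) < N := lt_of_lt_of_le (Real.exp_pos _) hR1
  have hqr : (1 : ℝ) ≤ q := by exact_mod_cast hq3
  have hvr : (v : ℝ) + 1 ≤ d := by exact_mod_cast hvd
  have hdr : (d : ℝ) ≤ q := by exact_mod_cast hdq
  have hqdr : (q : ℝ) ≤ d + I1 α := by exact_mod_cast hqd
  have hv0 : (0 : ℝ) ≤ v := by positivity
  have hI0 : (0 : ℝ) ≤ I1 α := by positivity
  have hq2r : 640 * ((I1 α : ℝ) + 1) ≤ s * q := by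
    have h3 := (Nat.le_ceil (640 * ((I1 α : ℝ) + 1) / s)).trans
      (by exact_mod_cast hq2 : (⌈640 * ((I1 α : ℝ) + 1) / s⌉₊ : ℝ) ≤ q)
    rw [div_le_iff₀ hs0] at h3
    linarith
  set L := Real.log N with hL
  have hLle : L ≤ be α * q / 2 + 2 * Real.log q := by
    rw [hL, Real.log_le_iff_le_exp hNpos, Real.exp_add]
    have h4 : Real.exp (2 * Real.log q) = (q : ℝ) ^ 2 := by
      rw [show (2 : ℝ) = ((2 : ℕ) : ℝ) by norm_num, Real.exp_nat_mul, Real.exp_log (by linarith)]
    rw [h4, mul_comm]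
    exact hR2
  have hffden : (0 : ℝ) < q + v := by linarith
  have hff1 : ff α q v ≤ 1 := by
    unfold ff
    rw [div_le_one hffden, hc0]
    have := mul_le_mul_of_nonneg_right hs1 (by linarith : (0 : ℝ) ≤ q)
    linarith
  have hff0 : 0 ≤ ff α q v := by
    unfold ff
    rw [hc0]
    positivity
  -- the level
  have hlev1 := lev_ge h0 h1 q v (by omega) hq3
  have hlev2 := lev_le h0 h1 q v
  have hgap : ta α * (α - lev α q v) = be α * ff α q v := by
    unfold lev
    field_simp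
    ring
  have hbeξ : be α * (1 - ff α q v / 2) ^ 2 ≤ be (lev α q v) := by
    have h5 := be_ge h0 h1 hlev1 hlev2 (by
      rw [hgap]
      have := mul_le_mul_of_nonneg_left hff1 hbe.le
      linarith)
    rw [hgap] at h5
    have h6 : be α * ff α q v / (2 * be α) = ff α q v / 2 := by field_simp
    rwa [h6] at h5
  have hff2 : 1 - ff α q v / 2 = ((2 - c0 α) * q + v) / (2 * (q + v)) := by
    unfold ff
    field_simp
    ring
  have hconv := conv_levd v q (c0 α) s hc0 hs0.le (by linarith) (by linarith)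
    (by rw [hs, ← mul_pow]; exact pow_le_pow_left₀ (by positivity) hv 2)
  have hbe2 : be α * ((1 + s / 16) * (q / (q + v))) ≤ be (lev α q v) := by
    refine le_trans ?_ hbeξ
    apply mul_le_mul_of_nonneg_left _ hbe.le
    rw [hff2, div_pow, ← mul_div_assoc, div_le_div_iff₀ hffden (by positivity)]
    have h7 := mul_le_mul_of_nonneg_right hconv hffden.le
    linarith
  -- the number of edges
  have hch : v.choose 2 ≤ d.choose 2 := Nat.choose_le_choose 2 hvd.le
  have hm : ((d.choose 2 - v.choose 2 : ℕ) : ℝ) = (d - v) * ((d + v - 1) / 2) := by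
    rw [Nat.cast_sub hch, Nat.cast_choose_two, Nat.cast_choose_two]
    ring
  have hts := tgt_sub h0 h1 q v d hq3 hvd.le hdq
  have hdv : (0 : ℝ) < d - v := by linarith
  have hmain : (1 + s / 20) * L ≤ (d + v - 1) / 2 * be (lev α q v) := by
    have g1 : (q : ℝ) + v - (I1 α + 1) ≤ d + v - 1 := by linarith
    have g2 : ((q : ℝ) + v - (I1 α + 1)) / 2 * (be α * ((1 + s / 16) * (q / (q + v)))) ≤
        (d + v - 1) / 2 * be (lev α q v) := by
      apply mul_le_mul _ hbe2 (by positivity) _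
      · linarith
      · have : (1 : ℝ) ≤ d := by linarith
        linarith
    have g3 : ((q : ℝ) + v - (I1 α + 1)) / 2 * (be α * ((1 + s / 16) * (q / (q + v)))) =
        be α * (1 + s / 16) / 2 * (q - (I1 α + 1) * (q / (q + v))) := by
      field_simp
    have g4 : (q : ℝ) / (q + v) ≤ 1 := by
      rw [div_le_one hffden]
      linarith
    have g5 : be α * (1 + s / 16) / 2 * (q - (I1 α + 1) * 1) ≤
        be α * (1 + s / 16) / 2 * (q - (I1 α + 1) * (q / (q + v))) := by
      apply mul_le_mul_of_nonneg_left _ (by positivity)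
      have := mul_le_mul_of_nonneg_left g4 (by positivity : (0 : ℝ) ≤ (I1 α : ℝ) + 1)
      linarith
    have g6 : (1 + s / 20) * L ≤ (1 + s / 20) * (be α * q / 2 + 2 * (s * be α / 1280 * q)) := by
      apply mul_le_mul_of_nonneg_left _ (by positivity)
      linarith
    have g7 : (1 + s / 20) * (be α * q / 2 + 2 * (s * be α / 1280 * q)) ≤
        be α * (1 + s / 16) / 2 * (q - (I1 α + 1) * 1) := by
      have k1 : be α * (1 + s / 16) / 2 * (I1 α + 1) ≤ be α * (s * q / 640) := by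
        have k2 : be α * (1 + s / 16) / 2 * (I1 α + 1) ≤ be α * (I1 α + 1) := by
          have : (1 + s / 16) / 2 ≤ 1 := by linarith
          have k3 := mul_le_mul_of_nonneg_left this
            (by positivity : (0 : ℝ) ≤ be α * ((I1 α : ℝ) + 1))
          linarith
        have k4 := mul_le_mul_of_nonneg_left hq2r hbe.le
        linarith
      have k5 : (1 + s / 20) * (2 * (s * be α / 1280 * q)) ≤ 2 * (2 * (s * be α / 1280 * q)) := by
        apply mul_le_mul_of_nonneg_right _ (by positivity)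
        linarith
      have k6 : 0 ≤ s * be α * q := by positivity
      linarith
    linarith [g3.le, g3.ge]
  have hexp : (d - v : ℝ) * L +
      -((tgt α q d - tgt α q v) * Real.log (2 * lev α q v) +
        (((d.choose 2 - v.choose 2 : ℕ) : ℝ) - (tgt α q d - tgt α q v)) *
          Real.log (2 - 2 * lev α q v)) ≤ -(s / 20 * (d - v)) * L := by
    rw [cst_expo_levd (by linarith) (by linarith)]
    have k1 : 0 ≤ ((tgt α q d - tgt α q v) -
        ((d.choose 2 - v.choose 2 : ℕ) : ℝ) * lev α q v) * ta (lev α q v) := by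
      apply mul_nonneg _ (ta_nonneg_levd hlev1 (by linarith))
      rw [Nat.cast_sub hch]
      linarith
    have k2 : (d - v : ℝ) * ((1 + s / 20) * L) ≤
        (d - v) * ((d + v - 1) / 2 * be (lev α q v)) :=
      mul_le_mul_of_nonneg_left hmain hdv.le
    have k3 : ((d.choose 2 - v.choose 2 : ℕ) : ℝ) * be (lev α q v) =
        (d - v) * ((d + v - 1) / 2 * be (lev α q v)) := by
      rw [hm]
      ring
    linarith
  unfold cst ex
  rw [← hL, ← Real.exp_log (pow_pos hNpos (d - v)), Real.log_pow, ← hL, ← Real.exp_add,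
    Nat.cast_sub hvd.le, hk0]
  exact Real.exp_le_exp.2 hexp

end Pool.Agent.LibCA69
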