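import Mathlib
import Pool.Agent.H69.CliqueMaker
import Pool.Agent.H69.CliqueAsym

/-!
# Maker: the second moment potential
Task MAKA1.
-/

set_option autoImplicit false

namespace Pool.Agent.LibCA69

open Finset Pool.Agent.H69.Clique

variable {N : ℕ}

/-- The second moment potential: pairs of `q`-sets with at least three common vertices. -/
noncomputable def Psi2 (α δ y : ℝ) (N q : ℕ) (R B : Finset (Edge N)) : ℝ :=
  ∑ A₁ ∈ fam N q ∅, ∑ A₂ ∈ (fam N q ∅).filter (fun A => 3 ≤ (A ∩ A₁).card),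
    gam α δ y q 0 * gam α δ y q (A₂ ∩ A₁).card *
      wgt (2 * α - 1) (inside A₁ ∪ priv A₂ A₁) R B

/-- The number of balanced dense sets containing two given edges. -/
noncomputable def Xef (α δ y : ℝ) (q : ℕ) (e f : Edge N) (T : Finset (Edge N)) : ℝ :=
  ∑ A ∈ (fam N q ∅).filter (fun A => e ∈ inside A ∧ f ∈ inside A), Y α δ y q A T

lemma Psi2_nonneg {α : ℝ} (δ y : ℝ) (h0 : 1 / 2 < α) (h1 : α < 1) (q : ℕ)
    (R B : Finset (Edge N)) : 0 ≤ Psi2 α δ y N q R B := by
  unfold Psi2
  exact sum_nonneg fun _ _ => sum_nonneg fun _ _ =>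
    mul_nonneg (mul_nonneg (gam_pos _ _ _ _ _).le (gam_pos _ _ _ _ _).le)
      (wgt_nonneg (by linarith) (by linarith) _ _ _)

lemma Psi2_harmonic (α δ y : ℝ) (q : ℕ) : Harmonic (Psi2 α δ y N q) := by
  intro R B hd e he
  unfold Psi2
  simp only [← sum_add_distrib, mul_sum]
  refine sum_congr rfl (fun A₁ _ => sum_congr rfl (fun A₂ _ => ?_))
  have := wgt_harmonic (2 * α - 1) (inside A₁ ∪ priv A₂ A₁) R B hd e he
  rw [← mul_add, this]
  ring

/-- Copy of `cross_avg_X` (CliqueMaker). -/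
lemma cross_avg_ge {α δ y : ℝ} (q : ℕ) (R B : Finset (Edge N)) (e f : Edge N)
    (he : e ∉ R ∪ B) (hf : f ∉ R ∪ B) (hef : e ≠ f) :
    -avg (Xef α δ y q e f) R B ≤ cross (avg (X α δ y q ∅)) R B e f := by
  classical
  have h1 : ∀ R' B' : Finset (Edge N), avg (X α δ y q ∅) R' B' =
      ∑ A ∈ fam N q ∅, avg (Y α δ y q A) R' B' := by
    intro R' B'
    unfold X
    exact avg_sum (fam N q ∅) (fun A => Y α δ y q A) R' B'
  have h2 : cross (avg (X α δ y q ∅)) R B e f =
      ∑ A ∈ fam N q ∅, cross (avg (Y α δ y q A)) R B e f := by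
    unfold cross
    rw [h1, h1, h1, h1, sum_add_distrib, sum_sub_distrib, sum_sub_distrib]
  have h3 : avg (Xef α δ y q e f) R B =
      ∑ A ∈ (fam N q ∅).filter (fun A => e ∈ inside A ∧ f ∈ inside A),
        avg (Y α δ y q A) R B := by
    unfold Xef
    exact avg_sum _ (fun A => Y α δ y q A) R B
  rw [h2, h3, sum_filter, ← sum_neg_distrib]
  apply sum_le_sum
  intro A _
  by_cases hiA : e ∈ inside A ∧ f ∈ inside A
  · rw [if_pos hiA]
    exact avg_cross_ge _ (Y_nonneg α δ y q A) R B e f he hf hef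
  · rw [if_neg hiA]
    have hz : cross (avg (Y α δ y q A)) R B e f = 0 := by
      by_cases hi : e ∈ inside A
      · exact avg_cross_zero_right _ R B e f hf hef
          (fun T => Y_indep α δ y q A T f (fun h => hiA ⟨hi, h⟩))
      · exact avg_cross_zero_left _ R B e f he hef (fun T => Y_indep α δ y q A T e hi)
    rw [hz]
    simp

end Pool.Agent.LibCA69
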