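import Pool.Agent.LibCA69.MakA1

/-!
# Maker: the second moment potential
Task MAKA2.
-/

set_option autoImplicit false

namespace Pool.Agent.LibCA69

open Finset Pool.Agent.H69.Clique

variable {N : ℕ}

lemma priv_empty66 (A : Finset (Fin N)) : priv A ∅ = inside A := by
  unfold priv
  rw [Finset.sdiff_eq_self_iff_disjoint, Finset.disjoint_left]
  intro e _ he
  rw [mem_inside] at he
  obtain ⟨x, hx⟩ := e
  induction x using Sym2.ind with
  | _ a b => exact absurd (he a (Sym2.mem_mk_left a b)) (notMem_empty a)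

/-- The second moment. With `P = fam.filter (e, f ∈ inside)`:
`(avg Xef)² ≤ avg (Xef²)` (`avg_pow_le` with exponent 2), `Xef² = ∑_{A₁, A₂ ∈ P} Y A₁ * Y A₂ ≤
∑_{A₁, A₂ ∈ P} gam 0 * gam |A₂ ∩ A₁| * wgt (inside A₁ ∪ priv A₂ A₁)` at the final positions
(`Y_le` for `A₁` with `U = ∅` and for `A₂` with `U = A₁`; `priv A₁ ∅ = inside A₁` up to
`inside ∅ = ∅`; `wgt_union`), then `avg_le_of_final` for this sub-sum `Ψ'` (harmonic like
`Psi2_harmonic`); see `avg_X_pow_le` in CliqueTuple. Finally `cross Psi2 ≤ cross of the terms with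
A₁, A₂ ∈ P` (`wgt_cross_nonpos`; such pairs have `3 ≤ |A₂ ∩ A₁|` by `exists_three`) and for these
terms the cross of `wgt ε Q` with `e, f ∈ Q` is `- ε² * wgt ε Q` (`wgt_insert_left/right`). -/
lemma Psi2_cross {α : ℝ} (δ y : ℝ) (h0 : 1 / 2 < α) (h1 : α < 1) (q : ℕ)
    (R B : Finset (Edge N)) (e f : Edge N) (hd : Disjoint R B)
    (he : e ∉ R ∪ B) (hf : f ∉ R ∪ B) (hef : e ≠ f) :
    cross (Psi2 α δ y N q) R B e f ≤ -((2 * α - 1) ^ 2 * avg (Xef α δ y q e f) R B ^ 2) := by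
  classical
  set P : Finset (Finset (Fin N)) :=
    (fam N q ∅).filter (fun A => e ∈ inside A ∧ f ∈ inside A) with hP
  let Ψ : Finset (Edge N) → Finset (Edge N) → ℝ := fun R B =>
    ∑ A₁ ∈ P, ∑ A₂ ∈ P, gam α δ y q 0 * gam α δ y q (A₂ ∩ A₁).card *
      wgt (2 * α - 1) (inside A₁ ∪ priv A₂ A₁) R B
  have hΨdef : ∀ R B, Ψ R B = ∑ A₁ ∈ P, ∑ A₂ ∈ P, gam α δ y q 0 *
      gam α δ y q (A₂ ∩ A₁).card * wgt (2 * α - 1) (inside A₁ ∪ priv A₂ A₁) R B :=
    fun _ _ => rfl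
  have hharm : Harmonic Ψ := by
    intro R B hd e he
    rw [hΨdef, hΨdef, hΨdef]
    simp only [← sum_add_distrib, mul_sum]
    refine sum_congr rfl (fun A₁ _ => sum_congr rfl (fun A₂ _ => ?_))
    have := wgt_harmonic (2 * α - 1) (inside A₁ ∪ priv A₂ A₁) R B hd e he
    rw [← mul_add, this]
    ring
  have hXnn : ∀ T, 0 ≤ Xef α δ y q e f T := by
    intro T
    unfold Xef
    exact sum_nonneg fun A _ => Y_nonneg α δ y q A T
  -- the second moment
  have hmom : avg (Xef α δ y q e f) R B ^ 2 ≤ Ψ R B := by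
    refine (avg_pow_le (Xef α δ y q e f) hXnn R B 2).trans ?_
    refine avg_le_of_final _ _ hharm ?_ _ R B rfl hd
    intro R' B' hd' hu'
    have hB' : B' = univ \ R' := by
      ext x
      rw [mem_sdiff]
      constructor
      · intro hx
        exact ⟨mem_univ _, fun h => (Finset.disjoint_left.1 hd') h hx⟩
      · rintro ⟨_, hx⟩
        have : x ∈ R' ∪ B' := by rw [hu']; exact mem_univ x
        exact (mem_union.1 this).resolve_left hx
    rw [hB', hΨdef]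
    have hexp : Xef α δ y q e f R' ^ 2 = ∑ A₁ ∈ P, ∑ A₂ ∈ P,
        Y α δ y q A₁ R' * Y α δ y q A₂ R' := by
      unfold Xef
      rw [← hP, sq, sum_mul_sum]
    rw [hexp]
    refine sum_le_sum (fun A₁ m1 => sum_le_sum (fun A₂ m2 => ?_))
    rw [hP, mem_filter, mem_fam] at m1 m2
    have y1 := Y_le (δ := δ) (x₀ := y) h0 h1 q A₁ ∅ m1.1.1 R'
    have y2 := Y_le (δ := δ) (x₀ := y) h0 h1 q A₂ A₁ m2.1.1 R'
    have n1 := Y_nonneg α δ y q A₁ R'
    have n2 := Y_nonneg α δ y q A₂ R'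
    have hdis : Disjoint (inside A₁) (priv A₂ A₁) := by
      have := disj_priv A₁ A₂ ∅ A₁ (subset_refl A₁)
      rwa [priv_empty66] at this
    rw [inter_empty, card_empty, priv_empty66] at y1
    rw [wgt_union _ _ _ _ _ hdis]
    calc Y α δ y q A₁ R' * Y α δ y q A₂ R'
        ≤ (gam α δ y q 0 * wgt (2 * α - 1) (inside A₁) R' (univ \ R')) *
          (gam α δ y q (A₂ ∩ A₁).card * wgt (2 * α - 1) (priv A₂ A₁) R' (univ \ R')) :=
          mul_le_mul y1 y2 n2 (n1.trans y1)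
      _ = _ := by ring
  -- the cross term
  have hterm : ∀ A₁ A₂ : Finset (Fin N), gam α δ y q 0 * gam α δ y q (A₂ ∩ A₁).card *
      cross (wgt (2 * α - 1) (inside A₁ ∪ priv A₂ A₁)) R B e f ≤ 0 := by
    intro A₁ A₂
    exact mul_nonpos_of_nonneg_of_nonpos
      (mul_nonneg (gam_pos _ _ _ _ _).le (gam_pos _ _ _ _ _).le)
      (wgt_cross_nonpos (by linarith) (by linarith) _ R B e f he hf)
  have hcr : cross (Psi2 α δ y N q) R B e f =
      ∑ A₁ ∈ fam N q ∅, ∑ A₂ ∈ (fam N q ∅).filter (fun A => 3 ≤ (A ∩ A₁).card),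
        gam α δ y q 0 * gam α δ y q (A₂ ∩ A₁).card *
          cross (wgt (2 * α - 1) (inside A₁ ∪ priv A₂ A₁)) R B e f := by
    unfold cross Psi2
    simp only [← sum_add_distrib, ← sum_sub_distrib]
    refine sum_congr rfl (fun A₁ _ => sum_congr rfl (fun A₂ _ => ?_))
    ring
  have hsub : ∑ A₁ ∈ fam N q ∅, ∑ A₂ ∈ (fam N q ∅).filter (fun A => 3 ≤ (A ∩ A₁).card),
        gam α δ y q 0 * gam α δ y q (A₂ ∩ A₁).card *
          cross (wgt (2 * α - 1) (inside A₁ ∪ priv A₂ A₁)) R B e f ≤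
      ∑ A₁ ∈ P, ∑ A₂ ∈ P, gam α δ y q 0 * gam α δ y q (A₂ ∩ A₁).card *
          cross (wgt (2 * α - 1) (inside A₁ ∪ priv A₂ A₁)) R B e f := by
    have s1 : ∑ A₁ ∈ fam N q ∅, ∑ A₂ ∈ (fam N q ∅).filter (fun A => 3 ≤ (A ∩ A₁).card),
        gam α δ y q 0 * gam α δ y q (A₂ ∩ A₁).card *
          cross (wgt (2 * α - 1) (inside A₁ ∪ priv A₂ A₁)) R B e f ≤
        ∑ A₁ ∈ P, ∑ A₂ ∈ (fam N q ∅).filter (fun A => 3 ≤ (A ∩ A₁).card),
        gam α δ y q 0 * gam α δ y q (A₂ ∩ A₁).card *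
          cross (wgt (2 * α - 1) (inside A₁ ∪ priv A₂ A₁)) R B e f := by
      rw [← sum_sdiff (filter_subset (fun A => e ∈ inside A ∧ f ∈ inside A) (fam N q ∅)), ← hP]
      have : ∑ A₁ ∈ fam N q ∅ \ P, ∑ A₂ ∈ (fam N q ∅).filter (fun A => 3 ≤ (A ∩ A₁).card),
        gam α δ y q 0 * gam α δ y q (A₂ ∩ A₁).card *
          cross (wgt (2 * α - 1) (inside A₁ ∪ priv A₂ A₁)) R B e f ≤ 0 :=
        sum_nonpos fun A₁ _ => sum_nonpos fun A₂ _ => hterm A₁ A₂
      linarith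
    refine s1.trans (sum_le_sum fun A₁ m1 => ?_)
    have hPs : P ⊆ (fam N q ∅).filter (fun A => 3 ≤ (A ∩ A₁).card) := by
      intro A₂ m2
      rw [hP, mem_filter] at m1 m2
      rw [mem_filter]
      refine ⟨m2.1, ?_⟩
      obtain ⟨S, hS, hSA⟩ := exists_three hef
      rw [← hS]
      exact card_le_card (subset_inter (hSA A₂ m2.2.1 m2.2.2) (hSA A₁ m1.2.1 m1.2.2))
    rw [← sum_sdiff hPs]
    have : ∑ A₂ ∈ (fam N q ∅).filter (fun A => 3 ≤ (A ∩ A₁).card) \ P,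
        gam α δ y q 0 * gam α δ y q (A₂ ∩ A₁).card *
          cross (wgt (2 * α - 1) (inside A₁ ∪ priv A₂ A₁)) R B e f ≤ 0 :=
      sum_nonpos fun A₂ _ => hterm A₁ A₂
    linarith
  have hval : ∑ A₁ ∈ P, ∑ A₂ ∈ P, gam α δ y q 0 * gam α δ y q (A₂ ∩ A₁).card *
          cross (wgt (2 * α - 1) (inside A₁ ∪ priv A₂ A₁)) R B e f =
      -((2 * α - 1) ^ 2 * Ψ R B) := by
    rw [hΨdef, mul_sum, ← sum_neg_distrib]
    refine sum_congr rfl (fun A₁ m1 => ?_)
    rw [mul_sum, ← sum_neg_distrib]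
    refine sum_congr rfl (fun A₂ _ => ?_)
    rw [hP, mem_filter] at m1
    have he' := he
    have hf' := hf
    rw [mem_union, not_or] at he' hf'
    have heQ : e ∈ inside A₁ ∪ priv A₂ A₁ := mem_union_left _ m1.2.1
    have hfQ : f ∈ inside A₁ ∪ priv A₂ A₁ := mem_union_left _ m1.2.2
    unfold cross
    rw [wgt_insert_left _ _ R (insert f B) e he'.1, wgt_insert_left _ _ R B e he'.1,
      wgt_insert_right _ _ R B f hf'.2, if_pos heQ, if_pos hfQ]
    ring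
  rw [hcr]
  refine hsub.trans ?_
  rw [hval]
  have h2 : 0 ≤ (2 * α - 1) ^ 2 := sq_nonneg _
  have h3 := mul_le_mul_of_nonneg_left hmom h2
  linarith

end Pool.Agent.LibCA69
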