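import Mathlib
import Pool.Agent.LibCA69.MakA

/-!
# Maker: the second moment method
Task MAKB.
-/

set_option autoImplicit false

namespace Pool.Agent.LibCA69

open Finset Pool.Agent.H69.Clique

variable {N : ℕ}

/-- Apply `maker_wins` (CliqueGame) to `L = avg X / Φ₀ - c * Psi2` with `c = 1 / (4 Ψ₀)`,
`Ψ₀ = Psi2 ∅ ∅ + 1` (to avoid division by `0`; or treat `Ψ₀ = 0` apart),
`ℓ = Ψ₀ / ((2α-1)² Φ₀²)`: with `x = avg Xef R B`,
`cross L ≥ -x/Φ₀ + c (2α-1)² x² ≥ -1/(4 c (2α-1)² Φ₀²) = -ℓ` (complete the square), the start is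
`L ∅ ∅ ≥ 1 - 1/4`, and `|E| ℓ ≤ (N²/2) ℓ ≤ 1/4`.
At the end `0 < L R B` gives `0 < avg X R B = X R` (`avg_final`), so some `Y A R ≠ 0`, i.e. some
`A` of size `q` is balanced and `α C(q,2) ≤ ⌈α C(q,2)⌉ = |R ∩ inside A|`
(see the end of `maker_main` in CliqueMaker). -/
theorem maker_second {α δ y : ℝ} (h0 : 1 / 2 < α) (h1 : α < 1) (q : ℕ) (hN : 2 ≤ N)
    (Φ₀ : ℝ) (hΦ : Φ₀ = avg (X (N := N) α δ y q ∅) ∅ ∅) (hΦ0 : 0 < Φ₀)
    (hS : 2 * (N : ℝ) ^ 2 * (Psi2 α δ y N q ∅ ∅ + 1) ≤ (2 * α - 1) ^ 2 * Φ₀ ^ 2) :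
    MakerGuarantees (HasDense N α q) := by
  classical
  have hN0 : (0 : ℝ) < N := by
    have : 0 < N := by omega
    exact_mod_cast this
  have hne : Nonempty (Edge N) :=
    ⟨⟨s(⟨0, by omega⟩, ⟨1, by omega⟩), fun h => by
      have := Sym2.mk_isDiag_iff.1 h
      simp at this⟩⟩
  have hb : 0 < 2 * α - 1 := by linarith
  obtain ⟨P, hP⟩ : ∃ P : ℝ, P = Psi2 α δ y N q ∅ ∅ + 1 := ⟨_, rfl⟩
  have hP1 : 1 ≤ P := by
    have := Psi2_nonneg (N := N) δ y h0 h1 q ∅ ∅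
    linarith
  have hP0 : 0 < P := by linarith
  rw [← hP] at hS
  let L : Finset (Edge N) → Finset (Edge N) → ℝ := fun R B =>
    avg (X α δ y q ∅) R B / Φ₀ - 1 / (4 * P) * Psi2 α δ y N q R B
  have hLdef : ∀ R B, L R B = avg (X α δ y q ∅) R B / Φ₀ - 1 / (4 * P) * Psi2 α δ y N q R B :=
    fun _ _ => rfl
  have hc0 : 0 < 1 / (4 * P) := by positivity
  have hharm : Harmonic L := by
    intro R B hd e he
    have a1 := avg_harmonic (X α δ y q ∅) R B hd e he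
    have a2 := Psi2_harmonic (N := N) α δ y q R B hd e he
    rw [hLdef, hLdef, hLdef]
    have e1 : avg (X α δ y q ∅) (insert e R) B / Φ₀ + avg (X α δ y q ∅) R (insert e B) / Φ₀ =
        2 * (avg (X α δ y q ∅) R B / Φ₀) := by
      rw [← add_div, a1]
      ring
    linear_combination e1 - 1 / (4 * P) * a2
  refine maker_wins L hharm (HasDense N α q) ?_ (hasDense_mono α q)
    (P / ((2 * α - 1) ^ 2 * Φ₀ ^ 2)) (by positivity) ?_ ?_
  · -- at the end
    intro R B hd hu hL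
    rw [hLdef] at hL
    have p1 : 0 ≤ 1 / (4 * P) * Psi2 α δ y N q R B :=
      mul_nonneg hc0.le (Psi2_nonneg δ y h0 h1 q R B)
    have p3 : 0 < avg (X α δ y q ∅) R B / Φ₀ := by linarith
    have p4 : 0 < avg (X α δ y q ∅) R B := by
      by_contra hcon
      push Not at hcon
      have := div_nonpos_of_nonpos_of_nonneg hcon hΦ0.le
      linarith
    rw [avg_final _ _ _ hu] at p4
    unfold X at p4
    obtain ⟨A, hA, hYA⟩ := exists_lt_of_sum_lt (s := fam N q ∅) (f := fun _ => (0 : ℝ))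
      (g := fun A => Y α δ y q A R) (by simpa using p4)
    unfold Y at hYA
    by_cases hbal : Bal α δ y q A R
    · refine ⟨A, (mem_fam.1 hA).1, ?_⟩
      rw [hbal.1]
      exact Nat.le_ceil _
    · rw [if_neg hbal] at hYA
      exact absurd hYA (lt_irrefl _)
  · -- the cross term
    intro R B e f hd he hf hef _
    have hcr := cross_avg_ge (α := α) (δ := δ) (y := y) q R B e f he hf hef
    have hps := Psi2_cross (N := N) δ y h0 h1 q R B e f hd he hf hef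
    obtain ⟨x, hx⟩ : ∃ x, x = avg (Xef α δ y q e f) R B := ⟨_, rfl⟩
    rw [← hx] at hcr hps
    have c1 : cross L R B e f = cross (avg (X α δ y q ∅)) R B e f / Φ₀ -
        1 / (4 * P) * cross (Psi2 α δ y N q) R B e f := by
      unfold cross
      rw [hLdef, hLdef, hLdef, hLdef]
      ring
    have c2 : -(x / Φ₀) ≤ cross (avg (X α δ y q ∅)) R B e f / Φ₀ := by
      rw [← neg_div]
      exact div_le_div_of_nonneg_right hcr hΦ0.le
    have c3 : 1 / (4 * P) * cross (Psi2 α δ y N q) R B e f ≤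
        1 / (4 * P) * -((2 * α - 1) ^ 2 * x ^ 2) := mul_le_mul_of_nonneg_left hps hc0.le
    have c4 : 0 ≤ -(x / Φ₀) + 1 / (4 * P) * ((2 * α - 1) ^ 2 * x ^ 2) +
        P / ((2 * α - 1) ^ 2 * Φ₀ ^ 2) := by
      have : -(x / Φ₀) + 1 / (4 * P) * ((2 * α - 1) ^ 2 * x ^ 2) +
        P / ((2 * α - 1) ^ 2 * Φ₀ ^ 2) =
          ((2 * α - 1) ^ 2 * Φ₀ * x - 2 * P) ^ 2 / (4 * P * ((2 * α - 1) ^ 2 * Φ₀ ^ 2)) := by
        field_simp
        ring
      rw [this]
      positivity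
    rw [c1]
    linarith
  · -- the start
    have hcard : (Fintype.card (Edge N) : ℝ) ≤ (N : ℝ) ^ 2 / 2 := by
      rw [card_edge, Nat.cast_choose_two]
      nlinarith
    have u1 : (Fintype.card (Edge N) : ℝ) * (P / ((2 * α - 1) ^ 2 * Φ₀ ^ 2)) ≤ 1 / 4 := by
      calc (Fintype.card (Edge N) : ℝ) * (P / ((2 * α - 1) ^ 2 * Φ₀ ^ 2))
          ≤ (N : ℝ) ^ 2 / 2 * (P / ((2 * α - 1) ^ 2 * Φ₀ ^ 2)) :=
            mul_le_mul_of_nonneg_right hcard (by positivity)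
        _ = (2 * (N : ℝ) ^ 2 * P) / ((2 * α - 1) ^ 2 * Φ₀ ^ 2) / 4 := by
            field_simp
            norm_num
        _ ≤ 1 / 4 := by
            have : (2 * (N : ℝ) ^ 2 * P) / ((2 * α - 1) ^ 2 * Φ₀ ^ 2) ≤ 1 := by
              rw [div_le_one (by positivity)]
              exact hS
            linarith
    have u2 : 1 / (4 * P) * Psi2 α δ y N q ∅ ∅ ≤ 1 / 4 := by
      have : Psi2 α δ y N q ∅ ∅ ≤ P := by linarith
      calc 1 / (4 * P) * Psi2 α δ y N q ∅ ∅ ≤ 1 / (4 * P) * P :=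
            mul_le_mul_of_nonneg_left this hc0.le
        _ = 1 / 4 := by field_simp
    rw [hLdef, ← hΦ, div_self hΦ0.ne']
    linarith

end Pool.Agent.LibCA69
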