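import Mathlib
import Pool.Agent.LibCA69.MakA

/-!
# Maker: the start of the second moment potential
Task MAKC1.
-/

set_option autoImplicit false

namespace Pool.Agent.LibCA69

open Finset Pool.Agent.H69.Clique

variable {N : ℕ}

/-- The `q`-sets `A₂` with `|A₂ ∩ A₁| = j` number at most `C(q,j) C(N,q-j)` (`count_fam` in
CliqueTuple with `S = ∅`, `U = A₁`); all weights are `1` at the start;
`gam 0 = exp(-β C(q,2))` (`gam_small`), so `∑_{A₁} gam 0 = Mn`. -/
lemma Psi2_start {α : ℝ} (h0 : 1 / 2 < α) (h1 : α < 1) (q : ℕ) :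
    Psi2 α (dd α) (xx α) N q ∅ ∅ ≤ Mn α N q *
      ∑ j ∈ Icc 3 q, (q.choose j : ℝ) * (N.choose (q - j) : ℝ) * gam α (dd α) (xx α) q j := by
  classical
  have hw : ∀ P : Finset (Edge N), wgt (2 * α - 1) P ∅ ∅ = 1 := by
    intro P
    unfold wgt
    simp
  have hg0 : gam α (dd α) (xx α) q 0 = Real.exp (-(be α * (q.choose 2 : ℕ))) := by
    have hx := xx_pos h0 h1
    rw [gam_small q 0 (by push_cast; positivity)]
    simp
  have hinner : ∀ A₁ ∈ fam N q ∅,
      ∑ A₂ ∈ (fam N q ∅).filter (fun A => 3 ≤ (A ∩ A₁).card),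
        gam α (dd α) (xx α) q (A₂ ∩ A₁).card ≤
      ∑ j ∈ Icc 3 q, (q.choose j : ℝ) * (N.choose (q - j) : ℝ) * gam α (dd α) (xx α) q j := by
    intro A₁ m1
    have c1 : A₁.card = q := (mem_fam.1 m1).1
    have hmaps : ∀ A ∈ (fam N q ∅).filter (fun A => 3 ≤ (A ∩ A₁).card),
        (A ∩ A₁).card ∈ Icc 3 q := by
      intro A hA
      rw [mem_filter, mem_fam] at hA
      rw [mem_Icc]
      refine ⟨hA.2, ?_⟩
      rw [← hA.1.1]
      exact card_le_card inter_subset_left
    rw [← sum_fiberwise_of_maps_to hmaps]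
    apply sum_le_sum
    intro j _
    have e1 : ∑ A ∈ ((fam N q ∅).filter (fun A => 3 ≤ (A ∩ A₁).card)).filter
        (fun A => (A ∩ A₁).card = j), gam α (dd α) (xx α) q (A ∩ A₁).card =
        ((((fam N q ∅).filter (fun A => 3 ≤ (A ∩ A₁).card)).filter
        (fun A => (A ∩ A₁).card = j)).card : ℝ) * gam α (dd α) (xx α) q j := by
      rw [← nsmul_eq_mul, ← sum_const]
      apply sum_congr rfl
      intro A hA
      rw [(mem_filter.1 hA).2]
    rw [e1]
    apply mul_le_mul_of_nonneg_right _ (gam_pos _ _ _ _ _).le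
    have e2 : (((fam N q ∅).filter (fun A => 3 ≤ (A ∩ A₁).card)).filter
        (fun A => (A ∩ A₁).card = j)).card ≤
        ((fam N q ∅).filter (fun A => (A ∩ A₁).card = j)).card :=
      card_le_card (filter_subset_filter _ (filter_subset _ _))
    have e3 := e2.trans (count_fam q j ∅ A₁ (empty_subset _))
    rw [card_empty, Nat.sub_zero, c1] at e3
    exact_mod_cast e3
  have hcard : (fam N q ∅).card = N.choose q := by
    have : fam N q ∅ = powersetCard q (univ : Finset (Fin N)) := by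
      ext A
      simp [mem_fam, mem_powersetCard]
    rw [this, card_powersetCard, card_univ, Fintype.card_fin]
  unfold Psi2
  calc ∑ A₁ ∈ fam N q ∅, ∑ A₂ ∈ (fam N q ∅).filter (fun A => 3 ≤ (A ∩ A₁).card),
        gam α (dd α) (xx α) q 0 * gam α (dd α) (xx α) q (A₂ ∩ A₁).card *
          wgt (2 * α - 1) (inside A₁ ∪ priv A₂ A₁) ∅ ∅
      = ∑ A₁ ∈ fam N q ∅, gam α (dd α) (xx α) q 0 *
          ∑ A₂ ∈ (fam N q ∅).filter (fun A => 3 ≤ (A ∩ A₁).card),
            gam α (dd α) (xx α) q (A₂ ∩ A₁).card := by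
        refine sum_congr rfl fun A₁ _ => ?_
        rw [mul_sum]
        refine sum_congr rfl fun A₂ _ => ?_
        rw [hw, mul_one]
    _ ≤ ∑ A₁ ∈ fam N q ∅, gam α (dd α) (xx α) q 0 *
          ∑ j ∈ Icc 3 q, (q.choose j : ℝ) * (N.choose (q - j) : ℝ) *
            gam α (dd α) (xx α) q j :=
        sum_le_sum fun A₁ m1 => mul_le_mul_of_nonneg_left (hinner A₁ m1) (gam_pos _ _ _ _ _).le
    _ = Mn α N q * ∑ j ∈ Icc 3 q, (q.choose j : ℝ) * (N.choose (q - j) : ℝ) *
            gam α (dd α) (xx α) q j := by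
        rw [sum_const, nsmul_eq_mul, hcard, hg0]
        unfold Mn
        ring

lemma choose_succ_le66 (n k : ℕ) : n.choose (k + 1) ≤ n * n.choose k := by
  have h := Nat.choose_succ_right_eq n k
  calc n.choose (k + 1) ≤ n.choose (k + 1) * (k + 1) := Nat.le_mul_of_pos_right _ (by omega)
    _ = n.choose k * (n - k) := h
    _ ≤ n.choose k * n := Nat.mul_le_mul_left _ (Nat.sub_le _ _)
    _ = n * n.choose k := Nat.mul_comm _ _

/-- Small intersections: `C(q,j) ≤ q³ C(4q, j-3)` and `term_small` (CliqueCount) with `s = 3`. -/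
lemma term2_small {α : ℝ} (h0 : 1 / 2 < α) (h1 : α < 1) (q j : ℕ) (hN : 2 * q ≤ N)
    (hq : 1 ≤ q) (hjq : j ≤ q) (h3j : 3 ≤ j) (hj : (j : ℝ) ≤ xx α * q)
    (hB : 32 * (q : ℝ) ^ 2 * Real.exp (be α * q / 8) ≤ N) :
    (q.choose j : ℝ) * (N.choose (q - j) : ℝ) * gam α (dd α) (xx α) q j ≤
      (q : ℝ) ^ 3 * (8 * Mn α N q * (2 * q / N) ^ 3) * (1 / 2) ^ (j - 3) := by
  have h := term_small h0 h1 N q j 3 hN hq hjq h3j (Or.inr rfl) hj hB
  have hc : q.choose j ≤ q ^ 3 * (4 * q).choose (j - 3) := by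
    obtain ⟨k, rfl⟩ : ∃ k, j = k + 3 := ⟨j - 3, by omega⟩
    have e1 := choose_succ_le66 q (k + 2)
    have e2 := choose_succ_le66 q (k + 1)
    have e3 := choose_succ_le66 q k
    have e4 : q.choose k ≤ (4 * q).choose k := Nat.choose_le_choose k (by omega)
    rw [Nat.add_sub_cancel]
    calc q.choose (k + 3) ≤ q * q.choose (k + 2) := e1
      _ ≤ q * (q * q.choose (k + 1)) := Nat.mul_le_mul_left _ e2
      _ ≤ q * (q * (q * q.choose k)) := Nat.mul_le_mul_left _ (Nat.mul_le_mul_left _ e3)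
      _ ≤ q * (q * (q * (4 * q).choose k)) :=
          Nat.mul_le_mul_left _ (Nat.mul_le_mul_left _ (Nat.mul_le_mul_left _ e4))
      _ = q ^ 3 * (4 * q).choose k := by ring
  have hc' : (q.choose j : ℝ) ≤ (q : ℝ) ^ 3 * ((4 * q).choose (j - 3) : ℝ) := by
    exact_mod_cast hc
  have hg := (gam_pos α (dd α) (xx α) q j).le
  calc (q.choose j : ℝ) * (N.choose (q - j) : ℝ) * gam α (dd α) (xx α) q j
      ≤ ((q : ℝ) ^ 3 * ((4 * q).choose (j - 3) : ℝ)) * (N.choose (q - j) : ℝ) *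
          gam α (dd α) (xx α) q j := by
        apply mul_le_mul_of_nonneg_right _ hg
        exact mul_le_mul_of_nonneg_right hc' (by positivity)
    _ = (q : ℝ) ^ 3 * (((4 * q).choose (j - 3) : ℝ) * (N.choose (q - j) : ℝ) *
          gam α (dd α) (xx α) q j) := by ring
    _ ≤ (q : ℝ) ^ 3 * (8 * Mn α N q * (2 * q / N) ^ 3 * (1 / 2) ^ (j - 3)) :=
        mul_le_mul_of_nonneg_left h (by positivity)
    _ = _ := by ring

end Pool.Agent.LibCA69
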