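import Pool.Agent.LibCA69.MakC1

/-!
# Maker: the start of the second moment potential
Task MAKC2.
-/

set_option autoImplicit false

namespace Pool.Agent.LibCA69

open Finset Pool.Agent.H69.Clique

variable {N : ℕ}

/-- Large intersections: `C(q,j) = C(q,q-j) ≤ q^(q-j)`, `C(N,q-j) ≤ N^(q-j)` and, as in
`term_large` (CliqueCount), `gam ≤ exp(-β(1-xx/4)(C(q,2)-C(j,2)))` with
`C(q,2)-C(j,2) = (q-j)(q+j-1)/2 ≥ (q-j)((1+xx)q-1)/2`. -/
lemma term2_large {α : ℝ} (h0 : 1 / 2 < α) (h1 : α < 1) (q j : ℕ) (hN : 1 ≤ N) (hq : 1 ≤ q)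
    (hjq : j ≤ q) (hj : ¬ (j : ℝ) ≤ xx α * q)
    (hC : Real.log N + Real.log (2 * q) ≤
      be α * (1 - xx α / 4) * ((1 + xx α) * q - 1) / 2) :
    (q.choose j : ℝ) * (N.choose (q - j) : ℝ) * gam α (dd α) (xx α) q j ≤
      (1 / 2) ^ (q - j) := by
  have hg := gam_large h0 h1 q j hjq hj
  have hNpos : (0 : ℝ) < N := by exact_mod_cast hN
  have hqpos : (0 : ℝ) < q := by exact_mod_cast hq
  have h2 : (N.choose (q - j) : ℝ) ≤ Real.exp ((q - j : ℕ) * Real.log N) := by
    rw [Real.exp_nat_mul, Real.exp_log hNpos]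
    exact_mod_cast Nat.choose_le_pow N (q - j)
  have h3 : (q.choose j : ℝ) ≤ Real.exp ((q - j : ℕ) * Real.log q) := by
    rw [Real.exp_nat_mul, Real.exp_log hqpos, ← Nat.choose_symm hjq]
    exact_mod_cast Nat.choose_le_pow q (q - j)
  have h4 : (q.choose j : ℝ) * (N.choose (q - j) : ℝ) ≤
      Real.exp ((q - j : ℕ) * Real.log q) * Real.exp ((q - j : ℕ) * Real.log N) :=
    mul_le_mul h3 h2 (by positivity) (Real.exp_pos _).le
  have h5 : ((1 : ℝ) / 2) ^ (q - j) = Real.exp (-((q - j : ℕ) * Real.log 2)) := by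
    rw [Real.exp_neg, Real.exp_nat_mul, Real.exp_log two_pos, one_div, inv_pow]
  rw [h5]
  calc (q.choose j : ℝ) * (N.choose (q - j) : ℝ) * gam α (dd α) (xx α) q j ≤
      (Real.exp ((q - j : ℕ) * Real.log q) * Real.exp ((q - j : ℕ) * Real.log N)) *
      Real.exp (-(be α * (1 - xx α / 4) * ((q.choose 2 : ℕ) - (j.choose 2 : ℕ)))) :=
        mul_le_mul h4 hg (gam_pos _ _ _ _ _).le (by positivity)
    _ ≤ Real.exp (-((q - j : ℕ) * Real.log 2)) := by
        rw [← Real.exp_add, ← Real.exp_add]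
        apply Real.exp_le_exp.2
        rw [Nat.cast_choose_two, Nat.cast_choose_two, Nat.cast_sub hjq]
        push Not at hj
        have e1 : (0 : ℝ) ≤ q - j := by
          have : (j : ℝ) ≤ q := by exact_mod_cast hjq
          linarith
        have e2 : 0 < be α * (1 - xx α / 4) := by
          have := be_pos h0 h1
          have := xx_le h0 h1
          have : 0 < 1 - xx α / 4 := by linarith
          positivity
        have e3 : be α * (1 - xx α / 4) * ((1 + xx α) * q - 1) / 2 ≤
            be α * (1 - xx α / 4) * ((q + j - 1) / 2) := by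
          rw [mul_div_assoc]
          apply mul_le_mul_of_nonneg_left _ e2.le
          linarith
        have e5 : Real.log (2 * q) = Real.log 2 + Real.log q :=
          Real.log_mul two_ne_zero hqpos.ne'
        rw [e5] at hC
        have e4 : ((q : ℝ) - j) * (Real.log N + (Real.log 2 + Real.log q)) ≤
            (q - j) * (be α * (1 - xx α / 4) * ((q + j - 1) / 2)) :=
          mul_le_mul_of_nonneg_left (hC.trans e3) e1
        have e6 : be α * (1 - xx α / 4) * ((q : ℝ) * (q - 1) / 2 - j * (j - 1) / 2) =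
            (q - j) * (be α * (1 - xx α / 4) * ((q + j - 1) / 2)) := by ring
        rw [e6]
        linarith

end Pool.Agent.LibCA69
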