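import Pool.Agent.LibCA69.MakC2

/-!
# Maker: the start of the second moment potential
Task MAKC3.
-/

set_option autoImplicit false

namespace Pool.Agent.LibCA69

open Finset Pool.Agent.H69.Clique

variable {N : ℕ}

lemma sum_geom_rev66 (q : ℕ) : ∑ j ∈ Icc 3 q, (1 / 2 : ℝ) ^ (q - j) ≤ 2 := by
  have h1 : ∑ j ∈ Icc 3 q, (1 / 2 : ℝ) ^ (q - j) ≤ ∑ j ∈ range (q + 1), (1 / 2 : ℝ) ^ (q - j) := by
    apply sum_le_sum_of_subset_of_nonneg
    · intro j hj
      rw [mem_Icc] at hj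
      rw [mem_range]
      omega
    · intro i _ _
      positivity
  have h2 : ∑ j ∈ range (q + 1), (1 / 2 : ℝ) ^ (q - j) =
      ∑ j ∈ range (q + 1), (1 / 2 : ℝ) ^ j := by
    have := Finset.sum_range_reflect (fun i => (1 / 2 : ℝ) ^ i) (q + 1)
    rw [← this]
    apply sum_congr rfl
    intro j _
    congr 1
  rw [h2] at h1
  refine h1.trans ?_
  rw [geom_sum_eq (by norm_num)]
  have : (0 : ℝ) < (1 / 2) ^ (q + 1) := by positivity
  rw [div_le_iff_of_neg (by norm_num)]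
  linarith

/-- The sum of the previous bounds (`sum_geom_le`; reflect the index in the second sum). -/
lemma Psi2_le {α : ℝ} (h0 : 1 / 2 < α) (h1 : α < 1) (q : ℕ) (hN : 2 * q ≤ N) (hq : 1 ≤ q)
    (hB : 32 * (q : ℝ) ^ 2 * Real.exp (be α * q / 8) ≤ N)
    (hC : Real.log N + Real.log (2 * q) ≤
      be α * (1 - xx α / 4) * ((1 + xx α) * q - 1) / 2) :
    Psi2 α (dd α) (xx α) N q ∅ ∅ ≤
      Mn α N q * (128 * (q : ℝ) ^ 6 * Mn α N q / (N : ℝ) ^ 3 + 2) := by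
  have hM := Mn_nonneg α N q
  refine (Psi2_start h0 h1 q).trans (mul_le_mul_of_nonneg_left ?_ hM)
  have hterm : ∀ j ∈ Icc 3 q,
      (q.choose j : ℝ) * (N.choose (q - j) : ℝ) * gam α (dd α) (xx α) q j ≤
      (q : ℝ) ^ 3 * (8 * Mn α N q * (2 * q / N) ^ 3) * (1 / 2) ^ (j - 3) +
        (1 / 2) ^ (q - j) := by
    intro j hj
    rw [mem_Icc] at hj
    by_cases hjx : (j : ℝ) ≤ xx α * q
    · have := term2_small h0 h1 q j hN hq hj.2 hj.1 hjx hB
      have h2 : (0 : ℝ) ≤ (1 / 2) ^ (q - j) := by positivity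
      linarith
    · have := term2_large h0 h1 q j (by omega) hq hj.2 hjx hC
      have h2 : (0 : ℝ) ≤ (q : ℝ) ^ 3 * (8 * Mn α N q * (2 * q / N) ^ 3) *
          (1 / 2) ^ (j - 3) := by positivity
      linarith
  refine (sum_le_sum hterm).trans ?_
  rw [sum_add_distrib, ← mul_sum]
  have h3 : (q : ℝ) ^ 3 * (8 * Mn α N q * (2 * q / N) ^ 3) *
      ∑ j ∈ Icc 3 q, (1 / 2 : ℝ) ^ (j - 3) ≤
      (q : ℝ) ^ 3 * (8 * Mn α N q * (2 * q / N) ^ 3) * 2 :=
    mul_le_mul_of_nonneg_left (sum_geom_le 3 q) (by positivity)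
  have h4 : (q : ℝ) ^ 3 * (8 * Mn α N q * (2 * q / N) ^ 3) * 2 =
      128 * (q : ℝ) ^ 6 * Mn α N q / (N : ℝ) ^ 3 := by
    rw [div_pow]
    ring
  have h5 := sum_geom_rev66 q
  linarith

end Pool.Agent.LibCA69
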