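import Mathlib
import Pool.Agent.LibCA69.MakB
import Pool.Agent.LibCA69.MakC
import Pool.Agent.LibCA69.Defs
import Pool.Agent.H69.CliqueAsym

/-!
# Maker wins up to `Q - ε`
Task MAKD1.
-/

set_option autoImplicit false

namespace Pool.Agent.LibCA69

open Finset Filter Pool.Agent.H69.Clique

/-- The expected number of balanced dense sets (`avg_Y_ge` for each `A`, `avg_sum`,
`choose_two_add_one_le`; this is in the proof of `maker_side` in CliqueAsym). -/
lemma avg_X_start {α : ℝ} (h0 : 1 / 2 < α) (h1 : α < 1) (N q : ℕ) (hq3 : 3 ≤ q)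
    (hE : (1 + Real.exp (-(dd α ^ 2 / 8 * q))) ^ q - 1 ≤
      1 / (4 * ((q.choose 2 : ℕ) + 1 : ℝ))) :
    Mn α N q * Real.exp (-ta α) / (4 * (q : ℝ) ^ 2) ≤
      avg (X (N := N) α (dd α) (xx α) q ∅) ∅ ∅ := by
  have hd := dd_pos h0 h1
  have hd1 := dd_le_one α
  have hx := xx_pos h0 h1
  have hqr : (0 : ℝ) < q := by
    have : 0 < q := by omega
    exact_mod_cast this
  set Φ₀ := avg (X (N := N) α (dd α) (xx α) q ∅) ∅ ∅ with hΦ
  have e1 : Φ₀ = ∑ A ∈ fam N q ∅, avg (Y α (dd α) (xx α) q A) ∅ ∅ := by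
    rw [hΦ]
    unfold X
    rw [avg_sum]
  have e2 : (N.choose q : ℝ) * (Real.exp (-(be α * (q.choose 2 : ℕ)) - ta α) /
      (4 * ((q.choose 2 : ℕ) + 1 : ℝ))) ≤ Φ₀ := by
    rw [e1]
    have e3 : (fam N q ∅).card = N.choose q := by
      unfold fam
      rw [filter_true_of_mem (fun A _ => empty_subset A), card_powersetCard, card_univ,
        Fintype.card_fin]
    rw [← e3, ← nsmul_eq_mul]
    apply card_nsmul_le_sum
    intro A hA
    exact avg_Y_ge h0 h1 hd.le hd1 hx q hq3 hE A (mem_fam.1 hA).1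
  refine le_trans ?_ e2
  have e5 := choose_two_add_one_le q (by omega)
  have e6 : (N.choose q : ℝ) * (Real.exp (-(be α * (q.choose 2 : ℕ)) - ta α) /
      (4 * ((q.choose 2 : ℕ) + 1 : ℝ))) =
      Mn α N q * Real.exp (-ta α) / (4 * ((q.choose 2 : ℕ) + 1 : ℝ)) := by
    unfold Mn
    rw [sub_eq_add_neg, Real.exp_add]
    ring
  rw [e6]
  have hMn := Mn_nonneg α N q
  exact div_le_div_of_nonneg_left (mul_nonneg hMn (Real.exp_pos _).le) (by positivity)
    (by linarith)

end Pool.Agent.LibCA69
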