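import Pool.Agent.LibCA69.MakD1

/-!
# Maker wins up to `Q - ε`
Task MAKD2 (`maker_num`); `maker_exact` is proved.
-/

set_option autoImplicit false

namespace Pool.Agent.LibCA69

open Finset Filter Pool.Agent.H69.Clique

/-- All numerical conditions. (`maker_side` in CliqueAsym proves the first four in a very similar
regime, with `ev_poly`.) For the last one: with `M = Mn α N q ≥ N^(2+ε)`,
`2 N² (M (128 q⁶ M / N³ + 2) + 1) ≤ 256 q⁶ M²/N + 6 N² M` (as `M ≥ 1`), and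
`256 q⁶/N ≤ K/2`, `6 N² ≤ K M / 2` with `K = (2α-1)² e^{-2τ} / (16 q⁴)`, because
`N ≥ e^{βq/2}` beats every power of `q`, and `N^ε ≥ e^{εβq/2}`. -/
lemma maker_num {α ε : ℝ} (h0 : 1 / 2 < α) (h1 : α < 1) (hε : 0 < ε) :
    ∀ᶠ q : ℕ in atTop, ∀ N : ℕ, Real.exp (be α * q / 2) ≤ N →
      (N : ℝ) ≤ (q : ℝ) ^ 2 * Real.exp (be α * q / 2) → ex N (2 + ε) ≤ Mn α N q →
      3 ≤ q ∧ 2 ≤ N ∧ 2 * q ≤ N ∧ 32 * (q : ℝ) ^ 2 * Real.exp (be α * q / 8) ≤ N ∧
      Real.log N + Real.log (2 * q) ≤ be α * (1 - xx α / 4) * ((1 + xx α) * q - 1) / 2 ∧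
      (1 + Real.exp (-(dd α ^ 2 / 8 * q))) ^ q - 1 ≤ 1 / (4 * ((q.choose 2 : ℕ) + 1 : ℝ)) ∧
      0 < Mn α N q ∧
      2 * (N : ℝ) ^ 2 * (Mn α N q * (128 * (q : ℝ) ^ 6 * Mn α N q / (N : ℝ) ^ 3 + 2) + 1) ≤
        (2 * α - 1) ^ 2 * (Mn α N q * Real.exp (-ta α) / (4 * (q : ℝ) ^ 2)) ^ 2 := by
  have hb := be_pos h0 h1
  have ht := ta_pos h0 h1
  have hx := xx_pos h0 h1
  have hx4 := xx_le h0 h1
  have hd := dd_pos h0 h1
  have h2a : 0 < (2 * α - 1) ^ 2 := by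
    have : 0 < 2 * α - 1 := by linarith
    positivity
  set κ : ℝ := (2 * α - 1) ^ 2 * Real.exp (-ta α) ^ 2 with hκ
  have hκ0 : 0 < κ := by rw [hκ]; positivity
  filter_upwards [eventually_ge_atTop 3, ev_poly 2 (be α / 2) (by positivity) 1,
    ev_poly 32 (3 * be α / 8) (by positivity) 2,
    ev_poly (2 * Real.exp (be α / 2)) (be α * xx α / 4) (by positivity) 3,
    ev_poly 8 (dd α ^ 2 / 8) (by positivity) 3,
    ev_poly (8192 / κ) (be α / 2) (by positivity) 10,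
    ev_poly (192 / κ) (ε * (be α / 2)) (by positivity) 4]
    with q hq3 c1 c2 c3 c4 c5 c6
  intro N hNl hNu hM
  have hq1 : 1 ≤ q := by omega
  have hqr : (0 : ℝ) < q := by exact_mod_cast hq1
  have hqr3 : (3 : ℝ) ≤ q := by exact_mod_cast hq3
  have hee : Real.exp (be α / 2 * q) = Real.exp (be α * q / 2) := by
    congr 1
    ring
  rw [hee] at c1 c5
  rw [pow_one] at c1
  have hN2q' : 2 * (q : ℝ) ≤ N := c1.trans hNl
  have hN2q : 2 * q ≤ N := by exact_mod_cast hN2q'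
  have hN2 : 2 ≤ N := by omega
  have hNpos : (0 : ℝ) < N := by linarith
  have hN1 : (1 : ℝ) ≤ N := by linarith
  have hlogN : 0 ≤ Real.log N := Real.log_nonneg hN1
  have hlogN' : be α * q / 2 ≤ Real.log N := by
    rw [← Real.log_exp (be α * q / 2)]
    exact Real.log_le_log (Real.exp_pos _) hNl
  -- the size of `Mn`
  have hex : ex N (2 + ε) = (N : ℝ) ^ 2 * Real.exp (ε * Real.log N) := by
    unfold ex
    rw [add_mul, Real.exp_add]
    congr 1
    have h5 : (2 : ℝ) * Real.log N = ((2 : ℕ) : ℝ) * Real.log N := by norm_num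
    rw [h5, Real.exp_nat_mul, Real.exp_log hNpos]
  have hNε : Real.exp (ε * (be α / 2) * q) ≤ Real.exp (ε * Real.log N) := by
    apply Real.exp_le_exp.2
    calc ε * (be α / 2) * q = ε * (be α * q / 2) := by ring
      _ ≤ ε * Real.log N := mul_le_mul_of_nonneg_left hlogN' hε.le
  have hM1 : (N : ℝ) ^ 2 * Real.exp (ε * Real.log N) ≤ Mn α N q := by
    rw [← hex]
    exact hM
  have hMpos : 0 < Mn α N q := lt_of_lt_of_le (by positivity) hM1
  have hM2 : 1 ≤ Mn α N q := by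
    refine le_trans ?_ hM1
    have h5 : (1 : ℝ) ≤ (N : ℝ) ^ 2 := one_le_pow₀ hN1
    have h6 : 1 ≤ Real.exp (ε * Real.log N) := Real.one_le_exp (by positivity)
    nlinarith
  refine ⟨hq3, hN2, hN2q, ?_, ?_, ?_, hMpos, ?_⟩
  · refine le_trans ?_ hNl
    have e1 : Real.exp (be α * q / 2) = Real.exp (3 * be α / 8 * q) * Real.exp (be α * q / 8) := by
      rw [← Real.exp_add]
      congr 1
      ring
    rw [e1]
    exact mul_le_mul_of_nonneg_right c2 (Real.exp_pos _).le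
  · rw [← Real.log_mul hNpos.ne' (by positivity)]
    have e1 : (N : ℝ) * (2 * q) ≤ Real.exp (be α * xx α / 4 * q - be α / 2 + be α * q / 2) := by
      have e2 : (N : ℝ) * (2 * q) ≤ (2 * (q : ℝ) ^ 3) * Real.exp (be α * q / 2) := by
        calc (N : ℝ) * (2 * q) ≤ ((q : ℝ) ^ 2 * Real.exp (be α * q / 2)) * (2 * q) :=
              mul_le_mul_of_nonneg_right hNu (by positivity)
          _ = _ := by ring
      refine e2.trans ?_
      rw [Real.exp_add, Real.exp_sub]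
      apply mul_le_mul_of_nonneg_right _ (Real.exp_pos _).le
      rw [le_div_iff₀ (Real.exp_pos _)]
      refine le_trans (le_of_eq ?_) c3
      ring
    have e2 : Real.log ((N : ℝ) * (2 * q)) ≤ be α * xx α / 4 * q - be α / 2 + be α * q / 2 := by
      rw [← Real.log_exp (be α * xx α / 4 * q - be α / 2 + be α * q / 2)]
      exact Real.log_le_log (by positivity) e1
    refine e2.trans ?_
    have e3 : be α * (1 - xx α / 4) * ((1 + xx α) * q - 1) / 2 -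
        (be α * xx α / 4 * q - be α / 2 + be α * q / 2) =
        be α * xx α * q * (1 / 8 - xx α / 8) + be α * xx α / 8 := by ring
    have e4 : 0 ≤ be α * xx α * q * (1 / 8 - xx α / 8) + be α * xx α / 8 := by
      have : 0 ≤ 1 / 8 - xx α / 8 := by linarith
      positivity
    linarith
  · have hEx := Real.exp_pos (-(dd α ^ 2 / 8 * q))
    have e1 : 8 * (q : ℝ) ^ 3 * Real.exp (-(dd α ^ 2 / 8 * q)) ≤ 1 := by
      rw [Real.exp_neg, ← div_eq_mul_inv, div_le_one (Real.exp_pos _)]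
      exact c4
    have e2 := choose_two_add_one_le q hq1
    have hm : (0 : ℝ) ≤ (q.choose 2 : ℕ) := by positivity
    have e3 : (q : ℝ) * Real.exp (-(dd α ^ 2 / 8 * q)) ≤ 1 := by
      refine le_trans ?_ e1
      apply mul_le_mul_of_nonneg_right _ hEx.le
      have : (1 : ℝ) ≤ q ^ 2 := by nlinarith
      nlinarith
    refine (one_add_exp_pow q _ hEx.le e3).trans ?_
    rw [le_div_iff₀ (by positivity)]
    refine le_trans ?_ e1
    calc 2 * ((q : ℝ) * Real.exp (-(dd α ^ 2 / 8 * q))) * (4 * ((q.choose 2 : ℕ) + 1 : ℝ))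
        = 8 * q * ((q.choose 2 : ℕ) + 1 : ℝ) * Real.exp (-(dd α ^ 2 / 8 * q)) := by ring
      _ ≤ 8 * q * (q : ℝ) ^ 2 * Real.exp (-(dd α ^ 2 / 8 * q)) :=
          mul_le_mul_of_nonneg_right (mul_le_mul_of_nonneg_left e2 (by positivity)) hEx.le
      _ = _ := by ring
  · set M := Mn α N q with hMdef
    have hR : (2 * α - 1) ^ 2 * (M * Real.exp (-ta α) / (4 * (q : ℝ) ^ 2)) ^ 2 =
        κ / (16 * (q : ℝ) ^ 4) * M ^ 2 := by
      rw [hκ]
      field_simp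
      ring
    rw [hR]
    have hL : 2 * (N : ℝ) ^ 2 * (M * (128 * (q : ℝ) ^ 6 * M / (N : ℝ) ^ 3 + 2) + 1) =
        256 * (q : ℝ) ^ 6 / N * M ^ 2 + (4 * (N : ℝ) ^ 2 * M + 2 * (N : ℝ) ^ 2) := by
      field_simp
      ring
    rw [hL]
    have k1 : 256 * (q : ℝ) ^ 6 / N ≤ κ / (16 * (q : ℝ) ^ 4) / 2 := by
      rw [div_div, div_le_div_iff₀ hNpos (by positivity)]
      have k2 := c5.trans hNl
      rw [div_mul_eq_mul_div, div_le_iff₀ hκ0] at k2
      calc 256 * (q : ℝ) ^ 6 * (16 * (q : ℝ) ^ 4 * 2) = 8192 * (q : ℝ) ^ 10 := by ring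
        _ ≤ N * κ := k2
        _ = κ * N := by ring
    have k3 : 6 * (N : ℝ) ^ 2 ≤ κ / (16 * (q : ℝ) ^ 4) / 2 * M := by
      have k4 := c6.trans hNε
      rw [div_mul_eq_mul_div, div_le_iff₀ hκ0] at k4
      have k5 : 6 * (N : ℝ) ^ 2 ≤ κ / (16 * (q : ℝ) ^ 4) / 2 *
          ((N : ℝ) ^ 2 * Real.exp (ε * Real.log N)) := by
        rw [div_div, div_mul_eq_mul_div, le_div_iff₀ (by positivity)]
        calc 6 * (N : ℝ) ^ 2 * (16 * (q : ℝ) ^ 4 * 2) = (192 * (q : ℝ) ^ 4) * (N : ℝ) ^ 2 := by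
              ring
          _ ≤ (Real.exp (ε * Real.log N) * κ) * (N : ℝ) ^ 2 :=
              mul_le_mul_of_nonneg_right k4 (by positivity)
          _ = _ := by ring
      exact k5.trans (mul_le_mul_of_nonneg_left hM1 (by positivity))
    have k6 : 4 * (N : ℝ) ^ 2 * M + 2 * (N : ℝ) ^ 2 ≤ κ / (16 * (q : ℝ) ^ 4) / 2 * M ^ 2 := by
      have k7 : 2 * (N : ℝ) ^ 2 ≤ 2 * (N : ℝ) ^ 2 * M := le_mul_of_one_le_right (by positivity) hM2
      calc 4 * (N : ℝ) ^ 2 * M + 2 * (N : ℝ) ^ 2 ≤ (6 * (N : ℝ) ^ 2) * M := by linarith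
        _ ≤ (κ / (16 * (q : ℝ) ^ 4) / 2 * M) * M := mul_le_mul_of_nonneg_right k3 hMpos.le
        _ = _ := by ring
    have k8 := mul_le_mul_of_nonneg_right k1 (sq_nonneg M)
    calc 256 * (q : ℝ) ^ 6 / N * M ^ 2 + (4 * (N : ℝ) ^ 2 * M + 2 * (N : ℝ) ^ 2)
        ≤ κ / (16 * (q : ℝ) ^ 4) / 2 * M ^ 2 + κ / (16 * (q : ℝ) ^ 4) / 2 * M ^ 2 :=
          add_le_add k8 k6
      _ = _ := by ring

/-- Maker wins when the expected number of dense sets exceeds `N^(2+ε)`. -/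
theorem maker_exact {α ε : ℝ} (h0 : 1 / 2 < α) (h1 : α < 1) (hε : 0 < ε) :
    ∀ᶠ q : ℕ in atTop, ∀ N : ℕ, Real.exp (be α * q / 2) ≤ N →
      (N : ℝ) ≤ (q : ℝ) ^ 2 * Real.exp (be α * q / 2) → ex N (2 + ε) ≤ Mn α N q →
      MakerGuarantees (HasDense N α q) := by
  filter_upwards [maker_num h0 h1 hε] with q hq N a1 a2 a3
  obtain ⟨q3, N2, hN2q, hB, hC, hE, hM, hfin⟩ := hq N a1 a2 a3
  have hstart := avg_X_start h0 h1 N q q3 hE
  have hqr : (0 : ℝ) < q := by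
    have : 0 < q := by omega
    exact_mod_cast this
  have hpos : 0 < Mn α N q * Real.exp (-ta α) / (4 * (q : ℝ) ^ 2) := by positivity
  refine maker_second h0 h1 q N2 _ rfl (hpos.trans_le hstart) ?_
  have hP := Psi2_le (N := N) h0 h1 q hN2q (by omega) hB hC
  calc 2 * (N : ℝ) ^ 2 * (Psi2 α (dd α) (xx α) N q ∅ ∅ + 1)
      ≤ 2 * (N : ℝ) ^ 2 * (Mn α N q * (128 * (q : ℝ) ^ 6 * Mn α N q / (N : ℝ) ^ 3 + 2) + 1) := by
        apply mul_le_mul_of_nonneg_left _ (by positivity)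
        linarith
    _ ≤ (2 * α - 1) ^ 2 * (Mn α N q * Real.exp (-ta α) / (4 * (q : ℝ) ^ 2)) ^ 2 := hfin
    _ ≤ (2 * α - 1) ^ 2 * avg (X (N := N) α (dd α) (xx α) q ∅) ∅ ∅ ^ 2 := by
        apply mul_le_mul_of_nonneg_left _ (sq_nonneg _)
        exact pow_le_pow_left₀ hpos.le hstart 2

end Pool.Agent.LibCA69
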