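import Pool.Agent.LibCA69.LevB

/-!
# Task NUMA1: powers of `N`, the constants of the small games, a count
-/

set_option autoImplicit false

namespace Pool.Agent.LibCA69

open Finset Filter Pool.Agent.H69.Clique

variable {N : ℕ}

theorem ex_pos (N : ℕ) (x : ℝ) : 0 < ex N x := Real.exp_pos _

theorem ex_add (N : ℕ) (x y : ℝ) : ex N (x + y) = ex N x * ex N y := by
  unfold ex
  rw [add_mul, Real.exp_add]

theorem ex_zero (N : ℕ) : ex N 0 = 1 := by
  unfold ex
  rw [zero_mul, Real.exp_zero]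

theorem ex_neg (N : ℕ) (x : ℝ) : ex N (-x) = (ex N x)⁻¹ := by
  unfold ex
  rw [neg_mul, Real.exp_neg]

theorem ex_mono {N : ℕ} (hN : 1 ≤ N) {x y : ℝ} (h : x ≤ y) : ex N x ≤ ex N y := by
  unfold ex
  have h1 : 0 ≤ Real.log N := Real.log_nonneg (by exact_mod_cast hN)
  exact Real.exp_le_exp.2 (mul_le_mul_of_nonneg_right h h1)

theorem one_le_ex {N : ℕ} (hN : 1 ≤ N) {x : ℝ} (h : 0 ≤ x) : 1 ≤ ex N x := by
  rw [← ex_zero N]
  exact ex_mono hN h

theorem ex_nat (N k : ℕ) (hN : 1 ≤ N) : ex N k = (N : ℝ) ^ k := by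
  unfold ex
  rw [← Real.log_pow, Real.exp_log]
  have : (0 : ℝ) < N := by exact_mod_cast hN
  positivity

theorem ex_pow (N k : ℕ) (x : ℝ) : ex N x ^ k = ex N (k * x) := by
  unfold ex
  rw [← Real.exp_nat_mul, mul_assoc]

end Pool.Agent.LibCA69
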