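import Pool.Agent.LibCA69.NumA1

/-!
# Task NUMA2: powers of `N`, the constants of the small games, a count
-/

set_option autoImplicit false

namespace Pool.Agent.LibCA69

open Finset Filter Pool.Agent.H69.Clique

variable {N : ℕ}

theorem cS_ge (α : ℝ) (q : ℕ) : 4 ≤ cS α q := by
  unfold cS
  have h1 : 1 ≤ (lvls α q).card := by
    unfold lvls
    exact Finset.card_pos.2 ⟨α, Finset.mem_insert_self _ _⟩
  have h2 : (1 : ℝ) ≤ ((lvls α q).card : ℝ) := by exact_mod_cast h1
  linarith

theorem cS_le (α : ℝ) (q : ℕ) (hq : 1 ≤ q) : cS α q ≤ 40 * (q : ℝ) ^ 4 := by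
  unfold cS
  have h1 : (lvls α q).card ≤ (q ^ 2 + 2) * (q ^ 2 + 2) + 1 := by
    unfold lvls
    refine (Finset.card_insert_le _ _).trans (Nat.add_le_add_right ?_ 1)
    refine Finset.card_image_le.trans ((Finset.card_filter_le _ _).trans (le_of_eq ?_))
    rw [Finset.card_product, Finset.card_range]
  have h2 : ((lvls α q).card : ℝ) ≤ ((q : ℝ) ^ 2 + 2) * ((q : ℝ) ^ 2 + 2) + 1 := by
    exact_mod_cast h1
  have h3 : (1 : ℝ) ≤ (q : ℝ) ^ 2 := by
    have h4 : 1 ≤ q ^ 2 := Nat.one_le_pow _ _ hq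
    exact_mod_cast h4
  have h4 : (q : ℝ) ^ 4 = (q : ℝ) ^ 2 * (q : ℝ) ^ 2 := by ring
  rw [h4]
  nlinarith

theorem one_le_bS (α : ℝ) (q y : ℕ) (hq : 1 ≤ q) : 1 ≤ bS α q y := by
  unfold bS
  have h1 := cS_ge α q
  have h2 : (1 : ℝ) ≤ (q : ℝ) ^ (2 * y) := one_le_pow₀ (by exact_mod_cast hq)
  nlinarith

theorem bS_mono (α : ℝ) (q y y' : ℕ) (hq : 1 ≤ q) (h : y ≤ y') : bS α q y ≤ bS α q y' := by
  unfold bS
  have h1 := cS_ge α q
  have h2 : (q : ℝ) ^ (2 * y) ≤ (q : ℝ) ^ (2 * y') :=
    pow_le_pow_right₀ (by exact_mod_cast hq) (by omega)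
  exact mul_le_mul_of_nonneg_left h2 (by linarith)

/-- The number of sets with prescribed size and prescribed intersection with `U`. -/
theorem card_inter_le (U : Finset (Fin N)) (d u : ℕ) :
    ((univ.filter (fun D : Finset (Fin N) => D.card = d ∧ (D ∩ U).card = u)).card : ℝ) ≤
      (U.card.choose u : ℝ) * (N.choose (d - u) : ℝ) := by
  have h1 : (univ.filter (fun D : Finset (Fin N) => D.card = d ∧ (D ∩ U).card = u)).card ≤
      (powersetCard u U ×ˢ powersetCard (d - u) (univ : Finset (Fin N))).card := by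
    refine Finset.card_le_card_of_injOn (fun D => (D ∩ U, D \ U)) ?_ ?_
    · intro D hD
      have hD' := (Finset.mem_filter.1 (Finset.mem_coe.1 hD)).2
      rw [Finset.mem_coe, Finset.mem_product, Finset.mem_powersetCard, Finset.mem_powersetCard]
      refine ⟨⟨Finset.inter_subset_right, hD'.2⟩, Finset.subset_univ _, ?_⟩
      have h2 := Finset.card_inter_add_card_sdiff D U
      show (D \ U).card = d - u
      omega
    · intro D _ D' _ h
      have h2 : D ∩ U = D' ∩ U := congrArg Prod.fst h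
      have h3 : D \ U = D' \ U := congrArg Prod.snd h
      have h4 : ∀ E : Finset (Fin N), E = (E ∩ U) ∪ (E \ U) := fun E =>
        (sup_inf_sdiff E U).symm
      rw [h4 D, h4 D', h2, h3]
  rw [Finset.card_product, Finset.card_powersetCard, Finset.card_powersetCard,
    Finset.card_univ, Fintype.card_fin] at h1
  exact_mod_cast h1

end Pool.Agent.LibCA69
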