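import Pool.Agent.LibCA69.NumB1

/-!
# Task NUMB2: elementary estimates for large `q`

`x0 α * q = be α * q / 16 ≤ log N / 8`.  For `2 ≤ v < x0 q`:
`C(v,2) = 1 + (v - 2)(v + 1)/2` and `(v + 1)/2 * log 2 ≤ log N / 20` for large `q`;
`C(v + C, 2) = C(v,2) + v C + C(C,2)`.
-/

set_option autoImplicit false

namespace Pool.Agent.LibCA69

open Finset Filter Pool.Agent.H69.Clique

theorem numB2_large {α : ℝ} (h0 : 1 / 2 < α) (h1 : α < 1) (A : ℝ) :
    ∀ᶠ q : ℕ in atTop, A ≤ x0 α * q := by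
  have h2 := (tendsto_natCast_atTop_atTop (R := ℝ)).const_mul_atTop (x0_pos h0 h1)
  exact h2.eventually_ge_atTop A

theorem two_pow_shift {α : ℝ} (h0 : 1 / 2 < α) (h1 : α < 1) (C : ℕ) :
    ∀ᶠ q : ℕ in atTop, ∀ N : ℕ, Real.exp (be α * q / 2) ≤ N → ∀ v : ℕ, 2 ≤ v →
      (v : ℝ) < x0 α * q → (2 : ℝ) ^ ((v + C).choose 2) ≤ 2 ^ ((C + 2) ^ 2) * ex N ((v - 2) / 16) := by
  filter_upwards [numB2_large h0 h1 (5 * (C + 2))] with q hq N hN v hv hvq
  have hlog := log_ge h0 h1 q N hN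
  obtain ⟨w, rfl⟩ : ∃ w, v = w + 2 := ⟨v - 2, by omega⟩
  have e1 : ((w + 2 + C).choose 2 : ℝ) =
      (C + 2) * (C + 1) / 2 + w * ((C + 2) + ((w : ℝ) - 1) / 2) := by
    rw [Nat.cast_choose_two]
    push_cast
    ring
  have hl2 := Real.log_two_lt_d9
  have hl0 : 0 < Real.log 2 := Real.log_pos (by norm_num)
  have hw0 : (0 : ℝ) ≤ w := Nat.cast_nonneg w
  have hC0 : (0 : ℝ) ≤ C := Nat.cast_nonneg C
  have e0 : (2 : ℝ) ^ ((C + 2) ^ 2) * ex N (((w + 2 : ℕ) - 2) / 16) =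
      Real.exp (((C + 2) ^ 2 : ℕ) * Real.log 2 + ((w + 2 : ℕ) - 2) / 16 * Real.log N) := by
    rw [Real.exp_add, Real.exp_nat_mul, Real.exp_log (by norm_num), ex]
  have e3 : (2 : ℝ) ^ ((w + 2 + C).choose 2) =
      Real.exp (((w + 2 + C).choose 2 : ℕ) * Real.log 2) := by
    rw [Real.exp_nat_mul, Real.exp_log (by norm_num)]
  rw [e0, e3]
  apply Real.exp_le_exp.2
  rw [e1]
  push_cast at hvq ⊢
  have h3 : ((C + 2 : ℝ) + ((w : ℝ) - 1) / 2) * Real.log 2 ≤ Real.log N / 16 := by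
    have h4 : ((C + 2 : ℝ) + ((w : ℝ) - 1) / 2) ≤ (C + 2) + Real.log N / 16 := by linarith
    have h5 : (0 : ℝ) ≤ (C + 2) + Real.log N / 16 := by
      have : 0 ≤ Real.log N := by linarith
      positivity
    calc ((C + 2 : ℝ) + ((w : ℝ) - 1) / 2) * Real.log 2
        ≤ ((C + 2) + Real.log N / 16) * Real.log 2 := mul_le_mul_of_nonneg_right h4 hl0.le
      _ ≤ ((C + 2) + Real.log N / 16) * 0.7 := mul_le_mul_of_nonneg_left (by linarith) h5
      _ ≤ Real.log N / 16 := by linarith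
  have h4 : (C + 2 : ℝ) * (C + 1) / 2 * Real.log 2 ≤ (C + 2) ^ 2 * Real.log 2 := by
    refine mul_le_mul_of_nonneg_right ?_ hl0.le
    nlinarith
  have h5 := mul_le_mul_of_nonneg_left h3 hw0
  have e2 : ((w : ℝ) + 2 - 2) / 16 * Real.log N = w * (Real.log N / 16) := by ring
  rw [e2]
  nlinarith

theorem two_pow_le {α : ℝ} (h0 : 1 / 2 < α) (h1 : α < 1) :
    ∀ᶠ q : ℕ in atTop, ∀ N : ℕ, Real.exp (be α * q / 2) ≤ N → ∀ v : ℕ, 2 ≤ v →
      (v : ℝ) < x0 α * q → (2 : ℝ) ^ (v.choose 2) ≤ 2 * ex N ((v - 2) / 16) := by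
  filter_upwards [numB2_large h0 h1 10] with q hq N hN v hv hvq
  have hlog := log_ge h0 h1 q N hN
  obtain ⟨w, rfl⟩ : ∃ w, v = w + 2 := ⟨v - 2, by omega⟩
  have e1 : ((w + 2).choose 2 : ℝ) = 1 + w * ((w : ℝ) + 3) / 2 := by
    rw [Nat.cast_choose_two]
    push_cast
    ring
  have hl2 := Real.log_two_lt_d9
  have hl0 : 0 < Real.log 2 := Real.log_pos (by norm_num)
  have hw0 : (0 : ℝ) ≤ w := Nat.cast_nonneg w
  have e0 : (2 : ℝ) * ex N (((w + 2 : ℕ) - 2) / 16) =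
      Real.exp (Real.log 2 + ((w + 2 : ℕ) - 2) / 16 * Real.log N) := by
    rw [Real.exp_add, Real.exp_log (by norm_num), ex]
  have e3 : (2 : ℝ) ^ ((w + 2).choose 2) = Real.exp (((w + 2).choose 2 : ℕ) * Real.log 2) := by
    rw [Real.exp_nat_mul, Real.exp_log (by norm_num)]
  rw [e0, e3]
  apply Real.exp_le_exp.2
  rw [e1]
  push_cast at hvq ⊢
  have h3 : (((w : ℝ) + 3) / 2) * Real.log 2 ≤ Real.log N / 16 := by
    have h4 : (((w : ℝ) + 3) / 2) ≤ 1 / 2 + Real.log N / 16 := by linarith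
    have h5 : (0 : ℝ) ≤ 1 / 2 + Real.log N / 16 := by
      have : 0 ≤ Real.log N := by linarith
      positivity
    calc (((w : ℝ) + 3) / 2) * Real.log 2
        ≤ (1 / 2 + Real.log N / 16) * Real.log 2 := mul_le_mul_of_nonneg_right h4 hl0.le
      _ ≤ (1 / 2 + Real.log N / 16) * 0.7 := mul_le_mul_of_nonneg_left (by linarith) h5
      _ ≤ Real.log N / 16 := by linarith
  have h5 := mul_le_mul_of_nonneg_left h3 hw0
  have e2 : ((w : ℝ) + 2 - 2) / 16 * Real.log N = w * (Real.log N / 16) := by ring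
  rw [e2]
  nlinarith

end Pool.Agent.LibCA69
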