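import Pool.Agent.LibCA69.Ctl

/-!
# Task REAL1: lists of light declared sets

By induction on `l`: the piece `whole α q D` on top of `lightP α q base l` counts
`inside D \ used`, with `used ⊆ inside (vert (A ∪ H) l)` and
`used ⊆ inside A ∪ inside H ∪ ⋃ inside D'`; so the overlap is at most `ovB`, and
`cst * wgt ≥ 2 ^ (-ovB) * vv D ≥ 2 ^ (-ovB) * ex N (-e0)` by `wgt_sdiff`, `markov`, `ex_le_vv`.
-/

set_option autoImplicit false

namespace Pool.Agent.LibCA69

open Finset Filter Pool.Agent.H69.Clique

variable {N : ℕ}

theorem used_sub_vert_Real1 (α : ℝ) (q : ℕ) (A H : Finset (Fin N))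
    (base : List (Piece (Edge N))) (hu : used base ⊆ inside A ∪ inside H)
    (l : List (Finset (Fin N))) : used (lightP α q base l) ⊆ inside (vert (A ∪ H) l) := by
  induction l with
  | nil =>
    refine hu.trans (union_subset ?_ ?_)
    · exact inside_mono subset_union_left
    · exact inside_mono subset_union_right
  | cons D l ih =>
    have h1 : used (lightP α q base (D :: l)) = inside D ∪ used (lightP α q base l) := rfl
    have h2 : vert (A ∪ H) (D :: l) = D ∪ vert (A ∪ H) l := rfl
    rw [h1, h2]
    refine union_subset (inside_mono subset_union_left) (ih.trans (inside_mono subset_union_right))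

theorem used_card_Real1 (α : ℝ) (q : ℕ) (A H : Finset (Fin N))
    (base : List (Piece (Edge N))) (hu : used base ⊆ inside A ∪ inside H)
    (D : Finset (Fin N)) (hDH : (D ∩ H).card ≤ 16)
    (l : List (Finset (Fin N))) (hl : ∀ D' ∈ l, (D ∩ D').card ≤ 16) :
    (inside D ∩ used (lightP α q base l)).card ≤ (D ∩ A).card.choose 2 + (l.length + 1) * 120 := by
  have h16 : ∀ k : ℕ, k ≤ 16 → k.choose 2 ≤ 120 := fun k hk =>
    (Nat.choose_le_choose 2 hk).trans (by decide)
  induction l with
  | nil =>
    have h1 : inside D ∩ used (lightP α q base []) ⊆ inside (D ∩ A) ∪ inside (D ∩ H) := by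
      rw [inside_inter, inside_inter, ← inter_union_distrib_left]
      exact inter_subset_inter_left hu
    refine (card_le_card h1).trans ((card_union_le _ _).trans ?_)
    rw [card_inside, card_inside]
    have := h16 _ hDH
    simp only [List.length_nil]
    omega
  | cons D' l ih =>
    have ih' := ih (fun x hx => hl x (List.mem_cons_of_mem _ hx))
    have h1 : used (lightP α q base (D' :: l)) = inside D' ∪ used (lightP α q base l) := rfl
    rw [h1, inter_union_distrib_left]
    refine (card_union_le _ _).trans ?_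
    rw [← inside_inter, card_inside]
    have := h16 _ (hl D' List.mem_cons_self)
    simp only [List.length_cons]
    omega

theorem vert_card_Real1 (U : Finset (Fin N)) (q : ℕ) (l : List (Finset (Fin N)))
    (hl : ∀ D ∈ l, D.card ≤ q) : (vert U l).card ≤ U.card + l.length * q := by
  induction l with
  | nil => simp [vert]
  | cons D l ih =>
    have ih' := ih (fun x hx => hl x (List.mem_cons_of_mem _ hx))
    have h2 : vert U (D :: l) = D ∪ vert U l := rfl
    rw [h2]
    refine (card_union_le _ _).trans ?_
    have := hl D List.mem_cons_self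
    simp only [List.length_cons]
    rw [Nat.add_mul, one_mul]
    omega

theorem Wt_W5_nonneg_Real1 (α ε : ℝ) (q : ℕ) (A H : Finset (Fin N))
    (l : List (Finset (Fin N))) : 0 ≤ Wt (W5 α ε N q A H) l := by
  induction l with
  | nil => simp [Wt]
  | cons D l ih =>
    have p2 : Wt (W5 α ε N q A H) (D :: l) = W5 α ε N q A H l D *
            Wt (W5 α ε N q A H) l := rfl
    rw [p2]
    refine mul_nonneg ?_ ih
    unfold W5
    split_ifs
    · exact mul_nonneg (pow_nonneg zero_le_two _) (ex_pos _ _).le
    · exact le_rfl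

theorem lightP_mem_Real1 {α : ℝ} (h0 : 1 / 2 < α) (h1 : α < 1) (q : ℕ)
    (base : List (Piece (Edge N))) (hb : ∀ p ∈ base, 1 / 2 ≤ p.x ∧ p.x ≤ 1)
    (l : List (Finset (Fin N))) : ∀ p ∈ lightP α q base l, 1 / 2 ≤ p.x ∧ p.x ≤ 1 := by
  induction l with
  | nil => exact hb
  | cons D l ih =>
    intro p hp
    rcases List.mem_cons.1 hp with rfl | hp
    · exact ⟨h0.le, h1.le⟩
    · exact ih p hp

theorem light_real {α ε : ℝ} (h0 : 1 / 2 < α) (h1 : α < 1) (hε : 0 < ε) {q N : ℕ} (hN : 1 ≤ N)
    (R B : Finset (Edge N)) (hd : Disjoint R B) (A H : Finset (Fin N)) (hA : A.card = q)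
    (hH : H.card ≤ q) (base : List (Piece (Edge N)))
    (hb : ∀ p ∈ base, 1 / 2 ≤ p.x ∧ p.x ≤ 1) (hu : used base ⊆ inside A ∪ inside H)
    (l : List (Finset (Fin N))) (hl : l.length ≤ Rmax α ε q)
    (hp : l.Pairwise (fun D D' => (D ∩ D').card ≤ 16))
    (hD : ∀ D ∈ l, Dc α ε q R B D ∧ 2 ≤ (D ∩ A).card ∧ ((D ∩ A).card : ℝ) < x0 α * q ∧
      (D ∩ H).card ≤ 16) :
    pot base R B ≤ Wt (W5 α ε N q A H) l * pot (lightP α q base l) R B := by
  have hW : ∀ (ε : ℝ) (P R B : Finset (Edge N)), 0 ≤ ε → ε ≤ 1 → 0 ≤ wgt ε P R B := by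
    intro ε P R B h1 h2
    unfold wgt
    have : 0 ≤ 1 - ε := by linarith
    positivity
  induction l with
  | nil =>
    simp [Wt, lightP]
  | cons D l ih =>
    rw [List.pairwise_cons] at hp
    have hl' : l.length + 1 ≤ Rmax α ε q := by simpa using hl
    have ih' := ih (by omega) hp.2 (fun x hx => hD x (List.mem_cons_of_mem _ hx))
    obtain ⟨hDc, hDA, hDx, hDH⟩ := hD D List.mem_cons_self
    have hLt : LtC α ε q A (vert (A ∪ H) l) D := by
      refine ⟨hDc.1, hDA, hDx, ?_⟩
      have hv := vert_card_Real1 (A ∪ H) q l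
        (fun x hx => (hD x (List.mem_cons_of_mem _ hx)).1.1.2)
      have hAH := card_union_le A H
      have : (l.length + 2) * q ≤ (Rmax α ε q + 2) * q := Nat.mul_le_mul_right q (by omega)
      have h3 : (A ∪ H).card + l.length * q ≤ (l.length + 2) * q := by
        rw [Nat.add_mul]; omega
      omega
    have hw : W5 α ε N q A H l D =
        2 ^ ovB A (vert (A ∪ H) l) (l.length + 1) D * ex N (e0 α ε) := by
      unfold W5
      rw [if_pos hLt]
    have hov : (inside D ∩ used (lightP α q base l)).card ≤
        ovB A (vert (A ∪ H) l) (l.length + 1) D := by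
      unfold ovB
      refine le_min ?_ ?_
      · rw [← card_inside, inside_inter]
        exact card_le_card (inter_subset_inter_left (used_sub_vert_Real1 α q A H base hu l))
      · exact used_card_Real1 α q A H base hu D hDH l hp.1
    have hα0 : (0 : ℝ) ≤ 2 * α - 1 := by linarith
    have hα1 : 2 * α - 1 ≤ 1 := by linarith
    have e1 : ex N (-(e0 α ε)) ≤ vv α q D R B := ex_le_vv h0 h1 hε hN hDc
    have e2 : vv α q D R B ≤ cst α (inside D).card (tgt α q D.card) *
        wgt (2 * α - 1) (inside D) R B := markov h0.le h1 _ _ R B hd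
    have e3 := wgt_sdiff hα0 hα1 (inside D) (used (lightP α q base l)) R B hd
    have hc : 0 < cst α (inside D).card (tgt α q D.card) := cst_pos _ _ _
    have hs := hW (2 * α - 1) (inside D \ used (lightP α q base l)) R B hα0 hα1
    have e4 : (1 : ℝ) ≤ W5 α ε N q A H l D * (cst α (inside D).card (tgt α q D.card) *
        wgt (2 * α - 1) (inside D \ used (lightP α q base l)) R B) := by
      calc (1 : ℝ) = ex N (e0 α ε) * ex N (-(e0 α ε)) := by
            rw [← ex_add, add_neg_cancel, ex_zero]
        _ ≤ ex N (e0 α ε) * (cst α (inside D).card (tgt α q D.card) *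
              (2 ^ ovB A (vert (A ∪ H) l) (l.length + 1) D *
                wgt (2 * α - 1) (inside D \ used (lightP α q base l)) R B)) := by
            refine mul_le_mul_of_nonneg_left ?_ (ex_pos _ _).le
            refine e1.trans (e2.trans ?_)
            refine mul_le_mul_of_nonneg_left ?_ hc.le
            refine e3.trans (mul_le_mul_of_nonneg_right ?_ hs)
            exact pow_le_pow_right₀ one_le_two hov
        _ = _ := by rw [hw]; ring
    have hpot : 0 ≤ Wt (W5 α ε N q A H) l * pot (lightP α q base l) R B :=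
      mul_nonneg (Wt_W5_nonneg_Real1 α ε q A H l)
        (pot_nonneg _ (lightP_mem_Real1 h0 h1 q base hb l) R B)
    calc pot base R B ≤ Wt (W5 α ε N q A H) l * pot (lightP α q base l) R B := ih'
      _ = 1 * (Wt (W5 α ε N q A H) l * pot (lightP α q base l) R B) := (one_mul _).symm
      _ ≤ W5 α ε N q A H l D * (cst α (inside D).card (tgt α q D.card) *
        wgt (2 * α - 1) (inside D \ used (lightP α q base l)) R B) *
          (Wt (W5 α ε N q A H) l * pot (lightP α q base l) R B) :=
          mul_le_mul_of_nonneg_right e4 hpot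
      _ = _ := by
          have p1 : pot (lightP α q base (D :: l)) R B =
            cst α (inside D).card (tgt α q D.card) *
              wgt (2 * α - 1) (inside D \ used (lightP α q base l)) R B *
                pot (lightP α q base l) R B := rfl
          have p2 : Wt (W5 α ε N q A H) (D :: l) = W5 α ε N q A H l D *
            Wt (W5 α ε N q A H) l := rfl
          rw [p1, p2]
          ring

end Pool.Agent.LibCA69
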