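import Pool.Agent.LibCA69.Real1

/-!
# Task REAL2: lists of light declared sets

By induction on `l`: the piece `whole α q D` on top of `lightP α q base l` counts
`inside D \ used`, with `used ⊆ inside (vert (A ∪ H) l)` and
`used ⊆ inside A ∪ inside H ∪ ⋃ inside D'`; so the overlap is at most `ovB`, and
`cst * wgt ≥ 2 ^ (-ovB) * vv D ≥ 2 ^ (-ovB) * ex N (-e0)` by `wgt_sdiff`, `markov`, `ex_le_vv`.
-/

set_option autoImplicit false

namespace Pool.Agent.LibCA69

open Finset Filter Pool.Agent.H69.Clique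

/-- The weights of the full lists. -/
theorem Wt_W4 (α ε : ℝ) (N q : ℕ) (A H : Finset (Fin N)) (l : List (Finset (Fin N))) :
    Wt (W4 α ε N q A H) l = Wt (W5 α ε N q A H) l *
      (l.map (fun D => (2 : ℝ) ^ (((D ∩ A).card + C1 α).choose 2) *
        ex N (ε / 4 + ((D ∩ A).card - 2) / 8))).prod := by
  induction l with
  | nil =>
    change (1 : ℝ) = 1 * (List.map _ []).prod
    simp
  | cons D l ih =>
    have e1 : Wt (W4 α ε N q A H) (D :: l) = W4 α ε N q A H l D * Wt (W4 α ε N q A H) l := rfl
    have e2 : Wt (W5 α ε N q A H) (D :: l) = W5 α ε N q A H l D * Wt (W5 α ε N q A H) l := rfl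
    rw [e1, e2, ih, List.map_cons, List.prod_cons]
    unfold W4
    ring

end Pool.Agent.LibCA69
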