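import Pool.Agent.LibCA69.Num
import Pool.Agent.LibCA69.Comb

/-!
# Task SUM2A: the starting value of `Phi2a`

For given sizes `d, d'` and `v = |D ∩ D'|` (`card_inter_le` with `U = D`, `choose_ratio`)
the sum is at most `C(N,d) cst * C(d,v) (2q/N)^v C(N,d') cst * 2^(v choose 2) * ex N (2 e0)
≤ ex N (4 + 2 e0 + 1 - v + (v-2)/16 + v/16)`, `v ≥ 17` (`rare_core` twice, `two_pow_le`).
-/

set_option autoImplicit false

namespace Pool.Agent.LibCA69

open Finset Filter Pool.Agent.H69.Clique

/-- A sum over a set with two bounded statistics. -/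
theorem sum_two_Sum2A {X : Type} (s : Finset X) (f : X → ℝ) (g1 g2 : X → ℕ) (n : ℕ)
    (h1 : ∀ x ∈ s, g1 x < n) (h2 : ∀ x ∈ s, g2 x < n) (K : ℝ)
    (h : ∀ a < n, ∀ b < n, ∑ x ∈ s.filter (fun x => (g1 x, g2 x) = (a, b)), f x ≤ K) :
    ∑ x ∈ s, f x ≤ (n : ℝ) ^ 2 * K := by
  rw [← sum_fiberwise_of_maps_to (t := range n ×ˢ range n) (g := fun x => (g1 x, g2 x))
    (fun x hx => by
      rw [mem_product, mem_range, mem_range]
      exact ⟨h1 x hx, h2 x hx⟩)]
  calc ∑ j ∈ range n ×ˢ range n, ∑ i ∈ s with (g1 i, g2 i) = j, f i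
      ≤ (range n ×ˢ range n).card • K := by
        refine sum_le_card_nsmul _ _ _ ?_
        rintro ⟨a, b⟩ hab
        rw [mem_product, mem_range, mem_range] at hab
        exact h a hab.1 b hab.2
    _ = (n : ℝ) ^ 2 * K := by
        rw [card_product, card_range, nsmul_eq_mul]
        push_cast
        ring

theorem sum_one_Sum2A {X : Type} (s : Finset X) (f : X → ℝ) (g1 : X → ℕ) (n : ℕ)
    (h1 : ∀ x ∈ s, g1 x < n) (K : ℝ)
    (h : ∀ a < n, ∑ x ∈ s.filter (fun x => g1 x = a), f x ≤ K) :
    ∑ x ∈ s, f x ≤ (n : ℝ) * K := by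
  rw [← sum_fiberwise_of_maps_to (t := range n) (g := g1)
    (fun x hx => by rw [mem_range]; exact h1 x hx)]
  calc ∑ j ∈ range n, ∑ i ∈ s with g1 i = j, f i
      ≤ (range n).card • K := by
        refine sum_le_card_nsmul _ _ _ ?_
        intro a ha
        exact h a (mem_range.1 ha)
    _ = (n : ℝ) * K := by
        rw [card_range, nsmul_eq_mul]

theorem phi2a_start {α ε : ℝ} (h0 : 1 / 2 < α) (h1 : α < 1) (hε : 0 < ε) :
    ∀ᶠ q : ℕ in atTop, ∀ N : ℕ, Reg α ε q N → Phi2a α ε N q ∅ ∅ ≤ 1 / 16 := by
  classical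
  filter_upwards [rare_core h0 h1 hε, two_pow_le h0 h1, N_large h0 h1,
    poly_le h0 h1 2 (1 / 16) 2 (by norm_num), poly_le h0 h1 256 1 3 one_pos,
    eventually_ge_atTop 1] with q hrc h2p hNl hp1 hp2 hq1 N hReg
  obtain ⟨hR1, hR2, hR3⟩ := hReg
  obtain ⟨hN2q, hN2⟩ := hNl N hR1
  have hN1 : 1 ≤ N := by omega
  have hNpos : (0 : ℝ) < N := by exact_mod_cast hN1
  have hq1' : (1 : ℝ) ≤ q := by exact_mod_cast hq1
  have hp1' := hp1 N hR1
  have hp2' := hp2 N hR1
  have hc0 := c0_pos h0 h1
  have he0 := e0_le (ε := ε) h0 h1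
  -- rare cores
  have hrare : ∀ d : ℕ, d ≤ q →
      (N.choose d : ℝ) * cst α (d.choose 2) (tgt α q d) ≤ ex N 2 := by
    intro d hd
    refine (hrc N ⟨hR1, hR2, hR3⟩ d hd).trans ?_
    rw [← ex_add]
    refine ex_mono hN1 ?_
    have : (d : ℝ) ≤ q := by exact_mod_cast hd
    have h3 : 0 ≤ c0 α / 2 * (q - d) := by
      apply mul_nonneg (by linarith) (by linarith)
    linarith
  have hcst : ∀ (m : ℕ) (a : ℝ), 0 < cst α m a := fun m a => cst_pos _ _ _
  -- the term
  have hpcst : ∀ D D' : Finset (Fin N),
      pot [⟨α, inside D', tgt α q D'.card⟩, ⟨α, inside D, tgt α q D.card⟩] ∅ ∅ =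
        cst α (D'.card.choose 2) (tgt α q D'.card) * cst α (D.card.choose 2) (tgt α q D.card) := by
    intro D D'
    rw [pot_start]
    simp only [pcst, card_inside, mul_one]
  unfold Phi2a
  simp only [hpcst]
  -- inner sums
  have hinner : ∀ D ∈ univ.filter (fun D : Finset (Fin N) => InR α q D),
      ∑ D' ∈ univ.filter (fun D' : Finset (Fin N) => InR α q D' ∧ 16 < (D ∩ D').card ∧
        ((D ∩ D').card : ℝ) < x0 α * q),
        ex N (2 * e0 α ε) * 2 ^ ((D ∩ D').card.choose 2) *
          (cst α (D'.card.choose 2) (tgt α q D'.card) *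
            cst α (D.card.choose 2) (tgt α q D.card)) ≤
        ((q + 1 : ℕ) : ℝ) ^ 2 * (2 * ex N (-12) * cst α (D.card.choose 2) (tgt α q D.card)) := by
    intro D hD
    rw [mem_filter] at hD
    have hDq : D.card ≤ q := hD.2.2
    refine sum_two_Sum2A _ _ (fun D' => D'.card) (fun D' => (D' ∩ D).card) (q + 1) ?_ ?_ _ ?_
    · intro D' hD'
      rw [mem_filter] at hD'
      exact Nat.lt_succ_of_le hD'.2.1.2
    · intro D' hD'
      exact Nat.lt_succ_of_le ((card_le_card inter_subset_right).trans hDq)
    · intro d' hd' v hv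
      set F := (univ.filter (fun D' : Finset (Fin N) => InR α q D' ∧ 16 < (D ∩ D').card ∧
        ((D ∩ D').card : ℝ) < x0 α * q)).filter
          (fun D' => (D'.card, (D' ∩ D).card) = (d', v)) with hF
      have hrhs : 0 ≤ 2 * ex N (-12) * cst α (D.card.choose 2) (tgt α q D.card) :=
        mul_nonneg (mul_nonneg zero_le_two (ex_pos _ _).le) (hcst _ _).le
      rcases F.eq_empty_or_nonempty with hE | ⟨D1, hD1⟩
      · rw [hE, sum_empty]
        exact hrhs
      · have hmem : ∀ D' ∈ F, D'.card = d' ∧ (D' ∩ D).card = v ∧ (D ∩ D').card = v ∧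
            InR α q D' ∧ 16 < v ∧ (v : ℝ) < x0 α * q := by
          intro D' hD'
          rw [hF, mem_filter, mem_filter] at hD'
          obtain ⟨⟨_, hr, h16, hx⟩, he⟩ := hD'
          rw [Prod.mk.injEq] at he
          have h3 : (D ∩ D').card = v := by rw [inter_comm]; exact he.2
          rw [h3] at h16 hx
          exact ⟨he.1, he.2, h3, hr, h16, hx⟩
        obtain ⟨m1, m2, m3, m4, m5, m6⟩ := hmem D1 hD1
        have hvd : v ≤ d' := by
          rw [← m1, ← m2]
          exact card_le_card inter_subset_left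
        have hd'q : d' ≤ q := by rw [← m1]; exact m4.2
        have hsum : ∑ D' ∈ F, ex N (2 * e0 α ε) * 2 ^ ((D ∩ D').card.choose 2) *
            (cst α (D'.card.choose 2) (tgt α q D'.card) *
              cst α (D.card.choose 2) (tgt α q D.card)) =
            F.card * (ex N (2 * e0 α ε) * 2 ^ (v.choose 2) *
            (cst α (d'.choose 2) (tgt α q d') *
              cst α (D.card.choose 2) (tgt α q D.card))) := by
          rw [← nsmul_eq_mul, ← sum_const]
          refine sum_congr rfl (fun D' hD' => ?_)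
          obtain ⟨n1, n2, n3, _⟩ := hmem D' hD'
          rw [n1, n3]
        rw [hsum]
        have hcard : (F.card : ℝ) ≤ (q : ℝ) ^ v * ((N.choose d' : ℝ) * (2 * q / N) ^ v) := by
          have hF2 : F.card ≤ (univ.filter (fun D' : Finset (Fin N) =>
              D'.card = d' ∧ (D' ∩ D).card = v)).card := by
            refine card_le_card ?_
            intro D' hD'
            obtain ⟨n1, n2, _⟩ := hmem D' hD'
            rw [mem_filter]
            exact ⟨mem_univ _, n1, n2⟩
          have hF3 := card_inter_le D d' v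
          have hc1 : (D.card.choose v : ℝ) ≤ (q : ℝ) ^ v := by
            have : D.card.choose v ≤ q ^ v :=
              (Nat.choose_le_pow _ _).trans (Nat.pow_le_pow_left hDq v)
            exact_mod_cast this
          have hc2 : (N.choose (d' - v) : ℝ) ≤ (N.choose d' : ℝ) * (2 * q / N) ^ v := by
            have hd1 : 1 ≤ d' := by omega
            refine (choose_ratio N d' (by omega) hd1 v hvd).trans ?_
            refine mul_le_mul_of_nonneg_left ?_ (Nat.cast_nonneg _)
            refine pow_le_pow_left₀ (by positivity) ?_ v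
            refine div_le_div_of_nonneg_right ?_ hNpos.le
            have : (d' : ℝ) ≤ q := by exact_mod_cast hd'q
            linarith
          calc (F.card : ℝ) ≤ ((univ.filter (fun D' : Finset (Fin N) =>
              D'.card = d' ∧ (D' ∩ D).card = v)).card : ℝ) := by exact_mod_cast hF2
            _ ≤ (D.card.choose v : ℝ) * (N.choose (d' - v) : ℝ) := hF3
            _ ≤ _ := mul_le_mul hc1 hc2 (Nat.cast_nonneg _) (by positivity)
        have h2 := h2p N hR1 v (by omega) m6
        have hr := hrare d' hd'q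
        have hqv : (q : ℝ) ^ v * (2 * q / N) ^ v ≤ ex N (v / 16 - v) := by
          rw [← mul_pow]
          have e1 : (q : ℝ) * (2 * q / N) = (2 * (q : ℝ) ^ 2) * (N : ℝ)⁻¹ := by
            field_simp
          rw [e1, mul_pow]
          have e2 : (N : ℝ)⁻¹ = ex N (-1) := by
            rw [ex_neg]
            have := ex_nat N 1 hN1
            rw [Nat.cast_one, pow_one] at this
            rw [this]
          rw [e2, ex_pow]
          calc (2 * (q : ℝ) ^ 2) ^ v * ex N (v * (-1)) ≤ (ex N (1 / 16)) ^ v * ex N (v * (-1)) := by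
                refine mul_le_mul_of_nonneg_right ?_ (ex_pos _ _).le
                exact pow_le_pow_left₀ (by positivity) hp1' v
            _ = ex N (v / 16 - v) := by
                rw [ex_pow, ← ex_add]
                congr 1
                ring
        have hv17 : (17 : ℝ) ≤ v := by exact_mod_cast m5
        calc (F.card : ℝ) * (ex N (2 * e0 α ε) * 2 ^ (v.choose 2) *
            (cst α (d'.choose 2) (tgt α q d') *
              cst α (D.card.choose 2) (tgt α q D.card)))
            ≤ ((q : ℝ) ^ v * ((N.choose d' : ℝ) * (2 * q / N) ^ v)) *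
              (ex N (2 * e0 α ε) * (2 * ex N ((v - 2) / 16)) *
            (cst α (d'.choose 2) (tgt α q d') *
              cst α (D.card.choose 2) (tgt α q D.card))) := by
              refine mul_le_mul hcard ?_ ?_ (by positivity)
              · refine mul_le_mul_of_nonneg_right ?_ (mul_nonneg (hcst _ _).le (hcst _ _).le)
                exact mul_le_mul_of_nonneg_left h2 (ex_pos _ _).le
              · exact mul_nonneg (mul_nonneg (ex_pos _ _).le (by positivity))
                  (mul_nonneg (hcst _ _).le (hcst _ _).le)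
          _ = ((q : ℝ) ^ v * (2 * q / N) ^ v) * ((N.choose d' : ℝ) *
                cst α (d'.choose 2) (tgt α q d')) * (ex N (2 * e0 α ε) *
                  (2 * ex N ((v - 2) / 16)) *
                cst α (D.card.choose 2) (tgt α q D.card)) := by ring
          _ ≤ (ex N (v / 16 - v) * ex N 2) * (ex N (2 * e0 α ε) *
                  (2 * ex N ((v - 2) / 16)) *
                cst α (D.card.choose 2) (tgt α q D.card)) := by
              refine mul_le_mul_of_nonneg_right ?_ ?_
              · refine mul_le_mul hqv hr ?_ (ex_pos _ _).le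
                exact mul_nonneg (Nat.cast_nonneg _) (hcst _ _).le
              · exact mul_nonneg (mul_nonneg (ex_pos _ _).le
                  (mul_nonneg zero_le_two (ex_pos _ _).le)) (hcst _ _).le
          _ = 2 * ex N ((v / 16 - v) + 2 + 2 * e0 α ε + (v - 2) / 16) *
                cst α (D.card.choose 2) (tgt α q D.card) := by
              rw [ex_add, ex_add, ex_add]
              ring
          _ ≤ 2 * ex N (-12) * cst α (D.card.choose 2) (tgt α q D.card) := by
              refine mul_le_mul_of_nonneg_right ?_ (hcst _ _).le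
              refine mul_le_mul_of_nonneg_left ?_ zero_le_two
              refine ex_mono hN1 ?_
              linarith
  refine (sum_le_sum hinner).trans ?_
  have hout : ∑ D ∈ univ.filter (fun D : Finset (Fin N) => InR α q D),
      ((q + 1 : ℕ) : ℝ) ^ 2 * (2 * ex N (-12) * cst α (D.card.choose 2) (tgt α q D.card)) ≤
      ((q + 1 : ℕ) : ℝ) * (((q + 1 : ℕ) : ℝ) ^ 2 * (2 * ex N (-12) * ex N 2)) := by
    refine sum_one_Sum2A _ _ (fun D => D.card) (q + 1) ?_ _ ?_
    · intro D hD
      rw [mem_filter] at hD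
      exact Nat.lt_succ_of_le hD.2.2
    · intro d hd
      set F := (univ.filter (fun D : Finset (Fin N) => InR α q D)).filter
        (fun D => D.card = d) with hF
      have hsum : ∑ D ∈ F, ((q + 1 : ℕ) : ℝ) ^ 2 *
          (2 * ex N (-12) * cst α (D.card.choose 2) (tgt α q D.card)) =
          F.card * (((q + 1 : ℕ) : ℝ) ^ 2 *
          (2 * ex N (-12) * cst α (d.choose 2) (tgt α q d))) := by
        rw [← nsmul_eq_mul, ← sum_const]
        refine sum_congr rfl (fun D hD => ?_)
        rw [hF, mem_filter] at hD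
        rw [hD.2]
      rw [hsum]
      have hcard : (F.card : ℝ) ≤ (N.choose d : ℝ) := by
        have : F.card ≤ (powersetCard d (univ : Finset (Fin N))).card := by
          refine card_le_card ?_
          intro D hD
          rw [hF, mem_filter] at hD
          rw [mem_powersetCard]
          exact ⟨subset_univ _, hD.2⟩
        rw [card_powersetCard, card_univ, Fintype.card_fin] at this
        exact_mod_cast this
      have hr := hrare d (Nat.lt_succ_iff.1 hd)
      calc (F.card : ℝ) * (((q + 1 : ℕ) : ℝ) ^ 2 *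
          (2 * ex N (-12) * cst α (d.choose 2) (tgt α q d)))
          ≤ (N.choose d : ℝ) * (((q + 1 : ℕ) : ℝ) ^ 2 *
          (2 * ex N (-12) * cst α (d.choose 2) (tgt α q d))) := by
            refine mul_le_mul_of_nonneg_right hcard ?_
            exact mul_nonneg (by positivity) (mul_nonneg (mul_nonneg zero_le_two (ex_pos _ _).le)
              (hcst _ _).le)
        _ = ((q + 1 : ℕ) : ℝ) ^ 2 * (2 * ex N (-12) *
              ((N.choose d : ℝ) * cst α (d.choose 2) (tgt α q d))) := by ring
        _ ≤ ((q + 1 : ℕ) : ℝ) ^ 2 * (2 * ex N (-12) * ex N 2) := by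
            refine mul_le_mul_of_nonneg_left ?_ (by positivity)
            exact mul_le_mul_of_nonneg_left hr (mul_nonneg zero_le_two (ex_pos _ _).le)
  refine hout.trans ?_
  have e3 : (2 : ℝ) * ex N (-12) * ex N 2 = 2 * ex N (-10) := by
    rw [mul_assoc, ← ex_add]
    norm_num
  rw [e3]
  have e4 : ex N (-10) ≤ ex N (-1) := ex_mono hN1 (by norm_num)
  have e5 : ((q + 1 : ℕ) : ℝ) ≤ 2 * q := by push_cast; linarith
  have e6 : 0 < ex N (-1) := ex_pos _ _
  calc ((q + 1 : ℕ) : ℝ) * (((q + 1 : ℕ) : ℝ) ^ 2 * (2 * ex N (-10)))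
      ≤ (2 * q) * ((2 * q) ^ 2 * (2 * ex N (-1))) := by
        have e7 : (0 : ℝ) ≤ ((q + 1 : ℕ) : ℝ) := Nat.cast_nonneg _
        have e8 : 0 ≤ ex N (-10) := (ex_pos _ _).le
        gcongr
    _ = (256 * (q : ℝ) ^ 3) * ex N (-1) / 16 := by ring
    _ ≤ ex N 1 * ex N (-1) / 16 := by
        have := mul_le_mul_of_nonneg_right hp2' e6.le
        linarith
    _ = 1 / 16 := by
        rw [← ex_add, add_neg_cancel, ex_zero]

theorem phi2a_comb {α : ℝ} (ε : ℝ) (h0 : 1 / 2 < α) (h1 : α < 1) (N q : ℕ) :
    Comb (Phi2a α ε N q) := by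
  unfold Phi2a
  refine comb_sum _ _ (fun D _ => ?_)
  refine comb_sum _ _ (fun D' _ => ?_)
  refine comb_smul _ (mul_nonneg (ex_pos _ _).le (by positivity)) ?_
  refine comb_pot _ ?_
  intro p hp
  simp only [List.mem_cons, List.not_mem_nil, or_false] at hp
  rcases hp with rfl | rfl
  · exact ⟨h0.le, h1.le⟩
  · exact ⟨h0.le, h1.le⟩

end Pool.Agent.LibCA69
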