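import Pool.Agent.LibCA69.Num
import Pool.Agent.LibCA69.Comb
import Pool.Agent.LibCA69.Lists

/-!
# Task SUM31: the starting value of `Phi3`

One step: for given `d = |D|` and `v = |D ∩ U|`, `U = vert D₀ l`, `|U| ≤ q + m0 I2`,
`v + I2 ≥ q`, `v < d`: at most `C(|U|, v) N^(d-v)` sets, `C(|U|, v) ≤ |U|^(|U|-v)
≤ (2q)^((m0+1) I2)`, and `rare_part` gives `N^(d-v) cst ≤ ex N (-k0)`; hence the sum over `D` of
`ChW * cst` is at most `ex N (-k0 / 2)`.  Then `sum_Wt_le`, and `m0 ≥ 16 / k0`.
-/

set_option autoImplicit false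

namespace Pool.Agent.LibCA69

open Finset Filter Pool.Agent.H69.Clique

/-- A sum over a set with two bounded statistics. -/
theorem sum_two_Sum31 {X : Type} (s : Finset X) (f : X → ℝ) (g1 g2 : X → ℕ) (n : ℕ)
    (h1 : ∀ x ∈ s, g1 x < n) (h2 : ∀ x ∈ s, g2 x < n) (K : ℝ)
    (h : ∀ a < n, ∀ b < n, ∑ x ∈ s.filter (fun x => (g1 x, g2 x) = (a, b)), f x ≤ K) :
    ∑ x ∈ s, f x ≤ (n : ℝ) ^ 2 * K := by
  rw [← sum_fiberwise_of_maps_to (t := range n ×ˢ range n) (g := fun x => (g1 x, g2 x))
    (fun x hx => by
      rw [mem_product, mem_range, mem_range]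
      exact ⟨h1 x hx, h2 x hx⟩)]
  calc ∑ j ∈ range n ×ˢ range n, ∑ i ∈ s with (g1 i, g2 i) = j, f i
      ≤ (range n ×ˢ range n).card • K := by
        refine sum_le_card_nsmul _ _ _ ?_
        rintro ⟨a, b⟩ hab
        rw [mem_product, mem_range, mem_range] at hab
        exact h a hab.1 b hab.2
    _ = (n : ℝ) ^ 2 * K := by
        rw [card_product, card_range, nsmul_eq_mul]
        push_cast
        ring

theorem chain_step {α ε : ℝ} (h0 : 1 / 2 < α) (h1 : α < 1) (hε : 0 < ε) :
    ∀ᶠ q : ℕ in atTop, ∀ N : ℕ, Reg α ε q N → ∀ (D₀ : Finset (Fin N))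
      (l : List (Finset (Fin N))),
      ∑ D : Finset (Fin N), ChW α ε N q D₀ l D *
        cst (part α q (vert D₀ l) D).x (part α q (vert D₀ l) D).P.card
          (part α q (vert D₀ l) D).a ≤ ex N (-(k0 α / 2)) := by
  classical
  have hk0 := k0_pos h0 h1
  set K : ℕ := (m0 α + 1) * I2 α with hK
  filter_upwards [rare_part h0 h1 hε, poly_le h0 h1 (2 ^ (K + 3)) (7 / 16 * k0 α) (K + 2)
    (by positivity), eventually_ge_atTop 1, eventually_ge_atTop (2 * I2 α),
    eventually_ge_atTop (m0 α * I2 α)] with q hrp hpl hq1 hqI hqm N hReg D₀ l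
  have hR1 := hReg.1
  have hq1' : (1 : ℝ) ≤ q := by exact_mod_cast hq1
  have hN1 : 1 ≤ N := by
    have h2 : (0 : ℝ) < N := lt_of_lt_of_le (Real.exp_pos _) hR1
    exact_mod_cast h2
  have hpl' := hpl N hR1
  have he0 : e0 α ε ≤ k0 α / 16 := by
    unfold e0
    have := min_le_right ε (k0 α)
    linarith
  set U := vert D₀ l with hU
  have hW : ∀ D : Finset (Fin N), ChW α ε N q D₀ l D *
        cst (part α q U D).x (part α q U D).P.card (part α q U D).a =
      if ChC α q D₀ l D then 2 * ex N (e0 α ε) * cst (lev α q (D ∩ U).card)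
        (D.card.choose 2 - (D ∩ U).card.choose 2) (tgt α q D.card - tgt α q (D ∩ U).card)
      else 0 := by
    intro D
    unfold ChW
    have hp : (part α q U D).P.card = D.card.choose 2 - (D ∩ U).card.choose 2 :=
      card_priv D U
    rw [hp]
    split_ifs
    · rfl
    · rw [zero_mul]
  simp only [hW]
  rw [← sum_filter]
  have hmain : ∑ D ∈ univ.filter (fun D : Finset (Fin N) => ChC α q D₀ l D),
      2 * ex N (e0 α ε) * cst (lev α q (D ∩ U).card)
        (D.card.choose 2 - (D ∩ U).card.choose 2) (tgt α q D.card - tgt α q (D ∩ U).card) ≤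
      ((q + 1 : ℕ) : ℝ) ^ 2 * ((2 * (q : ℝ)) ^ K * (2 * ex N (-(15 / 16 * k0 α)))) := by
    refine sum_two_Sum31 _ _ (fun D => D.card) (fun D => (D ∩ U).card) (q + 1) ?_ ?_ _ ?_
    · intro D hD
      rw [mem_filter] at hD
      exact Nat.lt_succ_of_le hD.2.1.2
    · intro D hD
      rw [mem_filter] at hD
      exact Nat.lt_succ_of_le ((card_le_card inter_subset_left).trans hD.2.1.2)
    · intro d hd v hv
      set F := (univ.filter (fun D : Finset (Fin N) => ChC α q D₀ l D)).filter
          (fun D => (D.card, (D ∩ U).card) = (d, v)) with hF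
      have hrhs : 0 ≤ (2 * (q : ℝ)) ^ K * (2 * ex N (-(15 / 16 * k0 α))) :=
        mul_nonneg (by positivity) (mul_nonneg zero_le_two (ex_pos _ _).le)
      rcases F.eq_empty_or_nonempty with hE | ⟨D1, hD1⟩
      · rw [hE, sum_empty]
        exact hrhs
      · have hmem : ∀ D ∈ F, D.card = d ∧ (D ∩ U).card = v ∧ ChC α q D₀ l D := by
          intro D hD
          rw [hF, mem_filter, mem_filter] at hD
          obtain ⟨⟨_, hr⟩, he⟩ := hD
          rw [Prod.mk.injEq] at he
          exact ⟨he.1, he.2, hr⟩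
        obtain ⟨m1, m2, m3⟩ := hmem D1 hD1
        obtain ⟨c1, c2, c3, c4⟩ := m3
        rw [← hU] at c2 c3 c4
        have hvd : v < d := by
          rw [← m1, ← m2]
          refine card_lt_card ⟨inter_subset_left, fun h => c3 ?_⟩
          exact (h.trans inter_subset_right)
        have hdq : d ≤ q := by rw [← m1]; exact c1.2
        have hdI : q ≤ d + I1 α := by rw [← m1]; exact c1.1
        rw [m2] at c2
        have hx0 : x0 α * q ≤ v := by
          have h2 := x0_le h0 h1
          have h3 : (q : ℝ) ≤ v + I2 α := by exact_mod_cast c2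
          have h4 : 2 * (I2 α : ℝ) ≤ q := by exact_mod_cast hqI
          have h5 : x0 α * q ≤ 1 / 16 * q := mul_le_mul_of_nonneg_right h2 (by linarith)
          linarith
        have hrp' := hrp N hReg v d hx0 hvd hdq hdI
        have hsum : ∑ D ∈ F, 2 * ex N (e0 α ε) * cst (lev α q (D ∩ U).card)
            (D.card.choose 2 - (D ∩ U).card.choose 2)
            (tgt α q D.card - tgt α q (D ∩ U).card) =
            F.card * (2 * ex N (e0 α ε) * cst (lev α q v)
            (d.choose 2 - v.choose 2) (tgt α q d - tgt α q v)) := by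
          rw [← nsmul_eq_mul, ← sum_const]
          refine sum_congr rfl (fun D hD => ?_)
          obtain ⟨n1, n2, _⟩ := hmem D hD
          rw [n1, n2]
        rw [hsum]
        have hcard : (F.card : ℝ) ≤ (2 * (q : ℝ)) ^ K * (N : ℝ) ^ (d - v) := by
          have hF2 : F.card ≤ (univ.filter (fun D : Finset (Fin N) =>
              D.card = d ∧ (D ∩ U).card = v)).card := by
            refine card_le_card ?_
            intro D hD
            obtain ⟨n1, n2, _⟩ := hmem D hD
            rw [mem_filter]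
            exact ⟨mem_univ _, n1, n2⟩
          have hF3 := card_inter_le U d v
          have hvU : v ≤ U.card := by rw [← m2]; exact card_le_card inter_subset_right
          have hU2 : U.card ≤ 2 * q := by omega
          have hUv : U.card - v ≤ K := by
            have : K = m0 α * I2 α + I2 α := by rw [hK, Nat.add_mul, one_mul]
            omega
          have hc1 : (U.card.choose v : ℝ) ≤ (2 * (q : ℝ)) ^ K := by
            have h5 : U.card.choose v ≤ (2 * q) ^ K := by
              rw [← Nat.choose_symm hvU]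
              refine (Nat.choose_le_pow _ _).trans ?_
              refine (Nat.pow_le_pow_left hU2 _).trans ?_
              exact Nat.pow_le_pow_right (by omega) hUv
            exact_mod_cast h5
          have hc2 : (N.choose (d - v) : ℝ) ≤ (N : ℝ) ^ (d - v) := by
            exact_mod_cast Nat.choose_le_pow N (d - v)
          calc (F.card : ℝ) ≤ ((univ.filter (fun D : Finset (Fin N) =>
              D.card = d ∧ (D ∩ U).card = v)).card : ℝ) := by exact_mod_cast hF2
            _ ≤ (U.card.choose v : ℝ) * (N.choose (d - v) : ℝ) := hF3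
            _ ≤ _ := mul_le_mul hc1 hc2 (Nat.cast_nonneg _) (by positivity)
        have hcst : 0 < cst (lev α q v) (d.choose 2 - v.choose 2) (tgt α q d - tgt α q v) :=
          cst_pos _ _ _
        have hdv : (1 : ℝ) ≤ (d : ℝ) - v := by
          have : (v : ℝ) + 1 ≤ d := by exact_mod_cast hvd
          linarith
        calc (F.card : ℝ) * (2 * ex N (e0 α ε) * cst (lev α q v)
            (d.choose 2 - v.choose 2) (tgt α q d - tgt α q v))
            ≤ ((2 * (q : ℝ)) ^ K * (N : ℝ) ^ (d - v)) * (2 * ex N (e0 α ε) *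
              cst (lev α q v) (d.choose 2 - v.choose 2) (tgt α q d - tgt α q v)) := by
              refine mul_le_mul_of_nonneg_right hcard ?_
              exact mul_nonneg (mul_nonneg zero_le_two (ex_pos _ _).le) hcst.le
          _ = (2 * (q : ℝ)) ^ K * (2 * ex N (e0 α ε)) * ((N : ℝ) ^ (d - v) *
              cst (lev α q v) (d.choose 2 - v.choose 2) (tgt α q d - tgt α q v)) := by ring
          _ ≤ (2 * (q : ℝ)) ^ K * (2 * ex N (e0 α ε)) * ex N (-(k0 α * (d - v))) := by
              refine mul_le_mul_of_nonneg_left hrp' ?_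
              exact mul_nonneg (by positivity) (mul_nonneg zero_le_two (ex_pos _ _).le)
          _ = (2 * (q : ℝ)) ^ K * (2 * ex N (e0 α ε + -(k0 α * (d - v)))) := by
              rw [ex_add]; ring
          _ ≤ _ := by
              refine mul_le_mul_of_nonneg_left ?_ (by positivity)
              refine mul_le_mul_of_nonneg_left ?_ zero_le_two
              refine ex_mono hN1 ?_
              have : k0 α * 1 ≤ k0 α * ((d : ℝ) - v) := mul_le_mul_of_nonneg_left hdv hk0.le
              linarith
  refine hmain.trans ?_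
  have e5 : ((q + 1 : ℕ) : ℝ) ≤ 2 * q := by push_cast; linarith
  calc ((q + 1 : ℕ) : ℝ) ^ 2 * ((2 * (q : ℝ)) ^ K * (2 * ex N (-(15 / 16 * k0 α))))
      ≤ (2 * q) ^ 2 * ((2 * (q : ℝ)) ^ K * (2 * ex N (-(15 / 16 * k0 α)))) := by
        refine mul_le_mul_of_nonneg_right (pow_le_pow_left₀ (Nat.cast_nonneg _) e5 2) ?_
        exact mul_nonneg (by positivity) (mul_nonneg zero_le_two (ex_pos _ _).le)
    _ = (2 ^ (K + 3) * (q : ℝ) ^ (K + 2)) * ex N (-(15 / 16 * k0 α)) := by
        rw [mul_pow, mul_pow, pow_add, pow_add]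
        ring
    _ ≤ ex N (7 / 16 * k0 α) * ex N (-(15 / 16 * k0 α)) :=
        mul_le_mul_of_nonneg_right hpl' (ex_pos _ _).le
    _ = ex N (-(k0 α / 2)) := by
        rw [← ex_add]
        congr 1
        ring

end Pool.Agent.LibCA69
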