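import Pool.Agent.LibCA69.Sum31

/-!
# Task SUM32: the starting value of `Phi3`

One step: for given `d = |D|` and `v = |D ∩ U|`, `U = vert D₀ l`, `|U| ≤ q + m0 I2`,
`v + I2 ≥ q`, `v < d`: at most `C(|U|, v) N^(d-v)` sets, `C(|U|, v) ≤ |U|^(|U|-v)
≤ (2q)^((m0+1) I2)`, and `rare_part` gives `N^(d-v) cst ≤ ex N (-k0)`; hence the sum over `D` of
`ChW * cst` is at most `ex N (-k0 / 2)`.  Then `sum_Wt_le`, and `m0 ≥ 16 / k0`.
-/

set_option autoImplicit false

namespace Pool.Agent.LibCA69

open Finset Filter Pool.Agent.H69.Clique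

/-- One step of the chain with its starting value. -/
noncomputable def stepS32 (α ε : ℝ) (N q : ℕ) (D₀ : Finset (Fin N)) (l : List (Finset (Fin N)))
    (D : Finset (Fin N)) : ℝ :=
  ChW α ε N q D₀ l D *
    cst (part α q (vert D₀ l) D).x (part α q (vert D₀ l) D).P.card (part α q (vert D₀ l) D).a

theorem ChW_nonneg_S32 (α ε : ℝ) (N q : ℕ) (D₀ : Finset (Fin N)) (l : List (Finset (Fin N)))
    (D : Finset (Fin N)) : 0 ≤ ChW α ε N q D₀ l D := by
  unfold ChW
  split_ifs
  · exact mul_nonneg (by norm_num) (ex_pos N _).le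
  · exact le_rfl

theorem Wt_pcst_S32 (α ε : ℝ) (N q : ℕ) (D₀ : Finset (Fin N)) (l : List (Finset (Fin N))) :
    Wt (ChW α ε N q D₀) l * pcst (chainP α q D₀ l) =
      Wt (stepS32 α ε N q D₀) l * cst α (D₀.card.choose 2) (tgt α q D₀.card) := by
  induction l with
  | nil =>
    simp only [Wt, chainP, pcst, whole, one_mul, mul_one]
    rw [card_inside]
  | cons D l ih =>
    simp only [Wt, chainP, pcst]
    have e : ChW α ε N q D₀ l D * Wt (ChW α ε N q D₀) l *
        (cst (part α q (vert D₀ l) D).x (part α q (vert D₀ l) D).P.card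
          (part α q (vert D₀ l) D).a * pcst (chainP α q D₀ l)) =
        stepS32 α ε N q D₀ l D * (Wt (ChW α ε N q D₀) l * pcst (chainP α q D₀ l)) := by
      unfold stepS32
      ring
    rw [e, ih]
    ring

open Classical in
/-- The sum over the base set. -/
theorem sum_base_S32 {α ε : ℝ} (h0 : 1 / 2 < α) (h1 : α < 1) (hε : 0 < ε) :
    ∀ᶠ q : ℕ in atTop, ∀ N : ℕ, Reg α ε q N →
      ∑ D ∈ univ.filter (fun D : Finset (Fin N) => InR α q D),
        cst α (D.card.choose 2) (tgt α q D.card) ≤ (I1 α + 1 : ℕ) * ex N 2 := by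
  filter_upwards [rare_core h0 h1 hε, N_large h0 h1] with q hq hN N hreg
  have hN2 : 1 ≤ N := by
    have := (hN N hreg.1).2
    omega
  rw [← Finset.sum_fiberwise_of_maps_to (s := univ.filter (fun D : Finset (Fin N) => InR α q D))
    (t := Finset.Icc (q - I1 α) q) (g := Finset.card)
    (f := fun D : Finset (Fin N) => cst α (D.card.choose 2) (tgt α q D.card))]
  · have hterm : ∀ j ∈ Finset.Icc (q - I1 α) q,
        ∑ D ∈ (univ.filter (fun D : Finset (Fin N) => InR α q D)).filter
          (fun D : Finset (Fin N) => D.card = j),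
          cst α (D.card.choose 2) (tgt α q D.card) ≤ ex N 2 := by
      intro j hj
      rw [Finset.mem_Icc] at hj
      have e1 : ∑ D ∈ (univ.filter (fun D : Finset (Fin N) => InR α q D)).filter
          (fun D : Finset (Fin N) => D.card = j),
          cst α (D.card.choose 2) (tgt α q D.card) =
          ∑ D ∈ (univ.filter (fun D : Finset (Fin N) => InR α q D)).filter
          (fun D : Finset (Fin N) => D.card = j),
          cst α (j.choose 2) (tgt α q j) := by
        apply Finset.sum_congr rfl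
        intro D hD
        rw [(Finset.mem_filter.1 hD).2]
      rw [e1, Finset.sum_const, nsmul_eq_mul]
      have hcard : (((univ.filter (fun D : Finset (Fin N) => InR α q D)).filter
          (fun D : Finset (Fin N) => D.card = j)).card : ℝ) ≤ (N.choose j : ℝ) := by
        have h2 : (((univ.filter (fun D : Finset (Fin N) => InR α q D)).filter
          (fun D : Finset (Fin N) => D.card = j)).card) ≤
            (powersetCard j (univ : Finset (Fin N))).card := by
          apply Finset.card_le_card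
          intro D hD
          rw [mem_powersetCard]
          exact ⟨subset_univ _, (Finset.mem_filter.1 hD).2⟩
        rw [card_powersetCard, card_univ, Fintype.card_fin] at h2
        exact_mod_cast h2
      have h3 := hq N hreg j hj.2
      refine (mul_le_mul_of_nonneg_right hcard (cst_pos _ _ _).le).trans (h3.trans ?_)
      rw [← ex_add]
      apply ex_mono hN2
      have hc := c0_pos h0 h1
      have hj2 : (0 : ℝ) ≤ q - j := by
        have : (j : ℝ) ≤ q := by exact_mod_cast hj.2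
        linarith
      have : 0 ≤ c0 α / 2 * (q - j) := by positivity
      linarith
    refine (Finset.sum_le_sum hterm).trans ?_
    rw [Finset.sum_const, nsmul_eq_mul, Nat.card_Icc]
    apply mul_le_mul_of_nonneg_right _ (ex_pos N 2).le
    have : q + 1 - (q - I1 α) ≤ I1 α + 1 := by omega
    exact_mod_cast this
  · intro D hD
    have hD' := (Finset.mem_filter.1 hD).2
    unfold InR at hD'
    rw [Finset.mem_Icc]
    omega

theorem m0_ge_S32 {α : ℝ} (h0 : 1 / 2 < α) (h1 : α < 1) : 8 ≤ (m0 α : ℝ) * (k0 α / 2) := by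
  have hk := k0_pos h0 h1
  have h2 : 16 / k0 α ≤ (m0 α : ℝ) := Nat.le_ceil _
  rw [div_le_iff₀ hk] at h2
  linarith

theorem phi3_start {α ε : ℝ} (h0 : 1 / 2 < α) (h1 : α < 1) (hε : 0 < ε) :
    ∀ᶠ q : ℕ in atTop, ∀ N : ℕ, Reg α ε q N → Phi3 α ε N q ∅ ∅ ≤ 1 / 16 := by
  classical
  filter_upwards [chain_step h0 h1 hε, sum_base_S32 h0 h1 hε, N_large h0 h1,
    poly_le h0 h1 (16 * ((I1 α + 1 : ℕ) : ℝ)) 1 0 one_pos] with q hstep hbase hN hpoly N hreg
  have hN2 : 1 ≤ N := by
    have := (hN N hreg.1).2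
    omega
  have hlist : ∀ D₀ : Finset (Fin N), ∑ l ∈ LL (Finset (Fin N)) (m0 α),
      Wt (stepS32 α ε N q D₀) l ≤ ex N (-8) := by
    intro D₀
    have h2 := sum_Wt_le (stepS32 α ε N q D₀)
      (fun l D => mul_nonneg (ChW_nonneg_S32 α ε N q D₀ l D) (cst_pos _ _ _).le)
      (ex N (-(k0 α / 2))) (ex_pos N _).le (m0 α) (fun l _ => hstep N hreg D₀ l)
    refine h2.trans ?_
    rw [ex_pow]
    apply ex_mono hN2
    have := m0_ge_S32 h0 h1
    linarith
  have hsum : Phi3 α ε N q ∅ ∅ ≤ ex N (e0 α ε) * ex N (-8) * ((I1 α + 1 : ℕ) * ex N 2) := by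
    have e : Phi3 α ε N q ∅ ∅ = ex N (e0 α ε) *
        ∑ D₀ ∈ univ.filter (fun D : Finset (Fin N) => InR α q D),
          cst α (D₀.card.choose 2) (tgt α q D₀.card) *
            ∑ l ∈ LL (Finset (Fin N)) (m0 α), Wt (stepS32 α ε N q D₀) l := by
      unfold Phi3
      rw [Finset.mul_sum]
      apply Finset.sum_congr rfl
      intro D₀ _
      rw [Finset.mul_sum, Finset.mul_sum]
      apply Finset.sum_congr rfl
      intro l _
      rw [pot_start, mul_assoc, Wt_pcst_S32]
      ring
    rw [e, mul_assoc]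
    apply mul_le_mul_of_nonneg_left _ (ex_pos N _).le
    calc ∑ D₀ ∈ univ.filter (fun D : Finset (Fin N) => InR α q D),
          cst α (D₀.card.choose 2) (tgt α q D₀.card) *
            ∑ l ∈ LL (Finset (Fin N)) (m0 α), Wt (stepS32 α ε N q D₀) l
        ≤ ∑ D₀ ∈ univ.filter (fun D : Finset (Fin N) => InR α q D),
          cst α (D₀.card.choose 2) (tgt α q D₀.card) * ex N (-8) :=
          Finset.sum_le_sum fun D₀ _ =>
            mul_le_mul_of_nonneg_left (hlist D₀) (cst_pos _ _ _).le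
      _ = ex N (-8) * ∑ D₀ ∈ univ.filter (fun D : Finset (Fin N) => InR α q D),
          cst α (D₀.card.choose 2) (tgt α q D₀.card) := by
          rw [← Finset.sum_mul, mul_comm]
      _ ≤ ex N (-8) * ((I1 α + 1 : ℕ) * ex N 2) :=
          mul_le_mul_of_nonneg_left (hbase N hreg) (ex_pos N _).le
  refine hsum.trans ?_
  have he0 := e0_le (ε := ε) h0 h1
  have h2 : ex N (e0 α ε) * ex N (-8) * ((I1 α + 1 : ℕ) * ex N 2) =
      (I1 α + 1 : ℕ) * ex N (e0 α ε + -8 + 2) := by
    rw [ex_add, ex_add]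
    ring
  rw [h2]
  have h3 : ex N (e0 α ε + -8 + 2) ≤ ex N (-1) := ex_mono hN2 (by linarith)
  have h4 := hpoly N hreg.1
  rw [pow_zero, mul_one] at h4
  have h5 : ex N (-1) = (ex N 1)⁻¹ := ex_neg N 1
  have h6 : ((I1 α + 1 : ℕ) : ℝ) * ex N (-1) ≤ 1 / 16 := by
    rw [h5, ← div_eq_mul_inv, div_le_iff₀ (ex_pos N 1)]
    linarith
  exact (mul_le_mul_of_nonneg_left h3 (Nat.cast_nonneg _)).trans h6

theorem chainP_mem_S32 {α : ℝ} (ε : ℝ) (h0 : 1 / 2 < α) (h1 : α < 1) (N q : ℕ) (hq : 1 ≤ q)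
    (D₀ : Finset (Fin N)) (l : List (Finset (Fin N))) (hl : Wt (ChW α ε N q D₀) l ≠ 0) :
    ∀ p ∈ chainP α q D₀ l, 1 / 2 ≤ p.x ∧ p.x ≤ 1 := by
  induction l with
  | nil =>
    intro p hp
    simp only [chainP, List.mem_singleton] at hp
    subst hp
    exact ⟨h0.le, h1.le⟩
  | cons D l ih =>
    simp only [Wt] at hl
    have hl1 := left_ne_zero_of_mul hl
    have hl2 := right_ne_zero_of_mul hl
    intro p hp
    simp only [chainP, List.mem_cons] at hp
    rcases hp with rfl | hp
    · have hC : ChC α q D₀ l D := by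
        by_contra hcon
        apply hl1
        unfold ChW
        rw [if_neg hcon]
      have hcard : (D ∩ vert D₀ l).card ≤ q :=
        (Finset.card_le_card inter_subset_left).trans hC.1.2
      exact ⟨lev_ge h0 h1 q _ hcard hq, (lev_le h0 h1 q _).trans h1.le⟩
    · exact ih hl2 p hp

/-- Terms with a set `D` of more than `q` elements have weight `0`. -/
theorem phi3_comb {α : ℝ} (ε : ℝ) (h0 : 1 / 2 < α) (h1 : α < 1) (N q : ℕ) (hq : 1 ≤ q) :
    Comb (Phi3 α ε N q) := by
  refine comb_sum _ (fun D₀ R B => ∑ l ∈ LL (Finset (Fin N)) (m0 α),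
    ex N (e0 α ε) * Wt (ChW α ε N q D₀) l * pot (chainP α q D₀ l) R B) (fun D₀ _ => ?_)
  refine comb_sum _ (fun l R B =>
    ex N (e0 α ε) * Wt (ChW α ε N q D₀) l * pot (chainP α q D₀ l) R B) (fun l _ => ?_)
  by_cases hl : Wt (ChW α ε N q D₀) l = 0
  · rw [hl]
    simp only [mul_zero, zero_mul]
    exact comb_zero
  · exact comb_smul _ (mul_nonneg (ex_pos N _).le
      (Wt_nonneg _ (ChW_nonneg_S32 α ε N q D₀) l))
      (comb_pot _ (chainP_mem_S32 ε h0 h1 N q hq D₀ l hl))

end Pool.Agent.LibCA69
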