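import Pool.Agent.LibCA69.Sum4P

/-!
# Task SUM4A: `Phi4a`

`ex N (-2) * Bn * (4/3) * ex N (2 - ε)`, `Bn` is polynomial in `q` (`cS_le`, `poly_le`).
-/

set_option autoImplicit false

namespace Pool.Agent.LibCA69

open Finset Filter Pool.Agent.H69.Clique

theorem Bn_nonneg_S4A (α : ℝ) (q : ℕ) (hq : 1 ≤ q) : 0 ≤ Bn α q := by
  unfold Bn
  exact pow_nonneg (zero_le_one.trans (one_le_bS α q _ hq)) _

theorem Bn_le_S4A (α : ℝ) (q : ℕ) (hq : 1 ≤ q) :
    Bn α q ≤ 40 ^ CK α * (q : ℝ) ^ ((4 + 2 * (I3 α + I2 α)) * CK α) := by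
  have h0 : 0 ≤ bS α q (I3 α + I2 α) := zero_le_one.trans (one_le_bS α q _ hq)
  have h1 : bS α q (I3 α + I2 α) ≤ 40 * (q : ℝ) ^ (4 + 2 * (I3 α + I2 α)) := by
    unfold bS
    rw [pow_add, ← mul_assoc]
    exact mul_le_mul_of_nonneg_right (cS_le α q hq) (by positivity)
  unfold Bn
  calc bS α q (I3 α + I2 α) ^ CK α ≤ (40 * (q : ℝ) ^ (4 + 2 * (I3 α + I2 α))) ^ CK α :=
        pow_le_pow_left₀ h0 h1 _
    _ = 40 ^ CK α * (q : ℝ) ^ ((4 + 2 * (I3 α + I2 α)) * CK α) := by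
        rw [mul_pow, ← pow_mul]

theorem phi4a_start {α ε : ℝ} (h0 : 1 / 2 < α) (h1 : α < 1) (hε : 0 < ε) (hε1 : ε ≤ 1) :
    ∀ᶠ q : ℕ in atTop, ∀ N : ℕ, Reg α ε q N → Phi4a α ε N q ∅ ∅ ≤ 1 / 16 := by
  filter_upwards [sum_lists4 h0 h1 hε hε1, eventually_ge_atTop 1,
    poly_le h0 h1 (64 / 3 * 40 ^ CK α) ε ((4 + 2 * (I3 α + I2 α)) * CK α) hε]
    with q hlists hq1 hpoly N hreg
  have hB := Bn_nonneg_S4A α q hq1
  have hc : 0 ≤ ex N (-2) * Bn α q := mul_nonneg (ex_pos N _).le hB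
  have hsum : Phi4a α ε N q ∅ ∅ ≤ ex N (-2) * Bn α q * (4 / 3 * ex N (2 - ε)) := by
    have e : Phi4a α ε N q ∅ ∅ = ex N (-2) * Bn α q *
        ∑ A ∈ powersetCard q (univ : Finset (Fin N)), ∑ r ∈ range (Rmax α ε q + 1),
          ∑ l ∈ LL (Finset (Fin N)) r, Wt (W4 α ε N q A ∅) l *
            pcst (lightP α q [whole α q A] l) := by
      unfold Phi4a
      rw [Finset.mul_sum]
      apply Finset.sum_congr rfl
      intro A _
      rw [Finset.mul_sum]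
      apply Finset.sum_congr rfl
      intro r _
      rw [Finset.mul_sum]
      apply Finset.sum_congr rfl
      intro l _
      rw [pot_start]
      ring
    rw [e]
    apply mul_le_mul_of_nonneg_left _ hc
    calc ∑ A ∈ powersetCard q (univ : Finset (Fin N)), ∑ r ∈ range (Rmax α ε q + 1),
          ∑ l ∈ LL (Finset (Fin N)) r, Wt (W4 α ε N q A ∅) l *
            pcst (lightP α q [whole α q A] l)
        ≤ ∑ A ∈ powersetCard q (univ : Finset (Fin N)), 4 / 3 * pcst [whole α q A] :=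
          Finset.sum_le_sum fun A _ => hlists N hreg A ∅ [whole α q A]
      _ = 4 / 3 * ∑ A ∈ powersetCard q (univ : Finset (Fin N)), pcst [whole α q A] := by
          rw [Finset.mul_sum]
      _ ≤ 4 / 3 * ex N (2 - ε) :=
          mul_le_mul_of_nonneg_left (sum_whole h0 h1 hε q N hreg) (by norm_num)
  refine hsum.trans ?_
  have e : ex N (-2) * Bn α q * (4 / 3 * ex N (2 - ε)) = 4 / 3 * Bn α q * (ex N ε)⁻¹ := by
    have e1 : ex N (-2) * ex N (2 - ε) = (ex N ε)⁻¹ := by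
      rw [← ex_add, ← ex_neg]
      congr 1
      ring
    rw [← e1]
    ring
  rw [e, ← div_eq_mul_inv, div_le_iff₀ (ex_pos N ε)]
  have h2 := Bn_le_S4A α q hq1
  have h3 := hpoly N hreg.1
  linarith

theorem phi4a_comb {α : ℝ} (ε : ℝ) (h0 : 1 / 2 < α) (h1 : α < 1) (N q : ℕ) (hq : 1 ≤ q) :
    Comb (Phi4a α ε N q) := by
  refine comb_sum _ (fun A R B => ∑ r ∈ range (Rmax α ε q + 1),
    ∑ l ∈ LL (Finset (Fin N)) r, ex N (-2) * Bn α q * Wt (W4 α ε N q A ∅) l *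
      pot (lightP α q [whole α q A] l) R B) (fun A _ => ?_)
  refine comb_sum _ (fun r R B => ∑ l ∈ LL (Finset (Fin N)) r,
    ex N (-2) * Bn α q * Wt (W4 α ε N q A ∅) l *
      pot (lightP α q [whole α q A] l) R B) (fun r _ => ?_)
  refine comb_sum _ (fun l R B => ex N (-2) * Bn α q * Wt (W4 α ε N q A ∅) l *
      pot (lightP α q [whole α q A] l) R B) (fun l _ => ?_)
  refine comb_smul _ ?_ (comb_pot _ (lightP_mem h0 h1 q _ ?_ l))
  · exact mul_nonneg (mul_nonneg (ex_pos N _).le (Bn_nonneg_S4A α q hq))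
      (Wt_nonneg _ (W4_nonneg α ε q A ∅) l)
  · intro p hp
    rw [List.mem_singleton] at hp
    subst hp
    exact ⟨h0.le, h1.le⟩

end Pool.Agent.LibCA69
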