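import Pool.Agent.LibCA69.Sum4P

/-!
# Task SUM4B1: `Phi4b`

For fixed `A`: `sum_lists4`; sum over `H` with `d = |H|`, `v = |H ∩ A|`,
`y = d - v ≥ I3 - I1 + 1 > 32/k0`: `C(q, v) N^(d-v) cst ≤ q^(q-v) ex N (-k0 y)` (`card_inter_le`,
`rare_part`; `q - v ≤ y + I1`), `|H \ A| = y`, `Bh(y) Bn ≤ C q^(a + b y)`; in total at most
`ex N 2 * ex N (-k0 y / 2) * ...`.
-/

set_option autoImplicit false

namespace Pool.Agent.LibCA69

open Finset Filter Pool.Agent.H69.Clique

private lemma bS_le_s4b1 (α : ℝ) (q y : ℕ) (hq : 1 ≤ q) :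
    bS α q y ≤ 40 * (q : ℝ) ^ (4 + 2 * y) := by
  unfold bS
  rw [pow_add, ← mul_assoc]
  exact mul_le_mul_of_nonneg_right (cS_le α q hq) (by positivity)

private lemma bS_nonneg_s4b1 (α : ℝ) (q y : ℕ) (hq : 1 ≤ q) : 0 ≤ bS α q y :=
  le_trans zero_le_one (one_le_bS α q y hq)

private lemma Bh_le_s4b1 (α : ℝ) (q y : ℕ) (hq : 1 ≤ q) :
    Bh α q y ≤ 40 ^ (CK α * r1 α) * (q : ℝ) ^ ((4 + 2 * I2 α) * (CK α * r1 α)) *
      ((q : ℝ) ^ (2 * (CK α * r1 α))) ^ y := by
  unfold Bh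
  refine (pow_le_pow_left₀ (bS_nonneg_s4b1 _ _ _ hq) (bS_le_s4b1 α q (y + I2 α) hq) _).trans
    (le_of_eq ?_)
  rw [mul_pow, ← pow_mul, ← pow_mul, mul_assoc, ← pow_add]
  congr 2
  ring

private lemma Bn_le_s4b1 (α : ℝ) (q : ℕ) (hq : 1 ≤ q) :
    Bn α q ≤ 40 ^ CK α * (q : ℝ) ^ ((4 + 2 * (I3 α + I2 α)) * CK α) := by
  unfold Bn
  refine (pow_le_pow_left₀ (bS_nonneg_s4b1 _ _ _ hq) (bS_le_s4b1 α q (I3 α + I2 α) hq) _).trans
    (le_of_eq ?_)
  rw [mul_pow, ← pow_mul]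

private lemma fiber_s4b1 {N : ℕ} {α ε : ℝ} (h0 : 1 / 2 < α) (h1 : α < 1) (q : ℕ)
    (hq : 1 ≤ q) (hN : 1 ≤ N)
    (A : Finset (Fin N)) (hA : A.card = q) (v d : ℕ) (hv : x0 α * q ≤ v) (hvI : v + I3 α < q)
    (hd : q ≤ d + I1 α) (hdq : d ≤ q)
    (hrare : (N : ℝ) ^ (d - v) * cst (lev α q v) (d.choose 2 - v.choose 2)
      (tgt α q d - tgt α q v) ≤ ex N (-(k0 α * (d - v))))
    (hp1 : 1 * (q : ℝ) ^ (2 * (CK α * r1 α) + 1) ≤ ex N (k0 α / 4)) :
    ∑ H ∈ (open Classical in univ.filter (fun H : Finset (Fin N) => H.card = d ∧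
      (H ∩ A).card = v)),
        2 * ex N (e0 α ε) * Bh α q (H \ A).card * Bn α q *
          cst (part α q A H).x (part α q A H).P.card (part α q A H).a ≤
      (2 * 40 ^ (CK α * r1 α) * 40 ^ CK α) * (q : ℝ) ^ ((4 + 2 * I2 α) * (CK α * r1 α) +
        (4 + 2 * (I3 α + I2 α)) * CK α + I1 α) * ex N (-8) := by
  classical
  have hk := k0_pos h0 h1
  have hI3 : I1 α ≤ I3 α := by
    unfold I3
    omega
  have hvd : v < d := by omega
  have hy : I3 α - I1 α < d - v := by omega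
  have hyR : (32 : ℝ) / k0 α ≤ (d - v : ℕ) := by
    have a1 : (32 : ℝ) / k0 α ≤ (⌈32 / k0 α⌉₊ : ℕ) := Nat.le_ceil _
    have a2 : ⌈32 / k0 α⌉₊ ≤ d - v := by
      have : I3 α = I1 α + ⌈32 / k0 α⌉₊ := rfl
      omega
    exact a1.trans (by exact_mod_cast a2)
  have hky : 32 ≤ k0 α * (d - v : ℕ) := by
    rw [div_le_iff₀ hk] at hyR
    linarith
  obtain ⟨y, hydef⟩ : ∃ y, y = d - v := ⟨_, rfl⟩
  obtain ⟨M, hM⟩ : ∃ M, M = CK α * r1 α := ⟨_, rfl⟩
  have hQ1 : (1 : ℝ) ≤ q := by exact_mod_cast hq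
  -- every term is the same
  have hterm : ∀ H ∈ univ.filter (fun H : Finset (Fin N) => H.card = d ∧
      (H ∩ A).card = v), 2 * ex N (e0 α ε) * Bh α q (H \ A).card * Bn α q *
          cst (part α q A H).x (part α q A H).P.card (part α q A H).a =
        2 * ex N (e0 α ε) * Bh α q y * Bn α q *
          cst (lev α q v) (d.choose 2 - v.choose 2) (tgt α q d - tgt α q v) := by
    intro H hH
    obtain ⟨hHd, hHv⟩ := (mem_filter.1 hH).2
    have e1 : (H \ A).card = y := by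
      have := card_sdiff_add_card_inter H A
      omega
    have e2 : (part α q A H).x = lev α q v := by
      unfold part
      rw [hHv]
    have e3 : (part α q A H).P.card = d.choose 2 - v.choose 2 := by
      unfold part
      rw [card_priv, hHv, hHd]
    have e4 : (part α q A H).a = tgt α q d - tgt α q v := by
      unfold part
      rw [hHv, hHd]
    rw [e1, e2, e3, e4]
  have hcard := card_inter_le A d v
  rw [hA] at hcard
  have hch1 : (q.choose v : ℝ) ≤ (q : ℝ) ^ (I1 α + y) := by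
    have a1 : q.choose v = q.choose (q - v) := (Nat.choose_symm (by omega)).symm
    rw [a1]
    have a2 : (q.choose (q - v) : ℝ) ≤ (q : ℝ) ^ (q - v) := by
      exact_mod_cast Nat.choose_le_pow q (q - v)
    exact a2.trans (pow_le_pow_right₀ hQ1 (by omega))
  have hch2 : (N.choose (d - v) : ℝ) ≤ (N : ℝ) ^ y := by
    rw [← hydef]
    exact_mod_cast Nat.choose_le_pow N y
  have hBh := Bh_le_s4b1 α q y hq
  have hBn := Bn_le_s4b1 α q hq
  rw [← hM] at hBh hp1 ⊢
  have hBh0 : 0 ≤ Bh α q y := pow_nonneg (bS_nonneg_s4b1 _ _ _ hq) _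
  have hBn0 : 0 ≤ Bn α q := pow_nonneg (bS_nonneg_s4b1 _ _ _ hq) _
  have hex0 := ex_pos N (e0 α ε)
  have hc0 := cst_pos (lev α q v) (d.choose 2 - v.choose 2) (tgt α q d - tgt α q v)
  rw [sum_congr rfl hterm, sum_const, nsmul_eq_mul]
  have hdv : ((d - v : ℕ) : ℝ) = (d : ℝ) - v := by
    rw [Nat.cast_sub hvd.le]
  have step1 : ((univ.filter (fun H : Finset (Fin N) => H.card = d ∧
      (H ∩ A).card = v)).card : ℝ) ≤ (q : ℝ) ^ (I1 α + y) * (N : ℝ) ^ y := by
    refine le_trans (le_of_eq ?_) (hcard.trans ?_)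
    · congr 2
    · exact mul_le_mul hch1 hch2 (by positivity) (by positivity)
  have hE : ex N (e0 α ε) ≤ ex N 1 :=
    ex_mono hN ((e0_le h0 h1).trans (by norm_num))
  have hQy : ((q : ℝ) ^ (2 * M + 1)) ^ y ≤ ex N (y * (k0 α / 4)) := by
    rw [one_mul] at hp1
    rw [← ex_pow]
    exact pow_le_pow_left₀ (by positivity) hp1 _
  calc _ ≤ ((q : ℝ) ^ (I1 α + y) * (N : ℝ) ^ y) * (2 * ex N (e0 α ε) * Bh α q y * Bn α q *
          cst (lev α q v) (d.choose 2 - v.choose 2) (tgt α q d - tgt α q v)) :=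
        mul_le_mul_of_nonneg_right step1 (by positivity)
    _ = (q : ℝ) ^ (I1 α + y) * (2 * ex N (e0 α ε)) * Bh α q y * Bn α q *
          ((N : ℝ) ^ (d - v) * cst (lev α q v) (d.choose 2 - v.choose 2)
            (tgt α q d - tgt α q v)) := by
        rw [← hydef]
        ring
    _ ≤ (q : ℝ) ^ (I1 α + y) * (2 * ex N 1) *
          (40 ^ M * (q : ℝ) ^ ((4 + 2 * I2 α) * M) * ((q : ℝ) ^ (2 * M)) ^ y) *
          (40 ^ CK α * (q : ℝ) ^ ((4 + 2 * (I3 α + I2 α)) * CK α)) *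
          ex N (-(k0 α * (d - v))) := by
        have := (ex_pos N 1).le
        gcongr
    _ = (2 * 40 ^ M * 40 ^ CK α) * (q : ℝ) ^ ((4 + 2 * I2 α) * M +
        (4 + 2 * (I3 α + I2 α)) * CK α + I1 α) * (((q : ℝ) ^ (2 * M + 1)) ^ y * (ex N 1 *
          ex N (-(k0 α * (d - v))))) := by
        rw [pow_succ (q : ℝ) (2 * M), mul_pow]
        simp only [pow_add]
        ring
    _ ≤ (2 * 40 ^ M * 40 ^ CK α) * (q : ℝ) ^ ((4 + 2 * I2 α) * M +
        (4 + 2 * (I3 α + I2 α)) * CK α + I1 α) * (ex N (y * (k0 α / 4)) * (ex N 1 *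
          ex N (-(k0 α * (d - v))))) := by
        have := (ex_pos N 1).le
        have := (ex_pos N (-(k0 α * (d - v)))).le
        gcongr
    _ ≤ _ := by
        refine mul_le_mul_of_nonneg_left ?_ (by positivity)
        rw [← ex_add, ← ex_add]
        apply ex_mono hN
        rw [← hdv, ← hydef]
        rw [← hydef] at hky
        nlinarith

/-- The sum over the heavy sets, for fixed `A`. -/
theorem heavy_sum {α ε : ℝ} (h0 : 1 / 2 < α) (h1 : α < 1) (hε : 0 < ε) (hε1 : ε ≤ 1) :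
    ∀ᶠ q : ℕ in atTop, ∀ N : ℕ, Reg α ε q N → ∀ A : Finset (Fin N), A.card = q →
      ∑ H ∈ (open Classical in univ.filter (fun H : Finset (Fin N) => InR α q H ∧
        x0 α * q ≤ ((H ∩ A).card : ℝ) ∧ (H ∩ A).card + I3 α < q)),
        2 * ex N (e0 α ε) * Bh α q (H \ A).card * Bn α q *
          cst (part α q A H).x (part α q A H).P.card (part α q A H).a ≤ ex N (-4) := by
  filter_upwards [rare_part h0 h1 hε, N_large h0 h1,
    poly_le h0 h1 1 (k0 α / 4) (2 * (CK α * r1 α) + 1) (by have := k0_pos h0 h1; positivity),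
    poly_le h0 h1 (4 * (2 * 40 ^ (CK α * r1 α) * 40 ^ CK α)) 1
      (2 + ((4 + 2 * I2 α) * (CK α * r1 α) + (4 + 2 * (I3 α + I2 α)) * CK α + I1 α))
      (by norm_num), eventually_ge_atTop 1] with q hr hNl hp1 hp2 hq1 N hR A hA
  classical
  obtain ⟨hN1, hN2⟩ := hNl N hR.1
  have hN1' : 1 ≤ N := by omega
  have hQ1 : (1 : ℝ) ≤ q := by exact_mod_cast hq1
  have hp1' := hp1 N hR.1
  have hp2' := hp2 N hR.1
  have hr' := hr N hR
  obtain ⟨K, hK⟩ : ∃ K, K = (2 * 40 ^ (CK α * r1 α) * 40 ^ CK α : ℝ) *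
      (q : ℝ) ^ ((4 + 2 * I2 α) * (CK α * r1 α) + (4 + 2 * (I3 α + I2 α)) * CK α + I1 α) :=
    ⟨_, rfl⟩
  have hK0 : 0 ≤ K := by rw [hK]; positivity
  have hF0 : ∀ H : Finset (Fin N), 0 ≤ 2 * ex N (e0 α ε) * Bh α q (H \ A).card * Bn α q *
          cst (part α q A H).x (part α q A H).P.card (part α q A H).a := by
    intro H
    have hBh0 : 0 ≤ Bh α q (H \ A).card := pow_nonneg (bS_nonneg_s4b1 _ _ _ hq1) _
    have hBn0 : 0 ≤ Bn α q := pow_nonneg (bS_nonneg_s4b1 _ _ _ hq1) _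
    have hex0 := ex_pos N (e0 α ε)
    have hc0 := cst_pos (part α q A H).x (part α q A H).P.card (part α q A H).a
    positivity
  set S := univ.filter (fun H : Finset (Fin N) => InR α q H ∧
        x0 α * q ≤ ((H ∩ A).card : ℝ) ∧ (H ∩ A).card + I3 α < q) with hSdef
  have hmaps : ∀ H ∈ S, (fun H : Finset (Fin N) => (H.card, (H ∩ A).card)) H ∈
      range (q + 1) ×ˢ range (q + 1) := by
    intro H hH
    have hH' := (mem_filter.1 hH).2
    rw [mem_product, mem_range, mem_range]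
    have := hH'.1.2
    have := hH'.2.2
    constructor
    · show H.card < q + 1
      omega
    · show (H ∩ A).card < q + 1
      omega
  have hfib := sum_fiberwise_of_maps_to (s := S) (t := range (q + 1) ×ˢ range (q + 1)) hmaps
    (fun H => 2 * ex N (e0 α ε) * Bh α q (H \ A).card * Bn α q *
          cst (part α q A H).x (part α q A H).P.card (part α q A H).a)
  rw [← hfib]
  have hbound : ∀ p ∈ range (q + 1) ×ˢ range (q + 1),
      ∑ H ∈ S.filter (fun H => (H.card, (H ∩ A).card) = p),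
        2 * ex N (e0 α ε) * Bh α q (H \ A).card * Bn α q *
          cst (part α q A H).x (part α q A H).P.card (part α q A H).a ≤ K * ex N (-8) := by
    intro p _
    by_cases hne : (S.filter (fun H => (H.card, (H ∩ A).card) = p)).Nonempty
    · obtain ⟨H₀, hH₀⟩ := hne
      obtain ⟨hS₀, hp₀⟩ := mem_filter.1 hH₀
      have hS₀' := (mem_filter.1 hS₀).2
      have hd : H₀.card = p.1 := by rw [← hp₀]
      have hv : (H₀ ∩ A).card = p.2 := by rw [← hp₀]
      have q1 : q ≤ H₀.card + I1 α := hS₀'.1.1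
      have q2 : H₀.card ≤ q := hS₀'.1.2
      have q3 := hS₀'.2.1
      have q4 := hS₀'.2.2
      rw [hd] at q1 q2
      rw [hv] at q3 q4
      have hI3 : I1 α ≤ I3 α := by
        unfold I3
        omega
      have hfb := fiber_s4b1 (N := N) (ε := ε) h0 h1 q hq1 hN1' A hA p.2 p.1 q3 q4 q1 q2
        (hr' p.2 p.1 q3 (by omega) q2 q1) hp1'
      rw [← hK] at hfb
      refine le_trans (sum_le_sum_of_subset_of_nonneg ?_ (fun H _ _ => hF0 H)) hfb
      intro H hH
      obtain ⟨_, hpH⟩ := mem_filter.1 hH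
      have t1 : H.card = p.1 := by rw [← hpH]
      have t2 : (H ∩ A).card = p.2 := by rw [← hpH]
      simp only [mem_filter, mem_univ, true_and]
      exact ⟨t1, t2⟩
    · rw [not_nonempty_iff_eq_empty] at hne
      rw [hne, sum_empty]
      have := (ex_pos N (-8)).le
      positivity
  refine (sum_le_sum hbound).trans ?_
  rw [sum_const, nsmul_eq_mul, card_product, card_range]
  have hcount : (((q + 1) * (q + 1) : ℕ) : ℝ) ≤ 4 * (q : ℝ) ^ 2 := by
    push_cast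
    nlinarith
  have hE8 := (ex_pos N (-8)).le
  calc (((q + 1) * (q + 1) : ℕ) : ℝ) * (K * ex N (-8)) ≤ 4 * (q : ℝ) ^ 2 * (K * ex N (-8)) :=
        mul_le_mul_of_nonneg_right hcount (by positivity)
    _ = (4 * (2 * 40 ^ (CK α * r1 α) * 40 ^ CK α) * (q : ℝ) ^
        (2 + ((4 + 2 * I2 α) * (CK α * r1 α) + (4 + 2 * (I3 α + I2 α)) * CK α + I1 α))) *
          ex N (-8) := by
        rw [hK, pow_add (q : ℝ) 2]
        ring
    _ ≤ ex N 1 * ex N (-8) := mul_le_mul_of_nonneg_right hp2' hE8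
    _ = ex N (1 + -8) := (ex_add N 1 (-8)).symm
    _ ≤ ex N (-4) := ex_mono hN1' (by norm_num)

end Pool.Agent.LibCA69
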