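import Pool.Agent.LibCA69.Sum4B1

/-!
# Task SUM4B2: `Phi4b`

For fixed `A`: `sum_lists4`; sum over `H` with `d = |H|`, `v = |H ∩ A|`,
`y = d - v ≥ I3 - I1 + 1 > 32/k0`: `C(q, v) N^(d-v) cst ≤ q^(q-v) ex N (-k0 y)` (`card_inter_le`,
`rare_part`; `q - v ≤ y + I1`), `|H \ A| = y`, `Bh(y) Bn ≤ C q^(a + b y)`; in total at most
`ex N 2 * ex N (-k0 y / 2) * ...`.
-/

set_option autoImplicit false

namespace Pool.Agent.LibCA69

open Finset Filter Pool.Agent.H69.Clique

private lemma bS_nonneg_s4b2 (α : ℝ) (q y : ℕ) (hq : 1 ≤ q) : 0 ≤ bS α q y :=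
  le_trans zero_le_one (one_le_bS α q y hq)

theorem phi4b_start {α ε : ℝ} (h0 : 1 / 2 < α) (h1 : α < 1) (hε : 0 < ε) (hε1 : ε ≤ 1) :
    ∀ᶠ q : ℕ in atTop, ∀ N : ℕ, Reg α ε q N → Phi4b α ε N q ∅ ∅ ≤ 1 / 16 := by
  filter_upwards [heavy_sum h0 h1 hε hε1, sum_lists4 h0 h1 hε hε1, N_large h0 h1,
    eventually_ge_atTop 3] with q hH hL hN hq3 N hR
  have hq1 : 1 ≤ q := by omega
  obtain ⟨hN1, hN2⟩ := hN N hR.1
  have hN6 : 6 ≤ N := by omega
  have hW := sum_whole h0 h1 hε q N hR
  classical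
  have key : Phi4b α ε N q ∅ ∅ ≤
      ∑ A ∈ powersetCard q (univ : Finset (Fin N)), 4 / 3 * ex N (-4) * pcst [whole α q A] := by
    unfold Phi4b
    apply sum_le_sum
    intro A hA
    have hAq : A.card = q := (mem_powersetCard.1 hA).2
    have hHA := hH N hR A hAq
    have hp0 : 0 ≤ pcst [whole α q A] := by
      have : pcst [whole α q A] = cst (whole α q A).x (whole α q A).P.card (whole α q A).a * 1 := rfl
      rw [this, mul_one]
      exact (cst_pos _ _ _).le
    calc _ ≤ ∑ H ∈ univ.filter (fun H : Finset (Fin N) => InR α q H ∧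
          x0 α * q ≤ ((H ∩ A).card : ℝ) ∧ (H ∩ A).card + I3 α < q),
          (4 / 3 * pcst [whole α q A]) * (2 * ex N (e0 α ε) * Bh α q (H \ A).card * Bn α q *
          cst (part α q A H).x (part α q A H).P.card (part α q A H).a) := by
          apply sum_le_sum
          intro H _
          have hc : 0 ≤ 2 * ex N (e0 α ε) * Bh α q (H \ A).card * Bn α q := by
            have a1 : 0 ≤ Bh α q (H \ A).card := pow_nonneg (bS_nonneg_s4b2 _ _ _ hq1) _
            have a2 : 0 ≤ Bn α q := pow_nonneg (bS_nonneg_s4b2 _ _ _ hq1) _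
            have a3 := (ex_pos N (e0 α ε)).le
            positivity
          have hs := hL N hR A H [part α q A H, whole α q A]
          have e1 : ∑ r ∈ range (Rmax α ε q + 1), ∑ l ∈ LL (Finset (Fin N)) r,
              2 * ex N (e0 α ε) * Bh α q (H \ A).card * Bn α q * Wt (W4 α ε N q A H) l *
                pot (lightP α q [part α q A H, whole α q A] l) ∅ ∅ =
              (2 * ex N (e0 α ε) * Bh α q (H \ A).card * Bn α q) *
              ∑ r ∈ range (Rmax α ε q + 1), ∑ l ∈ LL (Finset (Fin N)) r,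
                Wt (W4 α ε N q A H) l * pcst (lightP α q [part α q A H, whole α q A] l) := by
            rw [mul_sum]
            refine sum_congr rfl (fun r _ => ?_)
            rw [mul_sum]
            refine sum_congr rfl (fun l _ => ?_)
            rw [pot_start]
            ring
          rw [e1]
          refine (mul_le_mul_of_nonneg_left hs hc).trans (le_of_eq ?_)
          have e2 : pcst [part α q A H, whole α q A] =
              cst (part α q A H).x (part α q A H).P.card (part α q A H).a *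
                pcst [whole α q A] := rfl
          rw [e2]
          ring
      _ = (4 / 3 * pcst [whole α q A]) * ∑ H ∈ univ.filter (fun H : Finset (Fin N) => InR α q H ∧
          x0 α * q ≤ ((H ∩ A).card : ℝ) ∧ (H ∩ A).card + I3 α < q),
          (2 * ex N (e0 α ε) * Bh α q (H \ A).card * Bn α q *
          cst (part α q A H).x (part α q A H).P.card (part α q A H).a) := by rw [mul_sum]
      _ ≤ (4 / 3 * pcst [whole α q A]) * ex N (-4) := by
          refine mul_le_mul_of_nonneg_left ?_ (by positivity)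
          refine le_trans (le_of_eq ?_) hHA
          refine sum_congr ?_ (fun _ _ => rfl)
          ext H
          simp only [mem_filter, mem_univ, true_and]
      _ = _ := by ring
  have e3 := (ex_pos N (-4)).le
  have hfin : 4 / 3 * ex N (-4) * ex N (2 - ε) ≤ 1 / 16 := by
    have a1 : 4 / 3 * ex N (-4) * ex N (2 - ε) = 4 / 3 * ex N (-4 + (2 - ε)) := by
      rw [ex_add]
      ring
    have a2 : ex N (-4 + (2 - ε)) ≤ ex N (-(2 : ℕ)) := by
      apply ex_mono (by omega)
      push_cast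
      linarith
    have a3 : ex N (-(2 : ℕ)) = ((N : ℝ) ^ 2)⁻¹ := by
      rw [ex_neg, ex_nat N 2 (by omega)]
    have a4 : (36 : ℝ) ≤ (N : ℝ) ^ 2 := by
      have : (6 : ℝ) ≤ N := by exact_mod_cast hN6
      nlinarith
    have a5 : ((N : ℝ) ^ 2)⁻¹ ≤ 36⁻¹ := inv_anti₀ (by norm_num) a4
    rw [a1]
    rw [a3] at a2
    linarith
  calc Phi4b α ε N q ∅ ∅ ≤ ∑ A ∈ powersetCard q (univ : Finset (Fin N)),
        4 / 3 * ex N (-4) * pcst [whole α q A] := key
    _ = 4 / 3 * ex N (-4) * ∑ A ∈ powersetCard q (univ : Finset (Fin N)),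
        pcst [whole α q A] := by rw [mul_sum]
    _ ≤ 4 / 3 * ex N (-4) * ex N (2 - ε) := mul_le_mul_of_nonneg_left hW (by positivity)
    _ ≤ 1 / 16 := hfin

theorem phi4b_comb {α : ℝ} (ε : ℝ) (h0 : 1 / 2 < α) (h1 : α < 1) (N q : ℕ) (hq : 1 ≤ q) :
    Comb (Phi4b α ε N q) := by
  classical
  have e : Phi4b α ε N q = fun R B =>
      ∑ A ∈ powersetCard q (univ : Finset (Fin N)),
        ∑ H ∈ univ.filter (fun H : Finset (Fin N) => InR α q H ∧ x0 α * q ≤ ((H ∩ A).card : ℝ) ∧
          (H ∩ A).card + I3 α < q), ∑ r ∈ range (Rmax α ε q + 1),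
        ∑ l ∈ LL (Finset (Fin N)) r, 2 * ex N (e0 α ε) * Bh α q (H \ A).card * Bn α q *
          Wt (W4 α ε N q A H) l * pot (lightP α q [part α q A H, whole α q A] l) R B := by
    funext R B
    unfold Phi4b
    refine sum_congr rfl (fun A _ => ?_)
    refine sum_congr ?_ (fun _ _ => rfl)
    ext H
    simp only [mem_filter, mem_univ, true_and]
  rw [e]
  refine comb_sum _ (fun A R B => ∑ H ∈ univ.filter (fun H : Finset (Fin N) => InR α q H ∧
      x0 α * q ≤ ((H ∩ A).card : ℝ) ∧
          (H ∩ A).card + I3 α < q), ∑ r ∈ range (Rmax α ε q + 1),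
        ∑ l ∈ LL (Finset (Fin N)) r, 2 * ex N (e0 α ε) * Bh α q (H \ A).card * Bn α q *
          Wt (W4 α ε N q A H) l * pot (lightP α q [part α q A H, whole α q A] l) R B) ?_
  intro A _
  refine comb_sum _ (fun H R B => ∑ r ∈ range (Rmax α ε q + 1),
        ∑ l ∈ LL (Finset (Fin N)) r, 2 * ex N (e0 α ε) * Bh α q (H \ A).card * Bn α q *
          Wt (W4 α ε N q A H) l * pot (lightP α q [part α q A H, whole α q A] l) R B) ?_
  intro H hH
  have hH' := (mem_filter.1 hH).2
  refine comb_sum _ (fun r R B =>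
        ∑ l ∈ LL (Finset (Fin N)) r, 2 * ex N (e0 α ε) * Bh α q (H \ A).card * Bn α q *
          Wt (W4 α ε N q A H) l * pot (lightP α q [part α q A H, whole α q A] l) R B) ?_
  intro r _
  refine comb_sum _ (fun l R B => 2 * ex N (e0 α ε) * Bh α q (H \ A).card * Bn α q *
          Wt (W4 α ε N q A H) l * pot (lightP α q [part α q A H, whole α q A] l) R B) ?_
  intro l _
  refine comb_smul (φ := pot (lightP α q [part α q A H, whole α q A] l)) _ ?_ (comb_pot _ ?_)
  · have a1 : 0 ≤ Bh α q (H \ A).card := pow_nonneg (bS_nonneg_s4b2 _ _ _ hq) _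
    have a2 : 0 ≤ Bn α q := pow_nonneg (bS_nonneg_s4b2 _ _ _ hq) _
    have a3 := (ex_pos N (e0 α ε)).le
    have a4 : 0 ≤ Wt (W4 α ε N q A H) l := Wt_nonneg _ (fun l D => W4_nonneg α ε q A H l D) l
    positivity
  · apply lightP_mem h0 h1
    intro p hp
    rw [List.mem_cons, List.mem_singleton] at hp
    rcases hp with rfl | rfl
    · have hj : (H ∩ A).card ≤ q := by omega
      exact ⟨lev_ge h0 h1 q _ hj hq, (lev_le h0 h1 q _).trans h1.le⟩
    · exact ⟨h0.le, h1.le⟩

end Pool.Agent.LibCA69
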