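import Pool.Agent.LibCA69.SumL
import Pool.Agent.LibCA69.Lists

/-!
# Task SUM4P1: common facts for `Phi4a`, `Phi4b`, `Phi5`

`Wt_pcst` by induction on `l` (`card_inside`); `sum_Wt_le` with `ρ = 1 / 4` or
`ρ = ex N (-(ε/2))`; `∑_{r} (1/4)^r ≤ 4/3`.
-/

set_option autoImplicit false

namespace Pool.Agent.LibCA69

open Finset Filter Pool.Agent.H69.Clique

theorem Wt_pcst {N : ℕ} (α : ℝ) (q : ℕ) (W : List (Finset (Fin N)) → Finset (Fin N) → ℝ)
    (base : List (Piece (Edge N))) (l : List (Finset (Fin N))) :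
    Wt W l * pcst (lightP α q base l) =
      Wt (fun l D => W l D * cst α (D.card.choose 2) (tgt α q D.card)) l * pcst base := by
  induction l with
  | nil => rfl
  | cons D l ih =>
    have e1 : Wt W (D :: l) = W l D * Wt W l := rfl
    have e2 : pcst (lightP α q base (D :: l)) =
        cst α (inside D).card (tgt α q D.card) * pcst (lightP α q base l) := rfl
    have e3 : Wt (fun l D => W l D * cst α (D.card.choose 2) (tgt α q D.card)) (D :: l) =
        (W l D * cst α (D.card.choose 2) (tgt α q D.card)) *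
          Wt (fun l D => W l D * cst α (D.card.choose 2) (tgt α q D.card)) l := rfl
    rw [e1, e2, e3, card_inside]
    calc W l D * Wt W l * (cst α (D.card.choose 2) (tgt α q D.card) *
          pcst (lightP α q base l))
        = (W l D * cst α (D.card.choose 2) (tgt α q D.card)) *
            (Wt W l * pcst (lightP α q base l)) := by ring
      _ = _ := by rw [ih]; ring

theorem W5_nonneg {N : ℕ} (α ε : ℝ) (q : ℕ) (A H : Finset (Fin N)) (l : List (Finset (Fin N)))
    (D : Finset (Fin N)) : 0 ≤ W5 α ε N q A H l D := by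
  unfold W5
  split_ifs
  · exact mul_nonneg (by positivity) (ex_pos _ _).le
  · exact le_refl _

theorem W4_nonneg {N : ℕ} (α ε : ℝ) (q : ℕ) (A H : Finset (Fin N)) (l : List (Finset (Fin N)))
    (D : Finset (Fin N)) : 0 ≤ W4 α ε N q A H l D := by
  unfold W4
  exact mul_nonneg (W5_nonneg _ _ _ _ _ _ _) (mul_nonneg (by positivity) (ex_pos _ _).le)

theorem lightP_mem {N : ℕ} {α : ℝ} (h0 : 1 / 2 < α) (h1 : α < 1) (q : ℕ)
    (base : List (Piece (Edge N))) (hb : ∀ p ∈ base, 1 / 2 ≤ p.x ∧ p.x ≤ 1)
    (l : List (Finset (Fin N))) : ∀ p ∈ lightP α q base l, 1 / 2 ≤ p.x ∧ p.x ≤ 1 := by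
  induction l with
  | nil => exact hb
  | cons D l ih =>
    intro p hp
    have e : lightP α q base (D :: l) = whole α q D :: lightP α q base l := rfl
    rw [e] at hp
    rcases List.mem_cons.1 hp with rfl | hp
    · exact ⟨h0.le, h1.le⟩
    · exact ih p hp

end Pool.Agent.LibCA69
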