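import Pool.Agent.LibCA69.Sum4P1

/-!
# Task SUM4P2: common facts for `Phi4a`, `Phi4b`, `Phi5`

`Wt_pcst` by induction on `l` (`card_inside`); `sum_Wt_le` with `ρ = 1 / 4` or
`ρ = ex N (-(ε/2))`; `∑_{r} (1/4)^r ≤ 4/3`.
-/

set_option autoImplicit false

namespace Pool.Agent.LibCA69

open Finset Filter Pool.Agent.H69.Clique

theorem pcst_nonneg_Sum4P2 {E : Type} [Fintype E] [DecidableEq E] (l : List (Piece E)) :
    0 ≤ pcst l := by
  induction l with
  | nil => exact zero_le_one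
  | cons p l ih => exact mul_nonneg (cst_pos _ _ _).le ih

/-- The lists of length `r`. -/
theorem lists_Sum4P2 {N : ℕ} (α : ℝ) (q R : ℕ)
    (W : List (Finset (Fin N)) → Finset (Fin N) → ℝ) (hW : ∀ l D, 0 ≤ W l D) (ρ : ℝ) (hρ : 0 ≤ ρ)
    (h : ∀ l : List (Finset (Fin N)), l.length ≤ R →
      ∑ D : Finset (Fin N), W l D * cst α (D.card.choose 2) (tgt α q D.card) ≤ ρ)
    (base : List (Piece (Edge N))) (r : ℕ) (hr : r ≤ R) :
    ∑ l ∈ LL (Finset (Fin N)) r, Wt W l * pcst (lightP α q base l) ≤ ρ ^ r * pcst base := by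
  rw [sum_congr rfl fun l _ => Wt_pcst α q W base l, ← sum_mul]
  refine mul_le_mul_of_nonneg_right ?_ (pcst_nonneg_Sum4P2 _)
  refine sum_Wt_le _ (fun l D => mul_nonneg (hW l D) (cst_pos _ _ _).le) ρ hρ r ?_
  intro l hl
  exact h l (by omega)

theorem geom_Sum4P2 (n : ℕ) : ∑ r ∈ range n, (1 / 4 : ℝ) ^ r ≤ 4 / 3 := by
  have h := geom_sum_eq (x := (1 / 4 : ℝ)) (by norm_num) n
  rw [h]
  have h2 : (0 : ℝ) ≤ (1 / 4 : ℝ) ^ n := by positivity
  rw [div_le_iff_of_neg (by norm_num)]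
  linarith

/-- All lists of length at most `Rmax`. -/
theorem sum_lists4 {α ε : ℝ} (h0 : 1 / 2 < α) (h1 : α < 1) (hε : 0 < ε) (hε1 : ε ≤ 1) :
    ∀ᶠ q : ℕ in atTop, ∀ N : ℕ, Reg α ε q N → ∀ (A H : Finset (Fin N))
      (base : List (Piece (Edge N))),
      ∑ r ∈ range (Rmax α ε q + 1), ∑ l ∈ LL (Finset (Fin N)) r,
        Wt (W4 α ε N q A H) l * pcst (lightP α q base l) ≤ 4 / 3 * pcst base := by
  filter_upwards [light_sum4 h0 h1 hε hε1] with q hq N hN A H base
  have hb := pcst_nonneg_Sum4P2 base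
  calc ∑ r ∈ range (Rmax α ε q + 1), ∑ l ∈ LL (Finset (Fin N)) r,
        Wt (W4 α ε N q A H) l * pcst (lightP α q base l)
      ≤ ∑ r ∈ range (Rmax α ε q + 1), (1 / 4 : ℝ) ^ r * pcst base := by
        refine sum_le_sum fun r hr => ?_
        refine lists_Sum4P2 α q (Rmax α ε q) _ (fun l D => W4_nonneg α ε q A H l D) (1 / 4)
          (by norm_num) (fun l hl => hq N hN A H l hl) base r ?_
        rw [mem_range] at hr
        omega
    _ = (∑ r ∈ range (Rmax α ε q + 1), (1 / 4 : ℝ) ^ r) * pcst base := by rw [sum_mul]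
    _ ≤ 4 / 3 * pcst base := mul_le_mul_of_nonneg_right (geom_Sum4P2 _) hb

/-- The lists of length `Rmax`. -/
theorem sum_lists5 {α ε : ℝ} (h0 : 1 / 2 < α) (h1 : α < 1) (hε : 0 < ε) (hε1 : ε ≤ 1) :
    ∀ᶠ q : ℕ in atTop, ∀ N : ℕ, Reg α ε q N → ∀ (A H : Finset (Fin N))
      (base : List (Piece (Edge N))),
      ∑ l ∈ LL (Finset (Fin N)) (Rmax α ε q),
        Wt (W5 α ε N q A H) l * pcst (lightP α q base l) ≤
          ex N (-(ε / 2)) ^ Rmax α ε q * pcst base := by
  filter_upwards [light_sum5 h0 h1 hε hε1] with q hq N hN A H base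
  exact lists_Sum4P2 α q (Rmax α ε q) _ (fun l D => W5_nonneg α ε q A H l D) _
    (ex_pos _ _).le (fun l hl => hq N hN A H l hl) base _ (le_refl _)

/-- The sum over `A`. -/
theorem sum_whole {α ε : ℝ} (h0 : 1 / 2 < α) (h1 : α < 1) (hε : 0 < ε) (q N : ℕ)
    (h : Reg α ε q N) :
    ∑ A ∈ powersetCard q (univ : Finset (Fin N)), pcst [whole α q A] ≤ ex N (2 - ε) := by
  have e : ∀ A ∈ powersetCard q (univ : Finset (Fin N)), pcst [whole α q A] =
      Real.exp (-(be α * (q.choose 2 : ℕ))) := by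
    intro A hA
    have hc : A.card = q := (mem_powersetCard.1 hA).2
    have e2 : pcst [whole α q A] = cst α (inside A).card (tgt α q A.card) * 1 := rfl
    rw [e2, card_inside, hc, tgt_self, mul_one]
    unfold cst be
    rw [Real.log_mul two_ne_zero (by linarith),
      show (2 : ℝ) - 2 * α = 2 * (1 - α) by ring, Real.log_mul two_ne_zero (by linarith)]
    congr 1
    ring
  rw [sum_congr rfl e, sum_const, card_powersetCard, card_univ, Fintype.card_fin, nsmul_eq_mul]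
  exact h.2.2

end Pool.Agent.LibCA69
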