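import Pool.Agent.LibCA69.Num
import Pool.Agent.LibCA69.Comb

/-!
# Task SUML1: one light step

For given `d = |D|` and `u = |D ∩ U|`, `U = vert (A ∪ H) l`, `|U| ≤ (Rmax + 2) q ≤ C q²`,
`v = |D ∩ A|`, `2 ≤ v ≤ u`: by `card_inter_le`, `choose_ratio` and `rare_core`
`#D * cst ≤ (2 q |U| / N)^u ex N (2 - ε)`.  Weight: if `u < x₀ q` then `2 ^ ovB ≤ 2 ex N ((u-2)/16)`
(`two_pow_le`), otherwise `2 ^ ovB ≤ 2 ex N ((v-2)/16) 2 ^ (120 (Rmax + 1)) ≤ 2 ex N ((u-2)/8)`.
Altogether (with `g`) at most `C ex N (-(3/4) ε + e0 + ε/16) ex N (-(u-2)/2)`; sum over the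
`I1 + 1` values of `d` and over `u ≥ 2`.
-/

set_option autoImplicit false

namespace Pool.Agent.LibCA69

open Finset Filter Pool.Agent.H69.Clique

theorem sub_vert_SumL1 {N : ℕ} (U : Finset (Fin N)) (l : List (Finset (Fin N))) :
    U ⊆ vert U l := by
  induction l with
  | nil => exact Finset.Subset.refl _
  | cons D l ih => exact ih.trans Finset.subset_union_right

theorem Rmax_le_SumL1 {α ε : ℝ} (h0 : 1 / 2 < α) (h1 : α < 1) (hε : 0 < ε) (q : ℕ) :
    (Rmax α ε q : ℝ) ≤ 8 / (ε * be α) * q + 1 := by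
  have hbe := be_pos h0 h1
  exact (Nat.ceil_lt_add_one (by positivity)).le

theorem log_SumL1 {α : ℝ} {q N : ℕ} (hN : Real.exp (be α * q / 2) ≤ N) :
    be α * q / 2 ≤ Real.log N := by
  have h := Real.log_le_log (Real.exp_pos _) hN
  rwa [Real.log_exp] at h

/-- `2 ^ (120 (Rmax + 1))` is small compared with `ex N ((u - 2) / 16)`. -/
theorem pow120_SumL1 {α ε : ℝ} (h0 : 1 / 2 < α) (h1 : α < 1) (hε : 0 < ε) :
    ∀ᶠ q : ℕ in atTop, ∀ N : ℕ, Real.exp (be α * q / 2) ≤ N → ∀ u : ℕ, x0 α * q ≤ u →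
      (2 : ℝ) ^ (120 * (Rmax α ε q + 1)) ≤ ex N (((u : ℝ) - 2) / 16) := by
  have hbe := be_pos h0 h1
  have hx := x0_pos h0 h1
  have hT : ∀ᶠ q : ℕ in atTop, 3840 * (8 / (ε * be α) + 2) / be α + 2 ≤ x0 α * q :=
    (tendsto_natCast_atTop_atTop.const_mul_atTop hx).eventually_ge_atTop _
  filter_upwards [hT, eventually_ge_atTop 1] with q hq hq1 N hN u hu
  have hR := Rmax_le_SumL1 h0 h1 hε q
  have hlog := log_SumL1 hN
  have hq1' : (1 : ℝ) ≤ q := by exact_mod_cast hq1
  have e1 : (2 : ℝ) ^ (120 * (Rmax α ε q + 1)) ≤ Real.exp (120 * ((Rmax α ε q : ℝ) + 1)) := by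
    have h2 : (2 : ℝ) ≤ Real.exp 1 := by
      have := Real.add_one_le_exp (1 : ℝ)
      linarith
    calc (2 : ℝ) ^ (120 * (Rmax α ε q + 1)) ≤ (Real.exp 1) ^ (120 * (Rmax α ε q + 1)) :=
          pow_le_pow_left₀ (by norm_num) h2 _
      _ = Real.exp (120 * ((Rmax α ε q : ℝ) + 1)) := by
          rw [← Real.exp_nat_mul]
          push_cast
          ring_nf
  refine e1.trans ?_
  unfold ex
  apply Real.exp_le_exp.2
  have e2 : 120 * ((Rmax α ε q : ℝ) + 1) ≤ 120 * (8 / (ε * be α) + 2) * q := by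
    have : 120 * ((Rmax α ε q : ℝ) + 1) ≤ 120 * (8 / (ε * be α) * q + 2) := by linarith
    nlinarith
  have e3 : 120 * (8 / (ε * be α) + 2) * q =
      (3840 * (8 / (ε * be α) + 2) / be α) / 16 * (be α * q / 2) := by
    field_simp
    norm_num
  have hu2 : 3840 * (8 / (ε * be α) + 2) / be α ≤ (u : ℝ) - 2 := by linarith
  have hpos : 0 ≤ 3840 * (8 / (ε * be α) + 2) / be α := by positivity
  rw [e3] at e2
  refine e2.trans ?_
  refine mul_le_mul (by linarith) hlog (by positivity) ?_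
  linarith

theorem ovB_weight_SumL1 {α ε : ℝ} (h0 : 1 / 2 < α) (h1 : α < 1) (hε : 0 < ε) (K : ℝ) :
    ∀ᶠ q : ℕ in atTop, ∀ N : ℕ, Real.exp (be α * q / 2) ≤ N → ∀ (A U D : Finset (Fin N)) (k : ℕ),
      k ≤ Rmax α ε q → A ⊆ U → 2 ≤ (D ∩ A).card → ((D ∩ A).card : ℝ) < x0 α * q → ∀ g : ℝ,
      g ≤ K * ex N (ε / 4 + ((D ∩ A).card - 2) * (3 / 16)) →
      2 ^ ovB A U (k + 1) D * g ≤
        2 * |K| * ex N (ε / 4 + (((D ∩ U).card : ℝ) - 2) * (5 / 16)) := by
  filter_upwards [two_pow_le h0 h1, pow120_SumL1 h0 h1 hε, N_large h0 h1] with q hq1 hq2 hq3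
    N hN A U D k hk hAU hv hvx g hg
  have hN1 : 1 ≤ N := le_trans (by norm_num) (hq3 N hN).2
  have huv : (D ∩ A).card ≤ (D ∩ U).card := card_le_card (inter_subset_inter_left hAU)
  have huv' : ((D ∩ A).card : ℝ) ≤ ((D ∩ U).card : ℝ) := by exact_mod_cast huv
  have hv' : (2 : ℝ) ≤ ((D ∩ A).card : ℝ) := by exact_mod_cast hv
  have hg2 : g ≤ |K| * ex N (ε / 4 + ((D ∩ A).card - 2) * (3 / 16)) :=
    hg.trans (mul_le_mul_of_nonneg_right (le_abs_self K) (ex_pos _ _).le)
  -- the power of two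
  have hpow : (2 : ℝ) ^ ovB A U (k + 1) D ≤
      2 * ex N (((D ∩ A).card - 2) / 16 + (((D ∩ U).card : ℝ) - (D ∩ A).card) / 16 +
        (((D ∩ U).card : ℝ) - 2) / 16) := by
    by_cases hu : ((D ∩ U).card : ℝ) < x0 α * q
    · calc (2 : ℝ) ^ ovB A U (k + 1) D ≤ 2 ^ ((D ∩ U).card.choose 2) :=
            pow_le_pow_right₀ (by norm_num) (min_le_left _ _)
        _ ≤ 2 * ex N (((D ∩ U).card - 2) / 16) := hq1 N hN _ (hv.trans huv) hu
        _ ≤ _ := by
            refine mul_le_mul_of_nonneg_left (ex_mono hN1 ?_) (by norm_num)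
            linarith
    · rw [not_lt] at hu
      calc (2 : ℝ) ^ ovB A U (k + 1) D ≤ 2 ^ ((D ∩ A).card.choose 2 + (k + 1) * 120) :=
            pow_le_pow_right₀ (by norm_num) (min_le_right _ _)
        _ = 2 ^ ((D ∩ A).card.choose 2) * 2 ^ ((k + 1) * 120) := pow_add _ _ _
        _ ≤ (2 * ex N (((D ∩ A).card - 2) / 16)) * ex N ((((D ∩ U).card : ℝ) - 2) / 16) := by
            refine mul_le_mul (hq1 N hN _ hv hvx) ?_ (by positivity)
              (mul_nonneg (by norm_num) (ex_pos _ _).le)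
            refine le_trans (pow_le_pow_right₀ (by norm_num) ?_) (hq2 N hN _ hu)
            omega
        _ = 2 * ex N (((D ∩ A).card - 2) / 16 + (((D ∩ U).card : ℝ) - 2) / 16) := by
            rw [ex_add]
            ring
        _ ≤ _ := by
            refine mul_le_mul_of_nonneg_left (ex_mono hN1 ?_) (by norm_num)
            linarith
  calc (2 : ℝ) ^ ovB A U (k + 1) D * g
      ≤ 2 ^ ovB A U (k + 1) D *
          (|K| * ex N (ε / 4 + ((D ∩ A).card - 2) * (3 / 16))) :=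
        mul_le_mul_of_nonneg_left hg2 (by positivity)
    _ ≤ (2 * ex N (((D ∩ A).card - 2) / 16 + (((D ∩ U).card : ℝ) - (D ∩ A).card) / 16 +
        (((D ∩ U).card : ℝ) - 2) / 16)) *
          (|K| * ex N (ε / 4 + ((D ∩ A).card - 2) * (3 / 16))) :=
        mul_le_mul_of_nonneg_right hpow (mul_nonneg (abs_nonneg _) (ex_pos _ _).le)
    _ = 2 * |K| * ex N ((((D ∩ A).card - 2) / 16 + (((D ∩ U).card : ℝ) - (D ∩ A).card) / 16 +
        (((D ∩ U).card : ℝ) - 2) / 16) + (ε / 4 + ((D ∩ A).card - 2) * (3 / 16))) := by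
        rw [ex_add N (_ + _ + _)]
        ring
    _ ≤ _ := by
        refine mul_le_mul_of_nonneg_left (ex_mono hN1 ?_) (by positivity)
        linarith

/-- The number of the sets times the cost. -/
theorem count_SumL1 {α ε : ℝ} (h0 : 1 / 2 < α) (h1 : α < 1) (hε : 0 < ε) :
    ∀ᶠ q : ℕ in atTop, ∀ N : ℕ, Reg α ε q N → ∀ (U : Finset (Fin N)),
      U.card ≤ (Rmax α ε q + 2) * q → ∀ d u : ℕ, 2 ≤ u → u ≤ d → d ≤ q →
      ((univ.filter (fun D : Finset (Fin N) => D.card = d ∧ (D ∩ U).card = u)).card : ℝ) *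
        cst α (d.choose 2) (tgt α q d) ≤ ex N (2 - ε + u * (ε / 64 - 1)) := by
  have hbe := be_pos h0 h1
  filter_upwards [rare_core h0 h1 hε, N_large h0 h1,
    poly_le h0 h1 (2 * (8 / (ε * be α) + 3)) (ε / 64) 3 (by positivity), eventually_ge_atTop 1]
    with q hq1 hq2 hq3 hq4 N hN U hU d u hu hud hd
  have hq4' : (1 : ℝ) ≤ q := by exact_mod_cast hq4
  obtain ⟨hN2, hN3⟩ := hq2 N hN.1
  have hN1 : 1 ≤ N := le_trans (by norm_num) hN3
  have hNpos : (0 : ℝ) < N := by exact_mod_cast hN1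
  have hR := Rmax_le_SumL1 h0 h1 hε q
  have hU' : (U.card : ℝ) ≤ ((Rmax α ε q : ℝ) + 2) * q := by exact_mod_cast hU
  have hdq : (d : ℝ) ≤ q := by exact_mod_cast hd
  -- the base of the power
  have hbase : 2 * (d : ℝ) * U.card ≤ ex N (ε / 64) := by
    refine le_trans ?_ (hq3 N hN.1)
    have e1 : (U.card : ℝ) ≤ (8 / (ε * be α) + 3) * q * q := by
      refine hU'.trans (mul_le_mul_of_nonneg_right ?_ (by positivity))
      nlinarith
    calc 2 * (d : ℝ) * U.card ≤ 2 * q * ((8 / (ε * be α) + 3) * q * q) :=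
          mul_le_mul (by linarith) e1 (by positivity) (by positivity)
      _ = 2 * (8 / (ε * be α) + 3) * (q : ℝ) ^ 3 := by ring
  have hinv : ex N (-1) = (N : ℝ)⁻¹ := by
    rw [ex_neg]
    have := ex_nat N 1 hN1
    rw [Nat.cast_one, pow_one] at this
    rw [this]
  have hcr := choose_ratio N d (by omega) (by omega) u hud
  have hcst := cst_pos α (d.choose 2) (tgt α q d)
  calc ((univ.filter (fun D : Finset (Fin N) => D.card = d ∧ (D ∩ U).card = u)).card : ℝ) *
        cst α (d.choose 2) (tgt α q d)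
      ≤ ((U.card : ℝ) ^ u * (N.choose d * (2 * d / N) ^ u)) * cst α (d.choose 2) (tgt α q d) := by
        refine mul_le_mul_of_nonneg_right ((card_inter_le U d u).trans ?_) hcst.le
        refine mul_le_mul ?_ hcr (by positivity) (by positivity)
        exact_mod_cast Nat.choose_le_pow _ _
    _ = (2 * (d : ℝ) * U.card * (N : ℝ)⁻¹) ^ u * (N.choose d * cst α (d.choose 2) (tgt α q d)) := by
        rw [div_eq_mul_inv, mul_pow, mul_pow, mul_pow, mul_pow, mul_pow]
        ring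
    _ ≤ (ex N (ε / 64) * (N : ℝ)⁻¹) ^ u * (ex N (2 - ε) * 1) := by
        refine mul_le_mul ?_ ?_ (by positivity) ?_
        · refine pow_le_pow_left₀ (by positivity) ?_ _
          exact mul_le_mul_of_nonneg_right hbase (by positivity)
        · refine (hq1 N hN d hd).trans ?_
          refine mul_le_mul_of_nonneg_left ?_ (ex_pos _ _).le
          rw [← ex_zero N]
          refine ex_mono hN1 ?_
          have := c0_pos h0 h1
          nlinarith
        · have := ex_pos N (ε / 64)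
          positivity
    _ = ex N (2 - ε + u * (ε / 64 - 1)) := by
        rw [← hinv, ← ex_add, ex_pow, mul_one, ← ex_add]
        congr 1
        ring

theorem light_core {α ε : ℝ} (h0 : 1 / 2 < α) (h1 : α < 1) (hε : 0 < ε) (hε1 : ε ≤ 1) (K : ℝ) :
    ∀ᶠ q : ℕ in atTop, ∀ N : ℕ, Reg α ε q N → ∀ (A H : Finset (Fin N))
      (l : List (Finset (Fin N))), l.length ≤ Rmax α ε q → ∀ g : ℕ → ℝ, (∀ v, 0 ≤ g v) →
      (∀ v : ℕ, 2 ≤ v → (v : ℝ) < x0 α * q → g v ≤ K * ex N (ε / 4 + (v - 2) * (3 / 16))) →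
      ∑ D : Finset (Fin N), W5 α ε N q A H l D * g (D ∩ A).card *
        cst α (D.card.choose 2) (tgt α q D.card) ≤ ex N (-(ε / 2)) := by
  classical
  filter_upwards [ovB_weight_SumL1 h0 h1 hε K, count_SumL1 h0 h1 hε, N_large h0 h1,
    poly_le h0 h1 (8 * |K|) (5 / 32 * ε) 2 (by positivity), eventually_ge_atTop 1]
    with q hq1 hq2 hq3 hq4 hq5 N hN A H l hl g hg0 hg
  have hq5' : (1 : ℝ) ≤ q := by exact_mod_cast hq5
  have hN1 : 1 ≤ N := le_trans (by norm_num) (hq3 N hN.1).2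
  set U := vert (A ∪ H) l with hUdef
  have hAU : A ⊆ U := subset_union_left.trans (sub_vert_SumL1 (A ∪ H) l)
  by_cases hU : U.card ≤ (Rmax α ε q + 2) * q
  swap
  · have : ∀ D ∈ (univ : Finset (Finset (Fin N))), W5 α ε N q A H l D * g (D ∩ A).card *
        cst α (D.card.choose 2) (tgt α q D.card) = 0 := by
      intro D _
      have : W5 α ε N q A H l D = 0 := by
        unfold W5
        rw [if_neg]
        intro h
        exact hU h.2.2.2
      rw [this, zero_mul, zero_mul]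
    rw [sum_congr rfl this, sum_const_zero]
    exact (ex_pos _ _).le
  -- the bound for each set
  set M : ℕ × ℕ → ℝ := fun p => 2 * |K| * ex N (ε / 4 + ((p.2 : ℝ) - 2) * (5 / 16)) *
    ex N (e0 α ε) * cst α (p.1.choose 2) (tgt α q p.1) with hM
  have hM0 : ∀ p, 0 ≤ M p := by
    intro p
    rw [hM]
    have := ex_pos N (ε / 4 + ((p.2 : ℝ) - 2) * (5 / 16))
    have := ex_pos N (e0 α ε)
    have := cst_pos α (p.1.choose 2) (tgt α q p.1)
    positivity
  set S : Finset (Finset (Fin N)) := univ.filter (fun D => 2 ≤ (D ∩ U).card ∧ D.card ≤ q) with hS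
  set f : Finset (Fin N) → ℕ × ℕ := fun D => (D.card, (D ∩ U).card) with hf
  have step1 : ∑ D : Finset (Fin N), W5 α ε N q A H l D * g (D ∩ A).card *
        cst α (D.card.choose 2) (tgt α q D.card) ≤ ∑ D ∈ S, M (f D) := by
    rw [hS, sum_filter]
    refine sum_le_sum fun D _ => ?_
    by_cases hD : LtC α ε q A (vert (A ∪ H) l) D
    · have e1 : W5 α ε N q A H l D =
          2 ^ ovB A (vert (A ∪ H) l) (l.length + 1) D * ex N (e0 α ε) := by
        unfold W5
        rw [if_pos hD]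
      have hu2 : 2 ≤ (D ∩ U).card :=
        hD.2.1.trans (card_le_card (inter_subset_inter_left hAU))
      rw [if_pos ⟨hu2, hD.1.2⟩, e1]
      have hw := hq1 N hN.1 A U D l.length hl hAU hD.2.1 hD.2.2.1 _
        (hg _ hD.2.1 hD.2.2.1)
      have hc := cst_pos α (D.card.choose 2) (tgt α q D.card)
      have he := ex_pos N (e0 α ε)
      rw [← hUdef]
      calc 2 ^ ovB A U (l.length + 1) D * ex N (e0 α ε) * g (D ∩ A).card *
            cst α (D.card.choose 2) (tgt α q D.card)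
          = (2 ^ ovB A U (l.length + 1) D * g (D ∩ A).card) * ex N (e0 α ε) *
            cst α (D.card.choose 2) (tgt α q D.card) := by ring
        _ ≤ (2 * |K| * ex N (ε / 4 + (((D ∩ U).card : ℝ) - 2) * (5 / 16))) * ex N (e0 α ε) *
            cst α (D.card.choose 2) (tgt α q D.card) :=
            mul_le_mul_of_nonneg_right (mul_le_mul_of_nonneg_right hw he.le) hc.le
        _ = M (f D) := rfl
    · have e1 : W5 α ε N q A H l D = 0 := by
        unfold W5
        rw [if_neg hD]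
      rw [e1, zero_mul, zero_mul]
      split_ifs
      · exact hM0 _
      · exact le_refl _
  have step2 : ∑ D ∈ S, M (f D) = ∑ p ∈ range (q + 1) ×ˢ Icc 2 q,
      ∑ D ∈ S.filter (fun D => f D = p), M (f D) := by
    symm
    refine sum_fiberwise_of_maps_to ?_ _
    intro D hD
    rw [hS, mem_filter] at hD
    rw [mem_product, mem_range, mem_Icc]
    refine ⟨Nat.lt_succ_of_le hD.2.2, hD.2.1, ?_⟩
    exact (card_le_card inter_subset_left).trans hD.2.2
  have step3 : ∀ p ∈ range (q + 1) ×ˢ Icc 2 q,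
      ∑ D ∈ S.filter (fun D => f D = p), M (f D) ≤ 2 * |K| * ex N (-(21 / 32 * ε)) := by
    intro p hp
    rw [mem_product, mem_range, mem_Icc] at hp
    obtain ⟨hp1, hp2, hp3⟩ := hp
    have e1 : ∑ D ∈ S.filter (fun D => f D = p), M (f D) =
        ((S.filter (fun D => f D = p)).card : ℝ) * M p := by
      rw [← nsmul_eq_mul, ← sum_const]
      refine sum_congr rfl fun D hD => ?_
      rw [(mem_filter.1 hD).2]
    rw [e1]
    have hpos := ex_pos N (-(21 / 32 * ε))
    by_cases hud : p.2 ≤ p.1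
    swap
    · have : S.filter (fun D => f D = p) = ∅ := by
        rw [filter_eq_empty_iff]
        intro D _ hD
        apply hud
        rw [← hD]
        exact card_le_card inter_subset_left
      rw [this, card_empty, Nat.cast_zero, zero_mul]
      positivity
    have hcard : ((S.filter (fun D => f D = p)).card : ℝ) ≤
        ((univ.filter (fun D : Finset (Fin N) => D.card = p.1 ∧ (D ∩ U).card = p.2)).card : ℝ) := by
      have : (S.filter (fun D => f D = p)).card ≤
          (univ.filter (fun D : Finset (Fin N) => D.card = p.1 ∧ (D ∩ U).card = p.2)).card := by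
        refine card_le_card fun D hD => ?_
        rw [mem_filter] at hD
        rw [mem_filter]
        refine ⟨mem_univ _, ?_, ?_⟩
        · rw [← hD.2]
        · rw [← hD.2]
      exact_mod_cast this
    have hcount := hq2 N hN U hU p.1 p.2 hp2 hud (by omega)
    have hcst := cst_pos α (p.1.choose 2) (tgt α q p.1)
    have hea := ex_pos N (ε / 4 + ((p.2 : ℝ) - 2) * (5 / 16))
    have heb := ex_pos N (e0 α ε)
    have hp2' : (2 : ℝ) ≤ p.2 := by exact_mod_cast hp2
    have he0 : e0 α ε ≤ ε / 16 := by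
      unfold e0
      exact div_le_div_of_nonneg_right (min_le_left _ _) (by norm_num)
    calc ((S.filter (fun D => f D = p)).card : ℝ) * M p
        ≤ ((univ.filter (fun D : Finset (Fin N) =>
            D.card = p.1 ∧ (D ∩ U).card = p.2)).card : ℝ) * M p :=
          mul_le_mul_of_nonneg_right hcard (hM0 p)
      _ = (((univ.filter (fun D : Finset (Fin N) =>
            D.card = p.1 ∧ (D ∩ U).card = p.2)).card : ℝ) *
            cst α (p.1.choose 2) (tgt α q p.1)) *
            (2 * |K| * ex N (ε / 4 + ((p.2 : ℝ) - 2) * (5 / 16)) * ex N (e0 α ε)) := by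
          rw [hM]
          ring
      _ ≤ ex N (2 - ε + p.2 * (ε / 64 - 1)) *
            (2 * |K| * ex N (ε / 4 + ((p.2 : ℝ) - 2) * (5 / 16)) * ex N (e0 α ε)) :=
          mul_le_mul_of_nonneg_right hcount (by positivity)
      _ = 2 * |K| * ex N ((2 - ε + p.2 * (ε / 64 - 1)) +
            ((ε / 4 + ((p.2 : ℝ) - 2) * (5 / 16)) + e0 α ε)) := by
          rw [ex_add N (2 - ε + p.2 * (ε / 64 - 1)), ex_add N (ε / 4 + ((p.2 : ℝ) - 2) * (5 / 16))]
          ring
      _ ≤ 2 * |K| * ex N (-(21 / 32 * ε)) := by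
          refine mul_le_mul_of_nonneg_left (ex_mono hN1 ?_) (by positivity)
          nlinarith [mul_nonneg (sub_nonneg.2 hp2') (sub_nonneg.2 hε1)]
  calc ∑ D : Finset (Fin N), W5 α ε N q A H l D * g (D ∩ A).card *
        cst α (D.card.choose 2) (tgt α q D.card)
      ≤ ∑ p ∈ range (q + 1) ×ˢ Icc 2 q, ∑ D ∈ S.filter (fun D => f D = p), M (f D) := by
        rw [← step2]
        exact step1
    _ ≤ ∑ _p ∈ range (q + 1) ×ˢ Icc 2 q, 2 * |K| * ex N (-(21 / 32 * ε)) := sum_le_sum step3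
    _ = ((q : ℝ) + 1) * ((q + 1 - 2 : ℕ) : ℝ) * (2 * |K| * ex N (-(21 / 32 * ε))) := by
        rw [sum_const, card_product, card_range, Nat.card_Icc, nsmul_eq_mul]
        push_cast
        ring
    _ ≤ (8 * |K| * (q : ℝ) ^ 2) * ex N (-(21 / 32 * ε)) := by
        have hpos := ex_pos N (-(21 / 32 * ε))
        have e1 : ((q + 1 - 2 : ℕ) : ℝ) ≤ q := by
          exact_mod_cast (show q + 1 - 2 ≤ q by omega)
        have e2 : ((q : ℝ) + 1) * ((q + 1 - 2 : ℕ) : ℝ) ≤ 4 * (q : ℝ) ^ 2 := by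
          calc ((q : ℝ) + 1) * ((q + 1 - 2 : ℕ) : ℝ) ≤ ((q : ℝ) + 1) * q :=
                mul_le_mul_of_nonneg_left e1 (by positivity)
            _ ≤ 4 * (q : ℝ) ^ 2 := by nlinarith
        calc ((q : ℝ) + 1) * ((q + 1 - 2 : ℕ) : ℝ) * (2 * |K| * ex N (-(21 / 32 * ε)))
            ≤ 4 * (q : ℝ) ^ 2 * (2 * |K| * ex N (-(21 / 32 * ε))) :=
              mul_le_mul_of_nonneg_right e2 (by positivity)
          _ = (8 * |K| * (q : ℝ) ^ 2) * ex N (-(21 / 32 * ε)) := by ring
    _ ≤ ex N (5 / 32 * ε) * ex N (-(21 / 32 * ε)) :=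
        mul_le_mul_of_nonneg_right (hq4 N hN.1) (ex_pos _ _).le
    _ = ex N (-(ε / 2)) := by
        rw [← ex_add]
        congr 1
        ring

end Pool.Agent.LibCA69
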