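import Pool.Agent.LibCA69.SumL1

/-!
# Task SUML2: one light step

For given `d = |D|` and `u = |D ∩ U|`, `U = vert (A ∪ H) l`, `|U| ≤ (Rmax + 2) q ≤ C q²`,
`v = |D ∩ A|`, `2 ≤ v ≤ u`: by `card_inter_le`, `choose_ratio` and `rare_core`
`#D * cst ≤ (2 q |U| / N)^u ex N (2 - ε)`.  Weight: if `u < x₀ q` then `2 ^ ovB ≤ 2 ex N ((u-2)/16)`
(`two_pow_le`), otherwise `2 ^ ovB ≤ 2 ex N ((v-2)/16) 2 ^ (120 (Rmax + 1)) ≤ 2 ex N ((u-2)/8)`.
Altogether (with `g`) at most `C ex N (-(3/4) ε + e0 + ε/16) ex N (-(u-2)/2)`; sum over the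
`I1 + 1` values of `d` and over `u ≥ 2`.
-/

set_option autoImplicit false

namespace Pool.Agent.LibCA69

open Finset Filter Pool.Agent.H69.Clique

theorem light_sum5 {α ε : ℝ} (h0 : 1 / 2 < α) (h1 : α < 1) (hε : 0 < ε) (hε1 : ε ≤ 1) :
    ∀ᶠ q : ℕ in atTop, ∀ N : ℕ, Reg α ε q N → ∀ (A H : Finset (Fin N))
      (l : List (Finset (Fin N))), l.length ≤ Rmax α ε q →
      ∑ D : Finset (Fin N), W5 α ε N q A H l D * cst α (D.card.choose 2) (tgt α q D.card) ≤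
        ex N (-(ε / 2)) := by
  filter_upwards [light_core h0 h1 hε hε1 1, N_large h0 h1] with q hq1 hq2 N hN A H l hl
  have hN1 : 1 ≤ N := le_trans (by norm_num) (hq2 N hN.1).2
  have h := hq1 N hN A H l hl (fun _ => 1) (fun _ => zero_le_one) (by
    intro v hv _
    rw [one_mul]
    refine one_le_ex hN1 ?_
    have hv' : (2 : ℝ) ≤ v := by exact_mod_cast hv
    have : 0 ≤ ((v : ℝ) - 2) * (3 / 16) := mul_nonneg (by linarith) (by norm_num)
    linarith)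
  refine le_trans (le_of_eq ?_) h
  refine sum_congr rfl fun D _ => ?_
  rw [mul_one]

theorem light_sum4 {α ε : ℝ} (h0 : 1 / 2 < α) (h1 : α < 1) (hε : 0 < ε) (hε1 : ε ≤ 1) :
    ∀ᶠ q : ℕ in atTop, ∀ N : ℕ, Reg α ε q N → ∀ (A H : Finset (Fin N))
      (l : List (Finset (Fin N))), l.length ≤ Rmax α ε q →
      ∑ D : Finset (Fin N), W4 α ε N q A H l D * cst α (D.card.choose 2) (tgt α q D.card) ≤
        1 / 4 := by
  filter_upwards [light_core h0 h1 hε hε1 (2 ^ ((C1 α + 2) ^ 2)), N_large h0 h1,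
    two_pow_shift h0 h1 (C1 α), poly_le h0 h1 4 (ε / 2) 0 (by positivity)]
    with q hq1 hq2 hq3 hq4 N hN A H l hl
  have hN1 : 1 ≤ N := le_trans (by norm_num) (hq2 N hN.1).2
  have h := hq1 N hN A H l hl
    (fun v => 2 ^ ((v + C1 α).choose 2) * ex N (ε / 4 + ((v : ℝ) - 2) / 8))
    (fun v => mul_nonneg (by positivity) (ex_pos _ _).le) (by
      intro v hv hvx
      have e1 := hq3 N hN.1 v hv hvx
      calc (2 : ℝ) ^ ((v + C1 α).choose 2) * ex N (ε / 4 + ((v : ℝ) - 2) / 8)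
          ≤ (2 ^ ((C1 α + 2) ^ 2) * ex N (((v : ℝ) - 2) / 16)) *
              ex N (ε / 4 + ((v : ℝ) - 2) / 8) :=
            mul_le_mul_of_nonneg_right e1 (ex_pos _ _).le
        _ = 2 ^ ((C1 α + 2) ^ 2) * (ex N (((v : ℝ) - 2) / 16) *
              ex N (ε / 4 + ((v : ℝ) - 2) / 8)) := by ring
        _ = 2 ^ ((C1 α + 2) ^ 2) * ex N (ε / 4 + (v - 2) * (3 / 16)) := by
            rw [← ex_add]
            congr 2
            ring)
  have h4 : (4 : ℝ) ≤ ex N (ε / 2) := by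
    have := hq4 N hN.1
    rwa [pow_zero, mul_one] at this
  have h5 : ex N (-(ε / 2)) ≤ 1 / 4 := by
    rw [ex_neg, ← one_div]
    exact one_div_le_one_div_of_le (by norm_num) h4
  refine le_trans (le_of_eq ?_) (h.trans h5)
  refine sum_congr rfl fun D _ => ?_
  rfl

end Pool.Agent.LibCA69
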