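import Pool.Agent.LibCA69.TopP

/-!
# One term of `Phi4a`
Task TOP4A.
-/

set_option autoImplicit false

namespace Pool.Agent.LibCA69

open Finset Filter Pool.Agent.H69.Clique

/-- One term of the sum `Phi4a` is at most the sum; copy of `phi5_term` (TopP.lean) with one more sum over `r`. -/
theorem phi4a_term {N : ℕ} {α : ℝ} (ε : ℝ) (h0 : 1 / 2 < α) (h1 : α < 1) {q : ℕ} (hq : 1 ≤ q)
    (A : Finset (Fin N)) (hA : A.card = q) (l : List (Finset (Fin N)))
    (hl : l.length ≤ Rmax α ε q) (R B : Finset (Edge N)) :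
    ex N (-2) * Bn α q * Wt (W4 α ε N q A ∅) l * pot (lightP α q [whole α q A] l) R B ≤
      Phi4a α ε N q R B := by
  have hl' : l ∈ LL (Finset (Fin N)) l.length := (mem_LL _ _).2 rfl
  have hr' : l.length ∈ range (Rmax α ε q + 1) := mem_range.2 (by omega)
  have hA' : A ∈ powersetCard q (univ : Finset (Fin N)) := mem_powersetCard.2 ⟨subset_univ _, hA⟩
  have hW5 : ∀ (A : Finset (Fin N)) l D, 0 ≤ W5 α ε N q A ∅ l D := fun A l D => by
    unfold W5; split_ifs
    · exact mul_nonneg (by positivity) (ex_pos _ _).le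
    · exact le_rfl
  have hW : ∀ (A : Finset (Fin N)) l, 0 ≤ Wt (W4 α ε N q A ∅) l := fun A l =>
    Wt_nonneg _ (fun l D => by
      unfold W4
      exact mul_nonneg (hW5 A l D) (mul_nonneg (by positivity) (ex_pos _ _).le)) l
  have hx : ∀ (A : Finset (Fin N)) (l : List (Finset (Fin N))),
      ∀ p ∈ lightP α q [whole α q A] l, 1 / 2 ≤ p.x ∧ p.x ≤ 1 := by
    intro A l
    induction l with
    | nil =>
      intro p hp
      simp only [lightP, List.mem_singleton] at hp
      subst hp
      exact ⟨h0.le, h1.le⟩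
    | cons D l ih =>
      intro p hp
      simp only [lightP, List.mem_cons] at hp
      rcases hp with rfl | hp
      · exact ⟨h0.le, h1.le⟩
      · exact ih p hp
  have hBn : 0 ≤ Bn α q := by
    unfold Bn bS cS
    positivity
  have hnn : ∀ (A : Finset (Fin N)) (l : List (Finset (Fin N))),
      0 ≤ ex N (-2) * Bn α q * Wt (W4 α ε N q A ∅) l * pot (lightP α q [whole α q A] l) R B :=
    fun A l => mul_nonneg (mul_nonneg (mul_nonneg (ex_pos _ _).le hBn) (hW A l))
      (pot_nonneg _ (hx A l) R B)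
  unfold Phi4a
  refine le_trans ?_ (single_le_sum (f := fun A => ∑ r ∈ range (Rmax α ε q + 1),
    ∑ l ∈ LL (Finset (Fin N)) r, ex N (-2) * Bn α q * Wt (W4 α ε N q A ∅) l *
      pot (lightP α q [whole α q A] l) R B)
    (fun A _ => sum_nonneg (fun r _ => sum_nonneg (fun l _ => hnn A l))) hA')
  refine le_trans ?_ (single_le_sum (f := fun r => ∑ l ∈ LL (Finset (Fin N)) r,
    ex N (-2) * Bn α q * Wt (W4 α ε N q A ∅) l * pot (lightP α q [whole α q A] l) R B)
    (fun r _ => sum_nonneg (fun l _ => hnn A l)) hr')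
  exact single_le_sum (f := fun l => ex N (-2) * Bn α q * Wt (W4 α ε N q A ∅) l *
    pot (lightP α q [whole α q A] l) R B) (fun l _ => hnn A l) hl'

end Pool.Agent.LibCA69
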