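import Pool.Agent.LibCA69.FinE

/-!
# One term of a potential, the truncated lists
Model for the tasks TOP4A and TOP4B; nothing to do here.
-/

set_option autoImplicit false

namespace Pool.Agent.LibCA69

open Finset Filter Pool.Agent.H69.Clique

theorem pot_whole {N : ℕ} (α : ℝ) (q : ℕ) (A : Finset (Fin N)) (hA : A.card = q)
    (R B : Finset (Edge N)) : pot [whole α q A] R B =
      cst α (q.choose 2) (α * (q.choose 2 : ℕ)) * wgt (2 * α - 1) (inside A) R B := by
  unfold whole
  simp only [pot, used, sdiff_empty, mul_one]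
  rw [card_inside, hA, tgt_self]

theorem phi5_term {N : ℕ} {α : ℝ} (ε : ℝ) (h0 : 1 / 2 < α) (h1 : α < 1) {q : ℕ}
    (A : Finset (Fin N)) (hA : A.card = q) (l : List (Finset (Fin N)))
    (hl : l.length = Rmax α ε q) (R B : Finset (Edge N)) :
    2 ^ (q.choose 2) * Wt (W5 α ε N q A ∅) l * pot (lightP α q [whole α q A] l) R B ≤
      Phi5 α ε N q R B := by
  have hl' : l ∈ LL (Finset (Fin N)) (Rmax α ε q) := (mem_LL _ _).2 hl
  have hA' : A ∈ powersetCard q (univ : Finset (Fin N)) := mem_powersetCard.2 ⟨subset_univ _, hA⟩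
  have hW : ∀ (A : Finset (Fin N)) l, 0 ≤ Wt (W5 α ε N q A ∅) l := fun A l =>
    Wt_nonneg _ (fun l D => by unfold W5; split_ifs; · exact mul_nonneg (by positivity) (ex_pos _ _).le
                               · exact le_rfl) l
  have hx : ∀ (A : Finset (Fin N)) (l : List (Finset (Fin N))),
      ∀ p ∈ lightP α q [whole α q A] l, 1 / 2 ≤ p.x ∧ p.x ≤ 1 := by
    intro A l
    induction l with
    | nil =>
      intro p hp
      simp only [lightP, List.mem_singleton] at hp
      subst hp
      exact ⟨h0.le, h1.le⟩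
    | cons D l ih =>
      intro p hp
      simp only [lightP, List.mem_cons] at hp
      rcases hp with rfl | hp
      · exact ⟨h0.le, h1.le⟩
      · exact ih p hp
  have hnn : ∀ (A : Finset (Fin N)) (l : List (Finset (Fin N))),
      0 ≤ 2 ^ (q.choose 2) * Wt (W5 α ε N q A ∅) l * pot (lightP α q [whole α q A] l) R B :=
    fun A l => mul_nonneg (mul_nonneg (by positivity) (hW A l)) (pot_nonneg _ (hx A l) R B)
  unfold Phi5
  refine le_trans ?_ (single_le_sum (f := fun A => ∑ l ∈ LL (Finset (Fin N)) (Rmax α ε q),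
    2 ^ (q.choose 2) * Wt (W5 α ε N q A ∅) l * pot (lightP α q [whole α q A] l) R B)
    (fun A _ => sum_nonneg (fun l _ => hnn A l)) hA')
  exact single_le_sum (f := fun l => 2 ^ (q.choose 2) * Wt (W5 α ε N q A ∅) l *
    pot (lightP α q [whole α q A] l) R B) (fun l _ => hnn A l) hl'

end Pool.Agent.LibCA69
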