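import Pool.Agent.LibCA69.Comb

/-!
# Task VAL1: probabilities of large intersections
-/

set_option autoImplicit false

namespace Pool.Agent.LibCA69

open Finset Pool.Agent.H69.Clique

variable {E : Type} [Fintype E] [DecidableEq E]

omit [Fintype E] in
private theorem ind_nonneg_val1 (a : ℝ) (P T : Finset E) :
    (0 : ℝ) ≤ (if a ≤ ((T ∩ P).card : ℝ) then (1 : ℝ) else 0) := by
  split_ifs <;> norm_num

theorem val_nonneg (a : ℝ) (P R B : Finset E) : 0 ≤ val a P R B := by
  unfold val
  exact avg_nonneg _ (ind_nonneg_val1 a P) R B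

theorem val_le_one (a : ℝ) (P R B : Finset E) : val a P R B ≤ 1 := by
  unfold val
  have h1 := avg_mono (fun T => if a ≤ ((T ∩ P).card : ℝ) then (1 : ℝ) else 0) (fun _ => (1 : ℝ))
    (fun T => by
      split_ifs <;> norm_num) R B
  refine h1.trans (le_of_eq ?_)
  unfold avg
  rw [sum_const, card_powerset, nsmul_eq_mul, mul_one]
  push_cast
  exact div_self (by positivity)

theorem val_insert_left (a : ℝ) (P R B : Finset E) (e : E) (he : e ∉ R ∪ B) :
    val a P (insert e R) B ≤ 2 * val a P R B := by
  have h1 := avg_split (fun T => if a ≤ ((T ∩ P).card : ℝ) then (1 : ℝ) else 0) R B e he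
  have h2 := val_nonneg a P R (insert e B)
  unfold val at h2 ⊢
  linarith

theorem val_insert_right (a : ℝ) (P R B : Finset E) (e : E) (he : e ∉ R ∪ B) :
    val a P R (insert e B) ≤ val a P R B := by
  have h1 := avg_split (fun T => if a ≤ ((T ∩ P).card : ℝ) then (1 : ℝ) else 0) R B e he
  have h2 : avg (fun T => if a ≤ ((T ∩ P).card : ℝ) then (1 : ℝ) else 0) R (insert e B) ≤
      avg (fun T => if a ≤ ((T ∩ P).card : ℝ) then (1 : ℝ) else 0) (insert e R) B := by
    unfold avg
    rw [free_insert_left, free_insert_right]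
    refine div_le_div_of_nonneg_right (sum_le_sum fun T _ => ?_) (by positivity)
    have h3 : (((R ∪ T) ∩ P).card : ℝ) ≤ (((insert e R ∪ T) ∩ P).card : ℝ) := by
      have : ((R ∪ T) ∩ P).card ≤ ((insert e R ∪ T) ∩ P).card := by
        apply card_le_card
        apply inter_subset_inter_right
        apply union_subset_union_left
        exact subset_insert e R
      exact_mod_cast this
    change (if a ≤ (((R ∪ T) ∩ P).card : ℝ) then (1 : ℝ) else 0) ≤
      (if a ≤ (((insert e R ∪ T) ∩ P).card : ℝ) then (1 : ℝ) else 0)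
    by_cases h4 : a ≤ (((R ∪ T) ∩ P).card : ℝ)
    · rw [if_pos h4, if_pos (h4.trans h3)]
    · rw [if_neg h4]
      split_ifs <;> norm_num
  unfold val
  linarith

end Pool.Agent.LibCA69
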