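import Pool.Agent.LibCA69.Val1

/-!
# Task VAL2: probabilities of large intersections
-/

set_option autoImplicit false

namespace Pool.Agent.LibCA69

open Finset Pool.Agent.H69.Clique

variable {E : Type} [Fintype E] [DecidableEq E]

theorem val_loc (a : ℝ) (P R B : Finset E) (e : E) (he : e ∉ R ∪ B) (hP : e ∉ P) :
    val a P (insert e R) B = val a P R B ∧ val a P R (insert e B) = val a P R B := by
  refine avg_insert_indep _ R B e he fun T => ?_
  rw [insert_inter_of_notMem hP]

private theorem avg_add_val2 (h₁ h₂ : Finset E → ℝ) (R B : Finset E) :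
    avg (fun T => h₁ T + h₂ T) R B = avg h₁ R B + avg h₂ R B := by
  unfold avg
  rw [sum_add_distrib, add_div]

/-- Either one part is large or the other. -/
theorem val_union (a b : ℝ) (P Q R B : Finset E) :
    val a (P ∪ Q) R B ≤ val b P R B + val (a - b) Q R B := by
  unfold val
  rw [← avg_add_val2]
  apply avg_mono
  intro T
  by_cases h1 : a ≤ ((T ∩ (P ∪ Q)).card : ℝ)
  · rw [if_pos h1]
    have h2 : ((T ∩ (P ∪ Q)).card : ℝ) ≤ ((T ∩ P).card : ℝ) + ((T ∩ Q).card : ℝ) := by
      have : (T ∩ (P ∪ Q)).card ≤ (T ∩ P).card + (T ∩ Q).card := by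
        rw [inter_union_distrib_left]
        exact card_union_le _ _
      exact_mod_cast this
    by_cases h3 : b ≤ ((T ∩ P).card : ℝ)
    · rw [if_pos h3]
      have : (0 : ℝ) ≤ (if a - b ≤ ((T ∩ Q).card : ℝ) then (1 : ℝ) else 0) := by
        split_ifs <;> norm_num
      linarith
    · rw [if_neg h3]
      have h4 : a - b ≤ ((T ∩ Q).card : ℝ) := by
        push Not at h3
        linarith
      rw [if_pos h4]
      norm_num
  · rw [if_neg h1]
    have e1 : (0 : ℝ) ≤ (if a - b ≤ ((T ∩ Q).card : ℝ) then (1 : ℝ) else 0) := by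
      split_ifs <;> norm_num
    have e2 : (0 : ℝ) ≤ (if b ≤ ((T ∩ P).card : ℝ) then (1 : ℝ) else 0) := by
      split_ifs <;> norm_num
    linarith

end Pool.Agent.LibCA69
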