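import Pool.Agent.LibCA69.Val2

/-!
# Task VAL3: probabilities of large intersections
-/

set_option autoImplicit false

namespace Pool.Agent.LibCA69

open Finset Pool.Agent.H69.Clique

variable {E : Type} [Fintype E] [DecidableEq E]

/-- Markov's inequality for the tilted weights. -/
theorem markov {x : ℝ} (h0 : 1 / 2 ≤ x) (h1 : x < 1) (a : ℝ) (P R B : Finset E)
    (hd : Disjoint R B) : val a P R B ≤ cst x P.card a * wgt (2 * x - 1) P R B := by
  unfold val
  refine avg_le_of_final _ (fun R B => cst x P.card a * wgt (2 * x - 1) P R B) ?_ ?_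
    (free R B).card R B rfl hd
  · intro R B hd' e he
    have := wgt_harmonic (2 * x - 1) P R B hd' e he
    change cst x P.card a * wgt (2 * x - 1) P (insert e R) B +
      cst x P.card a * wgt (2 * x - 1) P R (insert e B) =
      2 * (cst x P.card a * wgt (2 * x - 1) P R B)
    rw [← mul_add, this]
    ring
  · intro R B hd' hu
    have hx0 : (0 : ℝ) < 2 * x := by linarith
    have hx1 : (0 : ℝ) < 2 - 2 * x := by linarith
    have hw : 0 ≤ cst x P.card a * wgt (2 * x - 1) P R B :=
      mul_nonneg (cst_pos _ _ _).le (wgt_nonneg (by linarith) (by linarith) _ _ _)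
    split_ifs with h
    · have hcard : (P ∩ R).card + (P ∩ B).card = P.card := by
        rw [← card_union_of_disjoint (hd'.mono inter_subset_right inter_subset_right),
          ← inter_union_distrib_left, hu, inter_univ]
      have hcard' : (P.card : ℝ) = ((P ∩ R).card : ℝ) + ((P ∩ B).card : ℝ) := by
        exact_mod_cast hcard.symm
      have e1 : wgt (2 * x - 1) P R B = Real.exp (((P ∩ R).card : ℝ) * Real.log (2 * x) +
          ((P ∩ B).card : ℝ) * Real.log (2 - 2 * x)) := by
        unfold wgt
        rw [Real.exp_add, mul_comm ((P ∩ R).card : ℝ), mul_comm ((P ∩ B).card : ℝ),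
          Real.exp_mul, Real.exp_mul, Real.exp_log hx0, Real.exp_log hx1, Real.rpow_natCast,
          Real.rpow_natCast]
        congr 2 <;> ring
      rw [e1]
      unfold cst
      rw [← Real.exp_add]
      apply Real.one_le_exp
      rw [inter_comm] at h
      have hlog : Real.log (2 - 2 * x) ≤ Real.log (2 * x) :=
        Real.log_le_log hx1 (by linarith)
      have e2 : -(a * Real.log (2 * x) + ((P.card : ℝ) - a) * Real.log (2 - 2 * x)) +
          (((P ∩ R).card : ℝ) * Real.log (2 * x) + ((P ∩ B).card : ℝ) * Real.log (2 - 2 * x)) =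
          (((P ∩ R).card : ℝ) - a) * (Real.log (2 * x) - Real.log (2 - 2 * x)) := by
        rw [hcard']
        ring
      rw [e2]
      exact mul_nonneg (by linarith) (by linarith)
    · exact hw

end Pool.Agent.LibCA69
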